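import Pool.Agent.MSS.Targets
import Pool.Agent.MSN.AALGA

/-!
# ALLP: the signed complexes of cliques of a good complex are exact over every prime field
-/

set_option autoImplicit false

namespace Pool.Agent.MSS

open List Pool.Agent.MSF
open Pool.Agent.MSO (SEx SExj Cl)
open Pool.Agent.MSN.Alg (nC alga_conn)
open Pool.Agent.MSN.Fin (IsP)

universe u

/-- The target `T_ALLP`. -/
theorem tALLP (h1 : Pool.Agent.MSO.T_UNIQ.{u}) (h2 : Pool.Agent.MSO.T_SGR.{u})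
    (h3 : Pool.Agent.MSO.T_EXA.{u}) (h4 : Pool.Agent.MSO.T_EXB.{u})
    (h5 : Pool.Agent.MSO.T_EXC.{u}) (h6 : Pool.Agent.MSO.T_EXD.{u})
    (h7 : Pool.Agent.MSO.T_EUL.{u}) : T_ALLP.{u} := by
  intro V _ _ G ang hX p _
  have hA : Angled G ang := hX.angled
  have hconn : ∀ a b, ∃ P, IsP G a b P := fun a b => alga_conn hX.sc.1 a b
  have hE : ∀ n : ℕ, Fintype.card V < n →
      ∑ j ∈ Finset.range n, (-1 : ℤ) ^ j * (nC G j : ℤ) = 0 := fun n hn =>
    hX.alt n (by rw [Nat.card_eq_fintype_card]; exact hn)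
  refine (h2 (ZMod p) (Cl G)).1 (h7 (ZMod p) G hX.cf hE fun j hj => ?_)
  match j, hj with
  | 0, _ => exact (h3 (ZMod p) G hX.sc.1).1
  | 1, _ => exact (h3 (ZMod p) G hX.sc.1).2
  | 2, _ => exact (h5 (ZMod p) G).1 (h4 (ZMod p) G hX.sc hconn)
  | 3, _ =>
    exact (h5 (ZMod p) G).2 (h6 (ZMod p) G hX.sc hconn fun ω a1 a2 P t b1 b2 b3 =>
      h1 G ang hA ω a1 a2 P t b1 b2 b3)
  | (k + 4), hk => exact absurd hk (by omega)

end Pool.Agent.MSS
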