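import Pool.Agent.MSS.Targets

/-!
# ALT: the alternating number of cliques from exactness over a prime field
-/

set_option autoImplicit false

namespace Pool.Agent.MSS

open Pool.Agent.MSN.Grp (sg eps)

universe u

namespace ALT

/-- The sign of the identity. -/
theorem eps_one {V : Type u} [LinearOrder V] (s : Finset V) :
    eps (1 : Equiv.Perm V) s = 1 := by
  unfold eps
  have h : (s ×ˢ s).filter (fun p : V × V => p.1 < p.2 ∧
      (1 : Equiv.Perm V) p.2 < (1 : Equiv.Perm V) p.1) = ∅ := by
    refine Finset.filter_eq_empty_iff.mpr ?_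
    rintro ⟨x, y⟩ _ ⟨h1, h2⟩
    exact lt_asymm h1 h2
  rw [h]
  simp

end ALT

open Classical in
/-- ALT. -/
theorem tALT (h : Pool.Agent.MSO.T_LEF.{u}) : T_ALT.{u} := by
  intro V _ _ G p _ hE n hn
  have hD : Pool.Agent.MSO.Dn (Pool.Agent.MSO.Cl G) := by
    intro s x hs
    exact hs.subset (by exact_mod_cast Finset.erase_subset x s)
  have h0 := h p (Pool.Agent.MSO.Cl G) hD hE 1 (fun s => by
    have : s.image ((1 : Equiv.Perm V) : V → V) = s := by
      rw [Equiv.Perm.coe_one]; exact Finset.image_id
    rw [this])
  have h1 : ∑ s ∈ Finset.univ.filter (fun s : Finset V => G.IsClique (s : Set V)),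
      (-1 : ℤ) ^ s.card = 0 := by
    rw [← h0]
    refine Finset.sum_congr ?_ ?_
    · ext s
      have : s.image ((1 : Equiv.Perm V) : V → V) = s := by
        rw [Equiv.Perm.coe_one]; exact Finset.image_id
      simp only [Finset.mem_filter, Finset.mem_univ, true_and, this, and_true]
      rfl
    · intro s _
      rw [ALT.eps_one, mul_one]
  rw [← h1]
  rw [← Finset.sum_fiberwise_of_maps_to
    (s := Finset.univ.filter (fun s : Finset V => G.IsClique (s : Set V)))
    (t := Finset.range n) (g := fun s => s.card)]
  · refine Finset.sum_congr rfl fun j _ => ?_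
    have h2 : ∑ s ∈ (Finset.univ.filter (fun s : Finset V => G.IsClique (s : Set V))).filter
        (fun s => s.card = j), (-1 : ℤ) ^ s.card =
        ∑ s ∈ (Finset.univ.filter (fun s : Finset V => G.IsClique (s : Set V))).filter
        (fun s => s.card = j), (-1 : ℤ) ^ j := by
      refine Finset.sum_congr rfl fun s hs => ?_
      rw [(Finset.mem_filter.mp hs).2]
    rw [h2, Finset.sum_const, nsmul_eq_mul, mul_comm]
    congr 1
    rw [Pool.Agent.MSN.Alg.nC, Nat.card_eq_fintype_card, Fintype.card_subtype,
      Finset.filter_filter]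
  · intro s _
    rw [Finset.mem_range]
    refine lt_of_le_of_lt ?_ hn
    rw [Nat.card_eq_fintype_card]
    exact Finset.card_le_univ s

end Pool.Agent.MSS
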