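import Pool.Agent.MSS.Targets
import Pool.Agent.MSF.T3

/-!
# MSS, FIX3: closed walks of fixed vertices of an automorphism of odd prime order
-/

set_option autoImplicit false

namespace Pool.Agent.MSS

open List Pool.Agent.MSF

universe u

namespace FIX3

open Pool.Agent.MSF.T3 (Good good_form good_noEar corner_form no_move)

variable {V : Type u} {G : SimpleGraph V}

theorem no5 (hcf : G.CliqueFree 5) {a b c d e : V} (hab : G.Adj a b) (hac : G.Adj a c)
    (had : G.Adj a d) (hae : G.Adj a e) (hbc : G.Adj b c) (hbd : G.Adj b d) (hbe : G.Adj b e)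
    (hcd : G.Adj c d) (hce : G.Adj c e) (hde : G.Adj d e) : False := by
  classical
  refine hcf {a, b, c, d, e} ⟨?_, ?_⟩
  · intro x hx y hy hxy
    simp only [Finset.coe_insert, Finset.coe_singleton, Set.mem_insert_iff,
      Set.mem_singleton_iff] at hx hy
    rcases hx with rfl | rfl | rfl | rfl | rfl <;> rcases hy with rfl | rfl | rfl | rfl | rfl <;>
      first
        | exact absurd rfl hxy
        | assumption
        | (apply SimpleGraph.Adj.symm; assumption)
  · rw [Finset.card_insert_of_notMem, Finset.card_insert_of_notMem, Finset.card_insert_of_notMem,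
      Finset.card_insert_of_notMem, Finset.card_singleton]
    · simpa using hde.ne
    · simp only [Finset.mem_insert, Finset.mem_singleton, not_or]
      exact ⟨hcd.ne, hce.ne⟩
    · simp only [Finset.mem_insert, Finset.mem_singleton, not_or]
      exact ⟨hbc.ne, hbd.ne, hbe.ne⟩
    · simp only [Finset.mem_insert, Finset.mem_singleton, not_or]
      exact ⟨hab.ne, hac.ne, had.ne, hae.ne⟩

theorem aut_sq {ang : V → V → V → ℝ} {g : Equiv.Perm V} (hg : IsAut G ang g) :
    IsAut G ang (g ^ 2) where
  adj a b := by
    rw [pow_two, Equiv.Perm.mul_apply, Equiv.Perm.mul_apply, hg.adj, hg.adj]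
  ang v a b h1 h2 h3 := by
    rw [pow_two, Equiv.Perm.mul_apply, Equiv.Perm.mul_apply, Equiv.Perm.mul_apply]
    rw [hg.ang (g v) (g a) (g b) ((hg.adj v a).2 h1) ((hg.adj v b).2 h2) ((hg.adj a b).2 h3),
      hg.ang v a b h1 h2 h3]

theorem sq_ne {g : Equiv.Perm V} {q : ℕ} (hq : q.Prime) (hq3 : 3 ≤ q) (hgq : g ^ q = 1) {p : V}
    (hp : g p ≠ p) : (g ^ 2) p ≠ p := by
  intro h
  obtain ⟨k, hk⟩ := hq.odd_of_ne_two (by omega)
  have h1 : ∀ j : ℕ, (g ^ (2 * j)) p = p := by
    intro j
    induction j with
    | zero => simp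
    | succ j ih =>
      rw [mul_add, mul_one, pow_add, Equiv.Perm.mul_apply, h, ih]
  have h2 : (g ^ q) p = g p := by
    rw [hk, pow_succ', Equiv.Perm.mul_apply, h1]
  rw [hgq] at h2
  exact hp (by simpa using h2.symm)

theorem main (hD : T_DS.{u}) (hC : T_CONE.{u}) (hZ : T_ZIP.{u}) {ang : V → V → V → ℝ}
    (hA : Angled G ang) (hcf : G.CliqueFree 5) {g : Equiv.Perm V}
    (hg : IsAut G ang g) {q : ℕ} (hq : q.Prime) (hq3 : 3 ≤ q) (hgq : g ^ q = 1) {Y : Set V}
    (hY : Y = {v | g v = v}) :
    ∀ (A n : ℕ) (w : List V), w.length = n → Null G A w →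
      CW (resG G Y) w → ∃ B, Null (resG G Y) B w := by
  intro A
  induction A using Nat.strong_induction_on with
  | _ A ihA =>
  intro n
  induction n using Nat.strong_induction_on with
  | _ n ihn =>
  intro w hwn hw hcw
  by_cases hw3 : w.length < 3
  · match w, hcw, hw3 with
    | [], h, _ => exact absurd h id
    | [a], _, _ => exact ⟨0, Null.pt a⟩
    | [a, b], h, _ =>
      simp only [CW, List.nil_append, List.isChain_cons_cons] at h
      exact ⟨0, Null.dig h.1⟩
    | (a :: b :: c :: l), _, h =>
      simp only [List.length_cons] at h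
      omega
  push Not at hw3
  by_cases hmin : MinA G A w
  swap
  · have : ∃ k, k < A ∧ Null G k w := by
      unfold MinA at hmin
      push Not at hmin
      obtain ⟨k, hk, hk2⟩ := hmin hw
      exact ⟨k, hk2, hk⟩
    obtain ⟨k, hk, hk2⟩ := this
    exact ihA k hk _ w rfl hk2 hcw
  by_cases hirr : Irr G A w
  swap
  · unfold Irr at hirr
    push Not at hirr
    obtain ⟨c, s, t, m, n', hr, hs, ht, h1, h2, h3⟩ := hirr
    have hc2 := hcw.rotated hr
    obtain ⟨hc3, hc4⟩ := CW_unsplit hs ht hc2
    have hlen : w.length = s.length + t.length + 2 := by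
      rw [hr.perm.length_eq]
      simp only [List.length_cons, List.length_append]
      omega
    have hs' := List.length_pos_iff.2 hs
    have ht' := List.length_pos_iff.2 ht
    have key : ∀ (m' : ℕ) (s' : List V), m' ≤ A → (c :: s').length < w.length →
        Null G m' (c :: s') → CW (resG G Y) (c :: s') →
        ∃ B, Null (resG G Y) B (c :: s') := by
      intro m' s' hm' hl hn hc
      rcases Nat.lt_or_ge m' A with h | h
      · exact ihA m' h _ _ rfl hn hc
      · have : m' = A := by omega
        subst this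
        exact ihn _ (by omega) _ rfl hn hc
    obtain ⟨B1, hB1⟩ := key m s (by omega) (by simp only [List.length_cons]; omega) h1 hc3
    obtain ⟨B2, hB2⟩ := key n' t (by omega) (by simp only [List.length_cons]; omega) h2 hc4
    exact ⟨B1 + B2, (Null.split hs ht hB1 hB2).rotated hr.symm⟩
  obtain ⟨D, hDw, hDc, hDk, hDs, hDm⟩ := hD G ang hA A w hw3 hmin hirr
  obtain ⟨x, v, y, R, F, hr, hch, hlk, hlen, k, hk1, hk2⟩ := corner_form hw3 hDw hDc hDk hDs hDm
  have hcw2 : CW (resG G Y) (x :: v :: y :: R) := hcw.rotated hr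
  suffices h : ∃ B, Null (resG G Y) B (x :: v :: y :: R) by
    obtain ⟨B, hB⟩ := h
    exact ⟨B, hB.rotated hr.symm⟩
  have hcw3 := hcw2
  simp only [CW, List.cons_append, List.isChain_cons_cons] at hcw3
  obtain ⟨hxv, hvy, hyR⟩ := hcw3
  have hxY : x ∈ Y := hxv.2.1
  have hvY : v ∈ Y := hxv.2.2
  have hyY : y ∈ Y := hvy.2.2
  have hfix : ∀ z ∈ Y, g z = z := by
    intro z hz
    rw [hY] at hz
    exact hz
  have hxy : x ≠ y := by
    rintro rfl
    cases R with
    | nil => simp at hyR
    | cons r R =>
      have hw2 : Null G A (x :: v :: x :: r :: R) := hw.rotated hr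
      have h1 : Null G A ([] ++ x :: (r :: R)) :=
        hZ G A x v [] (r :: R) (by simp) (by simpa using hw2)
      have := hirr x [v] (r :: R) 0 A (by simpa using hr) (by simp) (by simp)
        (Null.dig hxv.1) (by simpa using h1)
      omega
  have hgood : Good G ang v x y R A (x :: (F ++ [y])) := by
    refine ⟨by simp, ?_, hch, hlk, hlen, k, by simpa using hk1, ?_⟩
    · have e : x :: (F ++ [y]) = (x :: F) ++ [y] := by simp
      rw [e, List.getLast?_append]
      simp
    · simp only [List.length_cons, List.length_append, List.length_nil]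
      omega
  obtain ⟨L, hL, hLmin⟩ : ∃ L, Good G ang v x y R A L ∧
      ∀ L', Good G ang v x y R A L' → L.length ≤ L'.length := by
    classical
    have hex : ∃ n, ∃ L, Good G ang v x y R A L ∧ L.length = n := ⟨_, _, hgood, rfl⟩
    obtain ⟨L, hL, hLn⟩ := Nat.find_spec hex
    refine ⟨L, hL, fun L' hL' => ?_⟩
    rw [hLn]
    exact Nat.find_min' hex ⟨L', hL', rfl⟩
  have hne := good_noEar hZ hA hL hxy hLmin
  obtain ⟨F', rfl⟩ := good_form hL hxy
  obtain ⟨k', hk'1, hk'2⟩ := hL.null
  simp only [List.length_cons, List.length_append, List.length_nil] at hk'2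
  cases F' with
  | nil =>
    have hxy' : G.Adj x y := by
      have := hL.chain
      simpa using this
    have hxyY : (resG G Y).Adj x y := ⟨hxy', hxY, hyY⟩
    obtain ⟨B, hB⟩ := ihA k' (by simp at hk'2; omega) _ (x :: y :: R) rfl (by simpa using hk'1) (by
      simp only [CW, List.isChain_cons_cons]
      exact ⟨hxyY, hyR⟩)
    have h0 : Null (resG G Y) B ([] ++ x :: y :: R) := by simpa using hB
    exact ⟨B + 1, by simpa using h0.push hxv hvy hxyY⟩
  | cons p F' =>
    have hpL : G.Adj v p := hL.link p (by simp)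
    by_cases hgp : g p = p
    · have hpY : p ∈ Y := by rw [hY]; exact hgp
      have hxp : G.Adj x p := by
        have := hL.chain
        simp only [List.cons_append, List.isChain_cons_cons] at this
        exact this.1
      have h1 := hC G k' v p y F' (R ++ [x]) (by
        have := hL.chain
        simp only [List.cons_append, List.isChain_cons_cons] at this
        simpa using this.2) (by
        intro z hz
        exact hL.link z (by simp at hz ⊢; tauto)) (by
        have h2 : Null G k' ([x] ++ (p :: (F' ++ y :: R))) := by simpa using hk'1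
        simpa using h2.swap)
      have h2 : Null G (k' + F'.length + 1) ((p :: v :: y :: R) ++ [x]) := by simpa using h1
      have h3 : Null G (k' + F'.length + 1) (x :: p :: v :: y :: R) := by simpa using h2.swap
      have hxpY : (resG G Y).Adj x p := ⟨hxp, hxY, hpY⟩
      have hpvY : (resG G Y).Adj p v := ⟨hpL.symm, hpY, hvY⟩
      obtain ⟨B, hB⟩ := ihA (k' + F'.length + 1) (by simp at hk'2; omega) _ _ rfl h3 (by
        simp only [CW, List.cons_append, List.isChain_cons_cons]
        exact ⟨hxpY, hpvY, hvy, hyR⟩)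
      have h4 : Null (resG G Y) B ([] ++ x :: p :: v :: (y :: R)) := by simpa using hB
      exact ⟨B + 1, by simpa using h4.triAt hxv hxpY hpvY⟩
    · exfalso
      have hch2 := hL.chain
      simp only [List.cons_append, List.isChain_cons_cons] at hch2
      have hgp2 : (g ^ 2) p ≠ p := sq_ne hq hq3 hgq hgp
      have key : ∀ h : Equiv.Perm V, IsAut G ang h → h v = v → h x = x → h y = y → h p ≠ p →
          G.Adj (h p) p := by
        intro h hh h1 h2 h3 h4
        by_contra h5
        refine no_move hA hh h1 h2 h3 (p := p) (F := F')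
          (by simpa using hL.chain) ?_ (by simpa using hL.len) (by simpa using hne) h4 h5
        intro z hz
        exact hL.link z (by simpa using hz)
      have e2 : ∀ z, (g ^ 2) z = g (g z) := fun z => by rw [pow_two, Equiv.Perm.mul_apply]
      have a1 := key g hg (hfix v hvY) (hfix x hxY) (hfix y hyY) hgp
      have a2 := key (g ^ 2) (aut_sq hg) (by rw [e2, hfix v hvY, hfix v hvY])
        (by rw [e2, hfix x hxY, hfix x hxY]) (by rw [e2, hfix y hyY, hfix y hyY]) hgp2
      rw [e2] at a2
      have hxp : G.Adj x p := hch2.1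
      have b1 : G.Adj x (g p) := by
        have := (hg.adj x p).2 hxp
        rwa [hfix x hxY] at this
      have b2 : G.Adj x (g (g p)) := by
        have := (hg.adj x (g p)).2 b1
        rwa [hfix x hxY] at this
      have c1 : G.Adj v (g p) := by
        have := (hg.adj v p).2 hpL
        rwa [hfix v hvY] at this
      have c2 : G.Adj v (g (g p)) := by
        have := (hg.adj v (g p)).2 c1
        rwa [hfix v hvY] at this
      have d1 : G.Adj (g p) (g (g p)) := (hg.adj p (g p)).2 a1.symm
      exact no5 hcf hxv.1 hxp b1 b2 hpL c1 c2 a1.symm a2.symm d1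

end FIX3

theorem tFIX3 (hD : Pool.Agent.MSF.T_DS.{u}) (hC : Pool.Agent.MSF.T_CONE.{u})
    (hZ : Pool.Agent.MSF.T_ZIP.{u}) : T_FIX3.{u} := by
  intro V G ang hA hcf hnull g hg p hp hp3 hgp w hw
  have hw' : CW G w := by
    match w, hw with
    | [], h => exact h
    | [_], _ => trivial
    | (a :: b :: l), h =>
      exact List.IsChain.imp (fun _ _ h => h.1) h
  obtain ⟨A, hA'⟩ := hnull w hw'
  exact FIX3.main hD hC hZ hA hcf hg hp hp3 hgp rfl A _ w rfl hA' hw

end Pool.Agent.MSS
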