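import Pool.Agent.MSS.Basic
import Pool.Agent.MSS.FIX3

/-!
# MSS, BCOR: a corner with a double label
-/

set_option autoImplicit false

namespace Pool.Agent.MSS

open List Pool.Agent.MSF

universe u

namespace BCOR

open Pool.Agent.MSF.T3 (plen_append plen_reverse chain_map chain_reverse NoEar.of_infix
  NoEar.reverse NoEar.map NoEar.glue)

variable {V : Type u} {G : SimpleGraph V} {f : Equiv.Perm V} {ang : V → V → V → ℝ}

theorem plen_map' {g : Equiv.Perm V} (hg : IsAut G ang g) {v v' : V}
    (hv : g v' = v) : ∀ L : List V, List.IsChain G.Adj L → (∀ x ∈ L, G.Adj v' x) →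
    plen ang v (L.map g) = plen ang v' L
  | [], _, _ => by simp [plen]
  | [a], _, _ => by simp [plen]
  | (a :: b :: l), hc, hl => by
    rw [List.isChain_cons_cons] at hc
    have ih := plen_map' hg hv (b :: l) hc.2
      (fun x hx => hl x (by simp only [List.mem_cons] at hx ⊢; tauto))
    simp only [List.map_cons, plen] at ih ⊢
    rw [ih]
    have := hg.ang v' a b (hl a (by simp)) (hl b (by simp)) hc.1
    rw [hv] at this
    rw [this]

/-- The first interior vertex of an ear-free path, between fixed vertices, in the links of `v'` and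
`v = g v'`, of total length less than `2π`, is fixed or moved to an adjacent vertex. -/
theorem no_move2 (hA : Angled G ang) {g : Equiv.Perm V}
    (hg : IsAut G ang g) {v v' x y : V} (hv : g v' = v) (hx : g x = x) (hy : g y = y)
    {p : V} {F : List V} (hch : List.IsChain G.Adj (x :: (p :: F ++ [y])))
    (hlk : ∀ z ∈ x :: (p :: F ++ [y]), G.Adj v z)
    (hlk' : ∀ z ∈ x :: (p :: F ++ [y]), G.Adj v' z)
    (hlen : plen ang v (x :: (p :: F ++ [y])) + plen ang v' (x :: (p :: F ++ [y])) <
      2 * Real.pi)
    (hne : NoEar G (x :: (p :: F ++ [y]))) (hp : g p ≠ p) (hp2 : ¬ G.Adj (g p) p) : False := by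
  obtain ⟨F0, f, hF⟩ : ∃ F0 f, p :: F = F0 ++ [f] := by
    rcases List.eq_nil_or_concat (p :: F) with h | ⟨F0, f, h⟩
    · simp at h
    · exact ⟨F0, f, by simpa using h⟩
  set Q : List V := p :: F with hQ
  have hmap : (x :: (Q ++ [y])).map g = x :: (Q.map g ++ [y]) := by simp [hx, hy]
  have hrev : ((x :: (Q ++ [y])).map g).reverse = (y :: (Q.map g).reverse) ++ [x] := by
    rw [hmap]; simp
  have hch1 : List.IsChain G.Adj ((y :: (Q.map g).reverse) ++ [x]) := by
    rw [← hrev]
    exact chain_reverse _ (chain_map hg _ hch)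
  have hne1 : NoEar G ((y :: (Q.map g).reverse) ++ [x]) := by
    rw [← hrev]
    exact NoEar.reverse (NoEar.map hg hne)
  have hlen1 : plen ang v ((y :: (Q.map g).reverse) ++ [x]) =
      plen ang v' (x :: (Q ++ [y])) := by
    rw [← hrev, plen_reverse hA.symm, plen_map' hg hv _ hch hlk']
  have hsplit : x :: (Q ++ [y]) = (x :: F0) ++ f :: [y] := by rw [hF]; simp
  have hlen2 : plen ang v (x :: (Q ++ [y])) = plen ang v (x :: Q) + ang v f y := by
    rw [hsplit, plen_append, hF]
    simp [plen]
  have hfy : G.Adj f y := by
    rw [hsplit, List.isChain_append_cons_cons] at hch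
    exact hch.2.1
  have hch2 : List.IsChain G.Adj (x :: Q) := by
    have e : x :: (Q ++ [y]) = (x :: Q) ++ [y] := by simp
    rw [e, List.isChain_append] at hch
    exact hch.1
  have hne2 : NoEar G (x :: Q) := NoEar.of_infix hne ⟨[], [y], by simp⟩
  have hch3 : List.IsChain G.Adj ((y :: (Q.map g).reverse) ++ x :: Q) := by
    rw [List.isChain_split]
    exact ⟨hch1, hch2⟩
  have hne3 : NoEar G ((y :: (Q.map g).reverse) ++ x :: Q) := by
    refine NoEar.glue hne1 hne2 ?_
    intro L a b L' h1 h2
    rw [hQ] at h1 h2
    simp only [List.cons.injEq] at h2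
    obtain ⟨rfl, rfl⟩ := h2
    have h3 : (y :: (F.map g).reverse) ++ [g p] = L ++ [a] := by
      rw [← h1]; simp
    have h4 := List.append_inj' h3 (by simp)
    have h5 : g p = a := by simpa using h4.2
    subst h5
    exact ⟨hp, hp2⟩
  have hlarge := hA.large v f y ((Q.map g).reverse ++ x :: F0) (by
    rw [hQ]
    simp only [List.map_cons, List.length_append, List.length_reverse, List.length_cons,
      List.length_map]
    omega) (by
    simp only [CW, List.isChain_cons_cons]
    refine ⟨hfy, ?_⟩
    have e : y :: (((Q.map g).reverse ++ x :: F0) ++ [f]) = (y :: (Q.map g).reverse) ++ x :: Q := by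
      rw [hF]; simp
    rw [e]; exact hch3) (by
    intro z hz
    simp only [List.mem_cons, List.mem_append, List.mem_reverse, List.mem_map] at hz
    have hQl : ∀ z ∈ Q, G.Adj v z := fun z hz => hlk z (by simp [hz])
    rcases hz with rfl | rfl | ⟨q, hq, rfl⟩ | rfl | hz
    · exact hQl _ (by rw [hF]; simp)
    · exact hlk _ (by simp)
    · have := (hg.adj v' q).2 (hlk' q (by simp [hq]))
      rwa [hv] at this
    · exact hlk _ (by simp)
    · exact hQl _ (by rw [hF]; simp [hz])) (by
    have e : y :: (((Q.map g).reverse ++ x :: F0) ++ [f]) = (y :: (Q.map g).reverse) ++ x :: Q := by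
      rw [hF]; simp
    rw [e]; exact hne3)
  have hcl : clen ang v (f :: y :: ((Q.map g).reverse ++ x :: F0)) =
      ang v f y + plen ang v ((y :: (Q.map g).reverse) ++ x :: Q) := by
    have e : y :: (((Q.map g).reverse ++ x :: F0) ++ [f]) = (y :: (Q.map g).reverse) ++ x :: Q := by
      rw [hF]; simp
    rw [← e]
    simp [clen, plen]
  rw [hcl, plen_append, hlen1] at hlarge
  linarith

/-- Paths of single labels which can replace the corner `(b, true)`. -/
structure Gd (G : SimpleGraph V) (f : Equiv.Perm V) (ang : V → V → V → ℝ) (B : Set V)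
    (b x z : V) (R : List (V × Bool)) (A : ℕ) (L : List V) : Prop where
  head : L.head? = some x
  last : L.getLast? = some z
  chain : List.IsChain G.Adj L
  lb : ∀ y ∈ L, G.Adj b y
  lf : ∀ y ∈ L, G.Adj (f b) y
  len : plen ang b L + plen ang (f b) L < 2 * Real.pi
  null : ∃ k, Null (HG G f B) k (L.map (fun y => (y, false)) ++ R) ∧ k + L.length ≤ A + 1

theorem gd_form {B : Set V} {b x y : V} {R : List (V × Bool)} {A : ℕ} {L : List V}
    (h : Gd G f ang B b x y R A L) (hxy : x ≠ y) : ∃ F, L = x :: (F ++ [y]) := by
  cases L with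
  | nil => have := h.head; simp at this
  | cons a L =>
    have h1 : a = x := by have := h.head; simpa using this
    subst h1
    rcases List.eq_nil_or_concat L with rfl | ⟨F, b', rfl⟩
    · have := h.last
      simp at this
      exact absurd this hxy
    · have h2 : b' = y := by
        have h0 := h.last
        have e : a :: F.concat b' = (a :: F) ++ [b'] := by simp
        rw [e, List.getLast?_append] at h0
        simpa using h0
      subst h2
      exact ⟨F, by simp⟩

theorem gd_drop2 (hZ : T_ZIP.{u}) (hA : Angled G ang) {B : Set V} {b x y : V}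
    {R : List (V × Bool)} {A : ℕ} {X Y : List V} {p q : V}
    (h : Gd G f ang B b x y R A (X ++ p :: q :: p :: Y)) (hxy : x ≠ y) :
    Gd G f ang B b x y R A (X ++ p :: Y) := by
  have hch := h.chain
  rw [List.isChain_append_cons_cons] at hch
  have hpq : G.Adj p q := hch.2.1
  have hch2 := hch.2.2
  rw [List.isChain_cons_cons] at hch2
  refine ⟨?_, ?_, ?_, ?_, ?_, ?_, ?_⟩
  · have := h.head
    cases X <;> simpa using this
  · have e1 : (X ++ p :: q :: p :: Y).getLast? = (X ++ p :: Y).getLast? := by
      simp [List.getLast?_append, List.getLast?_cons_cons]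
    rw [← e1]; exact h.last
  · rw [List.isChain_split]
    exact ⟨hch.1, hch2.2⟩
  · intro z hz
    apply h.lb
    simp only [List.mem_append, List.mem_cons] at hz ⊢
    tauto
  · intro z hz
    apply h.lf
    simp only [List.mem_append, List.mem_cons] at hz ⊢
    tauto
  · refine lt_of_le_of_lt ?_ h.len
    rw [plen_append, plen_append ang b X p (q :: p :: Y), plen_append ang (f b) X p Y,
      plen_append ang (f b) X p (q :: p :: Y)]
    simp only [plen]
    have h1 := hA.pos b p q (h.lb p (by simp)) (h.lb q (by simp)) hpq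
    have h2 := hA.pos b q p (h.lb q (by simp)) (h.lb p (by simp)) hpq.symm
    have h3 := hA.pos (f b) p q (h.lf p (by simp)) (h.lf q (by simp)) hpq
    have h4 := hA.pos (f b) q p (h.lf q (by simp)) (h.lf p (by simp)) hpq.symm
    linarith
  · obtain ⟨k, hk, hk2⟩ := h.null
    refine ⟨k, ?_, ?_⟩
    · have h1 : Null (HG G f B) k ((X.map fun y => (y, false)) ++
          (p, false) :: (q, false) :: (p, false) ::
          ((Y.map fun y => (y, false)) ++ R)) := by simpa using hk
      have h2 := hZ (HG G f B) k (p, false) (q, false) (X.map fun y => (y, false))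
        ((Y.map fun y => (y, false)) ++ R) ?_ h1
      · simpa using h2
      · intro h0
        obtain ⟨h3, hX⟩ := List.append_eq_nil_iff.1 h0
        obtain ⟨hY, rfl⟩ := List.append_eq_nil_iff.1 h3
        rw [List.map_eq_nil_iff] at hX hY
        subst hX
        subst hY
        have e1 := h.head
        have e2 := h.last
        simp at e1 e2
        exact hxy (e1.symm.trans e2)
    · simp only [List.length_append, List.length_cons] at hk2 ⊢
      omega

/-- A minimal good path has no ears. -/
theorem gd_noEar (hZ : T_ZIP.{u}) (hA : Angled G ang) (hcf : G.CliqueFree 5) {B : Set V}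
    {b x y : V} (hb : G.Adj b (f b)) {R : List (V × Bool)} {A : ℕ} {L : List V}
    (h : Gd G f ang B b x y R A L) (hxy : x ≠ y)
    (hmin : ∀ L', Gd G f ang B b x y R A L' → L.length ≤ L'.length) : NoEar G L := by
  intro X p q r Y hL
  subst hL
  constructor
  · rintro rfl
    have := hmin _ (gd_drop2 hZ hA h hxy)
    simp only [List.length_append, List.length_cons] at this
    omega
  · intro hpr
    have hch := h.chain
    rw [List.isChain_append_cons_cons] at hch
    have hch2 := hch.2.2
    rw [List.isChain_cons_cons] at hch2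
    exact FIX3.no5 hcf hb (h.lb p (by simp)) (h.lb q (by simp)) (h.lb r (by simp))
      (h.lf p (by simp)) (h.lf q (by simp)) (h.lf r (by simp)) hch.2.1 hpr hch2.1

end BCOR

open BCOR in
theorem tBCOR (hC : Pool.Agent.MSF.T_CONE.{u}) (hZ : Pool.Agent.MSF.T_ZIP.{u}) :
    T_BCOR.{u} := by
  intro V G ang f ρ A n p c q R F hS hpq hc2 hGP hlen
  obtain ⟨b, bt⟩ := c
  simp only at hc2
  subst hc2
  have hI := hS.toInv'
  have hb : G.Adj b (f b) := hS.fl b (by simp)
  obtain ⟨hfx, hfz, hp2, hq2⟩ := hS.nbrs (c := (b, true)) hb
  obtain ⟨x, p2⟩ := p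
  obtain ⟨z, q2⟩ := q
  simp only at hp2 hq2 hfx hfz
  subst hp2
  subst hq2
  have hxz : x ≠ z := fun h => hpq (by rw [h])
  obtain ⟨hxb, hbz, hR⟩ := hS.adj3
  simp only at hxb hbz hR
  have hsing : ∀ y ∈ F, y.2 = false := fun y hy =>
    HG.snd_false (hGP.link y (by simp [hy])) rfl
  obtain ⟨F0, rfl⟩ : ∃ F0 : List V, F = F0.map (fun y => (y, false)) := by
    refine ⟨F.map Prod.fst, ?_⟩
    rw [List.map_map]
    symm
    calc F.map ((fun y : V => (y, false)) ∘ Prod.fst) = F.map id :=
          List.map_congr_left fun y hy => by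
            obtain ⟨a, t⟩ := y
            have h1 := hsing _ hy
            simp only at h1
            simp [h1]
      _ = F := List.map_id F
  set B : Set V := tB ((x, false) :: (b, true) :: (z, false) :: R) with hB
  have hgd : Gd G f ang B b x z R A (x :: (F0 ++ [z])) := by
    have hmem : ∀ y ∈ x :: (F0 ++ [z]), G.Adj y b ∧ G.Adj y (f b) := by
      intro y hy
      have h1 := hGP.link (y, false) (by
        simp only [List.mem_cons, List.mem_append, List.mem_map, Prod.mk.injEq,
          List.not_mem_nil, or_false] at hy ⊢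
        rcases hy with h | h | h
        · exact Or.inl ⟨h, trivial⟩
        · exact Or.inr (Or.inl ⟨y, h, rfl, trivial⟩)
        · exact Or.inr (Or.inr ⟨h, trivial⟩))
      exact (HG.adj_tf.1 h1).2
    refine ⟨by simp, ?_, ?_, fun y hy => (hmem y hy).1.symm, fun y hy => (hmem y hy).2.symm,
      ?_, ?_⟩
    · have e : x :: (F0 ++ [z]) = (x :: F0) ++ [z] := by simp
      rw [e, List.getLast?_append]
      simp
    · have h1 : List.IsChain (HG G f B).Adj ((x :: (F0 ++ [z])).map fun y => (y, false)) := by
        have := hGP.chain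
        simpa using this
      rw [List.isChain_map] at h1
      exact h1.imp fun a b hab => HG.adj_ff.1 hab
    · have h1 : (x, false) :: (F0.map (fun y => (y, false)) ++ [(z, false)]) =
          (x :: (F0 ++ [z])).map fun y => (y, false) := by simp
      rw [h1, plen_angH, map_single_fst, map_single_l2] at hlen
      simp only [l2, if_true] at hlen
      linarith
    · obtain ⟨k, hk1, hk2⟩ := hGP.null
      refine ⟨k, by simpa using hk1, ?_⟩
      simp only [List.length_map, List.length_cons, List.length_append, List.length_nil]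
        at hk2 ⊢
      omega
  obtain ⟨L, hL, hLmin⟩ : ∃ L, Gd G f ang B b x z R A L ∧
      ∀ L', Gd G f ang B b x z R A L' → L.length ≤ L'.length := by
    classical
    have hex : ∃ n, ∃ L, Gd G f ang B b x z R A L ∧ L.length = n := ⟨_, _, hgd, rfl⟩
    obtain ⟨L, hL, hLn⟩ := Nat.find_spec hex
    refine ⟨L, hL, fun L' hL' => ?_⟩
    rw [hLn]
    exact Nat.find_min' hex ⟨L', hL', rfl⟩
  have hne := gd_noEar hZ hI.angled hI.cf hb hL hxz hLmin
  obtain ⟨F', rfl⟩ := gd_form hL hxz
  obtain ⟨k, hk1, hk2⟩ := hL.null
  simp only [List.length_cons, List.length_append, List.length_nil] at hk2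
  cases F' with
  | nil =>
    have hadj : G.Adj x z := by
      have := hL.chain
      simpa using this
    have hz1 : (Z1 G f).Adj x z := Z1.adj_of_fixed_right hI.aut (Or.inl hfx) hfz hadj
    have h1 : Null G k (x :: z :: R.map Prod.fst) := by
      have := null_fst hk1
      simpa [Function.comp_def] using this
    obtain ⟨B', hB'⟩ := hS.ih k (x :: z :: R.map Prod.fst)
      (Or.inl (by simp at hk2; omega)) (by
        simp only [CW, List.isChain_cons_cons]
        exact ⟨hz1, hR⟩) h1
    have h0 : Null (RG G f ρ) B' ([] ++ ρ x :: ρ z :: R.map (fun y => ρ y.1)) := by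
      simpa [Function.comp_def] using hB'
    refine ⟨B' + 1, ?_⟩
    simpa using h0.push (hI.rg' hxb) (hI.rg' hbz) (hI.rg' hz1)
  | cons u F' =>
    have hbu : G.Adj b u := hL.lb u (by simp)
    have hfbu : G.Adj (f b) u := hL.lf u (by simp)
    have hxu : G.Adj x u := by
      have := hL.chain
      simp only [List.cons_append, List.isChain_cons_cons] at this
      exact this.1
    have hbB : b ∈ B := by
      rw [hB]
      simp [tB]
    by_cases hfu : f u = u
    · have h1 := hC (HG G f B) k (b, true) (u, false) (z, false)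
        (F'.map fun y => (y, false)) (R ++ [(x, false)]) (by
        have h2 := hL.chain
        simp only [List.cons_append, List.isChain_cons_cons] at h2
        have h3 : List.IsChain (HG G f B).Adj ((u :: (F' ++ [z])).map fun y => (y, false)) := by
          rw [List.isChain_map]
          exact h2.2.imp fun a b hab => HG.adj_ff.2 hab
        simpa using h3) (by
        intro y hy
        have hy' : ∃ y' ∈ u :: (F' ++ [z]), (y', false) = y := by
          simp only [List.mem_cons, List.mem_append, List.mem_map, List.not_mem_nil,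
            or_false] at hy ⊢
          rcases hy with h | ⟨a, h, h'⟩ | h
          · exact ⟨u, Or.inl rfl, h.symm⟩
          · exact ⟨a, Or.inr (Or.inl h), h'⟩
          · exact ⟨z, Or.inr (Or.inr rfl), h.symm⟩
        obtain ⟨y', hy', rfl⟩ := hy'
        have hm : y' ∈ x :: (u :: F' ++ [z]) := by
          simp only [List.mem_cons, List.mem_append, List.not_mem_nil, or_false] at hy' ⊢
          tauto
        exact HG.adj_tf.2 ⟨hbB, (hL.lb y' hm).symm, (hL.lf y' hm).symm⟩) (by
        have h2 : Null (HG G f B) k ([(x, false)] ++ ((u, false) ::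
            ((F'.map fun y => (y, false)) ++ (z, false) :: R))) := by simpa using hk1
        simpa using h2.swap)
      have h2 : Null (HG G f B) (k + F'.length + 1)
          (((u, false) :: (b, true) :: (z, false) :: R) ++ [(x, false)]) := by
        simpa using h1
      have h3 : Null G (k + F'.length + 1) (x :: u :: b :: z :: R.map Prod.fst) := by
        have := null_fst h2.swap
        simpa using this
      have hxu1 : (Z1 G f).Adj x u := Z1.adj_of_fixed_right hI.aut (Or.inl hfx) hfu hxu
      have hub1 : (Z1 G f).Adj u b := Z1.adj_of_fixed_left hI.aut hfu (Or.inr hb) hbu.symm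
      obtain ⟨B', hB'⟩ := hS.ih (k + F'.length + 1) (x :: u :: b :: z :: R.map Prod.fst)
        (Or.inl (by simp at hk2; omega)) (by
          simp only [CW, List.cons_append, List.isChain_cons_cons]
          exact ⟨hxu1, hub1, hbz, hR⟩) h3
      have h0 : Null (RG G f ρ) B'
          ([] ++ ρ x :: ρ u :: ρ b :: (ρ z :: R.map (fun y => ρ y.1))) := by
        simpa [Function.comp_def] using hB'
      refine ⟨B' + 1, ?_⟩
      simpa using h0.triAt (hI.rg' hxb) (hI.rg' hxu1) (hI.rg' hub1)
    · exfalso
      by_cases hfu2 : G.Adj (f u) u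
      · have e1 : G.Adj x (f u) := by
          have := (hI.aut.adj x u).2 hxu
          rwa [hfx] at this
        have e2 : G.Adj b (f u) := by
          have := (hI.aut.adj (f b) u).2 hfbu
          rwa [hI.inv] at this
        have e3 : G.Adj (f b) (f u) := (hI.aut.adj b u).2 hbu
        exact FIX3.no5 hI.cf (hL.lb x (by simp)).symm (hL.lf x (by simp)).symm hxu e1 hb hbu e2
          hfbu e3 hfu2.symm
      · exact no_move2 hI.angled hI.aut (v := b) (v' := f b) (hI.inv b) hfx hfz (p := u)
          (F := F') (by simpa using hL.chain) (fun y hy => hL.lb y (by simpa using hy))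
          (fun y hy => hL.lf y (by simpa using hy)) (by simpa using hL.len)
          (by simpa using hne) hfu hfu2

end Pool.Agent.MSS
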