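import Pool.Agent.MSS.Targets
import Pool.Agent.MSO.EXC

/-!
# MSS, target BRI: an edge without common neighbours is a bridge
-/

set_option autoImplicit false

namespace Pool.Agent.MSS

open Pool.Agent.MSO (SEx Cl)
open Pool.Agent.MSN.Grp (sg)

universe u

namespace BRI

variable {V : Type u} [LinearOrder V]

open Classical in
/-- The cochain of an edge. -/
noncomputable def ch (F : Type) [CommRing F] (s t : V) (σ : Finset V) : F :=
  if σ = {s, t} then 1 else 0

theorem closed {F : Type} [CommRing F] {G : SimpleGraph V} {s t : V}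
    (hno : ∀ u, G.Adj s u → ¬ G.Adj t u) (T : Finset V) (hT : Cl G T) :
    ∑ x ∈ T, ((sg T x : ℤ) : F) * ch F s t (T.erase x) = 0 := by
  refine Finset.sum_eq_zero fun x hx => ?_
  unfold ch
  rw [if_neg, mul_zero]
  intro h
  have hs : s ∈ T.erase x := by rw [h]; simp
  have ht : t ∈ T.erase x := by rw [h]; simp
  rw [Finset.mem_erase] at hs ht
  exact hno x (hT hs.2 hx hs.1) (hT ht.2 hx ht.1)

theorem clique_pair {G : SimpleGraph V} {a b : V} (h : G.Adj a b) : Cl G {a, b} := by
  show G.IsClique _
  rw [SimpleGraph.isClique_iff]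
  intro x hx y hy hxy
  simp only [Finset.coe_insert, Finset.coe_singleton, Set.mem_insert_iff,
    Set.mem_singleton_iff] at hx hy
  rcases hx with rfl | rfl <;> rcases hy with rfl | rfl
  · exact absurd rfl hxy
  · exact h
  · exact h.symm
  · exact absurd rfl hxy

theorem edge {F : Type} [CommRing F] {G : SimpleGraph V} {c e : Finset V → F}
    (he : ∀ s : Finset V, Cl G s → c s = ∑ x ∈ s, ((sg s x : ℤ) : F) * e (s.erase x))
    {a b : V} (h : G.Adj a b) : c {a, b} = e {b} - e {a} ∨ c {a, b} = e {a} - e {b} := by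
  rcases lt_or_gt_of_ne h.ne with h1 | h1
  · left
    rw [he _ (clique_pair h), Pool.Agent.MSO.EXC.sum2 e h1]
  · right
    rw [Finset.pair_comm, he _ (clique_pair h.symm), Pool.Agent.MSO.EXC.sum2 e h1]

end BRI

open BRI

/-- Target BRI. -/
theorem tBRI : T_BRI.{u} := by
  intro V _ G p _ h s t hst hno hr
  obtain ⟨e, he⟩ := h (ch (ZMod p) s t) (closed hno)
  have hstep : ∀ a b, (G.deleteEdges {s(s, t)}).Adj a b → e {a} = e {b} := by
    intro a b hab
    rw [SimpleGraph.deleteEdges_adj] at hab
    have h0 : ch (ZMod p) s t {a, b} = 0 := by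
      unfold ch
      rw [if_neg]
      intro h1
      apply hab.2
      rw [Set.mem_singleton_iff, Sym2.eq_iff]
      have ha : a ∈ ({s, t} : Finset V) := by rw [← h1]; simp
      have hb : b ∈ ({s, t} : Finset V) := by rw [← h1]; simp
      simp only [Finset.mem_insert, Finset.mem_singleton] at ha hb
      rcases ha with ha | ha <;> rcases hb with hb | hb
      · exact absurd (ha.trans hb.symm) hab.1.ne
      · exact Or.inl ⟨ha, hb⟩
      · exact Or.inr ⟨ha, hb⟩
      · exact absurd (ha.trans hb.symm) hab.1.ne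
    rcases edge he hab.1 with h2 | h2
    · rw [h0] at h2
      exact (sub_eq_zero.1 h2.symm).symm
    · rw [h0] at h2
      exact sub_eq_zero.1 h2.symm
  have hall : ∀ a b, (G.deleteEdges {s(s, t)}).Walk a b → e {a} = e {b} := by
    intro a b w
    induction w with
    | nil => rfl
    | cons hadj _ ih => exact (hstep _ _ hadj).trans ih
  have hwalk : e {s} = e {t} := by
    obtain ⟨w⟩ := hr
    exact hall s t w
  have h1 : ch (ZMod p) s t {s, t} = 1 := by
    unfold ch
    rw [if_pos rfl]
  have h3 : (1 : ZMod p) = 0 := by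
    rcases edge he hst with h2 | h2
    · rw [h1, hwalk, sub_self] at h2
      exact h2
    · rw [h1, hwalk, sub_self] at h2
      exact h2
  exact one_ne_zero h3

end Pool.Agent.MSS
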