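import Pool.Agent.MSS.Targets
import Pool.Agent.MSF.Basic

/-!
# Closed walks through bridges (target BRN)
-/

set_option autoImplicit false

namespace Pool.Agent.MSS

open List Pool.Agent.MSF

universe u

namespace BRN

variable {V : Type u}

theorem chain_of_forall {R : V → V → Prop} : ∀ L : List V,
    (∀ (X : List V) (x y : V) (Y : List V), L = X ++ x :: y :: Y → R x y) → List.IsChain R L
  | [], _ => by simp
  | [_], _ => by simp
  | a :: b :: l, h => by
    rw [List.isChain_cons_cons]
    refine ⟨h [] a b l rfl, chain_of_forall (b :: l) fun X x y Y hXY => ?_⟩
    exact h (a :: X) x y Y (by rw [hXY]; rfl)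

/-- a closed walk of `G` which is not one of `G₁` can be rotated to start with a bad edge -/
theorem exists_bad {G₁ : SimpleGraph V} {w : List V} (hw : 2 ≤ w.length) (h : ¬ CW G₁ w) :
    ∃ (s t : V) (l : List V), w ~r (s :: t :: l) ∧ ¬ G₁.Adj s t := by
  by_contra hc
  push Not at hc
  apply h
  match w, hw with
  | a :: b :: l0, _ =>
    rw [CW_cons (by simp)]
    refine chain_of_forall _ fun X x y Y hXY => ?_
    rcases List.eq_nil_or_concat Y with rfl | ⟨Y', c, rfl⟩
    · have h1 : (a :: b :: l0) ++ [a] = (X ++ [x]) ++ [y] := by simpa using hXY
      have h2 := List.append_inj' h1 rfl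
      have h3 : y = a := by simpa using h2.2.symm
      cases X with
      | nil =>
        have := congrArg List.length h2.1
        simp at this
      | cons x' X' =>
        have h4 : x' = a := by
          have := h2.1
          simp only [List.cons_append, List.cons.injEq] at this
          exact this.1.symm
        rw [h3]
        refine hc x a X' ?_
        rw [h2.1, h4]
        exact List.isRotated_append
    · have h1 : (a :: b :: l0) ++ [a] = (X ++ x :: y :: Y') ++ [c] := by simpa using hXY
      have h2 := List.append_inj' h1 rfl
      refine hc x y (Y' ++ X) ?_
      rw [h2.1]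
      have := List.isRotated_append (l := X) (l' := x :: y :: Y')
      simpa using this

/-- a path avoiding `s` stays in the graph without the edge `s t` -/
theorem reach {G : SimpleGraph V} {s t : V} : ∀ (l : List V) (a z : V),
    List.IsChain G.Adj (a :: (l ++ [z])) → a ≠ s → (∀ x ∈ l, x ≠ s) → z ≠ s →
    (G.deleteEdges {s(s, t)}).Reachable a z
  | [], a, z, hc, ha, _, hz => by
    have h1 : G.Adj a z := by simpa using hc
    refine SimpleGraph.Adj.reachable ?_
    rw [SimpleGraph.deleteEdges_adj]
    refine ⟨h1, ?_⟩
    simp only [Set.mem_singleton_iff, Sym2.eq_iff, not_or, not_and]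
    exact ⟨fun h => absurd h ha, fun _ h => absurd h hz⟩
  | b :: l, a, z, hc, ha, hl, hz => by
    rw [List.cons_append, List.isChain_cons_cons] at hc
    have hb : b ≠ s := hl b (by simp)
    refine SimpleGraph.Reachable.trans (SimpleGraph.Adj.reachable ?_)
      (reach l b z hc.2 hb (fun x hx => hl x (by simp [hx])) hz)
    rw [SimpleGraph.deleteEdges_adj]
    refine ⟨hc.1, ?_⟩
    simp only [Set.mem_singleton_iff, Sym2.eq_iff, not_or, not_and]
    exact ⟨fun h => absurd h ha, fun _ h => absurd h hb⟩

end BRN

open BRN in
/-- BRN -/
theorem tBRN : T_BRN.{u} := by
  classical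
  intro V G G₁ _ hbr h₁
  have key : ∀ (N : ℕ) (w : List V), w.length ≤ N → CW G w → ∃ A, Null G A w := by
    intro N
    induction N with
    | zero =>
      intro w hN hw
      exact absurd (List.length_eq_zero_iff.1 (Nat.le_zero.1 hN)) hw.ne_nil
    | succ N ih =>
      intro w hN hw
      by_cases hw1 : CW G₁ w
      · exact h₁ w hw1
      by_cases h2 : 2 ≤ w.length
      swap
      · match w, hw, h2 with
        | [a], _, _ => exact ⟨0, Null.pt a⟩
        | a :: b :: l, _, h2 => exact absurd (by simp) h2
      obtain ⟨s, t, l, hrot, hbad⟩ := exists_bad h2 hw1
      have hlen : (s :: t :: l).length = w.length := hrot.perm.length_eq.symm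
      have hcw : CW G (s :: t :: l) := hw.rotated hrot
      suffices h : ∃ A, Null G A (s :: t :: l) by
        obtain ⟨A, hA⟩ := h
        exact ⟨A, hA.rotated hrot.symm⟩
      have hch : List.IsChain G.Adj (s :: ((t :: l) ++ [s])) := (CW_cons (by simp)).1 hcw
      have hst : G.Adj s t := by
        rw [List.cons_append, List.isChain_cons_cons] at hch
        exact hch.1
      have hlN : l.length + 2 ≤ N + 1 := by
        simp only [List.length_cons] at hlen
        omega
      by_cases hs : s ∈ l
      · -- split at `s`
        obtain ⟨l₁, l₂, rfl⟩ := List.append_of_mem hs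
        have hl₂ : l₂ ≠ [] := by
          rintro rfl
          have h3 : CW G (s :: s :: t :: l₁) := by
            refine hcw.rotated ?_
            have := List.isRotated_append (l := s :: t :: l₁) (l' := [s])
            simpa using this
          exact CW.not_adj_self (X := []) h3
        have e : s :: t :: (l₁ ++ s :: l₂) = s :: ((t :: l₁) ++ s :: l₂) := rfl
        rw [e] at hcw ⊢
        obtain ⟨c1, c2⟩ := CW_unsplit (by simp) hl₂ hcw
        simp only [List.length_append, List.length_cons] at hlN
        obtain ⟨A, hA⟩ := ih _ (by simp only [List.length_cons]; omega) c1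
        obtain ⟨B, hB⟩ := ih _ (by simp only [List.length_cons]; omega) c2
        exact ⟨A + B, Null.split (by simp) hl₂ hA hB⟩
      · rcases List.eq_nil_or_concat l with rfl | ⟨l', z, rfl⟩
        · exact ⟨0, Null.dig hst⟩
        · rw [List.concat_eq_append] at *
          by_cases hz : z = t
          · subst hz
            have hl' : l' ≠ [] := by
              rintro rfl
              exact CW.not_adj_self (X := [s]) (Y := []) (by simpa using hcw)
            have c1 : CW G (z :: l') := by
              rw [CW_cons hl']
              have h3 : List.IsChain G.Adj (z :: (l' ++ [z] ++ [s])) := by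
                have := hch
                rw [List.cons_append, List.isChain_cons_cons] at this
                exact this.2
              have h4 : List.IsChain G.Adj ((z :: (l' ++ [z])) ++ [s]) := by simpa using h3
              exact h4.left_of_append
            simp only [List.length_append, List.length_cons, List.length_nil] at hlN
            obtain ⟨A, hA⟩ := ih _ (by simp only [List.length_cons]; omega) c1
            have h5 : Null G A ([] ++ z :: l') := hA
            have h6 := h5.spur (by simpa using hl') hst.symm
            have h7 : Null G A ([z] ++ (s :: z :: l')) := by simpa using h6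
            refine ⟨A, ?_⟩
            simpa using h7.swap
          · exfalso
            refine hbr s t hst hbad ?_
            have hns : ∀ x ∈ l', x ≠ s := fun x hx hxs => hs (by simp [← hxs, hx])
            have hzs : z ≠ s := fun h => hs (by simp [h])
            have h3 : List.IsChain G.Adj ((t :: (l' ++ [z])) ++ [s]) := by
              have := hch
              rw [List.cons_append, List.isChain_cons_cons] at this
              simpa using this.2
            have h4 : G.Adj z s := by
              have h8 : List.IsChain G.Adj ((t :: l') ++ z :: ([] ++ [s])) := by simpa using h3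
              have h9 := (List.isChain_split.1 h8).2
              simpa using h9
            have h5 := reach (t := t) l' t z h3.left_of_append hst.ne' hns hzs
            refine (h5.trans (SimpleGraph.Adj.reachable ?_)).symm
            rw [SimpleGraph.deleteEdges_adj]
            refine ⟨h4, ?_⟩
            simp only [Set.mem_singleton_iff, Sym2.eq_iff, not_or, not_and]
            exact ⟨fun h => absurd h hzs, fun h => absurd h hz⟩
  intro w hw
  exact key _ w le_rfl hw

end Pool.Agent.MSS
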