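import Pool.Agent.MSS.Basic
import Pool.Agent.MSF.T3

set_option autoImplicit false

/-!
# CF: the good corner of the main induction
-/

namespace Pool.Agent.MSS

open List Pool.Agent.MSF

universe u

namespace CF

variable {W : Type u}

/-- Normal form of the walk around the corner `d`. -/
theorem form {D₁ D₂ : List (Corner W)} {d : Corner W}
    (hlen : 3 ≤ (D₁ ++ d :: D₂).length) (hcyc : CycC (D₁ ++ d :: D₂)) :
    ∃ R : List W, (D₁ ++ d :: D₂).map Corner.v ~r (d.p :: d.v :: d.n :: R) ∧
      D₂.map Corner.v ++ D₁.map Corner.v = d.n :: (R ++ [d.p]) := by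
  have hlen2 : 2 ≤ (D₂ ++ D₁).length := by
    simp only [List.length_append, List.length_cons] at hlen ⊢
    omega
  have hcyc : CycC (d :: (D₂ ++ D₁)) := by
    refine T3.cycC_rotated hcyc ?_
    have := List.isRotated_append (l := D₁) (l' := d :: D₂)
    simpa using this
  obtain ⟨e, E, f, hE⟩ : ∃ e E f, D₂ ++ D₁ = e :: (E ++ [f]) := by
    cases h0 : D₂ ++ D₁ with
    | nil => rw [h0] at hlen2; simp at hlen2
    | cons e E =>
      rcases List.eq_nil_or_concat E with rfl | ⟨E', f, rfl⟩
      · rw [h0] at hlen2; simp at hlen2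
      · exact ⟨e, E', f, by simp⟩
  rw [hE] at hcyc
  simp only [CycC] at hcyc
  have hcyc1 : d.n = e.v ∧ e.p = d.v := by
    rw [List.cons_append, List.isChain_cons_cons] at hcyc
    exact hcyc.1
  have hcyc2 : f.n = d.v ∧ d.p = f.v := by
    have e0 : d :: (e :: (E ++ [f]) ++ [d]) = (d :: e :: E) ++ f :: [d] := by simp
    rw [e0, List.isChain_append_cons_cons] at hcyc
    exact hcyc.2.1
  have hv : D₂.map Corner.v ++ D₁.map Corner.v = d.n :: (E.map Corner.v ++ [d.p]) := by
    rw [← List.map_append, hE, hcyc1.1, hcyc2.2]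
    simp
  refine ⟨E.map Corner.v, ?_, hv⟩
  have h1 : (D₁ ++ d :: D₂).map Corner.v ~r (d.v :: (D₂.map Corner.v ++ D₁.map Corner.v)) := by
    have := List.isRotated_append (l := D₁.map Corner.v) (l' := d.v :: D₂.map Corner.v)
    simpa using this
  rw [hv] at h1
  refine h1.trans ?_
  have := List.isRotated_append (l := d.v :: d.n :: E.map Corner.v) (l' := [d.p])
  simpa using this

/-- The walk with the corner `d` replaced by its fan. -/
theorem filled {K : SimpleGraph W} {A : ℕ} {D₁ D₂ : List (Corner W)} {d : Corner W}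
    {R : List W} (hv : D₂.map Corner.v ++ D₁.map Corner.v = d.n :: (R ++ [d.p]))
    (hDm : ∀ M : List (Corner W × Bool), M.map Prod.fst = D₁ ++ d :: D₂ → MarksOK K M →
      ∃ k, Null K k (expand M) ∧ k + cost M ≤ A) :
    ∃ k, Null K k (d.p :: (d.F ++ d.n :: R)) ∧ k + d.F.length + 1 ≤ A := by
  obtain ⟨k, hk1, hk2⟩ := hDm (D₁.map (fun c => (c, false)) ++ (d, true) ::
    D₂.map (fun c => (c, false))) (by
      simp only [List.map_append, List.map_map, List.map_cons]
      congr 1
      · simp [Function.comp_def]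
      · simp [Function.comp_def]) (by
      unfold MarksOK
      rw [List.pairwise_append]
      refine ⟨?_, ?_, ?_⟩
      · rw [List.pairwise_map]
        exact List.pairwise_of_forall (fun _ _ h => by simp at h)
      · rw [List.pairwise_cons]
        refine ⟨?_, ?_⟩
        · intro a ha _ h2
          rw [List.mem_map] at ha
          obtain ⟨b, _, rfl⟩ := ha
          simp at h2
        · rw [List.pairwise_map]
          exact List.pairwise_of_forall (fun _ _ h => by simp at h)
      · intro a ha b _ h1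
        rw [List.mem_map] at ha
        obtain ⟨b, _, rfl⟩ := ha
        simp at h1)
  have e1 : expand (D₁.map (fun c => (c, false)) ++ (d, true) ::
      D₂.map (fun c => (c, false))) = D₁.map Corner.v ++ (d.F ++ D₂.map Corner.v) := by
    rw [T3.expand_false]
    congr 1
    simp only [expand]
    have := T3.expand_false D₂ []
    simp only [List.append_nil, expand] at this
    rw [this]
    simp
  have e2 : cost (D₁.map (fun c => (c, false)) ++ (d, true) ::
      D₂.map (fun c => (c, false))) = d.F.length + 1 := by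
    rw [T3.cost_false]
    simp only [cost]
    have := T3.cost_false D₂ []
    simp only [List.append_nil, cost] at this
    rw [this]
    simp
  rw [e1] at hk1
  rw [e2] at hk2
  refine ⟨k, ?_, by omega⟩
  have h1 : Null K k ((d.F ++ D₂.map Corner.v) ++ D₁.map Corner.v) := hk1.swap
  rw [List.append_assoc, hv] at h1
  have h2 : Null K k ((d.F ++ d.n :: R) ++ [d.p]) := by simpa using h1
  simpa using h2.swap

end CF

theorem tCF (h1 : T_DSH.{u}) (h2 : T_SEL.{u}) (h3 : Pool.Agent.MSF.T_ZIP.{u}) :
    T_CF.{u} := by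
  intro V G ang f ρ A n w hS hn hirr
  have hw3 : 3 ≤ w.length := by
    rw [hS.len]
    exact hn
  obtain ⟨D, hDw, hDc, hDk, hDs, hDm⟩ := h1 G (HG G f (tB w)) ang Prod.fst (l2 f) hS.angled
    (fun a b hab => HG.adj_fst hab) (fun a b hab => HG.adj_l2 hab) A w hw3 hS.null
    (fun k hk => hS.min k _ (by simp [List.map_map, Function.comp_def]) hk)
    (fun k hk => hS.min k _ (by
      rw [List.map_map]
      refine List.map_congr_left fun x _ => ?_
      simp only [Function.comp, l2]
      split_ifs
      · exact hS.rhof _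
      · rfl) hk) hirr
  have hD3 : 3 ≤ D.length := by
    rw [← hDw, List.length_map] at hw3
    exact hw3
  -- the neighbours in the walk of a corner
  have hadj : ∀ (p c q : V × Bool) (R : List (V × Bool)), w ~r (p :: c :: q :: R) →
      (Z1 G f).Adj p.1 c.1 ∧ (Z1 G f).Adj c.1 q.1 ∧
        List.IsChain (Z1 G f).Adj (q.1 :: (R.map Prod.fst ++ [p.1])) := by
    intro p c q R hr
    have hcw : CW (Z1 G f) ((p :: c :: q :: R).map Prod.fst) :=
      hS.cw.rotated (hr.map Prod.fst)
    simp only [List.map_cons, CW, List.cons_append, List.isChain_cons_cons] at hcw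
    exact hcw
  obtain ⟨c, hc, hI⟩ := h2 G ang f ρ (tB w) hS.toInv D hDc hDk hDs (by
    intro c hc
    obtain ⟨D₁, D₂, rfl⟩ := List.append_of_mem hc
    obtain ⟨R, hr, -⟩ := CF.form hD3 hDc
    rw [hDw] at hr
    obtain ⟨a1, a2, -⟩ := hadj _ _ _ _ hr
    have hmem : ∀ z ∈ c.p :: c.v :: c.n :: R, z ∈ w := fun z hz => hr.perm.mem_iff.2 hz
    have hcf : f c.v.1 = c.v.1 ∨ G.Adj c.v.1 (f c.v.1) := a2.1.1
    rcases hcf with hcf | hcf
    · exact Or.inl ⟨hS.single (hmem _ (by simp)) hcf, hcf⟩
    · have hne : f c.v.1 ≠ c.v.1 := fun e => by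
        rw [e] at hcf
        exact G.loopless.irrefl _ hcf
      have hp : f c.p.1 = c.p.1 := by
        rcases a1.2 with h | h
        · exact h
        · exact absurd h hne
      have hq : f c.n.1 = c.n.1 := by
        rcases a2.2 with h | h
        · exact absurd h hne
        · exact h
      exact Or.inr ⟨hcf, hS.single (hmem _ (by simp)) hp, hp,
        hS.single (hmem _ (by simp)) hq, hq⟩)
  have hk := hDk c hc
  obtain ⟨D₁, D₂, rfl⟩ := List.append_of_mem hc
  obtain ⟨R, hr, hv⟩ := CF.form hD3 hDc
  rw [hDw] at hr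
  have hGP : GP G f (tB w) A c.p c.v c.n R c.F := ⟨hk.chain, hk.link, CF.filled hv hDm⟩
  refine ⟨c.p, c.v, c.n, R, c.F, hr, ?_, hGP, hI⟩
  intro hpq
  obtain ⟨a1, a2, a3⟩ := hadj _ _ _ _ hr
  have hKpc : (HG G f (tB w)).Adj c.p c.v := (hk.link c.p (by simp)).symm
  cases R with
  | nil =>
    rw [← hpq] at a3
    simp only [List.map_nil, List.nil_append, List.isChain_cons_cons] at a3
    exact (Z1 G f).loopless.irrefl _ a3.1
  | cons r R =>
    rw [← hpq] at hr
    have hw2 : Null (HG G f (tB w)) A (c.p :: c.v :: c.p :: r :: R) := hS.null.rotated hr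
    have h4 : Null (HG G f (tB w)) A ([] ++ c.p :: (r :: R)) :=
      h3 (HG G f (tB w)) A c.p c.v [] (r :: R) (by simp) (by simpa using hw2)
    have := hirr c.p [c.v] (r :: R) 0 A (by simpa using hr) (by simp) (by simp)
      (Null.dig hKpc) (by simpa using h4)
    omega

end Pool.Agent.MSS
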