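import Pool.Agent.MSS.Targets
import Pool.Agent.MSF.T3

/-! CLC: the symmetric closed walk. -/

set_option autoImplicit false

namespace Pool.Agent.MSS

open List Pool.Agent.MSF

universe u

namespace CLC

variable {V : Type u} {G : SimpleGraph V}

/-- change of both ends of a path -/
theorem chain2 {b q b' q' : V} {P : List V} (hP : P ≠ [])
    (h : List.IsChain G.Adj (b :: (P ++ [q]))) (hb : ∀ x ∈ P.head?, G.Adj b' x)
    (hq : ∀ x ∈ P.getLast?, G.Adj x q') : List.IsChain G.Adj (b' :: (P ++ [q'])) := by
  rw [List.isChain_cons, List.isChain_append] at h ⊢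
  refine ⟨?_, h.2.1, by simp, ?_⟩
  · rw [List.head?_append_of_ne_nil _ hP]
    exact hb
  · intro x hx y hy
    simp only [List.head?_cons, Option.mem_def, Option.some.injEq] at hy
    subst hy
    exact hq x hx

/-- the second half of the closed walk -/
theorem half {ang : V → V → V → ℝ} {f : Equiv.Perm V} (hA : Angled G ang) (hf : IsAut G ang f)
    {y b q : V} {P : List V} (hy : f y = y) (h : List.IsChain G.Adj (b :: (P ++ [q])))
    (hl : ∀ x ∈ b :: (P ++ [q]), G.Adj y x) :
    List.IsChain G.Adj (f q :: ((P.map f).reverse ++ [f b])) ∧
    (∀ x ∈ f q :: ((P.map f).reverse ++ [f b]), G.Adj y x) ∧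
    plen ang y (f q :: ((P.map f).reverse ++ [f b])) = plen ang y (b :: (P ++ [q])) := by
  have e : f q :: ((P.map f).reverse ++ [f b]) = ((b :: (P ++ [q])).map f).reverse := by simp
  rw [e]
  refine ⟨T3.chain_reverse _ (T3.chain_map hf _ h), ?_, ?_⟩
  · intro x hx
    rw [List.mem_reverse, List.mem_map] at hx
    obtain ⟨z, hz, rfl⟩ := hx
    have := (hf.adj y z).2 (hl z hz)
    rwa [hy] at this
  · rw [T3.plen_reverse hA.symm, T3.plen_map hf hy _ h hl]

/-- gluing two paths with an edge or at a common vertex -/
theorem glue {ang : V → V → V → ℝ} {y b q r a : V} {P Q : List V} (hA : Angled G ang)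
    (h1 : List.IsChain G.Adj (b :: (P ++ [q]))) (h2 : List.IsChain G.Adj (r :: (Q ++ [a])))
    (tp tq : Bool) (hq : tq = true → r = q) (hq' : tq = false → G.Adj q r)
    (hp : tp = true → a = b) (hp' : tp = false → G.Adj a b) :
    List.IsChain G.Adj (b :: ((P ++ q :: ((if tq then [] else [r]) ++ (Q ++
      (if tp then [] else [a])))) ++ [b])) ∧
    plen ang y (b :: ((P ++ q :: ((if tq then [] else [r]) ++ (Q ++
      (if tp then [] else [a])))) ++ [b])) = plen ang y (b :: (P ++ [q])) +
      plen ang y (r :: (Q ++ [a])) + (if tp then 0 else ang y b a) +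
      (if tq then 0 else ang y q r) := by
  -- the end of the walk
  have h3 : List.IsChain G.Adj (r :: (Q ++ ((if tp then [] else [a]) ++ [b]))) ∧
      plen ang y (r :: (Q ++ ((if tp then [] else [a]) ++ [b]))) =
        plen ang y (r :: (Q ++ [a])) + (if tp then 0 else ang y b a) := by
    cases tp with
    | true =>
      rw [hp rfl] at h2 ⊢
      simpa using h2
    | false =>
      have h4 := hp' rfl
      constructor
      · have := List.isChain_split (R := G.Adj) (c := a) (l₁ := r :: Q) (l₂ := [b])
        simp only [List.cons_append, List.nil_append, Bool.false_eq_true, if_false] at this ⊢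
        rw [this]
        exact ⟨h2, by simp [h4]⟩
      · have := T3.plen_append ang y (r :: Q) a [b]
        simp only [List.cons_append, List.nil_append, Bool.false_eq_true, if_false] at this ⊢
        rw [this]
        simp only [plen]
        rw [hA.symm y a b]
        ring
  -- the second half
  have h5 : List.IsChain G.Adj (q :: ((if tq then [] else [r]) ++ (Q ++
        ((if tp then [] else [a]) ++ [b])))) ∧
      plen ang y (q :: ((if tq then [] else [r]) ++ (Q ++
        ((if tp then [] else [a]) ++ [b])))) =
        plen ang y (r :: (Q ++ [a])) + (if tp then 0 else ang y b a) +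
          (if tq then 0 else ang y q r) := by
    cases tq with
    | true =>
      rw [hq rfl] at h3 ⊢
      simpa using h3
    | false =>
      have h6 := hq' rfl
      constructor
      · simp only [List.cons_append, List.nil_append, Bool.false_eq_true, if_false]
        rw [List.isChain_cons_cons]
        exact ⟨h6, h3.1⟩
      · simp only [List.cons_append, List.nil_append, Bool.false_eq_true, if_false]
        simp only [plen]
        rw [h3.2]
        ring
  have e : b :: ((P ++ q :: ((if tq then [] else [r]) ++ (Q ++
      (if tp then [] else [a])))) ++ [b]) = (b :: P) ++ q :: ((if tq then [] else [r]) ++ (Q ++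
        ((if tp then [] else [a]) ++ [b]))) := by simp
  rw [e]
  refine ⟨?_, ?_⟩
  · rw [List.isChain_split]
    exact ⟨h1, h5.1⟩
  · rw [T3.plen_append, h5.2]
    simp only [List.cons_append]
    ring

end CLC

open CLC in
theorem tCLC : T_CLC.{u} := by
  intro V G ang f ρ hI tp tq y b q P hC
  have hA := hI.angled
  have hf := hI.aut
  have ff := hI.inv
  have yf : ∀ x, G.Adj y x → G.Adj y (f x) := by
    intro x hx
    have := (hf.adj y x).2 hx
    rwa [hC.fy] at this
  have hch : List.IsChain G.Adj ((if tp then f b else b) :: (P ++ [if tq then f q else q])) := by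
    refine chain2 hC.ne hC.chain ?_ ?_
    · intro x hx
      cases tp with
      | true => exact (hC.hp rfl x hx).symm
      | false =>
        have h := hC.chain
        rw [List.isChain_cons] at h
        refine h.1 x ?_
        rw [List.head?_append_of_ne_nil _ hC.ne]
        exact hx
    · intro x hx
      cases tq with
      | true => exact (hC.hq rfl).2 x hx
      | false =>
        have h := hC.chain
        rw [List.isChain_cons, List.isChain_append] at h
        exact h.2.2.2 x hx q (by simp)
  have hlk : ∀ x ∈ (if tp then f b else b) :: (P ++ [if tq then f q else q]), G.Adj y x := by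
    have l1 : G.Adj y b := hC.link b (by simp)
    have l2 : G.Adj y q := hC.link q (by simp)
    have l3 : ∀ x ∈ P, G.Adj y x := fun x hx => hC.link x (by simp [hx])
    intro x hx
    rw [List.mem_cons, List.mem_append, List.mem_singleton] at hx
    rcases hx with hx | hx | hx
    · rw [hx]
      cases tp with
      | true => exact yf b l1
      | false => exact l1
    · exact l3 x hx
    · rw [hx]
      cases tq with
      | true => exact yf q l2
      | false => exact l2
  obtain ⟨g1, g2, g3⟩ := half hA hf hC.fy hch hlk
  -- the ends of the second half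
  obtain ⟨k1, k2⟩ := glue (y := y) hA hC.chain g1 tp tq
    (fun h => by rw [h]; simp [ff]) (fun h => by rw [h]; exact hC.hq' h)
    (fun h => by rw [h]; simp [ff]) (fun h => by rw [h]; exact hC.fb.symm)
  have e1 : (if tq then [] else [f (if tq then f q else q)]) = (if tq then [] else [f q]) := by
    cases tq <;> simp
  have e2 : (if tp then [] else [f (if tp then f b else b)]) = (if tp then [] else [f b]) := by
    cases tp <;> simp
  have e3 : (if tp then 0 else ang y b (f (if tp then f b else b))) =
      (if tp then 0 else ang y b (f b)) := by
    cases tp <;> simp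
  have e4 : (if tq then 0 else ang y q (f (if tq then f q else q))) =
      (if tq then 0 else ang y q (f q)) := by
    cases tq <;> simp
  rw [e1, e2] at k1 k2
  rw [e3, e4, g3] at k2
  refine ⟨?_, ?_, ?_⟩
  · unfold cC
    rw [CW_cons (by simp)]
    exact k1
  · intro x hx
    unfold cC at hx
    have m1 : x ∈ (b :: (P ++ [q])) ∨ x ∈ (P.map f).reverse ∨ x = f q ∨ x = f b := by
      simp only [List.mem_cons, List.mem_append] at hx ⊢
      rcases hx with hx | hx | hx | hx | hx | hx
      · exact Or.inl (Or.inl hx)
      · exact Or.inl (Or.inr (Or.inl hx))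
      · exact Or.inl (Or.inr (Or.inr (Or.inl hx)))
      · right; right; left
        cases tq <;> simp_all
      · exact Or.inr (Or.inl hx)
      · right; right; right
        cases tp <;> simp_all
    rcases m1 with h | h | h | h
    · exact hC.link x h
    · rw [List.mem_reverse, List.mem_map] at h
      obtain ⟨z, hz, rfl⟩ := h
      exact yf z (hC.link z (by simp [hz]))
    · rw [h]
      exact yf q (hC.link q (by simp))
    · rw [h]
      exact yf b (hC.link b (by simp))
  · unfold cC clen
    exact k2

end Pool.Agent.MSS
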