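import Pool.Agent.MSS.Targets

set_option autoImplicit false

/-!
# CONN: exactness implies connected (MP_d6353f_al, MSS)
-/

namespace Pool.Agent.MSS

universe u

open Pool.Agent.MSN.Grp (sg)

namespace CONN

/-- The indicator of the component of `o`, as a cochain. -/
noncomputable def comp {V : Type u} (G : SimpleGraph V) (F : Type) [CommRing F] (o : V)
    (s : Finset V) : F :=
  open Classical in if ∃ v, s = {v} ∧ G.Reachable o v then 1 else 0

theorem comp_single {V : Type u} (G : SimpleGraph V) (F : Type) [CommRing F] (o v : V) :
    comp G F o {v} = open Classical in if G.Reachable o v then 1 else 0 := by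
  classical
  unfold comp
  by_cases h : G.Reachable o v
  · rw [if_pos ⟨v, rfl, h⟩, if_pos h]
  · rw [if_neg, if_neg h]
    rintro ⟨w, hw, hr⟩
    rw [Finset.singleton_inj] at hw
    subst hw
    exact h hr

theorem comp_zero {V : Type u} (G : SimpleGraph V) (F : Type) [CommRing F] (o : V)
    (s : Finset V) (h : s.card ≠ 1) : comp G F o s = 0 := by
  classical
  unfold comp
  rw [if_neg]
  rintro ⟨w, hw, -⟩
  subst hw
  exact h (Finset.card_singleton w)

theorem sg_single {V : Type u} [LinearOrder V] (v : V) : sg {v} v = 1 := by
  unfold sg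
  have : ({v} : Finset V).filter (· < v) = ∅ := by
    rw [Finset.filter_eq_empty_iff]
    intro x hx
    rw [Finset.mem_singleton] at hx
    subst hx
    exact lt_irrefl _
  rw [this]
  simp

theorem sg_pair {V : Type u} [LinearOrder V] {a b : V} (h : a < b) :
    sg {a, b} a = 1 ∧ sg {a, b} b = -1 := by
  unfold sg
  constructor
  · have : ({a, b} : Finset V).filter (· < a) = ∅ := by
      rw [Finset.filter_eq_empty_iff]
      intro x hx
      rw [Finset.mem_insert, Finset.mem_singleton] at hx
      rcases hx with rfl | rfl
      · exact lt_irrefl _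
      · exact not_lt.2 h.le
    rw [this]
    simp
  · have : ({a, b} : Finset V).filter (· < b) = {a} := by
      ext x
      rw [Finset.mem_filter, Finset.mem_insert, Finset.mem_singleton, Finset.mem_singleton]
      constructor
      · rintro ⟨rfl | rfl, h2⟩
        · rfl
        · exact absurd h2 (lt_irrefl _)
      · rintro rfl
        exact ⟨Or.inl rfl, h⟩
    rw [this]
    simp

theorem closed_pair {V : Type u} [LinearOrder V] (G : SimpleGraph V) (F : Type) [CommRing F]
    (o : V) {a b : V} (h : a < b) (hadj : G.Adj a b) :
    ∑ x ∈ ({a, b} : Finset V), ((sg {a, b} x : ℤ) : F) *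
      comp G F o (({a, b} : Finset V).erase x) = 0 := by
  classical
  rw [Finset.sum_pair h.ne]
  have e1 : ({a, b} : Finset V).erase a = {b} := by
    ext x
    simp only [Finset.mem_erase, Finset.mem_insert, Finset.mem_singleton]
    constructor
    · rintro ⟨h1, h2 | h2⟩
      · exact absurd h2 h1
      · exact h2
    · rintro rfl
      exact ⟨h.ne', Or.inr rfl⟩
  have e2 : ({a, b} : Finset V).erase b = {a} := by
    ext x
    simp only [Finset.mem_erase, Finset.mem_insert, Finset.mem_singleton]
    constructor
    · rintro ⟨h1, h2 | h2⟩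
      · exact h2
      · exact absurd h2 h1
    · rintro rfl
      exact ⟨h.ne, Or.inl rfl⟩
  rw [e1, e2, (sg_pair h).1, (sg_pair h).2, comp_single, comp_single]
  have hr : G.Reachable o a ↔ G.Reachable o b :=
    ⟨fun q => q.trans hadj.reachable, fun q => q.trans hadj.symm.reachable⟩
  by_cases q : G.Reachable o a
  · rw [if_pos q, if_pos (hr.1 q)]
    simp
  · rw [if_neg q, if_neg (fun q' => q (hr.2 q'))]
    simp

theorem closed {V : Type u} [LinearOrder V] (G : SimpleGraph V) (F : Type) [CommRing F]
    (o : V) (t : Finset V) (ht : G.IsClique (t : Set V)) :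
    ∑ x ∈ t, ((sg t x : ℤ) : F) * comp G F o (t.erase x) = 0 := by
  classical
  by_cases hc : t.card = 2
  · obtain ⟨a, b, hab, rfl⟩ := Finset.card_eq_two.1 hc
    have hadj : G.Adj a b := ht (by simp) (by simp) hab
    rcases lt_or_gt_of_ne hab with h | h
    · exact closed_pair G F o h hadj
    · rw [Finset.pair_comm a b]
      exact closed_pair G F o h hadj.symm
  · refine Finset.sum_eq_zero fun x hx => ?_
    rw [comp_zero, mul_zero]
    rw [Finset.card_erase_of_mem hx]
    omega

end CONN

open CONN in
theorem tCONN : T_CONN.{u} := by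
  intro V _ G p _ hex
  classical
  have hne : Nonempty V := by
    by_contra hV
    rw [not_nonempty_iff] at hV
    obtain ⟨e, he⟩ := hex (fun _ => 1) (by
      intro t _
      have : t = ∅ := Finset.eq_empty_of_isEmpty t
      subst this
      simp)
    have := he ∅ (by
      show G.IsClique ((∅ : Finset V) : Set V)
      simp)
    simp at this
  have := hne
  refine ⟨?_⟩
  intro o v
  obtain ⟨e, he⟩ := hex (comp G (ZMod p) o) (fun t ht => closed G (ZMod p) o t ht)
  have key : ∀ w : V, comp G (ZMod p) o {w} = e ∅ := by
    intro w
    have h1 := he {w} (by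
      show G.IsClique (({w} : Finset V) : Set V)
      simp)
    rw [h1, Finset.sum_singleton, sg_single]
    simp
  have h1 := (key v).trans (key o).symm
  rw [comp_single, comp_single, if_pos (SimpleGraph.Reachable.refl o)] at h1
  by_contra hr
  rw [if_neg hr] at h1
  exact zero_ne_one h1

end Pool.Agent.MSS
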