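import Pool.Agent.MSS.Targets
import Pool.Agent.MSF.DEX
import Pool.Agent.MSF.ANGZ

/-! # DSH: disc diagrams for minimal walks with two labellings -/

set_option autoImplicit false

namespace Pool.Agent.MSS

open List Pool.Agent.MSF

universe u

namespace DSH

variable {V W : Type u} {G : SimpleGraph V} {K : SimpleGraph W} {ang : V → V → V → ℝ}
  {l₁ l₂ : W → V}

theorem plen_av (ang : V → V → V → ℝ) (l₁ l₂ : W → V) (v : W) : ∀ L : List W,
    plen (avA ang l₁ l₂) v L =
      (plen ang (l₁ v) (L.map l₁) + plen ang (l₂ v) (L.map l₂)) / 2 := by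
  intro L
  induction L with
  | nil => simp [plen]
  | cons a L ih =>
    cases L with
    | nil => simp [plen]
    | cons b L =>
      simp only [List.map_cons, plen] at ih ⊢
      rw [ih]
      simp only [avA]
      ring

theorem pAng_av (hA : Angled G ang) (h₁ : ∀ a b, K.Adj a b → G.Adj (l₁ a) (l₁ b))
    (h₂ : ∀ a b, K.Adj a b → G.Adj (l₂ a) (l₂ b)) : PAng K (avA ang l₁ l₂) := by
  refine ⟨?_, ?_, ?_⟩
  · intro v a b
    simp only [avA]
    rw [hA.symm (l₁ v), hA.symm (l₂ v)]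
  · intro v a b h1 h2 h3
    simp only [avA]
    have e1 := hA.pos _ _ _ (h₁ _ _ h1) (h₁ _ _ h2) (h₁ _ _ h3)
    have e2 := hA.pos _ _ _ (h₂ _ _ h1) (h₂ _ _ h2) (h₂ _ _ h3)
    linarith
  · intro a b c h1 h2 h3
    simp only [avA]
    have e1 := hA.sum_le _ _ _ (h₁ _ _ h1) (h₁ _ _ h2) (h₁ _ _ h3)
    have e2 := hA.sum_le _ _ _ (h₂ _ _ h1) (h₂ _ _ h2) (h₂ _ _ h3)
    linarith

/-- The walk around the new vertex is not short for a label map with minimal image. -/
theorem not_short (hF : T_FILL.{u}) (hG : T_GLUE.{u}) (hA : Angled G ang) {l : W → V}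
    (hl : ∀ a b, K.Adj a b → G.Adj (l a) (l b)) {k k' : ℕ} {a b z : W} {Fz R : List W}
    (hab : K.Adj a b) (hchain : List.IsChain K.Adj (a :: (Fz ++ [b])))
    (hlink : ∀ x ∈ a :: (Fz ++ [b]), K.Adj z x)
    (hmin : ∀ m, Null G m ((a :: b :: R).map l) → k + 1 ≤ m)
    (hk' : Null K k' (a :: (Fz ++ b :: R))) (hk'2 : k' + (Fz.length + 1) ≤ k)
    (hlt : clen ang (l z) ((a :: (Fz ++ [b])).map l) < 2 * Real.pi) : False := by
  have hchain' : List.IsChain G.Adj (l a :: (Fz.map l ++ [l b])) := by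
    have h := (List.isChain_map l (R := G.Adj) (l := a :: (Fz ++ [b]))).2
      (hchain.imp (fun _ _ h => hl _ _ h))
    simpa using h
  have hlink' : ∀ x ∈ l a :: (Fz.map l ++ [l b]), G.Adj (l z) x := by
    intro x hx
    have : x ∈ (a :: (Fz ++ [b])).map l := by simpa using hx
    obtain ⟨y, hy, rfl⟩ := List.mem_map.1 this
    exact hl _ _ (hlink y hy)
  have hcw : CW G (l a :: (Fz.map l ++ [l b])) := by
    rw [CW_cons (by simp)]
    have e : l a :: ((Fz.map l ++ [l b]) ++ [l a]) = (l a :: (Fz.map l ++ [l b])) ++ [l a] := by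
      simp
    rw [e, List.isChain_append]
    refine ⟨hchain', by simp, ?_⟩
    intro u hu v hv
    have hu' : u = l b := by
      rw [← List.cons_append, List.getLast?_append] at hu
      simp at hu
      exact hu.symm
    have hv' : v = l a := by simpa using hv.symm
    rw [hu', hv']
    exact (hl _ _ hab).symm
  have hfill := hF G ang hA (l z) (l a :: (Fz.map l ++ [l b])) (by simp) hcw hlink' (by
    simpa using hlt)
  have hlen : (l a :: (Fz.map l ++ [l b])).length - 2 = Fz.length := by simp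
  rw [hlen] at hfill
  have hrev : Null G Fz.length (l a :: ([] ++ l b :: (Fz.map l).reverse)) := by
    have h4 := hfill.reverse
    have h5 : Null G Fz.length ((l b :: (Fz.map l).reverse) ++ [l a]) := by simpa using h4
    simpa using h5.swap
  have hk2 : Null G k' (l a :: (Fz.map l ++ l b :: R.map l)) := by
    have := hk'.map l hl
    simpa using this
  have hglue := hG G k' Fz.length (l a) (l b) [] (Fz.map l) (R.map l) hk2 hrev
  have := hmin (k' + Fz.length) (by simpa using hglue)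
  omega

/-- The total angle at the new vertex. -/
theorem angz (hP : T_PD.{u}) (hF : T_FILL.{u}) (hG : T_GLUE.{u}) (hA : Angled G ang)
    (h₁ : ∀ a b, K.Adj a b → G.Adj (l₁ a) (l₁ b))
    (h₂ : ∀ a b, K.Adj a b → G.Adj (l₂ a) (l₂ b))
    (k : ℕ) (a b z x y : W) (Fa Fz Fb : List W) (ta tz tb : ℝ) (D : List (Corner W))
    (hab : K.Adj a b)
    (hm₁ : ∀ m, Null G m ((a :: b :: D.map Corner.v).map l₁) → k + 1 ≤ m)
    (hm₂ : ∀ m, Null G m ((a :: b :: D.map Corner.v).map l₂) → k + 1 ≤ m)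
    (hD : Disc K (avA ang l₁ l₂) k
      (⟨x, a, z, Fa, ta⟩ :: ⟨a, z, b, Fz, tz⟩ :: ⟨z, b, y, Fb, tb⟩ :: D)) :
    2 * Real.pi ≤ tz + avA ang l₁ l₂ z b a := by
  by_contra hlt
  push Not at hlt
  have hPA := pAng_av hA h₁ h₂
  obtain ⟨⟨-, -, hok⟩, -, h3⟩ := hP K (avA ang l₁ l₂) hPA k _ hD
  have hc := hok ⟨a, z, b, Fz, tz⟩ (by simp)
  have hchain : List.IsChain K.Adj (a :: (Fz ++ [b])) := hc.chain
  have hlink : ∀ x ∈ a :: (Fz ++ [b]), K.Adj z x := hc.link
  have hlen : tz = plen (avA ang l₁ l₂) z (a :: (Fz ++ [b])) := hc.len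
  -- the marked expansion
  obtain ⟨k', hk', hk'2⟩ := h3
    (((⟨x, a, z, Fa, ta⟩ : Corner W), false) :: ((⟨a, z, b, Fz, tz⟩ : Corner W), true) ::
      ((⟨z, b, y, Fb, tb⟩ : Corner W), false) :: D.map fun c => (c, false))
    (by simp only [List.map_cons, ANGZ.fst_unmarked]) (by
      unfold MarksOK
      have hD' : ∀ c ∈ D.map (fun c => (c, false)), c.2 = false := by
        intro c hc
        obtain ⟨c', -, rfl⟩ := List.mem_map.1 hc
        rfl
      refine List.Pairwise.cons (fun c _ h => by simp at h) ?_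
      refine List.Pairwise.cons (fun c hc _ h => ?_) ?_
      · rcases List.mem_cons.1 hc with rfl | hc
        · simp at h
        · rw [hD' c hc] at h
          simp at h
      · refine List.Pairwise.cons (fun c _ h => by simp at h) ?_
        refine List.pairwise_iff_forall_sublist.2 ?_
        intro c c' hs h
        have hc : c ∈ D.map fun c => (c, false) := hs.subset (by simp)
        rw [hD' c hc] at h
        simp at h)
  have he : expand (((⟨x, a, z, Fa, ta⟩ : Corner W), false) ::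
      ((⟨a, z, b, Fz, tz⟩ : Corner W), true) ::
      ((⟨z, b, y, Fb, tb⟩ : Corner W), false) :: D.map fun c => (c, false)) =
      a :: (Fz ++ b :: D.map Corner.v) := by
    simp [expand, ANGZ.expand_unmarked]
  have hcost : cost (((⟨x, a, z, Fa, ta⟩ : Corner W), false) ::
      ((⟨a, z, b, Fz, tz⟩ : Corner W), true) ::
      ((⟨z, b, y, Fb, tb⟩ : Corner W), false) :: D.map fun c => (c, false)) = Fz.length + 1 := by
    simp [cost, ANGZ.cost_unmarked]
  rw [he] at hk'
  rw [hcost] at hk'2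
  -- one of the two images is short
  have e1 : clen (avA ang l₁ l₂) z (a :: (Fz ++ [b])) < 2 * Real.pi := by
    rw [ANGZ.clen_eq, ← hlen]
    exact hlt
  have e2 : clen (avA ang l₁ l₂) z (a :: (Fz ++ [b])) =
      (clen ang (l₁ z) ((a :: (Fz ++ [b])).map l₁) +
        clen ang (l₂ z) ((a :: (Fz ++ [b])).map l₂)) / 2 := by
    simp only [clen, List.map_cons]
    rw [plen_av]
    simp
  have e3 : clen ang (l₁ z) ((a :: (Fz ++ [b])).map l₁) < 2 * Real.pi ∨
      clen ang (l₂ z) ((a :: (Fz ++ [b])).map l₂) < 2 * Real.pi := by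
    by_contra hcon
    push Not at hcon
    rw [e2] at e1
    linarith [hcon.1, hcon.2]
  rcases e3 with e3 | e3
  · exact not_short hF hG hA h₁ hab hchain hlink hm₁ hk' hk'2 e3
  · exact not_short hF hG hA h₂ hab hchain hlink hm₂ hk' hk'2 e3

/-- Minimality of the pieces. -/
theorem min_pieces {l : W → V} (hl : ∀ a b, K.Adj a b → G.Adj (l a) (l b)) {m n : ℕ}
    {a z b : W} {L₁ L₂ : List W}
    (hmin : ∀ k, Null G k ((a :: z :: b :: (L₁ ++ z :: L₂)).map l) → m + n ≤ k)
    (h1 : Null K m (z :: b :: L₁)) (h2 : Null K n (z :: (L₂ ++ [a]))) :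
    (∀ k, Null G k ((z :: b :: L₁).map l) → m ≤ k) ∧
      (∀ k, Null G k ((z :: (L₂ ++ [a])).map l) → n ≤ k) := by
  have key : ∀ p q, Null G p ((z :: b :: L₁).map l) → Null G q ((z :: (L₂ ++ [a])).map l) →
      m + n ≤ p + q := by
    intro p q hp hq
    have h3 : Null G (p + q) (l z :: ((b :: L₁).map l ++ l z :: (L₂ ++ [a]).map l)) :=
      Null.split (by simp) (by simp) (by simpa using hp) (by simpa using hq)
    apply hmin
    have h4 : Null G (p + q) ((l z :: l b :: (L₁.map l ++ l z :: L₂.map l)) ++ [l a]) := by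
      simpa using h3
    simpa using h4.swap
  have i1 := h1.map l hl
  have i2 := h2.map l hl
  refine ⟨fun k hk => ?_, fun k hk => ?_⟩
  · have := key k n hk i2
    omega
  · have := key m k i1 hk
    omega

theorem dex (hP : T_PD.{u}) (hA3 : T_A3.{u}) (hR : T_RED.{u}) (hF : T_FILL.{u})
    (hG : T_GLUE.{u}) (hA : Angled G ang) (h₁ : ∀ a b, K.Adj a b → G.Adj (l₁ a) (l₁ b))
    (h₂ : ∀ a b, K.Adj a b → G.Adj (l₂ a) (l₂ b)) : ∀ (A : ℕ) (w : List W), 3 ≤ w.length →
    Null K A w → (∀ k, Null G k (w.map l₁) → A ≤ k) → (∀ k, Null G k (w.map l₂) → A ≤ k) →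
    Irr K A w → ∃ D : List (Corner W), Disc K (avA ang l₁ l₂) A D ∧ D.map Corner.v = w := by
  have hPA := pAng_av hA h₁ h₂
  intro A
  induction A using Nat.strong_induction_on with
  | _ A ih =>
    intro w hw hnull hm₁ hm₂ hirr
    match w, hw with
    | a :: b :: c₀ :: l₀, _ =>
      generalize hl : c₀ :: l₀ = l at *
      have hlne : l ≠ [] := by rw [← hl]; simp
      have hmin : MinA K A (a :: b :: l) := ⟨hnull, fun k hk => hm₁ k (hk.map l₁ h₁)⟩
      obtain ⟨z, k, hk, hab, haz, hzb, hmin'⟩ := hA3 K A a b l hlne hmin hirr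
      subst hk
      have hm₁' : ∀ m, Null G m ((a :: z :: b :: l).map l₁) → k ≤ m := by
        intro m hm
        have h5 : Null G (m + 1) ((a :: b :: l).map l₁) := by
          simp only [List.map_cons] at hm ⊢
          exact Null.tri (h₁ _ _ hab) (h₁ _ _ haz) (h₁ _ _ hzb) hm
        have := hm₁ _ h5
        omega
      have hm₂' : ∀ m, Null G m ((a :: z :: b :: l).map l₂) → k ≤ m := by
        intro m hm
        have h5 : Null G (m + 1) ((a :: b :: l).map l₂) := by
          simp only [List.map_cons] at hm ⊢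
          exact Null.tri (h₂ _ _ hab) (h₂ _ _ haz) (h₂ _ _ hzb) hm
        have := hm₂ _ h5
        omega
      by_cases hi : Irr K k (a :: z :: b :: l)
      · obtain ⟨D', hD', hv⟩ :=
          ih k (Nat.lt_succ_self k) (a :: z :: b :: l) (by simp) hmin'.1 hm₁' hm₂' hi
        obtain ⟨⟨_, hc, _⟩, _⟩ := hP K _ hPA k D' hD'
        obtain ⟨x, y, Fa, Fz, Fb, ta, tz, tb, D, hD, hDl⟩ := DEX.exists3 hc hD' hv
        have hz := angz hP hF hG hA h₁ h₂ k a b z x y Fa Fz Fb ta tz tb D hab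
          (by rw [hDl]; exact hm₁) (by rw [hDl]; exact hm₂) hD
        exact ⟨_, Disc.inner hab haz hzb hD hz, by simp [hDl]⟩
      · obtain ⟨L₁, L₂, m, n, rfl, hmn, hmin1, hi1, hmin2, hi2⟩ :=
          hR K k a b z l hlne hab haz hzb hmin hirr hmin' hi
        subst hmn
        obtain ⟨p1, p2⟩ := min_pieces h₁ hm₁' hmin1.1 hmin2.1
        obtain ⟨q1, q2⟩ := min_pieces h₂ hm₂' hmin1.1 hmin2.1
        rcases L₁ with _ | ⟨b₁, L₁⟩
        · have hm0 : m = 0 := Nat.le_zero.1 (hmin1.2 0 (Null.dig hzb))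
          subst hm0
          rcases L₂ with _ | ⟨b₂, L₂⟩
          · have hn0 : n = 0 := Nat.le_zero.1 (hmin2.2 0 (Null.dig haz.symm))
            subst hn0
            exact ⟨_, Disc.base hab haz hzb, rfl⟩
          · obtain ⟨D', hD', hv⟩ := ih n (by omega) (z :: ((b₂ :: L₂) ++ [a])) (by simp)
              hmin2.1 p2 q2 hi2
            obtain ⟨⟨_, hc, _⟩, _⟩ := hP K _ hPA n D' hD'
            obtain ⟨x, y, Fa, Fz, ta, tz, D, hD, hDl⟩ := DEX.existsL hc hD' hv
            have h2 := Disc.left hab haz hzb hD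
            have h3 : 0 + n + 1 = n + 1 := by omega
            rw [h3]
            exact ⟨_, h2, by simp [hDl]⟩
        · obtain ⟨D', hD', hv⟩ := ih m (by omega) (z :: b :: b₁ :: L₁) (by simp)
            hmin1.1 p1 q1 hi1
          obtain ⟨⟨_, hc, _⟩, _⟩ := hP K _ hPA m D' hD'
          obtain ⟨x, y, Fz, Fb, tz, tb, D, hD, hDl⟩ := DEX.exists2 hc hD' hv
          rcases L₂ with _ | ⟨b₂, L₂⟩
          · have hn0 : n = 0 := Nat.le_zero.1 (hmin2.2 0 (Null.dig haz.symm))
            subst hn0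
            exact ⟨_, Disc.right hab haz hzb hD, by simp [hDl]⟩
          · obtain ⟨D2', hD2', hv2⟩ :=
              ih n (by omega) (z :: ((b₂ :: L₂) ++ [a])) (by simp) hmin2.1 p2 q2 hi2
            obtain ⟨⟨_, hc2, _⟩, _⟩ := hP K _ hPA n D2' hD2'
            obtain ⟨x', y', Fa, Fz', ta, tz', D2, hD2, hDl2⟩ := DEX.existsL hc2 hD2' hv2
            exact ⟨_, Disc.both hab haz hzb hD hD2, by simp [hDl, hDl2]⟩

end DSH

open DSH in
theorem tDSH (hP : T_PD.{u}) (hA3 : T_A3.{u}) (hR : T_RED.{u}) (hF : T_FILL.{u})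
    (hG : T_GLUE.{u}) : T_DSH.{u} := by
  intro V W G K ang l₁ l₂ hA h₁ h₂ A w hw hnull hm₁ hm₂ hirr
  obtain ⟨D, hD, hv⟩ := dex hP hA3 hR hF hG hA h₁ h₂ A w hw hnull hm₁ hm₂ hirr
  obtain ⟨⟨_, hc, hok⟩, hgb, hex⟩ := hP K _ (pAng_av hA h₁ h₂) A D hD
  exact ⟨D, hv, hc, hok, hgb, hex⟩

end Pool.Agent.MSS
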