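import Pool.Agent.MSS.Targets
import Pool.Agent.MSF.FILL

/-! FILLR: short closed walks in links are null, with the vertices of the walk only. -/

set_option autoImplicit false

namespace Pool.Agent.MSS

open List Pool.Agent.MSF

universe u

namespace FILLR

variable {V : Type u} {G : SimpleGraph V} {ang : V → V → V → ℝ}

theorem adj {S : Set V} {a b : V} (h : G.Adj a b) (ha : a ∈ S) (hb : b ∈ S) :
    (resG G S).Adj a b := ⟨h, ha, hb⟩

theorem mem1 {u x y z : V} {R : List V} (hu : u ∈ x :: R) : u ∈ x :: y :: z :: R := by
  rcases List.mem_cons.1 hu with h | h
  · simp [h]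
  · simp [h]

theorem mem2 {u x y z : V} {R : List V} (hu : u ∈ x :: z :: R) : u ∈ x :: y :: z :: R := by
  rcases List.mem_cons.1 hu with h | h
  · simp [h]
  · rcases List.mem_cons.1 h with h | h
    · simp [h]
    · simp [h]

theorem fill (hA : Angled G ang) (v : V) (S : Set V) : ∀ (N : ℕ) (c : List V), c.length = N →
    2 ≤ c.length → CW G c → (∀ x ∈ c, G.Adj v x) → (∀ x ∈ c, x ∈ S) →
    clen ang v c < 2 * Real.pi → Null (resG G S) (c.length - 2) c := by
  intro N
  induction N using Nat.strong_induction_on with
  | _ N ih =>
    intro c hN h2 hcw hv hS hlt
    match c, h2 with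
    | [a, b], _ =>
      simp only [CW, List.nil_append, List.isChain_cons_cons] at hcw
      exact Null.dig (adj hcw.1 (hS a (by simp)) (hS b (by simp)))
    | [a, b, d], _ =>
      simp only [CW, List.singleton_append, List.isChain_cons_cons] at hcw
      exact Null.triangle (adj hcw.1 (hS a (by simp)) (hS b (by simp)))
        (adj hcw.2.1 (hS b (by simp)) (hS d (by simp)))
        (adj hcw.2.2.1.symm (hS a (by simp)) (hS d (by simp)))
    | a :: b :: d :: e :: l, _ =>
      set l' := d :: e :: l with hl'
      have hl'2 : 2 ≤ l'.length := by simp [hl']
      have hne : ¬ NoEar G (b :: (l' ++ [a])) := fun h =>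
        absurd (hA.large v a b l' hl'2 hcw hv h) (not_le.mpr hlt)
      unfold NoEar at hne
      push Not at hne
      obtain ⟨X, x, y, z, Y, hL, hxz⟩ := hne
      have hr1 : (a :: b :: l') ~r (b :: (l' ++ [a])) := by
        have := List.isRotated_append (l := [a]) (l' := b :: l')
        simpa using this
      have hr2 : (X ++ x :: y :: z :: Y) ~r (x :: y :: z :: (Y ++ X)) := by
        have := List.isRotated_append (l := X) (l' := x :: y :: z :: Y)
        simpa using this
      have hr : (a :: b :: l') ~r (x :: y :: z :: (Y ++ X)) := by
        rw [hL] at hr1
        exact hr1.trans hr2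
      set R := Y ++ X with hR
      have hlen : (a :: b :: l').length = (x :: y :: z :: R).length := hr.perm.length_eq
      have hRl : 1 ≤ R.length := by
        simp only [List.length_cons] at hlen
        omega
      have hRne : R ≠ [] := by
        rintro h
        rw [h] at hRl
        simp at hRl
      have hcw' : CW G (x :: y :: z :: R) := hcw.rotated hr
      have hv' : ∀ u ∈ x :: y :: z :: R, G.Adj v u := fun u hu => hv u (hr.mem_iff.2 hu)
      have hS' : ∀ u ∈ x :: y :: z :: R, u ∈ S := fun u hu => hS u (hr.mem_iff.2 hu)
      have hlt' : clen ang v (x :: y :: z :: R) < 2 * Real.pi := by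
        rw [FILL.clen_rotated ang v (by simp) hr]
        exact hlt
      have hgoal : Null (resG G S) ((x :: y :: z :: R).length - 2) (x :: y :: z :: R) →
          Null (resG G S) ((a :: b :: l').length - 2) (a :: b :: l') := by
        intro h
        rw [hlen]
        exact h.rotated hr.symm
      apply hgoal
      have hxy : G.Adj x y := by
        simp only [CW, List.isChain_cons_cons] at hcw'
        exact hcw'.1
      have hyz : G.Adj y z := by
        simp only [CW, List.cons_append, List.isChain_cons_cons] at hcw'
        exact hcw'.2.1
      have hvx : G.Adj v x := hv' x (by simp)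
      have hvy : G.Adj v y := hv' y (by simp)
      have hvz : G.Adj v z := hv' z (by simp)
      have hxyS : (resG G S).Adj x y := adj hxy (hS' x (by simp)) (hS' y (by simp))
      have hyzS : (resG G S).Adj y z := adj hyz (hS' y (by simp)) (hS' z (by simp))
      by_cases hxz' : x = z
      · subst hxz'
        have h1 : CW G (x :: ([y] ++ x :: R)) := hcw'
        have h2 := (CW_unsplit (by simp) hRne h1).2
        have h3 : clen ang v (x :: R) < 2 * Real.pi := by
          refine lt_of_le_of_lt ?_ hlt'
          have e1 : clen ang v (x :: y :: x :: R) =
              ang v x y + (ang v y x + plen ang v (x :: (R ++ [x]))) := by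
            simp [clen, plen]
          have e2 : clen ang v (x :: R) = plen ang v (x :: (R ++ [x])) := rfl
          rw [e1, e2]
          have p1 := hA.pos v x y hvx hvy hxy
          have p2 := hA.pos v y x hvy hvx hxy.symm
          linarith
        have h4 := ih (x :: R).length (by
            simp only [List.length_cons] at hlen hN ⊢
            omega) (x :: R) rfl (by
            simp only [List.length_cons]
            omega) h2
          (fun u hu => hv' u (mem1 hu)) (fun u hu => hS' u (mem1 hu)) h3
        have h5 : Null (resG G S) ((x :: R).length - 2) ([] ++ x :: R) := h4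
        have h6 := h5.spur (by simpa using hRne) hxyS
        refine Null.mono (by simpa using h6) ?_
        simp only [List.length_cons]
        omega
      · have hadj : G.Adj x z := hxz hxz'
        have h2 : CW G (x :: z :: R) := by
          simp only [CW, List.cons_append, List.isChain_cons_cons] at hcw' ⊢
          exact ⟨hadj, hcw'.2.2⟩
        have h3 : clen ang v (x :: z :: R) < 2 * Real.pi := by
          refine lt_of_le_of_lt ?_ hlt'
          have e1 : clen ang v (x :: y :: z :: R) =
              ang v x y + (ang v y z + plen ang v (z :: (R ++ [x]))) := by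
            simp [clen, plen]
          have e2 : clen ang v (x :: z :: R) = ang v x z + plen ang v (z :: (R ++ [x])) := by
            simp [clen, plen]
          rw [e1, e2]
          have := hA.link v x y z hvx hvy hvz hxy hyz hadj
          linarith
        have h4 := ih (x :: z :: R).length (by
            simp only [List.length_cons] at hlen hN ⊢
            omega) (x :: z :: R) rfl (by
            simp only [List.length_cons]
            omega) h2
          (fun u hu => hv' u (mem2 hu)) (fun u hu => hS' u (mem2 hu)) h3
        have h5 : Null (resG G S) ((x :: z :: R).length - 2) ([] ++ x :: z :: R) := h4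
        have h6 := h5.push hxyS hyzS (adj hadj (hS' x (by simp)) (hS' z (by simp)))
        refine Null.mono (by simpa using h6) ?_
        simp only [List.length_cons]
        omega

end FILLR

theorem tFILLR : T_FILLR.{u} := by
  intro V G ang hA v c h2 hcw hv hlt
  exact FILLR.fill hA v {x | x ∈ c} c.length c rfl h2 hcw hv (fun x hx => hx) hlt

end Pool.Agent.MSS
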