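import Pool.Agent.MSS.Targets

/-!
# ISOG: transport along an isomorphism (MSS)
-/

set_option autoImplicit false

namespace Pool.Agent.MSS

open List Pool.Agent.MSF
open Pool.Agent.MSN.Alg (nC)

universe u

namespace ISOG

variable {V W : Type u} {G : SimpleGraph V} {K : SimpleGraph W}

theorem elem_map (e : G ≃g K) {P Q : List V} (h : Elem G P Q) :
    Elem K (P.map e) (Q.map e) := by
  cases h with
  | spur p q a b h =>
    simp only [List.map_append, List.map_cons]
    exact Elem.spur _ _ _ _ (e.map_adj_iff.2 h)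
  | tri p q a b c h1 h2 h3 =>
    simp only [List.map_append, List.map_cons]
    exact Elem.tri _ _ _ _ _ (e.map_adj_iff.2 h1) (e.map_adj_iff.2 h2) (e.map_adj_iff.2 h3)

theorem eqv_map (e : G ≃g K) {P Q : List V} (h : Relation.EqvGen (Elem G) P Q) :
    Relation.EqvGen (Elem K) (P.map e) (Q.map e) := by
  induction h with
  | rel x y h => exact Relation.EqvGen.rel _ _ (elem_map e h)
  | refl x => exact Relation.EqvGen.refl _
  | symm x y _ ih => exact Relation.EqvGen.symm _ _ ih
  | trans x y z _ _ ih1 ih2 => exact Relation.EqvGen.trans _ _ _ ih1 ih2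

theorem sc (e : G ≃g K) (h : SimplyConn G) : SimplyConn K := by
  refine ⟨(SimpleGraph.Iso.connected_iff e).1 h.1, ?_⟩
  intro a p hp
  have h1 : List.IsChain G.Adj (e.symm a :: (p.map e.symm ++ [e.symm a])) := by
    have : (e.symm a :: (p.map e.symm ++ [e.symm a])) = (a :: (p ++ [a])).map e.symm := by
      simp
    rw [this, List.isChain_map]
    exact hp.imp fun x y hxy => e.symm.map_adj_iff.2 hxy
  have h2 := eqv_map e (h.2 _ _ h1)
  have h3 : (e.symm a :: (p.map e.symm ++ [e.symm a])).map e = a :: (p ++ [a]) := by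
    simp [Function.comp_def]
  rw [h3] at h2
  simpa using h2

theorem count (e : G ≃g K) (j : ℕ) : nC G j = nC K j := by
  classical
  refine Nat.card_congr ⟨fun s => ⟨s.1.map e.toEquiv.toEmbedding, ?_, ?_⟩,
    fun s => ⟨s.1.map e.symm.toEquiv.toEmbedding, ?_, ?_⟩, ?_, ?_⟩
  · intro x hx y hy hxy
    simp only [Finset.coe_map, Set.mem_image, Finset.mem_coe] at hx hy
    obtain ⟨a, ha, rfl⟩ := hx
    obtain ⟨b, hb, rfl⟩ := hy
    exact e.map_adj_iff.2 (s.2.1 ha hb fun h => hxy (by rw [h]))
  · rw [Finset.card_map]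
    exact s.2.2
  · intro x hx y hy hxy
    simp only [Finset.coe_map, Set.mem_image, Finset.mem_coe] at hx hy
    obtain ⟨a, ha, rfl⟩ := hx
    obtain ⟨b, hb, rfl⟩ := hy
    exact e.symm.map_adj_iff.2 (s.2.1 ha hb fun h => hxy (by rw [h]))
  · rw [Finset.card_map]
    exact s.2.2
  · intro s
    apply Subtype.ext
    ext x
    simp only [Finset.mem_map_equiv]
    exact iff_of_eq (congrArg (fun y => y ∈ s.1) (e.symm_apply_apply x))
  · intro s
    apply Subtype.ext
    ext x
    simp only [Finset.mem_map_equiv]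
    exact iff_of_eq (congrArg (fun y => y ∈ s.1) (e.apply_symm_apply x))

end ISOG

theorem tISOG : T_ISOG.{u} := fun _ _ e => ⟨ISOG.sc e, ISOG.count e⟩

end Pool.Agent.MSS
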