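import Pool.Agent.MSS.Targets

/-!
# MSS: orbits of orbits
-/

set_option autoImplicit false

namespace Pool.Agent.MSS

universe u

namespace ITER

open Classical

variable {V : Type u} {G : SimpleGraph V} {r' r : V → V → Prop}

/-- the relation of the classes -/
def RR (G : SimpleGraph V) (r' r : V → V → Prop) : OV G r' → OV G r' → Prop :=
  fun s t => ∃ x ∈ s.1, ∃ y ∈ t.1, r x y

lemma eq_of_mem (h' : Equivalence r') {s t : OV G r'} {x : V} (hs : x ∈ s.1) (ht : x ∈ t.1) :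
    s = t := by
  apply Subtype.ext
  ext y
  rw [s.2.2.2 x hs y, t.2.2.2 x ht y]

/-- the union of the members -/
noncomputable def un (T : OV (OG G r') (RR G r' r)) : Finset V :=
  T.1.biUnion fun s => s.1

lemma mem_un {T : OV (OG G r') (RR G r' r)} {x : V} : x ∈ un T ↔ ∃ s ∈ T.1, x ∈ s.1 := by
  unfold un
  exact Finset.mem_biUnion

/-- the forward map -/
noncomputable def fw (hr : Equivalence r) (hrr : ∀ x y, r' x y → r x y)
    (hc : ∀ s : OV G r', ∀ x ∈ s.1, ∀ y, r x y → ∃ t : OV G r', y ∈ t.1)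
    (T : OV (OG G r') (RR G r' r)) : OV G r :=
  ⟨un T, by
    obtain ⟨s, hs⟩ := T.2.1
    obtain ⟨x, hx⟩ := s.2.1
    exact ⟨x, mem_un.2 ⟨s, hs, hx⟩⟩, by
    intro x hx y hy hxy
    obtain ⟨s, hs, hxs⟩ := mem_un.1 (Finset.mem_coe.1 hx)
    obtain ⟨t, ht, hyt⟩ := mem_un.1 (Finset.mem_coe.1 hy)
    by_cases hst : s = t
    · subst hst
      exact s.2.2.1 (Finset.mem_coe.2 hxs) (Finset.mem_coe.2 hyt) hxy
    · exact T.2.2.1 (Finset.mem_coe.2 hs) (Finset.mem_coe.2 ht) hst x hxs y hyt, by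
    intro x hx y
    obtain ⟨s, hs, hxs⟩ := mem_un.1 hx
    constructor
    · intro hy
      obtain ⟨t, ht, hyt⟩ := mem_un.1 hy
      obtain ⟨x', hx', y', hy', h1⟩ := (T.2.2.2 s hs t).1 ht
      have h2 := hrr _ _ ((s.2.2.2 x hxs x').1 hx')
      have h3 := hrr _ _ ((t.2.2.2 y' hy' y).1 hyt)
      exact hr.trans h2 (hr.trans h1 h3)
    · intro hxy
      obtain ⟨t, hyt⟩ := hc s x hxs y hxy
      exact mem_un.2 ⟨t, (T.2.2.2 s hs t).2 ⟨x, hxs, y, hyt, hxy⟩, hyt⟩⟩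

/-- the class of an element of `s` -/
noncomputable def cl (h' : Equivalence r') (hrr : ∀ x y, r' x y → r x y) (s : OV G r) (x : V)
    (hx : x ∈ s.1) : OV G r' :=
  ⟨s.1.filter (fun y => r' x y), ⟨x, Finset.mem_filter.2 ⟨hx, h'.refl x⟩⟩, by
    intro a ha b hb hab
    exact s.2.2.1 (Finset.mem_coe.2 (Finset.mem_filter.1 (Finset.mem_coe.1 ha)).1)
      (Finset.mem_coe.2 (Finset.mem_filter.1 (Finset.mem_coe.1 hb)).1) hab, by
    intro a ha y
    obtain ⟨ha1, ha2⟩ := Finset.mem_filter.1 ha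
    rw [Finset.mem_filter]
    constructor
    · rintro ⟨-, h2⟩
      exact h'.trans (h'.symm ha2) h2
    · intro h1
      exact ⟨(s.2.2.2 a ha1 y).2 (hrr _ _ h1), h'.trans ha2 h1⟩⟩

lemma cl_mem (h' : Equivalence r') (hrr : ∀ x y, r' x y → r x y) (s : OV G r) (x : V)
    (hx : x ∈ s.1) : x ∈ (cl h' hrr s x hx).1 := Finset.mem_filter.2 ⟨hx, h'.refl x⟩

lemma cl_sub (h' : Equivalence r') (hrr : ∀ x y, r' x y → r x y) (s : OV G r) (x : V)
    (hx : x ∈ s.1) : (cl h' hrr s x hx).1 ⊆ s.1 := Finset.filter_subset _ _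

/-- the classes contained in `s` -/
noncomputable def su (r' : V → V → Prop) (s : OV G r) : Finset (OV G r') :=
  Finset.subtype (fun t : Finset V => t.Nonempty ∧ G.IsClique (t : Set V) ∧
    ∀ x ∈ t, ∀ y, y ∈ t ↔ r' x y) s.1.powerset

lemma mem_su {s : OV G r} {t : OV G r'} : t ∈ su r' s ↔ t.1 ⊆ s.1 := by
  unfold su
  rw [← Finset.mem_powerset]
  exact Finset.mem_subtype

/-- the backward map -/
noncomputable def bw (h' : Equivalence r') (hrr : ∀ x y, r' x y → r x y) (s : OV G r) :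
    OV (OG G r') (RR G r' r) :=
  ⟨su r' s, by
    obtain ⟨x, hx⟩ := s.2.1
    exact ⟨cl h' hrr s x hx, mem_su.2 (cl_sub h' hrr s x hx)⟩, by
    intro t ht u hu htu x hx y hy
    have h1 := mem_su.1 (Finset.mem_coe.1 ht)
    have h2 := mem_su.1 (Finset.mem_coe.1 hu)
    refine s.2.2.1 (Finset.mem_coe.2 (h1 hx)) (Finset.mem_coe.2 (h2 hy)) ?_
    rintro rfl
    exact htu (eq_of_mem h' hx hy), by
    intro t ht u
    have h1 := mem_su.1 ht
    constructor
    · intro hu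
      have h2 := mem_su.1 hu
      obtain ⟨x, hx⟩ := t.2.1
      obtain ⟨y, hy⟩ := u.2.1
      exact ⟨x, hx, y, hy, (s.2.2.2 x (h1 hx) y).1 (h2 hy)⟩
    · rintro ⟨x, hx, y, hy, hxy⟩
      rw [mem_su]
      intro z hz
      have h3 : y ∈ s.1 := (s.2.2.2 x (h1 hx) y).2 hxy
      exact (s.2.2.2 y h3 z).2 (hrr _ _ ((u.2.2.2 y hy z).1 hz))⟩

end ITER

open ITER in
/-- ITER -/
theorem tITER : T_ITER.{u} := by
  intro V G r' r h' hr hrr hc
  refine ⟨⟨⟨fw hr hrr hc, bw h' hrr, ?_, ?_⟩, ?_⟩⟩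
  · intro T
    apply Subtype.ext
    show su r' (fw hr hrr hc T) = T.1
    ext t
    rw [mem_su]
    constructor
    · intro h1
      obtain ⟨x, hx⟩ := t.2.1
      obtain ⟨s, hs, hxs⟩ := mem_un.1 (h1 hx)
      rw [eq_of_mem h' hx hxs]
      exact hs
    · intro ht x hx
      exact mem_un.2 ⟨t, ht, hx⟩
  · intro s
    apply Subtype.ext
    show un (bw h' hrr s) = s.1
    ext x
    rw [mem_un]
    constructor
    · rintro ⟨t, ht, hx⟩
      exact mem_su.1 ht hx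
    · intro hx
      exact ⟨cl h' hrr s x hx, mem_su.2 (cl_sub h' hrr s x hx), cl_mem h' hrr s x hx⟩
  · intro T T'
    constructor
    · intro h t ht t' ht' x hx y hy
      exact h x (mem_un.2 ⟨t, ht, hx⟩) y (mem_un.2 ⟨t', ht', hy⟩)
    · intro h x hx y hy
      obtain ⟨t, ht, hxt⟩ := mem_un.1 hx
      obtain ⟨t', ht', hyt⟩ := mem_un.1 hy
      exact h t ht t' ht' x hxt y hyt

end Pool.Agent.MSS
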