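import Pool.Agent.MSS.Basic
import Pool.Agent.MSO.WDefs

/-! MOD2: uniqueness of fillings modulo two. -/

set_option autoImplicit false

namespace Pool.Agent.MSS

open List Pool.Agent.MSF
open Pool.Agent.MSO (NullW Alt3 Cocy WBas T_WBAS T_WPAIR)

universe u

namespace MOD2

variable {V : Type u}

theorem two0 : (2 : ZMod 2) = 0 := rfl

theorem neg2 (x : ZMod 2) : -x = x := by
  linear_combination (-x) * two0

/-! ### path sums -/

/-- sum over the edges of a path -/
def ps (e : V → V → ZMod 2) : List V → ZMod 2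
  | [] => 0
  | [_] => 0
  | (a :: b :: l) => e a b + ps e (b :: l)

/-- sum over the edges of a cyclic list -/
def cs (e : V → V → ZMod 2) : List V → ZMod 2
  | [] => 0
  | (a :: l) => ps e (a :: (l ++ [a]))

theorem ps_split (e : V → V → ZMod 2) : ∀ (X : List V) (a : V) (Y : List V),
    ps e (X ++ a :: Y) = ps e (X ++ [a]) + ps e (a :: Y)
  | [], a, Y => by simp [ps]
  | [x], a, Y => by simp [ps]
  | (x :: x' :: X), a, Y => by
    have := ps_split e (x' :: X) a Y
    simp only [List.cons_append, ps] at this ⊢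
    rw [this]
    ring

theorem ps_snoc2 (e : V → V → ZMod 2) (X : List V) (a b : V) :
    ps e (X ++ [a, b]) = ps e (X ++ [a]) + e a b := by
  have := ps_split e X a [b]
  simpa [ps] using this

theorem ps_reverse {e : V → V → ZMod 2} (hs : ∀ a b, e a b = e b a) :
    ∀ l : List V, ps e l.reverse = ps e l
  | [] => rfl
  | [_] => rfl
  | (a :: b :: l) => by
    have ih := ps_reverse hs (b :: l)
    simp only [List.reverse_cons, List.append_assoc, List.singleton_append] at ih ⊢
    rw [ps_snoc2, ih]
    simp only [ps]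
    rw [hs b a]
    ring

theorem ps_map {e : V → V → ZMod 2} {f : V → V} (hf : ∀ a b, e (f a) (f b) = e a b) :
    ∀ l : List V, ps e (l.map f) = ps e l
  | [] => rfl
  | [_] => rfl
  | (a :: b :: l) => by
    have ih := ps_map hf (b :: l)
    simp only [List.map_cons, ps] at ih ⊢
    rw [ih, hf]

theorem cs_rot (e : V → V → ZMod 2) (a : V) (l : List V) : cs e (l ++ [a]) = cs e (a :: l) := by
  cases l with
  | nil => rfl
  | cons c l =>
    have h : ps e ((c :: l) ++ a :: [c]) = ps e ((c :: l) ++ [a]) + ps e (a :: [c]) :=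
      ps_split e (c :: l) a [c]
    simp only [cs, List.cons_append, List.append_assoc, List.nil_append, ps] at h ⊢
    rw [h]
    ring

theorem cs_split (e : V → V → ZMod 2) (a : V) (l l' : List V) :
    cs e (a :: (l ++ a :: l')) = cs e (a :: l) + cs e (a :: l') := by
  have h := ps_split e (a :: l) a (l' ++ [a])
  simpa [cs] using h

/-! ### values -/

/-- change of the cocycle by a coboundary -/
theorem cob {K : SimpleGraph V} {ω ω' : V → V → V → ZMod 2} {e : V → V → ZMod 2}
    (he0 : ∀ a, e a a = 0) (hs : ∀ a b, e a b = e b a)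
    (h : ∀ x y z, K.Adj x y → K.Adj x z → K.Adj z y →
      ω' x y z = ω x y z + (e x y + e y z + e x z)) {m : ℕ} {w : List V} {t : ZMod 2}
    (hn : NullW K ω m w t) : NullW K ω' m w (t + cs e w) := by
  induction hn with
  | pt a =>
    have e1 : (0 : ZMod 2) + cs e [a] = 0 := by simp [cs, ps, he0]
    rw [e1]
    exact NullW.pt a
  | @dig a b hab =>
    have e1 : (0 : ZMod 2) + cs e [a, b] = 0 := by
      simp only [cs, List.cons_append, List.nil_append, ps]
      rw [hs b a]
      linear_combination (e a b) * two0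
    rw [e1]
    exact NullW.dig hab
  | @rot m a l t _ ih =>
    rw [cs_rot]
    exact ih.rot
  | @tri m a b z l t hab haz hzb _ ih =>
    have h1 := NullW.tri hab haz hzb ih
    have e1 : t + cs e (a :: z :: b :: l) + ω' a b z =
        t + ω a b z + cs e (a :: b :: l) := by
      rw [h a b z hab haz hzb]
      simp only [cs, List.cons_append, ps]
      rw [hs z b]
      linear_combination (e a z + e b z) * two0
    rw [e1] at h1
    exact h1
  | @split m n a l l' t t' hl hl' _ _ ih ih' =>
    have h1 := NullW.split hl hl' ih ih'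
    have e1 : t + cs e (a :: l) + (t' + cs e (a :: l')) =
        t + t' + cs e (a :: (l ++ a :: l')) := by
      rw [cs_split]
      ring
    rw [e1] at h1
    exact h1
  | weak _ ih => exact ih.weak

/-- image of a filling -/
theorem mapW {K : SimpleGraph V} {ω ω' : V → V → V → ZMod 2} (g : V → V)
    (hg : ∀ a b, K.Adj a b → K.Adj (g a) (g b))
    (hω : ∀ x y z, ω' (g x) (g y) (g z) = ω x y z) {m : ℕ} {w : List V} {t : ZMod 2}
    (hn : NullW K ω m w t) : NullW K ω' m (w.map g) t := by
  induction hn with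
  | pt a => simpa using NullW.pt (G := K) (ω := ω') (g a)
  | dig hab => simpa using NullW.dig (ω := ω') (hg _ _ hab)
  | @rot m a l t _ ih =>
    simp only [List.map_cons] at ih
    simpa using ih.rot
  | @tri m a b z l t hab haz hzb _ ih =>
    simp only [List.map_cons] at ih
    have h1 := NullW.tri (hg _ _ hab) (hg _ _ haz) (hg _ _ hzb) ih
    rw [hω] at h1
    simpa using h1
  | @split m n a l l' t t' hl hl' _ _ ih ih' =>
    simp only [List.map_cons] at ih ih'
    have h1 := NullW.split (by simpa using hl) (by simpa using hl') ih ih'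
    simpa using h1
  | weak _ ih => exact ih.weak

/-- exchange of one vertex -/
theorem swapW {K : SimpleGraph V} {ω : V → V → V → ZMod 2} (hB : WBas K ω) {m : ℕ}
    {t : ZMod 2} {X Y : List V} {x q q' z : V} (h : NullW K ω m (X ++ x :: q :: z :: Y) t)
    (h1 : K.Adj x q) (h2 : K.Adj x q') (h3 : K.Adj q' q) (h4 : K.Adj q' z) (h5 : K.Adj q z) :
    NullW K ω (m + 1 + 1) (X ++ x :: q' :: z :: Y) (t + ω x q' q + ω q' z q) := by
  have h6 := hB.push m x q q' X (z :: Y) t h h1 h2 h3
  have h7 : NullW K ω (m + 1) ((X ++ [x]) ++ q' :: q :: z :: Y) (t + ω x q' q) := by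
    simpa using h6
  have h8 := hB.triAt (m + 1) q' z q (X ++ [x]) Y _ h7 h4 h3 h5
  simpa using h8

/-! ### the functions -/

open Classical in
/-- indicator of the edge `b b'` -/
noncomputable def ee (b b' x y : V) : ZMod 2 :=
  if (x = b ∧ y = b') ∨ (x = b' ∧ y = b) then 1 else 0

theorem ee_symm (b b' x y : V) : ee b b' x y = ee b b' y x := by
  unfold ee
  congr 1
  apply propext
  constructor
  · rintro (⟨h1, h2⟩ | ⟨h1, h2⟩)
    · exact Or.inr ⟨h2, h1⟩
    · exact Or.inl ⟨h2, h1⟩
  · rintro (⟨h1, h2⟩ | ⟨h1, h2⟩)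
    · exact Or.inr ⟨h2, h1⟩
    · exact Or.inl ⟨h2, h1⟩

theorem ee_self {b b' : V} (h : b ≠ b') (x : V) : ee b b' x x = 0 := by
  unfold ee
  rw [if_neg]
  rintro (⟨h1, h2⟩ | ⟨h1, h2⟩)
  · exact h (h1.symm.trans h2)
  · exact h (h2.symm.trans h1)

theorem ee_one (b b' : V) : ee b b' b' b = 1 := by
  unfold ee
  rw [if_pos (Or.inr ⟨rfl, rfl⟩)]

theorem ee_left {b b' x : V} (h1 : x ≠ b) (h2 : x ≠ b') (y : V) : ee b b' x y = 0 := by
  unfold ee
  rw [if_neg]
  rintro (⟨h3, -⟩ | ⟨h3, -⟩)
  · exact h1 h3
  · exact h2 h3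

theorem ee_right {b b' y : V} (h1 : y ≠ b) (h2 : y ≠ b') (x : V) : ee b b' x y = 0 := by
  rw [ee_symm]
  exact ee_left h1 h2 x

theorem ee_b {b b' : V} (h : b ≠ b') {x : V} (hx : x ≠ b') : ee b b' b x = 0 := by
  unfold ee
  rw [if_neg]
  rintro (⟨-, h2⟩ | ⟨h1, -⟩)
  · exact hx h2
  · exact h h1

theorem ee_b' {b b' : V} (h : b ≠ b') {x : V} (hx : x ≠ b) : ee b b' b' x = 0 := by
  unfold ee
  rw [if_neg]
  rintro (⟨h1, -⟩ | ⟨-, h2⟩)
  · exact h h1.symm
  · exact hx h2

/-- the cocycle -/
def om (e : V → V → ZMod 2) (τ : V → ZMod 2) (x y z : V) : ZMod 2 :=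
  e x y * τ z + e y z * τ x + e x z * τ y

theorem om_alt {e : V → V → ZMod 2} (hs : ∀ a b, e a b = e b a) (τ : V → ZMod 2) :
    Alt3 (om e τ) where
  s12 a b c := by
    rw [neg2]
    unfold om
    rw [hs b a]
    ring
  s23 a b c := by
    rw [neg2]
    unfold om
    rw [hs c b]
    ring

theorem no5 {G : SimpleGraph V} (hcf : G.CliqueFree 5) {a b c d e : V} (hab : G.Adj a b)
    (hac : G.Adj a c) (had : G.Adj a d) (hae : G.Adj a e) (hbc : G.Adj b c) (hbd : G.Adj b d)
    (hbe : G.Adj b e) (hcd : G.Adj c d) (hce : G.Adj c e) (hde : G.Adj d e) : False := by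
  classical
  refine hcf {a, b, c, d, e} ⟨?_, ?_⟩
  · intro x hx y hy hxy
    simp only [Finset.coe_insert, Finset.coe_singleton, Set.mem_insert_iff,
      Set.mem_singleton_iff] at hx hy
    rcases hx with rfl | rfl | rfl | rfl | rfl <;> rcases hy with rfl | rfl | rfl | rfl | rfl <;>
      first
        | exact absurd rfl hxy
        | assumption
        | (apply SimpleGraph.Adj.symm; assumption)
  · rw [Finset.card_insert_of_notMem, Finset.card_insert_of_notMem, Finset.card_insert_of_notMem,
      Finset.card_insert_of_notMem, Finset.card_singleton]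
    · simpa using hde.ne
    · simp only [Finset.mem_insert, Finset.mem_singleton, not_or]
      exact ⟨hcd.ne, hce.ne⟩
    · simp only [Finset.mem_insert, Finset.mem_singleton, not_or]
      exact ⟨hbc.ne, hbd.ne, hbe.ne⟩
    · simp only [Finset.mem_insert, Finset.mem_singleton, not_or]
      exact ⟨hab.ne, hac.ne, had.ne, hae.ne⟩

/-- the reversed image of the closed walk, up to rotation -/
def c2 (f : Equiv.Perm V) (tp tq : Bool) (b q : V) (P : List V) : List V :=
  (if tp then f b else b) :: (P ++ (if tq then f q else q) ::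
    ((if tq then [] else [f q]) ++ ((P.map f).reverse ++ (if tp then [] else [f b]))))

theorem rev_rot (f : Equiv.Perm V) (ff : ∀ v, f (f v) = v) (tp tq : Bool) (b q : V)
    (P : List V) : ((cC f tp tq b q P).map f).reverse ~r c2 f tp tq b q P := by
  have hm : ∀ l : List V, (l.map f).map f = l := by
    intro l
    rw [List.map_map]
    have : (f : V → V) ∘ f = id := by
      funext v
      exact ff v
    rw [this, List.map_id]
  cases tp with
  | false =>
    have e : ((cC f false tq b q P).map f).reverse = c2 f false tq b q P := by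
      unfold cC c2
      cases tq <;> simp [ff, List.map_reverse, Function.comp_def]
    rw [e]
  | true =>
    have e : ((cC f true tq b q P).map f).reverse =
        (P ++ (if tq then f q else q) :: ((if tq then [] else [f q]) ++ (P.map f).reverse)) ++
          [f b] := by
      unfold cC
      cases tq <;> simp [ff, List.map_reverse, Function.comp_def]
    rw [e]
    unfold c2
    have := List.isRotated_append
      (l := (P ++ (if tq then f q else q) :: ((if tq then [] else [f q]) ++ (P.map f).reverse)))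
      (l' := [f b])
    simpa using this

/-! ### passages through the edge -/

theorem ps_snoc0 {e : V → V → ZMod 2} {q : V} (hq : ∀ x, e x q = 0) (L : List V) :
    ps e (L ++ [q]) = ps e L := by
  rcases List.eq_nil_or_concat L with rfl | ⟨L', x, rfl⟩
  · rfl
  · have := ps_snoc2 e L' x q
    rw [hq, add_zero] at this
    simpa using this

theorem ps_cons0 {e : V → V → ZMod 2} {q : V} (hq : ∀ x, e q x = 0) (L : List V) :
    ps e (q :: L) = ps e L := by
  cases L with
  | nil => rfl
  | cons x L =>
    simp only [ps]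
    rw [hq, zero_add]

theorem cs_cC {e : V → V → ZMod 2} {f : Equiv.Perm V} (hs : ∀ a b, e a b = e b a)
    (hf : ∀ a b, e (f a) (f b) = e a b) {b q : V} {P : List V} (tp tq : Bool) (hP : P ≠ [])
    (hq : ∀ x, e q x = 0) (hq' : ∀ x, e (f q) x = 0) (hb : e (f b) b = 1)
    (hp : tp = true → ∀ x ∈ P.head?, e b x = 0 ∧ e (f x) b = 0) :
    cs e (cC f tp tq b q P) = if tp then 0 else 1 := by
  have h1 : cs e (cC f tp tq b q P) = ps e (b :: P) +
      ps e ((P.map f).reverse ++ ((if tp then [] else [f b]) ++ [b])) := by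
    have h2 : cs e (cC f tp tq b q P) = ps e ((b :: P) ++ q :: ((if tq then [] else [f q]) ++
        ((P.map f).reverse ++ ((if tp then [] else [f b]) ++ [b])))) := by
      unfold cC cs
      simp
    rw [h2, ps_split, ps_snoc0 (fun x => by rw [hs]; exact hq x), ps_cons0 hq]
    congr 1
    cases tq with
    | true => simp
    | false => simpa using ps_cons0 hq' _
  rw [h1]
  cases tp with
  | false =>
    have h3 : ps e ((P.map f).reverse ++ ((if false then [] else [f b]) ++ [b])) =
        ps e (b :: P) + 1 := by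
      have h4 := ps_snoc2 e (P.map f).reverse (f b) b
      have h5 : (P.map f).reverse ++ [f b] = ((b :: P).map f).reverse := by simp
      rw [hb, h5, ps_reverse hs, ps_map hf] at h4
      simpa using h4
    rw [h3]
    simp only [Bool.false_eq_true, if_false]
    linear_combination (ps e (b :: P)) * two0
  | true =>
    cases P with
    | nil => exact absurd rfl hP
    | cons x P1 =>
      obtain ⟨p1, p2⟩ := hp rfl x (by simp)
      have h3 : ps e (((x :: P1).map f).reverse ++ ((if true then [] else [f b]) ++ [b])) =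
          ps e (x :: P1) := by
        have h4 := ps_snoc2 e (P1.map f).reverse (f x) b
        have h5 : (P1.map f).reverse ++ [f x] = ((x :: P1).map f).reverse := by simp
        rw [p2, h5, ps_reverse hs, ps_map hf] at h4
        simpa using h4
      rw [h3]
      simp only [ps, if_true]
      rw [p1]
      linear_combination (ps e (x :: P1)) * two0

/-! ### exchange of the ends -/

theorem stepq {K : SimpleGraph V} {e : V → V → ZMod 2} {τ : V → ZMod 2}
    (hB : WBas K (om e τ)) (hs : ∀ a b, e a b = e b a) {f : Equiv.Perm V} {b q : V}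
    {P E : List V} {m : ℕ} {t : ZMod 2} (hP : P ≠ []) (tq : Bool)
    (hE : ∀ z, e q z = 0) (hE' : ∀ z, e (f q) z = 0)
    (hq : tq = true → f q = q ∨ K.Adj q (f q))
    (hadj : tq = true → ∀ x ∈ P.getLast?, K.Adj x q ∧ K.Adj x (f q) ∧ K.Adj q (f x) ∧
      K.Adj (f q) (f x))
    (h : NullW K (om e τ) m
      (b :: (P ++ q :: ((if tq then [] else [f q]) ++ ((P.map f).reverse ++ E)))) t) :
    ∃ m', NullW K (om e τ) m' (b :: (P ++ (if tq then f q else q) ::
      ((if tq then [] else [f q]) ++ ((P.map f).reverse ++ E)))) t := by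
  cases tq with
  | false => exact ⟨m, by simpa using h⟩
  | true =>
    rcases hq rfl with hq1 | hq1
    · exact ⟨m, by simpa [hq1] using h⟩
    · rcases List.eq_nil_or_concat P with rfl | ⟨P0, x, rfl⟩
      · exact absurd rfl hP
      · obtain ⟨a1, a2, a3, a4⟩ := hadj rfl x (by simp)
        have h1 : NullW K (om e τ) m
            ((b :: P0) ++ x :: q :: f x :: ((P0.map f).reverse ++ E)) t := by
          simpa using h
        have h2 := swapW hB h1 a1 a2 hq1.symm a4 a3
        have z1 : om e τ x (f q) q = 0 := by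
          unfold om
          rw [hs x (f q), hs x q, hE', hE, hE']
          ring
        have z2 : om e τ (f q) (f x) q = 0 := by
          unfold om
          rw [hs (f x) q, hE', hE, hE']
          ring
        rw [z1, z2, add_zero, add_zero] at h2
        exact ⟨_, by simpa using h2⟩

theorem stepb {K : SimpleGraph V} {ω : V → V → V → ZMod 2} (hB : WBas K ω) {b b' x z : V}
    {W : List V} {m : ℕ} {t : ZMod 2} (h1 : K.Adj z b) (h2 : K.Adj z b') (h3 : K.Adj b' b)
    (h4 : K.Adj b' x) (h5 : K.Adj b x) (h : NullW K ω m (b :: x :: (W ++ [z])) t) :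
    NullW K ω (m + 1 + 1) (b' :: x :: (W ++ [z])) (t + ω z b' b + ω b' x b) := by
  have r1 : (b :: x :: (W ++ [z])) ~r ([] ++ z :: b :: x :: W) := by
    have := List.isRotated_append (l := b :: x :: W) (l' := [z])
    simpa using this
  have r2 : ([] ++ z :: b' :: x :: W) ~r (b' :: x :: (W ++ [z])) := by
    have := List.isRotated_append (l := [z]) (l' := b' :: x :: W)
    simpa using this
  exact hB.rotated _ _ _ _ (swapW hB (hB.rotated _ _ _ _ h r1) h1 h2 h3 h4 h5) r2

end MOD2

open MOD2 in
theorem tMOD2 (hCLC : T_CLC.{u}) (hFILLR : T_FILLR.{u}) (hWB : T_WBAS.{u})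
    (hWP : T_WPAIR.{u}) (hRES : T_RES.{u}) : T_MOD2.{u} := by
  classical
  intro V G ang f ρ hI tp tq y b q P hC hqb hqfb hlt
  obtain ⟨hcw, hlk, -⟩ := hCLC G ang f ρ hI tp tq y b q P hC
  have hA := hI.angled
  have haut := hI.aut
  have ff := hI.inv
  by_contra hno
  set C := cC f tp tq b q P with hCdef
  set S : Set V := {x | G.Adj y x ∧ (x ∈ C ∨ f x ∈ C)} with hS
  set K := resG G S with hK
  have yf : ∀ x, G.Adj y x → G.Adj y (f x) := by
    intro x hx
    have := (haut.adj y x).2 hx
    rwa [hC.fy] at this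
  have hSf : ∀ x, x ∈ S → f x ∈ S := by
    rintro x ⟨h1, h2⟩
    refine ⟨yf x h1, ?_⟩
    rcases h2 with h2 | h2
    · exact Or.inr (by rw [ff]; exact h2)
    · exact Or.inl h2
  have hCS : ∀ x ∈ C, x ∈ S := fun x hx => ⟨hlk x hx, Or.inl hx⟩
  have hKf : ∀ a c, K.Adj a c → K.Adj (f a) (f c) := fun a c h =>
    ⟨(haut.adj a c).2 h.1, hSf a h.2.1, hSf c h.2.2⟩
  -- membership
  have mC : ∀ x, x ∈ C ↔ x = b ∨ x ∈ P ∨ x = q ∨ (tq = false ∧ x = f q) ∨ x ∈ P.map f ∨
      (tp = false ∧ x = f b) := by
    intro x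
    rw [hCdef]
    unfold cC
    cases tp <;> cases tq <;> simp
  have bC : b ∈ C := (mC b).2 (Or.inl rfl)
  have qC : q ∈ C := (mC q).2 (Or.inr (Or.inr (Or.inl rfl)))
  have PC : ∀ x ∈ P, x ∈ C := fun x hx => (mC x).2 (Or.inr (Or.inl hx))
  have hbfb : b ≠ f b := hC.fb.ne
  have hfix : ∀ w ∈ S, G.Adj w b → f w ≠ w := by
    rintro w ⟨-, hw⟩ hwb hfw
    rw [hfw, or_self, mC] at hw
    rcases hw with rfl | hw | rfl | ⟨h1, rfl⟩ | hw | ⟨h1, rfl⟩
    · exact G.loopless.irrefl _ hwb
    · exact hC.nf w hw hfw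
    · exact hno ⟨hfw, hwb⟩
    · rw [ff] at hfw
      have := hC.hq' h1
      rw [← hfw] at this
      exact G.loopless.irrefl _ this
    · obtain ⟨p, hp, rfl⟩ := List.mem_map.1 hw
      rw [ff] at hfw
      exact hC.nf p hp hfw.symm
    · rw [ff] at hfw
      exact hbfb hfw
  -- no cliques with four elements
  have h4 : ∀ a c d g, K.Adj a c → K.Adj a d → K.Adj a g → K.Adj c d → K.Adj c g →
      K.Adj d g → False := by
    intro a c d g h1 h2 h3 h4 h5 h6
    exact no5 hI.cf h1.2.1.1 h1.2.2.1 h2.2.2.1 h3.2.2.1 h1.1 h2.1 h3.1 h4.1 h5.1 h6.1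
  have hAK : Angled K ang := hRES G ang S hA
  -- the filling
  have hnull : Null K (C.length - 2) C := by
    have h1 := hFILLR G ang hA y C (by rw [hCdef]; unfold cC; simp; omega) hcw hlk hlt
    have h2 := h1.map (G' := K) id (fun a c (h : (resG G {x | x ∈ C}).Adj a c) =>
      ⟨h.1, hCS a h.2.1, hCS c h.2.2⟩)
    simpa using h2
  -- the cocycles
  set e : V → V → ZMod 2 := ee b (f b) with he
  have hs : ∀ a c, e a c = e c a := ee_symm b (f b)
  have he0 : ∀ a, e a a = 0 := ee_self hbfb
  have hef : ∀ a c, e (f a) (f c) = e a c := by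
    intro a c
    have k1 : ∀ a, f a = b ↔ a = f b := fun a =>
      ⟨fun h => by rw [← h, ff], fun h => by rw [h, ff]⟩
    have k2 : ∀ a, f a = f b ↔ a = b := fun a => f.injective.eq_iff
    simp only [he, ee, k1, k2]
    congr 1
    apply propext
    exact Or.comm
  set τ : V → ZMod 2 := fun z => if WellOrderingRel z (f z) then 1 else 0 with hτ
  have hττ : ∀ z, f z ≠ z → τ z + τ (f z) = 1 := by
    intro z hz
    simp only [hτ]
    rw [ff]
    rcases trichotomous_of WellOrderingRel z (f z) with h | h | h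
    · have h' : ¬ WellOrderingRel (f z) z := asymm_of WellOrderingRel h
      rw [if_pos h, if_neg h', add_zero]
    · exact absurd h.symm hz
    · have h' : ¬ WellOrderingRel z (f z) := asymm_of WellOrderingRel h
      rw [if_neg h', if_pos h, zero_add]
  set ω1 := om e τ with hω1
  set ω2 := om e (fun z => τ (f z)) with hω2
  have hB1 : WBas K ω1 := hWB K ω1 (om_alt hs _)
  have hB2 : WBas K ω2 := hWB K ω2 (om_alt hs _)
  have hco2 : Cocy K ω2 := by
    intro a c d g h1 h2 h3 h5 h6 h7
    exact absurd (h4 a c d g h1 h2 h3 h5 h6 h7) not_false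
  have h12 : ∀ x z w, ω2 (f x) (f z) (f w) = ω1 x z w := by
    intro x z w
    simp only [hω1, hω2, om, hef, ff]
  have hcob : ∀ x z w, K.Adj x z → K.Adj x w → K.Adj w z →
      ω2 x z w = ω1 x z w + (e x z + e z w + e x w) := by
    intro x z w h1 h2 h3
    have key : ∀ x z w, K.Adj x z → K.Adj x w → K.Adj w z →
        e x z * τ (f w) = e x z * τ w + e x z := by
      intro x z w h1 h2 h3
      by_cases h : (x = b ∧ z = f b) ∨ (x = f b ∧ z = b)
      · have hw : f w ≠ w := by
          rcases h with ⟨rfl, rfl⟩ | ⟨rfl, rfl⟩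
          · exact hfix w h2.2.2 h2.1.symm
          · exact hfix w h2.2.2 h3.1
        have h5 := hττ w hw
        linear_combination (e x z) * h5 - (e x z * τ w) * two0
      · have : e x z = 0 := by
          simp only [he, ee]
          rw [if_neg h]
        rw [this]
        ring
    have k1 := key x z w h1 h2 h3
    have k2 := key z w x h3.symm h1.symm h2
    have k3 := key x w z h2 h1 h3.symm
    simp only [hω1, hω2, om]
    linear_combination k1 + k2 + k3
  -- values
  obtain ⟨t, ht⟩ := hB1.ex _ _ hnull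
  have v1 : NullW K ω2 (C.length - 2) C (t + cs e C) := cob he0 hs hcob ht
  have v2 : NullW K ω2 (C.length - 2) (C.map f) t := mapW f hKf h12 ht
  have v3 : NullW K ω2 (C.length - 2) (c2 f tp tq b q P) t := by
    have h5 := hB2.reverse _ _ _ v2
    rw [neg2] at h5
    exact hB2.rotated _ _ _ _ h5 (rev_rot f ff tp tq b q P)
  -- the functions at the ends
  have hqe : ∀ x, e q x = 0 := ee_left hqb hqfb
  have hqe' : ∀ x, e (f q) x = 0 := by
    refine ee_left (fun h => hqfb ?_) (fun h => hqb (f.injective h))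
    rw [← h, ff]
  have hbe : e (f b) b = 1 := ee_one b (f b)
  have hhead : ∀ x ∈ P.head?, G.Adj b x := by
    intro x hx
    have h := hC.chain
    rw [List.isChain_cons] at h
    refine h.1 x ?_
    rw [List.head?_append_of_ne_nil _ hC.ne]
    exact hx
  have hlast : ∀ x ∈ P.getLast?, G.Adj x q := by
    intro x hx
    have h := hC.chain
    rw [List.isChain_cons, List.isChain_append] at h
    exact h.2.2.2 x hx q (by simp)
  have hpe : tp = true → ∀ x ∈ P.head?, e b x = 0 ∧ e (f x) b = 0 := by
    intro htp x hx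
    have k1 := hC.hp htp x hx
    have k2 := hhead x hx
    refine ⟨ee_b hbfb k1.ne, ?_⟩
    rw [hs]
    exact ee_b hbfb (fun h => k2.ne (f.injective h).symm)
  have hcs := cs_cC (e := e) hs hef tp tq hC.ne hqe hqe' hbe hpe
  obtain ⟨cv, hcv⟩ : ∃ cv, cv = cs e C := ⟨_, rfl⟩
  rw [← hCdef, ← hcv] at hcs
  rw [← hcv] at v1
  -- the exchange of `q`
  obtain ⟨m1, v4⟩ := stepq (τ := fun z => τ (f z)) (b := b) (q := q) (P := P)
    (E := if tp then [] else [f b]) hB2 hs hC.ne tq hqe hqe' (by
      intro htq
      rcases (hC.hq htq).1 with h | h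
      · exact Or.inl h
      · exact Or.inr ⟨h, hCS q qC, hSf q (hCS q qC)⟩) (by
      intro htq x hx
      have k1 := hlast x hx
      have k2 := (hC.hq htq).2 x hx
      have k3 : x ∈ S := hCS x (PC x (List.mem_of_getLast? hx))
      have k4 := hCS q qC
      refine ⟨⟨k1, k3, k4⟩, ⟨k2, k3, hSf q k4⟩, ⟨?_, k4, hSf x k3⟩, ⟨?_, hSf q k4, hSf x k3⟩⟩
      · have := (haut.adj x (f q)).2 k2
        rw [ff] at this
        exact this.symm
      · exact ((haut.adj x q).2 k1).symm) (by
      rw [hCdef] at v1
      exact v1)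
  -- the exchange of `b`
  have v5 : ∃ m2, NullW K ω2 m2 (c2 f tp tq b q P) (t + cv + if tp then 1 else 0) := by
    cases htp : tp with
    | false =>
      refine ⟨m1, ?_⟩
      rw [htp] at v4
      simp only [Bool.false_eq_true, if_false, add_zero]
      exact v4
    | true =>
      rw [htp] at v4
      obtain ⟨x, P1, hP1⟩ := List.exists_cons_of_ne_nil hC.ne
      have k1 : G.Adj x (f b) := hC.hp htp x (by rw [hP1]; simp)
      have k2 : G.Adj b x := hhead x (by rw [hP1]; simp)
      have k3 : x ∈ S := hCS x (PC x (by rw [hP1]; simp))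
      have k4 := hCS b bC
      have k5 : f x ≠ x := hC.nf x (by rw [hP1]; simp)
      obtain ⟨k6, k7⟩ := hpe htp x (by rw [hP1]; simp)
      have a1 : G.Adj (f x) b := by
        have := (haut.adj x (f b)).2 k1
        rwa [ff] at this
      have a2 : G.Adj (f x) (f b) := ((haut.adj b x).2 k2).symm
      have v6 : NullW K ω2 m1 (b :: x :: ((P1 ++ (if tq then f q else q) ::
          ((if tq then [] else [f q]) ++ (P1.map f).reverse)) ++ [f x])) (t + cv) := by
        rw [hP1] at v4
        simpa using v4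
      have v7 := stepb hB2 (b' := f b) ⟨a1, hSf x k3, k4⟩ ⟨a2, hSf x k3, hSf b k4⟩
        ⟨hC.fb.symm, hSf b k4, k4⟩ ⟨k1.symm, hSf b k4, k3⟩ ⟨k2, k4, k3⟩ v6
      have z1 : ω2 (f x) (f b) b + ω2 (f b) x b = 1 := by
        have y1 : e (f x) (f b) = 0 := by rw [hef, hs]; exact k6
        have y2 : e (f b) x = 0 := ee_b' hbfb (fun h => k2.ne h.symm)
        have y3 : e x b = 0 := by rw [hs]; exact k6
        have y4 := hττ x k5
        simp only [hω2, om]
        rw [y1, y2, y3, k7, hbe, ff]
        linear_combination y4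
      refine ⟨m1 + 1 + 1, ?_⟩
      rw [add_assoc (t + cv), z1] at v7
      simp only [if_true]
      unfold c2
      rw [hP1]
      simpa using v7
  obtain ⟨m2, v5⟩ := v5
  have huni := hWP K ang ω2 hAK (om_alt hs _) hco2 _ _ _ _ _ v3 v5
  rw [hcs] at huni
  cases tp with
  | false =>
    simp only [Bool.false_eq_true, if_false, add_zero] at huni
    exact one_ne_zero (α := ZMod 2) (by linear_combination -huni)
  | true =>
    simp only [if_true, add_zero] at huni
    exact one_ne_zero (α := ZMod 2) (by linear_combination -huni)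

end Pool.Agent.MSS
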