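import Pool.Agent.MSS.Basic
import Pool.Agent.MSF.T3

/-!
# MSS, target NCOR: a corner with a single flipped label
-/

set_option autoImplicit false

namespace Pool.Agent.MSS

open List Pool.Agent.MSF

universe u

namespace NCOR

variable {V : Type u} {G : SimpleGraph V} {f : Equiv.Perm V} {ang : V → V → V → ℝ}

/-- Paths `L` of single labels from `x` to `z` in the link of `b` which can replace `x b z`. -/
structure Good (G : SimpleGraph V) (f : Equiv.Perm V) (ang : V → V → V → ℝ) (B : Set V)
    (b x z : V) (R : List (V × Bool)) (A : ℕ) (L : List V) : Prop where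
  head : L.head? = some x
  last : L.getLast? = some z
  chain : List.IsChain G.Adj L
  link : ∀ y ∈ L, G.Adj b y
  len : plen ang b L + ang b x (f b) + ang b z (f b) < 2 * Real.pi
  null : ∃ k, Null (HG G f B) k (L.map (fun y => (y, false)) ++ R) ∧ k + L.length ≤ A + 1

theorem good_form {B : Set V} {b x z : V} {R : List (V × Bool)} {A : ℕ} {L : List V}
    (h : Good G f ang B b x z R A L) (hxz : x ≠ z) : ∃ F, L = x :: (F ++ [z]) := by
  cases L with
  | nil => have := h.head; simp at this
  | cons a L =>
    have h1 : a = x := by have := h.head; simpa using this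
    subst h1
    rcases List.eq_nil_or_concat L with rfl | ⟨F, b, rfl⟩
    · have := h.last
      simp at this
      exact absurd this hxz
    · have h2 : b = z := by
        have h0 := h.last
        have e : a :: F.concat b = (a :: F) ++ [b] := by simp
        rw [e, List.getLast?_append] at h0
        simpa using h0
      subst h2
      exact ⟨F, by simp⟩

theorem good_drop1 (hA : Angled G ang) {B : Set V} {b x z : V} {R : List (V × Bool)} {A : ℕ}
    {X Y : List V} {p q r : V} (h : Good G f ang B b x z R A (X ++ p :: q :: r :: Y))
    (hpr : G.Adj p r) : Good G f ang B b x z R A (X ++ p :: r :: Y) := by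
  have hch := h.chain
  rw [List.isChain_append_cons_cons] at hch
  have hpq : G.Adj p q := hch.2.1
  have hqr : G.Adj q r := by
    have := hch.2.2
    rw [List.isChain_cons_cons] at this
    exact this.1
  have hlast := h.last
  refine ⟨?_, ?_, ?_, ?_, ?_, ?_⟩
  · have := h.head
    cases X <;> simpa using this
  · have e1 : (X ++ p :: q :: r :: Y).getLast? = (X ++ p :: r :: Y).getLast? := by
      simp [List.getLast?_append, List.getLast?_cons_cons]
    rw [← e1]; exact hlast
  · rw [List.isChain_append_cons_cons]
    refine ⟨hch.1, hpr, ?_⟩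
    have := hch.2.2
    rw [List.isChain_cons_cons] at this
    exact this.2
  · intro z hz
    apply h.link
    simp only [List.mem_append, List.mem_cons] at hz ⊢
    tauto
  · have hl := h.len
    rw [T3.plen_append ang b X p (q :: r :: Y)] at hl
    rw [T3.plen_append ang b X p (r :: Y)]
    simp only [plen] at hl ⊢
    have := hA.link b p q r (h.link p (by simp)) (h.link q (by simp)) (h.link r (by simp))
      hpq hqr hpr
    linarith
  · obtain ⟨k, hk, hk2⟩ := h.null
    refine ⟨k + 1, ?_, ?_⟩
    · have : Null (HG G f B) k (X.map (fun y => (y, false)) ++ (p, false) :: (q, false) ::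
          (r, false) :: (Y.map (fun y => (y, false)) ++ R)) := by simpa using hk
      simpa using this.triAt (HG.adj_ff.2 hpr) (HG.adj_ff.2 hpq) (HG.adj_ff.2 hqr)
    · simp only [List.length_append, List.length_cons] at hk2 ⊢
      omega

theorem good_drop2 (hZ : T_ZIP.{u}) (hA : Angled G ang) {B : Set V} {b x z : V}
    {R : List (V × Bool)} {A : ℕ} {X Y : List V} {p q : V}
    (h : Good G f ang B b x z R A (X ++ p :: q :: p :: Y)) (hxz : x ≠ z) :
    Good G f ang B b x z R A (X ++ p :: Y) := by
  have hch := h.chain
  rw [List.isChain_append_cons_cons] at hch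
  have hpq : G.Adj p q := hch.2.1
  have hch2 := hch.2.2
  rw [List.isChain_cons_cons] at hch2
  refine ⟨?_, ?_, ?_, ?_, ?_, ?_⟩
  · have := h.head
    cases X <;> simpa using this
  · have e1 : (X ++ p :: q :: p :: Y).getLast? = (X ++ p :: Y).getLast? := by
      simp [List.getLast?_append, List.getLast?_cons_cons]
    rw [← e1]; exact h.last
  · rw [List.isChain_split]
    exact ⟨hch.1, hch2.2⟩
  · intro z hz
    apply h.link
    simp only [List.mem_append, List.mem_cons] at hz ⊢
    tauto
  · have hl := h.len
    rw [T3.plen_append ang b X p (q :: p :: Y)] at hl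
    rw [T3.plen_append ang b X p Y]
    simp only [plen] at hl ⊢
    have h1 := hA.pos b p q (h.link p (by simp)) (h.link q (by simp)) hpq
    have h2 := hA.pos b q p (h.link q (by simp)) (h.link p (by simp)) hpq.symm
    linarith
  · obtain ⟨k, hk, hk2⟩ := h.null
    refine ⟨k, ?_, ?_⟩
    · have h1 : Null (HG G f B) k (X.map (fun y => (y, false)) ++ (p, false) :: (q, false) ::
          (p, false) :: (Y.map (fun y => (y, false)) ++ R)) := by simpa using hk
      have h2 := hZ (HG G f B) k _ _ _ _ ?_ h1
      · simpa using h2
      · intro h0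
        obtain ⟨h3, h4⟩ := List.append_eq_nil_iff.1 h0
        obtain ⟨h5, rfl⟩ := List.append_eq_nil_iff.1 h3
        have h6 : Y = [] := by simpa using h5
        have h7 : X = [] := by simpa using h4
        subst h6 h7
        have e1 := h.head
        have e2 := h.last
        simp at e1 e2
        exact hxz (e1.symm.trans e2)
    · simp only [List.length_append, List.length_cons] at hk2 ⊢
      omega

/-- A minimal good path has no ears. -/
theorem good_noEar (hZ : T_ZIP.{u}) (hA : Angled G ang) {B : Set V} {b x z : V}
    {R : List (V × Bool)} {A : ℕ} {L : List V} (h : Good G f ang B b x z R A L) (hxz : x ≠ z)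
    (hmin : ∀ L', Good G f ang B b x z R A L' → L.length ≤ L'.length) : NoEar G L := by
  intro X p q r Y hL
  subst hL
  constructor
  · rintro rfl
    have := hmin _ (good_drop2 hZ hA h hxz)
    simp only [List.length_append, List.length_cons] at this
    omega
  · intro hpr
    have := hmin _ (good_drop1 hA h hpr)
    simp only [List.length_append, List.length_cons] at this
    omega

theorem noEar_cons {a y y' : V} {W : List V} (h : NoEar G (y :: y' :: W)) (h1 : a ≠ y')
    (h2 : ¬ G.Adj a y') : NoEar G (a :: y :: y' :: W) := by
  intro X p q r Y hL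
  cases X with
  | nil =>
    simp only [List.nil_append, List.cons.injEq] at hL
    obtain ⟨rfl, rfl, rfl, rfl⟩ := hL
    exact ⟨h1, h2⟩
  | cons c X =>
    simp only [List.cons_append, List.cons.injEq] at hL
    exact h X p q r Y hL.2

/-- The closed walk `z, f b, y, y', Y` in the link of `b` is short, so it has an ear at `y`. -/
theorem ear (hA : Angled G ang) {b z y y' : V} {Y : List V} (hb : G.Adj b (f b))
    (hch : List.IsChain G.Adj (y :: y' :: (Y ++ [z])))
    (hlk : ∀ u ∈ y :: y' :: (Y ++ [z]), G.Adj b u) (hne : NoEar G (y :: y' :: (Y ++ [z])))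
    (hzf : G.Adj z (f b)) (hyf : G.Adj y (f b))
    (hlen : ang b y (f b) + plen ang b (y :: y' :: (Y ++ [z])) + ang b z (f b) < 2 * Real.pi) :
    f b = y' ∨ G.Adj (f b) y' := by
  by_contra hcon
  push Not at hcon
  have h1 := hA.large b z (f b) (y :: y' :: Y) (by simp) (by
    simp only [CW, List.cons_append, List.isChain_cons_cons] at hch ⊢
    exact ⟨hzf, hyf.symm, hch⟩) (by
    intro u hu
    simp only [List.mem_cons] at hu
    rcases hu with rfl | rfl | rfl | rfl | hu
    · exact hlk _ (by simp)
    · exact hb
    · exact hlk _ (by simp)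
    · exact hlk _ (by simp)
    · exact hlk _ (by simp [hu])) (by
    simpa using noEar_cons hne hcon.1 hcon.2)
  have h2 : clen ang b (z :: f b :: y :: y' :: Y) =
      ang b z (f b) + (ang b (f b) y + plen ang b (y :: y' :: (Y ++ [z]))) := by
    simp [clen, plen]
  rw [h2, hA.symm b (f b) y] at h1
  linarith

/-- All inner vertices are adjacent to `f b`. -/
theorem all_adj (hA : Angled G ang) {b z : V} (hb : G.Adj b (f b)) (hzf : G.Adj z (f b)) :
    ∀ (Y : List V) (w y : V), List.IsChain G.Adj (w :: y :: (Y ++ [z])) →
      (∀ u ∈ w :: y :: (Y ++ [z]), G.Adj b u) → NoEar G (w :: y :: (Y ++ [z])) →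
      G.Adj w (f b) → G.Adj y (f b) →
      ang b y (f b) + plen ang b (y :: (Y ++ [z])) + ang b z (f b) < 2 * Real.pi →
      ∀ u ∈ Y, G.Adj u (f b)
  | [] => by simp
  | (y' :: Y) => by
    intro w y hch hlk hne hw hy hlen
    have hch' : List.IsChain G.Adj (y :: y' :: (Y ++ [z])) := by
      simp only [List.cons_append, List.isChain_cons_cons] at hch ⊢
      exact hch.2
    have hne' : NoEar G (y :: y' :: (Y ++ [z])) :=
      T3.NoEar.of_infix hne ⟨[w], [], by simp⟩
    have hlk' : ∀ u ∈ y :: y' :: (Y ++ [z]), G.Adj b u := fun u hu =>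
      hlk u (List.mem_cons_of_mem _ (by simpa using hu))
    have hyy : G.Adj y y' := by
      rw [List.isChain_cons_cons] at hch'
      exact hch'.1
    have h1 : G.Adj (f b) y' := by
      rcases ear hA hb hch' hlk' hne' hzf hy (by simpa using hlen) with h | h
      · exfalso
        have := hne [] w y y' (Y ++ [z]) (by simp)
        rw [← h] at this
        exact this.2 hw
      · exact h
    have h2 := hA.link b y' y (f b) (hlk' y' (by simp)) (hlk' y (by simp)) hb hyy.symm hy h1.symm
    rw [hA.symm b y' y] at h2
    have h3 : ang b y' (f b) + plen ang b (y' :: (Y ++ [z])) + ang b z (f b) < 2 * Real.pi := by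
      simp only [List.cons_append, plen] at hlen
      linarith
    intro u hu
    rcases List.mem_cons.1 hu with rfl | hu
    · exact h1.symm
    · exact all_adj hA hb hzf Y y y' hch' hlk' hne' hy h1.symm h3 u hu

theorem singles {B : Set V} : ∀ F : List (V × Bool), (∀ y ∈ F, y.2 = false) →
    ∃ F₀ : List V, F = F₀.map (fun y => (y, false))
  | [], _ => ⟨[], rfl⟩
  | ((y, t) :: F), h => by
    obtain ⟨F₀, rfl⟩ := singles (B := B) F fun y hy => h y (List.mem_cons_of_mem _ hy)
    have : t = false := h (y, t) (by simp)
    subst this
    exact ⟨y :: F₀, by simp⟩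

end NCOR

open NCOR in
/-- NCOR. -/
theorem tNCOR (hC : Pool.Agent.MSF.T_CONE.{u}) (hZ : Pool.Agent.MSF.T_ZIP.{u}) : T_NCOR.{u} := by
  intro V G ang f ρ A n p c q R F hS hpq hc2 hcf hGP hlen
  obtain ⟨hp, hq, hp2, hq2⟩ := hS.nbrs hcf
  obtain ⟨x, px⟩ := p
  obtain ⟨z, qz⟩ := q
  obtain ⟨b, cb⟩ := c
  simp only at hp hq hp2 hq2 hc2 hcf hlen
  subst hp2 hq2 hc2
  have hA := hS.angled
  have hxz : x ≠ z := fun h => hpq (by rw [h])
  -- no double labels in the fan
  have hF : ∀ y ∈ F, y.2 = false := by
    rintro ⟨y, t⟩ hy
    cases t with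
    | false => rfl
    | true =>
      exfalso
      have h1 := hGP.link (y, true) (by simp [hy])
      rw [HG.adj_ft] at h1
      have h2 : (y, true) ∈ (x, false) :: (b, false) :: (z, false) :: R := h1.1
      exact hS.no_bridge (x := (b, false)) (y := (y, true)) (by simp) h2 hcf (hS.fl y h2)
        h1.2.1 h1.2.2
  obtain ⟨F₀, rfl⟩ := singles (B := tB R) F hF
  set B : Set V := tB ((x, false) :: (b, false) :: (z, false) :: R) with hB
  have hlist : (x, false) :: (F₀.map (fun y => (y, false)) ++ [(z, false)]) =
      (x :: (F₀ ++ [z])).map (fun y => ((y, false) : V × Bool)) := by simp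
  have hgood : Good G f ang B b x z R A (x :: (F₀ ++ [z])) := by
    refine ⟨by simp, ?_, ?_, ?_, ?_, ?_⟩
    · have e : x :: (F₀ ++ [z]) = (x :: F₀) ++ [z] := by simp
      rw [e, List.getLast?_append]
      simp
    · have h1 := hGP.chain
      rw [hlist, List.isChain_map] at h1
      exact h1.imp fun a b hab => HG.adj_ff.1 hab
    · intro y hy
      have h1 := hGP.link (y, false) (by
        rw [hlist]
        exact List.mem_map_of_mem hy)
      exact HG.adj_ff.1 h1
    · rw [hlist, plen_angH_single] at hlen
      exact hlen
    · obtain ⟨k, hk1, hk2⟩ := hGP.null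
      refine ⟨k, by simpa using hk1, ?_⟩
      simp only [List.length_map] at hk2
      simp only [List.length_cons, List.length_append, List.length_nil]
      omega
  obtain ⟨L, hL, hLmin⟩ : ∃ L, Good G f ang B b x z R A L ∧
      ∀ L', Good G f ang B b x z R A L' → L.length ≤ L'.length := by
    classical
    have hex : ∃ n, ∃ L, Good G f ang B b x z R A L ∧ L.length = n := ⟨_, _, hgood, rfl⟩
    obtain ⟨L, hL, hLn⟩ := Nat.find_spec hex
    refine ⟨L, hL, fun L' hL' => ?_⟩
    rw [hLn]
    exact Nat.find_min' hex ⟨L', hL', rfl⟩
  have hne := good_noEar hZ hA hL hxz hLmin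
  obtain ⟨F', rfl⟩ := good_form hL hxz
  obtain ⟨k', hk'1, hk'2⟩ := hL.null
  simp only [List.length_cons, List.length_append, List.length_nil] at hk'2
  obtain ⟨hz1, hz2, hz3⟩ := hS.adj3
  simp only at hz1 hz2 hz3
  have hxb : G.Adj x b := hz1.1.2.2.1
  have hzb : G.Adj z b := hz2.1.2.2.1.symm
  have hxf : G.Adj x (f b) := by
    have := (hS.aut.adj x b).2 hxb
    rwa [hp] at this
  have hzf : G.Adj z (f b) := by
    have := (hS.aut.adj z b).2 hzb
    rwa [hq] at this
  cases F' with
  | nil =>
    have hxz' : G.Adj x z := by
      have := hL.chain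
      simpa using this
    have hxzZ : (Z1 G f).Adj x z := Z1.adj_of_fixed_right hS.aut (Or.inl hp) hq hxz'
    have hN : Null G k' (x :: z :: R.map Prod.fst) := by
      have := null_fst hk'1
      simpa using this
    obtain ⟨C, hC'⟩ := hS.ih k' (x :: z :: R.map Prod.fst) (Or.inl (by simp at hk'2; omega)) (by
      simp only [CW, List.isChain_cons_cons]
      exact ⟨hxzZ, hz3⟩) hN
    have h0 : Null (RG G f ρ) C ([] ++ ρ x :: ρ z :: (R.map Prod.fst).map ρ) := by
      simpa using hC'
    have h1 := h0.push (hS.toInv.rg' hz1) (hS.toInv.rg' hz2) (hS.toInv.rg' hxzZ)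
    refine ⟨C + 1, ?_⟩
    simpa [Function.comp_def] using h1
  | cons y F' =>
    exfalso
    have hch0 := hL.chain
    have hlk0 := hL.link
    have hlen0 := hL.len
    simp only [List.cons_append] at hch0 hlk0 hlen0 hne
    have hlen1 : ang b x (f b) + plen ang b (x :: y :: (F' ++ [z])) + ang b z (f b) <
        2 * Real.pi := by linarith
    have hxy : G.Adj x y := by
      rw [List.isChain_cons_cons] at hch0
      exact hch0.1
    have hyf : G.Adj y (f b) := by
      rcases ear hA hcf hch0 hlk0 hne hzf hxf hlen1 with h | h
      · exfalso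
        subst h
        match F' with
        | [] =>
          have hN : Null G k' (x :: f b :: z :: R.map Prod.fst) := by
            have := null_fst hk'1
            simpa using this
          have h2 := hS.min k' (x :: f b :: z :: R.map Prod.fst) (by
            simp [hS.rhof, Function.comp_def]) hN
          simp at hk'2
          omega
        | [y2] =>
          have h2 := hne [x] (f b) y2 z [] (by simp)
          exact h2.2 hzf.symm
        | (y2 :: y3 :: F'') =>
          have h2 := hA.large b z (f b) (y2 :: y3 :: F'') (by simp) (by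
            simp only [CW, List.cons_append, List.isChain_cons_cons] at hch0 ⊢
            exact ⟨hzf, hch0.2⟩) (by
            intro u hu
            simp only [List.mem_cons] at hu
            rcases hu with rfl | rfl | rfl | rfl | hu
            · exact hlk0 _ (by simp)
            · exact hcf
            · exact hlk0 _ (by simp)
            · exact hlk0 _ (by simp)
            · exact hlk0 _ (by simp [hu])) (T3.NoEar.of_infix hne ⟨[x], [], by simp⟩)
          have h3 : clen ang b (z :: f b :: y2 :: y3 :: F'') =
              ang b z (f b) + plen ang b (f b :: (y2 :: y3 :: F'' ++ [z])) := by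
            simp [clen, plen]
          rw [h3] at h2
          simp only [plen] at hlen1
          have h4 := hA.pos b x (f b) hxb.symm hcf hxf
          linarith
      · exact h.symm
    have h2 := hA.link b y x (f b) (hlk0 y (by simp)) hxb.symm hcf hxy.symm hxf hyf
    rw [hA.symm b y x] at h2
    have h3 : ang b y (f b) + plen ang b (y :: (F' ++ [z])) + ang b z (f b) < 2 * Real.pi := by
      simp only [plen] at hlen1
      linarith
    have hall := all_adj hA hcf hzf F' x y hch0 hlk0 hne hxf hyf h3
    -- the double label
    set w' : List (V × Bool) := (x, false) :: (b, true) :: (z, false) :: R with hw'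
    have hBB : B ⊆ tB w' := by
      intro v hv
      rw [hB] at hv
      simp only [tB, Set.mem_ofPred_eq, List.mem_cons, Prod.mk.injEq, Bool.true_eq_false, and_false,
        false_or] at hv
      simp only [hw', tB, Set.mem_ofPred_eq, List.mem_cons]
      exact Or.inr (Or.inr (Or.inr hv))
    have hbB : b ∈ tB w' := by simp [hw', tB]
    have hc1 := hC (HG G f (tB w')) k' (b, true) (x, false) (z, false)
      ((y :: F').map (fun y => (y, false))) R (by
        have h5 : (x, false) :: ((y :: F').map (fun y => (y, false)) ++ [(z, false)]) =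
            (x :: y :: (F' ++ [z])).map (fun y => ((y, false) : V × Bool)) := by simp
        rw [h5, List.isChain_map]
        exact hch0.imp fun a b hab => HG.adj_ff.2 hab) (by
        intro u hu
        have h5 : (x, false) :: ((y :: F').map (fun y => (y, false)) ++ [(z, false)]) =
            (x :: y :: (F' ++ [z])).map (fun y => ((y, false) : V × Bool)) := by simp
        rw [h5, List.mem_map] at hu
        obtain ⟨v, hv, rfl⟩ := hu
        rw [HG.adj_tf]
        refine ⟨hbB, (hlk0 v hv).symm, ?_⟩
        simp only [List.mem_cons, List.mem_append, List.not_mem_nil, or_false] at hv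
        rcases hv with rfl | rfl | hv | rfl
        · exact hxf
        · exact hyf
        · exact hall v hv
        · exact hzf) (by
        have h5 := null_mono hBB hk'1
        simpa using h5)
    have hN : Null (HG G f (tB w')) A w' := by
      refine hc1.mono ?_
      simp only [List.length_map, List.length_cons] at hk'2 ⊢
      omega
    have hmax := hS.tmax w' (by simp [hw']) (by
      intro v hv
      simp only [hw', List.mem_cons, Prod.mk.injEq, Bool.true_eq_false, and_false, and_true,
        false_or] at hv
      rcases hv with rfl | hv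
      · exact hcf
      · exact hS.fl v (by simp [hv])) hN
    simp [hw', nT] at hmax

end Pool.Agent.MSS
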