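import Pool.Agent.MSS.Targets
import Pool.Agent.MSF.Basic

/-!
# ODD: closed walks of the orbit complex of an automorphism of odd prime order
-/

set_option autoImplicit false

namespace Pool.Agent.MSS

open List Pool.Agent.MSF

universe u

namespace ODD

variable {V : Type u} {G : SimpleGraph V} {g : Equiv.Perm V} {p : ℕ}

/-- A vertex with `g² v = v` is fixed. -/
theorem fix_of_sq (hp : p.Prime) (h3 : 3 ≤ p) (hg : g ^ p = 1) {x : V} (h : g (g x) = x) :
    g x = x := by
  have h1 : ((2 : ℕ)).Coprime p :=
    (Nat.coprime_primes Nat.prime_two hp).2 (by omega)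
  obtain ⟨k, hk⟩ : ∃ k : ℕ, p = 2 * k + 1 := by
    rcases hp.eq_two_or_odd' with h2 | h2
    · omega
    · exact h2
  have h2 : ∀ k : ℕ, (g ^ (2 * k)) x = x := by
    intro k
    induction k with
    | zero => simp
    | succ k ih =>
      have h4 : 2 * (k + 1) = 2 * k + 1 + 1 := by ring
      rw [h4, pow_succ, pow_succ, Equiv.Perm.mul_apply, Equiv.Perm.mul_apply, h, ih]
  have h5 : (g ^ p) x = x := by rw [hg]; rfl
  rw [hk, pow_succ', Equiv.Perm.mul_apply, h2 k] at h5
  exact h5

theorem orb_mem {s : OV G (orbg g)} {x : V} (hx : x ∈ s.1) : g x ∈ s.1 := by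
  rw [s.2.2.2 x hx]
  exact ⟨1, by simp⟩

/-- Members of small edges are fixed. -/
theorem fixed (hp : p.Prime) (h3 : 3 ≤ p) (hg : g ^ p = 1) {s t : OV G (orbg g)}
    (h : (ZG G (orbg g)).Adj s t) : g (rep s) = rep s := by
  by_contra hne
  have h1 : rep s ∈ s.1 := rep_mem s
  have h2 := orb_mem h1
  have h4 := orb_mem h2
  have hne2 : g (g (rep s)) ≠ rep s := fun h => hne (fix_of_sq hp h3 hg h)
  have hne3 : g (g (rep s)) ≠ g (rep s) := fun h => hne (g.injective h)
  classical
  have h5 : ({rep s, g (rep s), g (g (rep s))} : Finset V) ⊆ s.1 := by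
    intro y hy
    simp only [Finset.mem_insert, Finset.mem_singleton] at hy
    rcases hy with rfl | rfl | rfl
    · exact h1
    · exact h2
    · exact h4
  have h6 := Finset.card_le_card h5
  have h7 : ({rep s, g (rep s), g (g (rep s))} : Finset V).card = 3 := by
    rw [Finset.card_eq_three]
    exact ⟨_, _, _, Ne.symm hne, Ne.symm hne2, Ne.symm hne3, rfl⟩
  have h8 := Finset.card_pos.2 t.2.1
  have h9 := h.2
  omega

theorem eq_single {s : OV G (orbg g)} (h : g (rep s) = rep s) : s.1 = {rep s} := by
  ext y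
  rw [s.2.2.2 (rep s) (rep_mem s), Finset.mem_singleton]
  have h1 : ∀ k : ℕ, (g ^ k) (rep s) = rep s := by
    intro k
    induction k with
    | zero => simp
    | succ k ih => rw [pow_succ, Equiv.Perm.mul_apply, h, ih]
  constructor
  · rintro ⟨k, hk⟩
    rw [← hk, h1]
  · rintro rfl
    exact ⟨0, by simp⟩

/-- The orbit of a fixed vertex. -/
def sing (G : SimpleGraph V) (g : Equiv.Perm V) (v : V) (h : g v = v) : OV G (orbg g) :=
  ⟨{v}, Finset.singleton_nonempty v, by simp, by
    intro x hx y
    rw [Finset.mem_singleton] at hx ⊢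
    subst hx
    have h1 : ∀ k : ℕ, (g ^ k) x = x := by
      intro k
      induction k with
      | zero => simp
      | succ k ih => rw [pow_succ, Equiv.Perm.mul_apply, h, ih]
    constructor
    · rintro rfl
      exact ⟨0, by simp⟩
    · rintro ⟨k, hk⟩
      rw [← hk, h1]⟩

open Classical in
/-- Fixed vertices as vertices of the orbit complex. -/
noncomputable def phi (s : OV G (orbg g)) (v : V) : OV G (orbg g) :=
  if h : g v = v then sing G g v h else s

theorem phi_rep (s₀ : OV G (orbg g)) {s : OV G (orbg g)} (h : g (rep s) = rep s) :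
    phi s₀ (rep s) = s := by
  unfold phi
  rw [dif_pos h]
  exact Subtype.ext (eq_single h).symm

theorem phi_adj (s₀ : OV G (orbg g)) (a b : V) (h : (resG G {v | g v = v}).Adj a b) :
    (OG G (orbg g)).Adj (phi s₀ a) (phi s₀ b) := by
  have ha : g a = a := h.2.1
  have hb : g b = b := h.2.2
  unfold phi
  rw [dif_pos ha, dif_pos hb]
  intro x hx y hy
  rw [Finset.mem_singleton.1 hx, Finset.mem_singleton.1 hy]
  exact h.1

end ODD

open ODD in
theorem tODD (h : T_FIX3.{u}) : T_ODD.{u} := by
  intro V G ang hA h5 hn g hg p hp h3 hgp w hw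
  rcases w with _ | ⟨s, _ | ⟨t, l⟩⟩
  · exact hw.elim
  · exact ⟨0, Null.pt s⟩
  · have hch : List.IsChain (ZG G (orbg g)).Adj (s :: t :: (l ++ [s])) := hw
    have hmem : ∀ x ∈ s :: t :: l, g (rep x) = rep x := by
      intro x hx
      obtain ⟨X, Y, hXY⟩ := List.append_of_mem hx
      have h1 : s :: t :: (l ++ [s]) = X ++ x :: (Y ++ [s]) := by
        have h2 : s :: t :: (l ++ [s]) = (s :: t :: l) ++ [s] := rfl
        rw [h2, hXY]
        simp
      rw [h1] at hch
      have h3' := (List.isChain_append.1 hch).2.1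
      rcases Y with _ | ⟨y, Y⟩
      · exact fixed hp h3 hgp (List.isChain_cons_cons.1 h3').1
      · exact fixed hp h3 hgp (List.isChain_cons_cons.1 h3').1
    have hcw : CW (resG G {v | g v = v}) ((s :: t :: l).map rep) := by
      have h1 : List.IsChain (resG G {v | g v = v}).Adj ((s :: t :: (l ++ [s])).map rep) := by
        refine List.isChain_map_of_isChain _ ?_ hch
        intro a b hab
        exact ⟨hab.1 _ (rep_mem a) _ (rep_mem b), fixed hp h3 hgp hab,
          fixed hp h3 hgp hab.symm⟩
      have h2 : (s :: t :: (l ++ [s])).map rep = rep s :: rep t :: (l.map rep ++ [rep s]) := by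
        simp
      rw [h2] at h1
      exact h1
    obtain ⟨A, hNull⟩ := h G ang hA h5 hn g hg p hp h3 hgp _ hcw
    have h1 := Null.map (phi s) (phi_adj s) hNull
    refine ⟨A, ?_⟩
    have h2 : ((s :: t :: l).map rep).map (phi s) = s :: t :: l := by
      rw [List.map_map]
      conv_rhs => rw [← List.map_id (s :: t :: l)]
      refine List.map_congr_left fun x hx => ?_
      exact phi_rep s (hmem x hx)
    rw [h2] at h1
    exact h1

end Pool.Agent.MSS
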