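import Pool.Agent.MSS.Targets

/-! # OGA: orbit complexes are angled -/

set_option autoImplicit false

namespace Pool.Agent.MSS

open List Pool.Agent.MSF

universe u

namespace OGA

variable {V : Type u} {G : SimpleGraph V} {ang : V → V → V → ℝ} {r : V → V → Prop}

/-- `Q` is a list of representatives of the classes in `P`. -/
abbrev Lift (Q : List V) (P : List (OV G r)) : Prop :=
  List.Forall₂ (fun (x : V) (t : OV G r) => x ∈ t.1) Q P

theorem eq_of_mem (s t : OV G r) (x : V) (hs : x ∈ s.1) (ht : x ∈ t.1) : s = t := by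
  apply Subtype.ext
  ext y
  rw [s.2.2.2 x hs y, t.2.2.2 x ht y]

/-- The choice of the next representative. -/
theorem exists_far (hr : AutRel G ang r) (s t : OV G r) (hst : s ≠ t)
    (hadj : ¬ (OG G r).Adj s t) (x : V) (hx : x ∈ s.1) :
    ∃ z ∈ t.1, x ≠ z ∧ ¬ G.Adj x z := by
  have h1 : ∃ x₀ ∈ s.1, ∃ z₀ ∈ t.1, ¬ G.Adj x₀ z₀ := by
    by_contra hcon
    push Not at hcon
    exact hadj hcon
  obtain ⟨x₀, hx₀, z₀, hz₀, hn⟩ := h1
  obtain ⟨g, hg, hgx, hgr⟩ := hr.mov x₀ x ((s.2.2.2 x₀ hx₀ x).1 hx)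
  have hz : g z₀ ∈ t.1 := (t.2.2.2 z₀ hz₀ (g z₀)).2 (hgr z₀)
  refine ⟨g z₀, hz, ?_, ?_⟩
  · intro he
    exact hst (eq_of_mem s t x hx (by rw [he]; exact hz))
  · intro ha
    rw [← hgx, hg.adj] at ha
    exact hn ha

/-- Lifting a path without ears. -/
theorem exists_lift (hr : AutRel G ang r) : ∀ (P : List (OV G r)) (t₀ t₁ : OV G r) (x₀ x₁ : V),
    x₀ ∈ t₀.1 → x₁ ∈ t₁.1 → NoEar (OG G r) (t₀ :: t₁ :: P) →
    ∃ Q : List V, Lift Q P ∧ NoEar G (x₀ :: x₁ :: Q) := by
  intro P
  induction P with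
  | nil =>
    intro t₀ t₁ x₀ x₁ _ _ _
    refine ⟨[], List.Forall₂.nil, ?_⟩
    intro X x y z Y h
    have := congrArg List.length h
    simp at this
    omega
  | cons t₂ P ih =>
    intro t₀ t₁ x₀ x₁ h₀ h₁ hne
    obtain ⟨hne1, hne2⟩ := hne [] t₀ t₁ t₂ P rfl
    obtain ⟨z, hz, hxz, haz⟩ := exists_far hr t₀ t₂ hne1 hne2 x₀ h₀
    obtain ⟨Q, hQ, hQE⟩ := ih t₁ t₂ x₁ z h₁ hz (by
      intro X x y z' Y h
      exact hne (t₀ :: X) x y z' Y (by rw [h]; rfl))
    refine ⟨z :: Q, List.Forall₂.cons hz hQ, ?_⟩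
    intro X x y z' Y h
    cases X with
    | nil =>
      simp only [List.nil_append, List.cons.injEq] at h
      obtain ⟨rfl, rfl, rfl, _⟩ := h
      exact ⟨hxz, haz⟩
    | cons w X =>
      simp only [List.cons_append, List.cons.injEq] at h
      exact hQE X x y z' Y h.2

theorem lift_chain : ∀ (P : List (OV G r)) (Q : List V), Lift Q P →
    List.IsChain (OG G r).Adj P → List.IsChain G.Adj Q := by
  intro P
  induction P with
  | nil =>
    intro Q hQ _
    cases hQ
    exact List.isChain_nil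
  | cons t P ih =>
    intro Q hQ hc
    cases hQ with
    | cons hx hQ' =>
      rename_i x Q'
      cases P with
      | nil =>
        cases hQ'
        exact List.isChain_singleton _
      | cons t' P' =>
        cases hQ' with
        | cons hx' hQ'' =>
          rename_i x' Q''
          rw [List.isChain_cons_cons] at hc ⊢
          exact ⟨hc.1 _ hx _ hx', ih _ (List.Forall₂.cons hx' hQ'') hc.2⟩

theorem lift_plen (hO : ∀ s t u : OV G r, (OG G r).Adj s t → (OG G r).Adj s u →
      (OG G r).Adj t u → ∀ x ∈ s.1, ∀ y ∈ t.1, ∀ z ∈ u.1, OA G r ang s t u = ang x y z)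
    (v : OV G r) (y : V) (hy : y ∈ v.1) : ∀ (P : List (OV G r)) (Q : List V), Lift Q P →
    List.IsChain (OG G r).Adj P → (∀ t ∈ P, (OG G r).Adj v t) →
    plen (OA G r ang) v P = plen ang y Q := by
  intro P
  induction P with
  | nil =>
    intro Q hQ _ _
    cases hQ
    rfl
  | cons t P ih =>
    intro Q hQ hc hl
    cases hQ with
    | cons hx hQ' =>
      rename_i x Q'
      cases P with
      | nil =>
        cases hQ'
        rfl
      | cons t' P' =>
        cases hQ' with
        | cons hx' hQ'' =>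
          rename_i x' Q''
          rw [List.isChain_cons_cons] at hc
          have h1 := ih _ (List.Forall₂.cons hx' hQ'') hc.2
            (fun s hs => hl s (List.mem_cons_of_mem _ hs))
          have h2 := hO v t t' (hl t (by simp)) (hl t' (by simp)) hc.1 y hy x hx x' hx'
          simp only [plen]
          rw [h1, h2]

theorem lift_mem : ∀ (P : List (OV G r)) (Q : List V), Lift Q P → ∀ x ∈ Q, ∃ t ∈ P, x ∈ t.1 := by
  intro P
  induction P with
  | nil =>
    intro Q hQ x hx
    cases hQ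
    simp at hx
  | cons t P ih =>
    intro Q hQ x hx
    cases hQ with
    | cons hx' hQ' =>
      rcases List.mem_cons.1 hx with rfl | h
      · exact ⟨t, by simp, hx'⟩
      · obtain ⟨t', ht', hxt⟩ := ih _ hQ' x h
        exact ⟨t', List.mem_cons_of_mem _ ht', hxt⟩

theorem lift_last (a : OV G r) : ∀ (P : List (OV G r)) (Q : List V), Lift Q (P ++ [a]) →
    ∃ (Q' : List V) (x : V), Q = Q' ++ [x] ∧ Lift Q' P ∧ x ∈ a.1 := by
  intro P
  induction P with
  | nil =>
    intro Q hQ
    cases hQ with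
    | cons hx hQ' =>
      cases hQ'
      exact ⟨[], _, rfl, List.Forall₂.nil, hx⟩
  | cons t P ih =>
    intro Q hQ
    cases hQ with
    | cons hx hQ' =>
      obtain ⟨Q', x, rfl, h1, h2⟩ := ih _ hQ'
      exact ⟨_ :: Q', x, rfl, List.Forall₂.cons hx h1, h2⟩

end OGA

open OGA in
theorem tOGA (h : T_OGR.{u}) : T_OGA.{u} := by
  intro V G ang hA hcf r hr
  have hO := (h G ang hcf r hr).2
  have hrep : ∀ {s t : OV G r}, (OG G r).Adj s t → G.Adj (rep s) (rep t) :=
    fun {s t} hst => hst _ (rep_mem s) _ (rep_mem t)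
  refine ⟨?_, ?_, ?_, ?_, ?_⟩
  · intro v a b
    exact hA.symm _ _ _
  · intro v a b h1 h2 h3
    exact hA.pos _ _ _ (hrep h1) (hrep h2) (hrep h3)
  · intro a b c h1 h2 h3
    exact hA.sum_le _ _ _ (hrep h1) (hrep h2) (hrep h3)
  · intro v a b c h1 h2 h3 h4 h5 h6
    exact hA.link _ _ _ _ (hrep h1) (hrep h2) (hrep h3) (hrep h4) (hrep h5) (hrep h6)
  · intro v a b l hl hcw hlk hne
    -- the lift
    obtain ⟨t, l', rfl⟩ : ∃ t l', l = t :: l' := by
      cases l with
      | nil => simp at hl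
      | cons t l' => exact ⟨t, l', rfl⟩
    obtain ⟨Q, hQ, hQE⟩ := exists_lift hr (l' ++ [a]) b t (rep b) (rep t) (rep_mem b)
      (rep_mem t) (by simpa using hne)
    obtain ⟨Q', x, rfl, hQ', hx⟩ := lift_last a l' Q hQ
    have hcw' : List.IsChain (OG G r).Adj (a :: b :: t :: (l' ++ [a])) := by
      have := (CW_cons (by simp)).1 hcw
      simpa using this
    have hL : Lift (x :: rep b :: rep t :: (Q' ++ [x])) (a :: b :: t :: (l' ++ [a])) :=
      List.Forall₂.cons hx (List.Forall₂.cons (rep_mem b) (List.Forall₂.cons (rep_mem t) hQ))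
    have hLk : ∀ s ∈ a :: b :: t :: (l' ++ [a]), (OG G r).Adj v s := by
      intro s hs
      apply hlk
      simp only [List.mem_cons, List.mem_append, List.not_mem_nil, or_false] at hs ⊢
      tauto
    have hpl := lift_plen (fun s t u h1 h2 h3 => (hO s t u h1 h2 h3).2) v (rep v) (rep_mem v)
      _ _ hL hcw' hLk
    have hch := lift_chain _ _ hL hcw'
    have hlen : l'.length = Q'.length := hQ'.length_eq.symm
    have hmain := hA.large (rep v) x (rep b) (rep t :: Q') (by
      simp only [List.length_cons] at hl ⊢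
      omega) (by
      rw [CW_cons (by simp)]
      simpa using hch) (by
      intro y hy
      obtain ⟨s, hs, hys⟩ := lift_mem _ _ hL y (by
        simp only [List.mem_cons, List.mem_append, List.not_mem_nil, or_false] at hy ⊢
        tauto)
      exact hLk s hs _ (rep_mem v) _ hys) (by simpa using hQE)
    refine hmain.trans (le_of_eq ?_)
    simp only [clen, List.cons_append]
    exact hpl.symm

end Pool.Agent.MSS
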