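import Pool.Agent.MSS.Targets

set_option autoImplicit false

/-!
# Orbit complexes: sizes and angles (block OGR)
-/

namespace Pool.Agent.MSS

open List Pool.Agent.MSF

universe u

namespace OGR

variable {V : Type u} {G : SimpleGraph V} {ang : V → V → V → ℝ} {r : V → V → Prop}

theorem disj {s t : OV G r} (h : (OG G r).Adj s t) : Disjoint s.1 t.1 := by
  rw [Finset.disjoint_left]
  intro x hx hx'
  exact G.loopless.irrefl x (h x hx x hx')

theorem card_pos (s : OV G r) : 1 ≤ s.1.card := Finset.card_pos.2 s.2.1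

theorem cf (h5 : G.CliqueFree 5) : (OG G r).CliqueFree 5 := by
  classical
  intro T hT
  have hinj : Set.InjOn (rep : OV G r → V) (T : Set (OV G r)) := by
    intro s hs t ht hst
    by_contra hne
    have h1 := hT.isClique hs ht hne
    have h2 := h1 (rep s) (rep_mem s) (rep t) (rep_mem t)
    rw [hst] at h2
    exact G.loopless.irrefl _ h2
  refine h5 (T.image rep) ⟨?_, ?_⟩
  · intro a ha b hb hab
    rw [Finset.coe_image] at ha hb
    obtain ⟨s, hs, rfl⟩ := ha
    obtain ⟨t, ht, rfl⟩ := hb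
    have hne : s ≠ t := by
      rintro rfl
      exact hab rfl
    exact hT.isClique hs ht hne (rep s) (rep_mem s) (rep t) (rep_mem t)
  · rw [Finset.card_image_of_injOn hinj]
    exact hT.card_eq

theorem card_le (h5 : G.CliqueFree 5) {s t v : OV G r} (hst : (OG G r).Adj s t)
    (hsv : (OG G r).Adj s v) (htv : (OG G r).Adj t v) :
    s.1.card + t.1.card + v.1.card ≤ 4 := by
  classical
  by_contra hcon
  have hcl : G.IsClique ((s.1 ∪ t.1 ∪ v.1 : Finset V) : Set V) := by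
    intro a ha b hb hab
    simp only [Finset.coe_union, Set.mem_union, Finset.mem_coe] at ha hb
    rcases ha with (ha | ha) | ha <;> rcases hb with (hb | hb) | hb
    · exact s.2.2.1 ha hb hab
    · exact hst a ha b hb
    · exact hsv a ha b hb
    · exact (hst b hb a ha).symm
    · exact t.2.2.1 ha hb hab
    · exact htv a ha b hb
    · exact (hsv b hb a ha).symm
    · exact (htv b hb a ha).symm
    · exact v.2.2.1 ha hb hab
  have hd : Disjoint (s.1 ∪ t.1) v.1 :=
    Finset.disjoint_union_left.2 ⟨disj hsv, disj htv⟩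
  have hc : (s.1 ∪ t.1 ∪ v.1).card = s.1.card + t.1.card + v.1.card := by
    rw [Finset.card_union_of_disjoint hd, Finset.card_union_of_disjoint (disj hst)]
  refine (h5.mono (show 5 ≤ (s.1 ∪ t.1 ∪ v.1).card by omega)) (s.1 ∪ t.1 ∪ v.1) ⟨hcl, rfl⟩

theorem mem_of {g : Equiv.Perm V} (hg : ∀ z, r z (g z)) (s : OV G r) {a : V} (ha : a ∈ s.1) :
    g a ∈ s.1 := (s.2.2.2 a ha (g a)).2 (hg a)

theorem eq_of {s : OV G r} (hs : s.1.card ≤ 1) {a b : V} (ha : a ∈ s.1) (hb : b ∈ s.1) :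
    a = b := Finset.card_le_one.1 hs a ha b hb

theorem move (hr : AutRel G ang r) (s : OV G r) {x : V} (hx : x ∈ s.1) :
    ∃ g : Equiv.Perm V, IsAut G ang g ∧ g (rep s) = x ∧ ∀ z, r z (g z) :=
  hr.mov (rep s) x ((s.2.2.2 (rep s) (rep_mem s) x).1 hx)

end OGR

open OGR in
/-- OGR -/
theorem tOGR : T_OGR.{u} := by
  intro V G ang h5 r hr
  refine ⟨cf h5, ?_⟩
  intro s t v hst hsv htv
  have hcard := card_le h5 hst hsv htv
  refine ⟨hcard, ?_⟩
  intro x hx y hy z hz
  have hs := card_pos s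
  have ht := card_pos t
  have hv := card_pos v
  obtain ⟨g, hg, h1, h2, h3⟩ : ∃ g : Equiv.Perm V, IsAut G ang g ∧ g (rep s) = x ∧
      g (rep t) = y ∧ g (rep v) = z := by
    rcases (by omega : (t.1.card ≤ 1 ∧ v.1.card ≤ 1) ∨ (s.1.card ≤ 1 ∧ v.1.card ≤ 1) ∨
      (s.1.card ≤ 1 ∧ t.1.card ≤ 1)) with h | h | h
    · obtain ⟨g, hg, he, hm⟩ := move hr s hx
      exact ⟨g, hg, he, eq_of h.1 (mem_of hm t (rep_mem t)) hy,
        eq_of h.2 (mem_of hm v (rep_mem v)) hz⟩
    · obtain ⟨g, hg, he, hm⟩ := move hr t hy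
      exact ⟨g, hg, eq_of h.1 (mem_of hm s (rep_mem s)) hx, he,
        eq_of h.2 (mem_of hm v (rep_mem v)) hz⟩
    · obtain ⟨g, hg, he, hm⟩ := move hr v hz
      exact ⟨g, hg, eq_of h.1 (mem_of hm s (rep_mem s)) hx,
        eq_of h.2 (mem_of hm t (rep_mem t)) hy, he⟩
  have h4 := hg.ang (rep s) (rep t) (rep v) (hst _ (rep_mem s) _ (rep_mem t))
    (hsv _ (rep_mem s) _ (rep_mem v)) (htv _ (rep_mem t) _ (rep_mem v))
  rw [h1, h2, h3] at h4
  rw [OA, h4]

end Pool.Agent.MSS
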