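import Pool.Agent.MSS.Targets

/-!
# RELAB: relabel one vertex of a null closed walk (MP_d6353f_al, MSS)
-/

set_option autoImplicit false

namespace Pool.Agent.MSS

open List Pool.Agent.MSF

universe u

namespace RELAB

theorem adj_first {V : Type u} {G : SimpleGraph V} {m : ℕ} {a b : V} {l : List V}
    (h : Null G m (a :: b :: l)) : G.Adj a b := by
  have h1 := h.cw
  simp only [CW, List.isChain_cons_cons] at h1
  exact h1.1

theorem cut {V : Type u} {b a : V} {t P l : List V} (h : b :: (t ++ [a]) = P ++ a :: (l ++ [a])) :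
    b :: t = P ++ a :: l := by
  have h1 : (b :: t) ++ [a] = (P ++ a :: l) ++ [a] := by simpa using h
  exact (List.append_inj' h1 rfl).1

theorem main (hP : T_PEEL.{u}) {V : Type u} (G : SimpleGraph V) (u u' : V)
    (hu : ∀ x, G.Adj u x → G.Adj u' x) : ∀ (m : ℕ) (t : List V), t ≠ [] → Null G m (u :: t) →
    Null G m (u' :: t) ∨ ∃ (s s' : List V) (m₁ m₂ : ℕ), t = s ++ u :: s' ∧ s ≠ [] ∧ s' ≠ [] ∧
      Null G m₁ (u :: s) ∧ Null G m₂ (u :: s') ∧ m₁ + m₂ ≤ m := by
  intro m
  induction m using Nat.strong_induction_on with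
  | _ m ih =>
  intro t ht hn
  cases t with
  | nil => exact absurd rfl ht
  | cons b t =>
  have hub : G.Adj u b := adj_first hn
  have hrot : (u :: b :: t) ~r (b :: (t ++ [u])) := ⟨1, by simp⟩
  rcases hP G m (u :: b :: t) hn b u t hrot with
    ⟨z, m', hm', -, huz, hzb, hz⟩ | ⟨P, Q, m₁, m₂, he, hP1, hQ1, hm⟩
  · have h1 : Null G m' (u :: z :: b :: t) := by
      have h2 : Null G m' ((z :: b :: t) ++ [u]) := by simpa using hz
      simpa using h2.swap
    rcases ih m' hm' (z :: b :: t) (by simp) h1 with h2 | ⟨s, s', m₁, m₂, he, hs, hs', hn1, hn2, hm⟩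
    · left
      exact (Null.tri (hu _ hub) (hu _ huz) hzb h2).mono hm'
    · right
      cases s with
      | nil => exact absurd rfl hs
      | cons y s =>
      simp only [List.cons_append, List.cons.injEq] at he
      obtain ⟨rfl, he⟩ := he
      cases s with
      | nil =>
        simp only [List.nil_append, List.cons.injEq] at he
        exact absurd he.1.symm hub.ne
      | cons x s =>
      simp only [List.cons_append, List.cons.injEq] at he
      obtain ⟨rfl, rfl⟩ := he
      refine ⟨b :: s, s', m₁ + 1, m₂, by simp, by simp, hs', Null.tri hub huz hzb hn1, hn2, ?_⟩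
      omega
  · cases P with
    | nil =>
      rcases hP1 with ⟨a, ha⟩ | ⟨a, l, _, ha, _⟩
      · exact absurd ha (by simp)
      · exact absurd ha (by simp)
    | cons y P =>
    rcases hQ1 with ⟨a, rfl⟩ | ⟨a, l, hl, rfl, hn2⟩
    · have h1 : (b :: t) ++ [u] = (y :: P) ++ [a] := by simpa using he
      obtain ⟨h2, -⟩ := List.append_inj' h1 rfl
      simp only [List.cons.injEq] at h2
      obtain ⟨rfl, rfl⟩ := h2
      left
      exact (hP1.attach (hu _ hub)).mono (by omega)
    · have hau : u = a := by
        have h1 : (b :: t) ++ [u] = (y :: P ++ a :: l) ++ [a] := by simpa using he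
        have h2 := (List.append_inj' h1 rfl).2
        simpa using h2
      subst hau
      have h3 := cut he
      right
      have hyb : b = y := by
        simp only [List.cons_append, List.cons.injEq] at h3
        exact h3.1
      refine ⟨y :: P, l, m₁, m₂, h3, by simp, hl, ?_, hn2, hm⟩
      subst hyb
      exact hP1.attach hub

end RELAB

theorem tRELAB (h : Pool.Agent.MSF.T_PEEL.{u}) : T_RELAB.{u} := by
  intro V G m u u' t hu ht hn
  exact RELAB.main h G u u' hu m t ht hn

end Pool.Agent.MSS
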