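import Pool.Agent.MSS.Basic

/-!
# ROT: rotation and reversal of the situation of the main induction
-/

set_option autoImplicit false

namespace Pool.Agent.MSS

open List Pool.Agent.MSF

universe u

namespace ROT

variable {V : Type u} {G : SimpleGraph V} {f : Equiv.Perm V} {ang : V → V → V → ℝ}
  {ρ : V → V}

theorem cw_reverse {V : Type*} {G : SimpleGraph V} {w : List V} (h : CW G w) :
    CW G w.reverse := by
  match w, h with
  | [a], _ => trivial
  | (a :: b :: l), h =>
    simp only [CW] at h
    have h1 : List.IsChain G.Adj (a :: b :: (l ++ [a])).reverse := by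
      rw [List.isChain_reverse]
      exact h.imp fun _ _ hab => hab.symm
    have e : (a :: b :: (l ++ [a])).reverse = a :: ((b :: l).reverse ++ [a]) := by simp
    rw [e] at h1
    have h2 : CW G (a :: (b :: l).reverse) := (CW_cons (by simp)).2 h1
    have h3 : (a :: (b :: l).reverse) ~r ((b :: l).reverse ++ [a]) := by
      have := List.isRotated_append (l := [a]) (l' := (b :: l).reverse)
      simpa using this
    have h4 := h2.rotated h3
    have e2 : (a :: b :: l).reverse = (b :: l).reverse ++ [a] := by simp
    rw [e2]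
    exact h4

theorem nT_perm {w w' : List (V × Bool)} (h : w.Perm w') : nT w = nT w' :=
  (h.filter _).length_eq

theorem tB_perm {w w' : List (V × Bool)} (h : w.Perm w') : tB w = tB w' := by
  ext b
  exact h.mem_iff

/-- A list with the same image as a rotation can be rotated back. -/
theorem back {X : Type*} {W : Type*} {w w' : List W} (h : w ~r w') {g : W → X} {w'' : List X}
    (h2 : w'' = w'.map g) : ∃ w₃, w₃ = w.map g ∧ w'' ~r w₃ := by
  refine ⟨_, rfl, ?_⟩
  rw [h2]
  exact (h.map g).symm

theorem rot {A n : ℕ} {w w' : List (V × Bool)} (h : Sit G ang f ρ A n w) (hr : w ~r w') :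
    Sit G ang f ρ A n w' := by
  have hp := hr.perm
  have htB := tB_perm hp
  obtain ⟨j, hj⟩ := hr.symm
  refine { toInv := h.toInv, ih := h.ih, len := ?_, cw := ?_, fl := ?_, null := ?_, min := ?_,
           tmax := ?_ }
  · rw [← hp.length_eq]; exact h.len
  · exact h.cw.rotated (hr.map _)
  · intro b hb
    exact h.fl b (hp.mem_iff.2 hb)
  · rw [← htB]
    exact h.null.rotated hr
  · intro k w'' h1 h2
    refine h.min k (w''.rotate j) ?_ (h2.rotate j)
    rw [List.map_rotate, h1, ← List.map_rotate, hj]
  · intro w'' h1 h2 h3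
    have hp2 : (w''.rotate j).Perm w'' := List.rotate_perm _ _
    have h4 := h.tmax (w''.rotate j) (by rw [List.map_rotate, h1, ← List.map_rotate, hj])
      (fun b hb => h2 b (hp2.mem_iff.1 hb)) (by
        rw [tB_perm hp2]
        exact h3.rotate j)
    rw [nT_perm hp2] at h4
    rwa [← nT_perm hp]

theorem rev {A n : ℕ} {w : List (V × Bool)} (h : Sit G ang f ρ A n w) :
    Sit G ang f ρ A n w.reverse := by
  have hp : w.reverse.Perm w := List.reverse_perm w
  refine { toInv := h.toInv, ih := h.ih, len := ?_, cw := ?_, fl := ?_, null := ?_, min := ?_,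
           tmax := ?_ }
  · rw [List.length_reverse]; exact h.len
  · rw [List.map_reverse]
    exact cw_reverse h.cw
  · intro b hb
    exact h.fl b (hp.mem_iff.1 hb)
  · rw [tB_perm hp]
    exact h.null.reverse
  · intro k w'' h1 h2
    refine h.min k w''.reverse ?_ h2.reverse
    rw [List.map_reverse, h1, List.map_reverse, List.reverse_reverse]
  · intro w'' h1 h2 h3
    have hp2 : w''.reverse.Perm w'' := List.reverse_perm w''
    have h4 := h.tmax w''.reverse (by
        rw [List.map_reverse, h1, List.map_reverse, List.reverse_reverse])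
      (fun b hb => h2 b (hp2.mem_iff.1 hb)) (by
        rw [tB_perm hp2]
        exact h3.reverse)
    rw [nT_perm hp2] at h4
    rwa [nT_perm hp]

theorem fin_rot {w w' : List (V × Bool)} (hr : w ~r w') (h : Fin G f ρ w') : Fin G f ρ w := by
  obtain ⟨B, hB⟩ := h
  exact ⟨B, hB.rotated ((hr.map _).symm)⟩

theorem fin_rev {w : List (V × Bool)} (h : Fin G f ρ w.reverse) : Fin G f ρ w := by
  obtain ⟨B, hB⟩ := h
  refine ⟨B, ?_⟩
  have := hB.reverse
  rwa [List.map_reverse, List.reverse_reverse] at this

end ROT

theorem tROT : T_ROT.{u} := by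
  intro V G ang f ρ A n w w' h hr
  rcases hr with hr | hr
  · exact ⟨ROT.rot h hr, ROT.fin_rot hr⟩
  · exact ⟨ROT.rot (ROT.rev h) hr, fun h2 => ROT.fin_rev (ROT.fin_rot hr h2)⟩

end Pool.Agent.MSS
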