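import Pool.Agent.MSS.Basic

/-!
# SEL: selection of a good corner (MSS)
-/

set_option autoImplicit false

namespace Pool.Agent.MSS

open List Pool.Agent.MSF

universe u

namespace SEL

/-- The cyclic shift of a sum along a chain. -/
theorem sum_shift {α : Type*} (R : α → α → Prop) (φ ψ : α → ℝ) (h : ∀ a b, R a b → φ a = ψ b) :
    ∀ (L : List α) (c e : α), List.IsChain R (c :: (L ++ [e])) →
      ((c :: L).map φ).sum = ((L ++ [e]).map ψ).sum
  | [], c, e, hc => by
    simp only [List.nil_append, List.isChain_cons_cons] at hc
    simp [h c e hc.1]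
  | (d :: L), c, e, hc => by
    rw [List.cons_append, List.isChain_cons_cons] at hc
    have ih := sum_shift R φ ψ h L d e hc.2
    rw [List.map_cons, List.sum_cons, ih, List.cons_append, List.map_cons, List.sum_cons,
      h c d hc.1]

/-- Every member but the last one of a chain has a successor. -/
theorem exists_succ {α : Type*} (R : α → α → Prop) :
    ∀ (L : List α) (c e : α), List.IsChain R (c :: (L ++ [e])) →
      ∀ d ∈ c :: L, ∃ d' ∈ L ++ [e], R d d'
  | [], c, e, hc, d, hd => by
    simp only [List.nil_append, List.isChain_cons_cons] at hc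
    simp only [List.mem_cons, List.not_mem_nil, or_false] at hd
    subst hd
    exact ⟨e, by simp, hc.1⟩
  | (b :: L), c, e, hc, d, hd => by
    rw [List.cons_append, List.isChain_cons_cons] at hc
    rcases List.mem_cons.1 hd with rfl | hd
    · exact ⟨b, by simp, hc.1⟩
    · obtain ⟨d', h1, h2⟩ := exists_succ R L b e hc.2 d hd
      exact ⟨d', List.mem_cons_of_mem _ h1, h2⟩

theorem sum_le_sum' {α : Type*} (φ ψ : α → ℝ) :
    ∀ L : List α, (∀ a ∈ L, φ a ≤ ψ a) → (L.map φ).sum ≤ (L.map ψ).sum
  | [], _ => by simp
  | (a :: L), h => by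
    have ih := sum_le_sum' φ ψ L (fun b hb => h b (List.mem_cons_of_mem _ hb))
    have h1 := h a (by simp)
    simp only [List.map_cons, List.sum_cons]
    linarith

theorem sum_add' {α : Type*} (φ ψ : α → ℝ) :
    ∀ L : List α, (L.map fun a => φ a + ψ a).sum = (L.map φ).sum + (L.map ψ).sum
  | [] => by simp
  | (a :: L) => by
    have ih := sum_add' φ ψ L
    simp only [List.map_cons, List.sum_cons, ih]
    ring

variable {V : Type u} {G : SimpleGraph V} {f : Equiv.Perm V} {ang : V → V → V → ℝ} {ρ : V → V}

open Classical in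
/-- The share of the label `v` at the edge `v x`. -/
noncomputable def sh (G : SimpleGraph V) (f : Equiv.Perm V) (ang : V → V → V → ℝ)
    (v x : V × Bool) : ℝ :=
  if v.2 = true then 0 else
    if f v.1 = v.1 then gap G f ang v.1 x / 2 else ang v.1 x.1 (f v.1) - Real.pi / 2

/-- The shares at an edge with a fixed end. -/
theorem sh_pair (hI : Inv G ang f ρ) {y b : V × Bool} (hy : y.2 = false) (hfy : f y.1 = y.1)
    (hb : (b.2 = false ∧ f b.1 = b.1) ∨ G.Adj b.1 (f b.1)) (hadj : G.Adj y.1 b.1) :
    sh G f ang y b + sh G f ang b y ≤ 0 := by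
  classical
  have hirr : ¬ G.Adj y.1 (f y.1) := fun h => by
    rw [hfy] at h
    exact G.loopless.irrefl _ h
  have hgy : ∀ z, gap G f ang z y = 0 := fun z => by
    simp only [gap]
    rw [if_neg (fun h => hirr h.2)]
  rcases hb with ⟨hb1, hb2⟩ | hb
  · have hirr' : ¬ G.Adj b.1 (f b.1) := fun h => by
      rw [hb2] at h
      exact G.loopless.irrefl _ h
    have hgb : ∀ z, gap G f ang z b = 0 := fun z => by
      simp only [gap]
      rw [if_neg (fun h => hirr' h.2)]
    simp [sh, hy, hfy, hb1, hb2, hgy, hgb]
  · have hne : f b.1 ≠ b.1 := fun e => by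
      rw [e] at hb
      exact G.loopless.irrefl _ hb
    by_cases hb2 : b.2 = true
    · have hgb : ∀ z, gap G f ang z b = 0 := fun z => by
        simp only [gap]
        rw [if_neg (fun h => by rw [hb2] at h; exact absurd h.1 (by simp))]
      simp [sh, hy, hfy, hb2, hgb]
    · have hb2' : b.2 = false := by simpa using hb2
      have hgb : gap G f ang y.1 b = ang y.1 b.1 (f b.1) := by
        simp only [gap]
        rw [if_pos ⟨hb2', hb⟩]
      have hyf : G.Adj y.1 (f b.1) := by
        have := (hI.aut.adj y.1 b.1).2 hadj
        rwa [hfy] at this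
      have h1 := hI.angled.sum_le y.1 b.1 (f b.1) hadj hb hyf
      have h2 : ang (f b.1) y.1 b.1 = ang b.1 y.1 (f b.1) := by
        have := hI.aut.ang b.1 y.1 (f b.1) hadj.symm hb hyf
        rwa [hfy, hI.inv] at this
      simp only [sh, hy, hfy, hb2', hne, hgb, if_true, if_false]
      simp only [Bool.false_eq_true, if_false]
      linarith

end SEL

open SEL in
theorem tSEL : T_SEL.{u} := by
  classical
  intro V G ang f ρ B hI D hD hok hsum hty
  by_contra hcon
  push Not at hcon
  -- every corner is bad
  have hbad : ∀ c ∈ D, Real.pi - c.th ≤ sh G f ang c.v c.p + sh G f ang c.v c.n := by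
    intro c hc
    have h1 := hcon c hc
    have hlen := (hok c hc).len
    simp only [CIneq, not_or, not_and, not_lt] at h1
    obtain ⟨hY, hB, hN⟩ := h1
    rcases hty c hc with ⟨h2, h3⟩ | ⟨h2, -⟩
    · have h4 := hY h2 h3
      rw [← hlen] at h4
      simp only [sh, h2, h3, if_true, Bool.false_eq_true, if_false]
      linarith
    · have hne : f c.v.1 ≠ c.v.1 := fun e => by
        rw [e] at h2
        exact G.loopless.irrefl _ h2
      by_cases h3 : c.v.2 = true
      · have h4 := hB h3
        rw [← hlen] at h4
        simp only [sh, h3, if_true]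
        linarith
      · have h3' : c.v.2 = false := by simpa using h3
        have h4 := hN h3' h2
        rw [← hlen] at h4
        simp only [sh, h3', hne, Bool.false_eq_true, if_false]
        have e1 := hI.angled.symm c.v.1 c.p.1 (f c.v.1)
        linarith
  match D, hD with
  | (c :: D), hD =>
    simp only [CycC] at hD
    -- the shares of an edge
    have hpair : ∀ d ∈ c :: D, sh G f ang d.n d.v + sh G f ang d.v d.n ≤ 0 := by
      intro d hd
      have hadj : G.Adj d.v.1 d.n.1 :=
        HG.adj_fst ((hok d hd).link d.n (by simp))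
      obtain ⟨d', hd', hn, hp⟩ := exists_succ Corner.Next D c c hD d hd
      have hd'' : d' ∈ c :: D := by
        rcases List.mem_append.1 hd' with h | h
        · exact List.mem_cons_of_mem _ h
        · simp only [List.mem_cons, List.not_mem_nil, or_false] at h
          rw [h]
          simp
      rcases hty d hd with ⟨h1, h2⟩ | ⟨h1, -, -, h4, h5⟩
      · have h3 : (d.n.2 = false ∧ f d.n.1 = d.n.1) ∨ G.Adj d.n.1 (f d.n.1) := by
          rw [hn]
          rcases hty d' hd'' with h | h
          · exact Or.inl h
          · exact Or.inr h.1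
        have := sh_pair hI h1 h2 h3 hadj
        linarith
      · exact sh_pair hI h4 h5 (Or.inr h1) hadj.symm
    have e1 : ((c :: D).map fun d : Corner (V × Bool) => sh G f ang d.v d.p).sum =
        ((c :: D).map fun d : Corner (V × Bool) => sh G f ang d.n d.v).sum := by
      rw [sum_shift Corner.Next (fun d : Corner (V × Bool) => sh G f ang d.n d.v)
        (fun d : Corner (V × Bool) => sh G f ang d.v d.p)
        (fun a b hab => by rw [hab.1, hab.2]) D c c hD]
      simp [add_comm]
    have h1 := sum_le_sum' _ _ (c :: D) hbad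
    have e2 := sum_add' (fun d : Corner (V × Bool) => sh G f ang d.v d.p)
      (fun d : Corner (V × Bool) => sh G f ang d.v d.n) (c :: D)
    have e3 := sum_add' (fun d : Corner (V × Bool) => sh G f ang d.n d.v)
      (fun d : Corner (V × Bool) => sh G f ang d.v d.n) (c :: D)
    have h2 := sum_le_sum' _ (fun _ => (0 : ℝ)) (c :: D) hpair
    have h3 : ((c :: D).map fun _ => (0 : ℝ)).sum = 0 := by simp
    have := Real.pi_pos
    linarith

end Pool.Agent.MSS
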