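import Pool.Agent.MSS.Targets

/-!
# SMAIN: invariant cliques of finite solvable groups, from the finite complex to `X`
-/

set_option autoImplicit false

namespace Pool.Agent.MSS

open List Pool.Agent.MSF
open Pool.Agent.MSO (SEx Cl)
open Pool.Agent.MSN (NonObtuse)
open Pool.Agent.MSN.Alg (nC)

universe u

/-- The target `T_SMAIN`. -/
theorem tSMAIN (h1 : T_SOLN.{u}) (h2 : T_ALT.{u}) (h3 : Pool.Agent.MSO.T_KEYP.{u})
    (h4 : Pool.Agent.MSN.Fin.T_FIN.{u}) (h5 : Pool.Agent.MSF.T_LARGE.{u})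
    (h6 : Pool.Agent.MSF.T_TRIG.{u}) : T_SMAIN.{u} := by
  classical
  intro V G len hX hN hF H _ _ _ hG hlen hsol
  obtain ⟨W, hW, hA, Y, π, hπ, hadj, hY, -, hms, hcf, hno⟩ := h4 H G len hX hG
  have := Fintype.ofFinite W
  let : LinearOrder W := LinearOrder.lift' (Fintype.equivFin W) (Fintype.equivFin W).injective
  have : Fact (Nat.Prime 2) := ⟨Nat.prime_two⟩
  have hex : SEx (ZMod 2) (Cl Y) := h3 Y _ hms (hno hN) (hcf 5 hF) 2
  have hgood : GoodC Y (angle fun a b => len (π a) (π b)) :=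
    ⟨angled_of_ms h5 h6 hms, hcf 5 hF, hms.simplyConn, h2 Y 2 hex⟩
  have hl : ∀ (h : H) (a b : W), Y.Adj a b →
      len (π (h • a)) (π (h • b)) = len (π a) (π b) := by
    intro h a b hab
    rw [hπ, hπ]
    exact hlen h _ _ (hadj a b hab)
  have hang : ∀ (h : H) (v a b : W), Y.Adj v a → Y.Adj v b → Y.Adj a b →
      angle (fun a b => len (π a) (π b)) (h • v) (h • a) (h • b) =
        angle (fun a b => len (π a) (π b)) v a b := by
    intro h v a b ha hb hab
    unfold angle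
    simp only [hl h v a ha, hl h v b hb, hl h a b hab]
  have hsol' : Group.IsSolvable (⊤ : Subgroup H) := inferInstance
  have hO := h1 Y _ hgood H hY hang ⊤ hsol'
  obtain ⟨s⟩ := hO.sc.1.nonempty
  refine Pool.Agent.MSN.Fin.push hπ hadj s.2.1 s.2.2.1 ?_
  intro h x hx
  rw [s.2.2.2 x hx]
  exact ⟨h, Subgroup.mem_top h, rfl⟩

end Pool.Agent.MSS
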