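import Pool.Agent.MSS.Targets

/-!
# SMITH: Smith theory for the orbit complex (MP_d6353f_al, MSS)
-/

set_option autoImplicit false

namespace Pool.Agent.MSS

open Pool.Agent.MSO (SEx Cl Cmp NC Dn)
open Pool.Agent.MSN.Grp (sg)

universe u

namespace SMITH

/-! ### Transport of exactness along a strictly monotone map -/

/-- Signs are preserved by strictly monotone maps. -/
lemma sg_map {W W' : Type u} [LinearOrder W] [LinearOrder W'] (f : W ↪ W') (hf : StrictMono f)
    (t : Finset W) (x : W) : sg (t.map f) (f x) = sg t x := by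
  unfold sg
  have h1 : (t.map f).filter (· < f x) = (t.filter (· < x)).map f := by
    ext y
    simp only [Finset.mem_filter, Finset.mem_map]
    constructor
    · rintro ⟨⟨z, hz, rfl⟩, h⟩
      exact ⟨z, ⟨hz, hf.lt_iff_lt.1 h⟩, rfl⟩
    · rintro ⟨z, ⟨hz, h⟩, rfl⟩
      exact ⟨⟨z, hz, rfl⟩, hf h⟩
  rw [h1, Finset.card_map]

/-- Transport. -/
lemma transp {W W' : Type u} [LinearOrder W] [LinearOrder W'] (F : Type) [CommRing F]
    (f : W ↪ W') (hf : StrictMono f) (K : Finset W → Prop) (K' : Finset W' → Prop)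
    (h1 : ∀ t, K t → K' (t.map f)) (h2 : ∀ s, K' s → ∃ t, K t ∧ s = t.map f)
    (h : SEx F K') : SEx F K := by
  intro c hc
  have key : ∀ (b : Finset W' → F) (a : Finset W → F), (∀ t, b (t.map f) = a t) →
      ∀ t : Finset W, ∑ x ∈ t.map f, ((sg (t.map f) x : ℤ) : F) * b ((t.map f).erase x) =
        ∑ x ∈ t, ((sg t x : ℤ) : F) * a (t.erase x) := by
    intro b a hab t
    rw [Finset.sum_map]
    refine Finset.sum_congr rfl fun x _ => ?_
    rw [sg_map f hf, ← Finset.map_erase, hab]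
  obtain ⟨e, he⟩ := h (fun s => c (s.preimage f f.injective.injOn)) (by
    intro s hs
    obtain ⟨t, ht, rfl⟩ := h2 s hs
    exact (key (fun s => c (s.preimage f f.injective.injOn)) c
      (fun t => by rw [Finset.preimage_map]) t).trans (hc t ht))
  refine ⟨fun t => e (t.map f), fun t ht => ?_⟩
  have h3 := he (t.map f) (h1 t ht)
  rw [key e (fun t => e (t.map f)) (fun _ => rfl) t, Finset.preimage_map] at h3
  exact h3

/-! ### The action on the nonempty cliques -/

variable {V : Type u} [LinearOrder V] {G : SimpleGraph V}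

/-- The image of a nonempty clique. -/
def im (g : Equiv.Perm V) (hg : ∀ a b, G.Adj (g a) (g b) ↔ G.Adj a b) (s : NC G) : NC G :=
  ⟨s.1.image g, s.2.1.image _, by
    intro a ha b hb hab
    simp only [Finset.coe_image, Set.mem_image, Finset.mem_coe] at ha hb
    obtain ⟨a', ha', rfl⟩ := ha
    obtain ⟨b', hb', rfl⟩ := hb
    exact (hg a' b').2 (s.2.2 ha' hb' (fun e => hab (by rw [e])))⟩

omit [LinearOrder V] in
lemma inv_adj {g : Equiv.Perm V} (hg : ∀ a b, G.Adj (g a) (g b) ↔ G.Adj a b) (a b : V) :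
    G.Adj (g.symm a) (g.symm b) ↔ G.Adj a b := by
  rw [← hg (g.symm a) (g.symm b), Equiv.apply_symm_apply, Equiv.apply_symm_apply]

/-- The permutation of the nonempty cliques. -/
def imP (g : Equiv.Perm V) (hg : ∀ a b, G.Adj (g a) (g b) ↔ G.Adj a b) : Equiv.Perm (NC G) where
  toFun := im g hg
  invFun := im g.symm (inv_adj hg)
  left_inv s := by
    apply Subtype.ext
    change (s.1.image g).image g.symm = s.1
    rw [Finset.image_image]
    simp
  right_inv s := by
    apply Subtype.ext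
    change (s.1.image g.symm).image g = s.1
    rw [Finset.image_image]
    simp

lemma imP_val (g : Equiv.Perm V) (hg : ∀ a b, G.Adj (g a) (g b) ↔ G.Adj a b) (s : NC G) :
    (imP g hg s).1 = s.1.image g := rfl

lemma imP_pow (g : Equiv.Perm V) (hg : ∀ a b, G.Adj (g a) (g b) ↔ G.Adj a b) (k : ℕ)
    (s : NC G) : (((imP g hg) ^ k : Equiv.Perm (NC G)) s).1 = s.1.image (g ^ k : Equiv.Perm V) := by
  induction k generalizing s with
  | zero => simp
  | succ k ih =>
    rw [pow_succ, Equiv.Perm.mul_apply, ih, imP_val, Finset.image_image, pow_succ]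
    rfl

lemma imP_card (g : Equiv.Perm V) (hg : ∀ a b, G.Adj (g a) (g b) ↔ G.Adj a b) (s : NC G) :
    (imP g hg s).1.card = s.1.card := by
  rw [imP_val]
  exact Finset.card_image_of_injective _ g.injective

/-! ### Orbits -/

omit [LinearOrder V] in
lemma orb_refl (g : Equiv.Perm V) (x : V) : orbg g x x := ⟨0, by simp⟩

omit [LinearOrder V] in
lemma orb_trans {g : Equiv.Perm V} {x y z : V} (h1 : orbg g x y) (h2 : orbg g y z) :
    orbg g x z := by
  obtain ⟨k, rfl⟩ := h1
  obtain ⟨m, rfl⟩ := h2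
  exact ⟨m + k, by rw [pow_add, Equiv.Perm.mul_apply]⟩

omit [LinearOrder V] in
lemma orb_symm {g : Equiv.Perm V} {p : ℕ} (hp : 0 < p) (hgp : g ^ p = 1) {x y : V}
    (h : orbg g x y) : orbg g y x := by
  obtain ⟨k, rfl⟩ := h
  refine ⟨k * (p - 1), ?_⟩
  rw [← Equiv.Perm.mul_apply, ← pow_add]
  have h1 : k * (p - 1) + k = p * k := by
    obtain ⟨q, rfl⟩ := Nat.exists_eq_succ_of_ne_zero hp.ne'
    simp only [Nat.succ_eq_add_one, Nat.add_sub_cancel]
    ring
  rw [h1, pow_mul, hgp, one_pow, Equiv.Perm.one_apply]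

/-- The union of the members of a clique of the orbit complex. -/
def un {g : Equiv.Perm V} (T : NC (OG G (orbg g))) : NC G :=
  ⟨T.1.biUnion (fun s => s.1), by
    obtain ⟨s, hs⟩ := T.2.1
    obtain ⟨x, hx⟩ := s.2.1
    exact ⟨x, Finset.mem_biUnion.2 ⟨s, hs, hx⟩⟩, by
    intro a ha b hb hab
    simp only [Finset.coe_biUnion, Set.mem_iUnion, Finset.mem_coe] at ha hb
    obtain ⟨s, hs, ha⟩ := ha
    obtain ⟨t, ht, hb⟩ := hb
    by_cases hst : s = t
    · subst hst
      exact s.2.2.1 ha hb hab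
    · exact T.2.2 hs ht hst a ha b hb⟩

lemma mem_un {g : Equiv.Perm V} (T : NC (OG G (orbg g))) (x : V) :
    x ∈ (un T).1 ↔ ∃ s ∈ T.1, x ∈ s.1 := Finset.mem_biUnion

omit [LinearOrder V] in
lemma eq_of_mem {g : Equiv.Perm V} {s t : OV G (orbg g)} {x : V} (hs : x ∈ s.1) (ht : x ∈ t.1) :
    s = t := by
  apply Subtype.ext
  ext y
  rw [s.2.2.2 x hs y, t.2.2.2 x ht y]

lemma un_sub {g : Equiv.Perm V} (T T' : NC (OG G (orbg g))) :
    (un T).1 ⊆ (un T').1 ↔ T.1 ⊆ T'.1 := by
  constructor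
  · intro h s hs
    obtain ⟨x, hx⟩ := s.2.1
    obtain ⟨t, ht, hxt⟩ := (mem_un T' x).1 (h ((mem_un T x).2 ⟨s, hs, hx⟩))
    rwa [eq_of_mem hx hxt]
  · intro h x hx
    obtain ⟨s, hs, hxs⟩ := (mem_un T x).1 hx
    exact (mem_un T' x).2 ⟨s, h hs, hxs⟩

lemma un_inj (g : Equiv.Perm V) :
    Function.Injective (un : NC (OG G (orbg g)) → NC G) := by
  intro T T' h
  apply Subtype.ext
  have h1 : (un T).1 = (un T').1 := by rw [h]
  exact Finset.Subset.antisymm ((un_sub T T').1 h1.subset) ((un_sub T' T).1 h1.symm.subset)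

lemma un_fix {g : Equiv.Perm V} (hg : ∀ a b, G.Adj (g a) (g b) ↔ G.Adj a b)
    (T : NC (OG G (orbg g))) : imP g hg (un T) = un T := by
  apply Subtype.ext
  refine Finset.eq_of_subset_of_card_le ?_ (imP_card g hg _).symm.le
  intro y hy
  rw [imP_val, Finset.mem_image] at hy
  obtain ⟨x, hx, rfl⟩ := hy
  obtain ⟨s, hs, hxs⟩ := (mem_un T x).1 hx
  exact (mem_un T (g x)).2 ⟨s, hs, (s.2.2.2 x hxs (g x)).2 ⟨1, by simp⟩⟩

lemma un_surj {g : Equiv.Perm V} (hg : ∀ a b, G.Adj (g a) (g b) ↔ G.Adj a b) {p : ℕ}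
    (hp : 0 < p) (hgp : g ^ p = 1) [Finite V] (S : NC G) (hS : imP g hg S = S) :
    ∃ T : NC (OG G (orbg g)), un T = S := by
  classical
  have : Finite (OV G (orbg g)) := by
    have : Finite (Finset V) := inferInstance
    exact Subtype.finite
  let _ : Fintype (OV G (orbg g)) := Fintype.ofFinite _
  have hpow : ∀ k : ℕ, ∀ x ∈ S.1, (g ^ k : Equiv.Perm V) x ∈ S.1 := by
    intro k
    induction k with
    | zero => intro x hx; simpa using hx
    | succ k ih =>
      intro x hx
      have h1 := ih x hx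
      have h2 : g ((g ^ k : Equiv.Perm V) x) ∈ (imP g hg S).1 := by
        rw [imP_val]
        exact Finset.mem_image_of_mem _ h1
      rw [hS] at h2
      rw [pow_succ', Equiv.Perm.mul_apply]
      exact h2
  have horb : ∀ x ∈ S.1, ∀ y, orbg g x y → y ∈ S.1 := by
    rintro x hx y ⟨k, rfl⟩
    exact hpow k x hx
  -- the orbit of an element
  have hex : ∀ x ∈ S.1, ∃ s : OV G (orbg g), x ∈ s.1 ∧ s.1 ⊆ S.1 := by
    intro x hx
    refine ⟨⟨S.1.filter (fun y => orbg g x y), ⟨x, ?_⟩, ?_, ?_⟩, ?_, ?_⟩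
    · exact Finset.mem_filter.2 ⟨hx, orb_refl g x⟩
    · intro a ha b hb hab
      exact S.2.2 (Finset.mem_filter.1 ha).1 (Finset.mem_filter.1 hb).1 hab
    · intro a ha y
      rw [Finset.mem_filter] at ha ⊢
      constructor
      · rintro ⟨_, h⟩
        exact orb_trans (orb_symm hp hgp ha.2) h
      · intro h
        have h2 := orb_trans ha.2 h
        exact ⟨horb x hx y h2, h2⟩
    · exact Finset.mem_filter.2 ⟨hx, orb_refl g x⟩
    · exact Finset.filter_subset _ _
  refine ⟨⟨Finset.univ.filter (fun s : OV G (orbg g) => s.1 ⊆ S.1), ?_, ?_⟩, ?_⟩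
  · obtain ⟨x, hx⟩ := S.2.1
    obtain ⟨s, _, hs⟩ := hex x hx
    exact ⟨s, Finset.mem_filter.2 ⟨Finset.mem_univ _, hs⟩⟩
  · intro s hs t ht hst x hx y hy
    have hs' := (Finset.mem_filter.1 hs).2
    have ht' := (Finset.mem_filter.1 ht).2
    refine S.2.2 (hs' hx) (ht' hy) ?_
    rintro rfl
    exact hst (eq_of_mem hx hy)
  · apply Subtype.ext
    ext x
    rw [mem_un]
    constructor
    · rintro ⟨s, hs, hx⟩
      exact (Finset.mem_filter.1 hs).2 hx
    · intro hx
      obtain ⟨s, hxs, hs⟩ := hex x hx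
      exact ⟨s, Finset.mem_filter.2 ⟨Finset.mem_univ _, hs⟩, hxs⟩

end SMITH

open SMITH in
theorem tSMITH (h1 : T_SUBDR.{u}) (h2 : Pool.Agent.MSO.T_SUBD.{u})
    (h3 : Pool.Agent.MSO.T_SMI.{u}) : T_SMITH.{u} := by
  intro V _ _ G p hpp hK g hg hgp LOV
  classical
  have hp : 0 < p := hpp.out.pos
  let _ : Fintype (NC G) := Fintype.ofFinite _
  let _ : Fintype (OV G (orbg g)) := by
    have : Finite (OV G (orbg g)) := by
      have : Finite (Finset V) := inferInstance
      exact Subtype.finite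
    exact Fintype.ofFinite _
  let LO : LinearOrder (NC G) := linearOrderOfSTO (WellOrderingRel : NC G → NC G → Prop)
  let _ : LinearOrder (NC G) := LO
  let _ : DecidableEq (NC G) := LO.toDecidableEq
  let LO' : LinearOrder (NC (OG G (orbg g))) := LinearOrder.lift' un (un_inj g)
  let _ : LinearOrder (NC (OG G (orbg g))) := LO'
  have hS : SEx (ZMod p) (Cl (Cmp G)) := h2 (ZMod p) G hK
  have hD : Dn (Cl (Cmp G)) := by
    intro s x hs a ha b hb hab
    refine hs ?_ ?_ hab
    · exact Finset.mem_of_mem_erase ha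
    · exact Finset.mem_of_mem_erase hb
  have hI : ∀ s, Cl (Cmp G) s → Cl (Cmp G) (s.image (imP g hg)) := by
    intro s hs a ha b hb hab
    simp only [Finset.coe_image, Set.mem_image, Finset.mem_coe] at ha hb
    obtain ⟨a', ha', rfl⟩ := ha
    obtain ⟨b', hb', rfl⟩ := hb
    have hne : a' ≠ b' := fun e => hab (by rw [e])
    have h4 := (hs ha' hb' hne).2
    refine ⟨hab, ?_⟩
    rcases h4 with h4 | h4
    · left
      rw [imP_val, imP_val]
      exact Finset.image_subset_image h4
    · right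
      rw [imP_val, imP_val]
      exact Finset.image_subset_image h4
  have hR : ∀ s, Cl (Cmp G) s → s.image (imP g hg) = s → ∀ x ∈ s, imP g hg x = x := by
    intro s hs hsi x hx
    have hx' : imP g hg x ∈ s := by
      rw [← hsi]
      exact Finset.mem_image_of_mem _ hx
    by_contra hne
    have h4 := (hs hx' hx hne).2
    apply hne
    apply Subtype.ext
    rcases h4 with h4 | h4
    · exact Finset.eq_of_subset_of_card_le h4 (by rw [imP_card])
    · exact (Finset.eq_of_subset_of_card_le h4 (by rw [imP_card])).symm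
  have hS' := h3 p (Cl (Cmp G)) hD hS (imP g hg) hI
    (by
      intro s _ x _
      apply Subtype.ext
      rw [imP_pow, hgp]
      simp)
    hR
  refine h1 (ZMod p) (OG G (orbg g)) ?_
  let f : NC (OG G (orbg g)) ↪ NC G := ⟨un, un_inj g⟩
  refine transp (ZMod p) f (fun _ _ h => h) _ _ ?_ ?_ hS'
  · intro t ht
    refine ⟨?_, ?_⟩
    · intro a ha b hb hab
      simp only [Finset.coe_map, Set.mem_image, Finset.mem_coe] at ha hb
      obtain ⟨a', ha', rfl⟩ := ha
      obtain ⟨b', hb', rfl⟩ := hb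
      have hne : a' ≠ b' := fun e => hab (by rw [e])
      have h4 := (ht ha' hb' hne).2
      refine ⟨hab, ?_⟩
      rcases h4 with h4 | h4
      · exact Or.inl ((un_sub a' b').2 h4)
      · exact Or.inr ((un_sub b' a').2 h4)
    · intro x hx
      obtain ⟨y, _, rfl⟩ := Finset.mem_map.1 hx
      exact un_fix hg y
  · rintro s ⟨hs1, hs2⟩
    have hran : ∀ x ∈ s, ∃ T : NC (OG G (orbg g)), un T = x :=
      fun x hx => un_surj hg hp hgp x (hs2 x hx)
    have hmap : s = (s.preimage f f.injective.injOn).map f := by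
      rw [Finset.map_eq_image, Finset.image_preimage]
      ext x
      rw [Finset.mem_filter]
      constructor
      · intro hx
        obtain ⟨T, hT⟩ := hran x hx
        exact ⟨hx, ⟨T, hT⟩⟩
      · exact fun h => h.1
    refine ⟨s.preimage f f.injective.injOn, ?_, hmap⟩
    intro a ha b hb hab
    simp only [Finset.coe_preimage, Set.mem_preimage, Finset.mem_coe] at ha hb
    have hne : f a ≠ f b := fun e => hab (f.injective e)
    have h4 := (hs1 ha hb hne).2
    refine ⟨hab, ?_⟩
    rcases h4 with h4 | h4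
    · exact Or.inl ((un_sub a b).1 h4)
    · exact Or.inr ((un_sub b a).1 h4)

end Pool.Agent.MSS
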