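import Pool.Agent.MSS.Targets

/-!
# MSS, target STEP: one step of prime order
-/

set_option autoImplicit false

namespace Pool.Agent.MSS

open List Pool.Agent.MSF
open Pool.Agent.MSO (SEx Cl)
open Pool.Agent.MSN.Alg (nC)

universe u

namespace STEP

theorem aut_pow {V : Type u} {G : SimpleGraph V} {ang : V → V → V → ℝ} {g : Equiv.Perm V}
    (h : IsAut G ang g) (k : ℕ) : IsAut G ang (g ^ k) := by
  induction k with
  | zero =>
    refine ⟨fun a b => ?_, fun v a b _ _ _ => ?_⟩ <;> simp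
  | succ k ih =>
    rw [pow_succ]
    refine ⟨fun a b => ?_, fun v a b h1 h2 h3 => ?_⟩
    · rw [Equiv.Perm.mul_apply, Equiv.Perm.mul_apply, ih.adj, h.adj]
    · rw [Equiv.Perm.mul_apply, Equiv.Perm.mul_apply, Equiv.Perm.mul_apply,
        ih.ang _ _ _ ((h.adj _ _).2 h1) ((h.adj _ _).2 h2) ((h.adj _ _).2 h3), h.ang _ _ _ h1 h2 h3]

theorem orbg_aut {V : Type u} {G : SimpleGraph V} {ang : V → V → V → ℝ} {g : Equiv.Perm V}
    (h : IsAut G ang g) {p : ℕ} (hp : 1 ≤ p) (hgp : g ^ p = 1) : AutRel G ang (orbg g) := by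
  refine ⟨⟨fun x => ⟨0, by simp⟩, ?_, ?_⟩, ?_⟩
  · rintro x y ⟨k, rfl⟩
    refine ⟨k * (p - 1), ?_⟩
    rw [← Equiv.Perm.mul_apply, ← pow_add]
    have e : k * (p - 1) + k = p * k := by
      obtain ⟨q, rfl⟩ : ∃ q, p = q + 1 := ⟨p - 1, by omega⟩
      rw [Nat.add_sub_cancel]
      ring
    rw [e, pow_mul, hgp, one_pow, Equiv.Perm.one_apply]
  · rintro x y z ⟨k, rfl⟩ ⟨l, rfl⟩
    refine ⟨l + k, ?_⟩
    rw [pow_add, Equiv.Perm.mul_apply]
  · rintro x y ⟨k, hk⟩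
    exact ⟨g ^ k, aut_pow h k, hk, fun z => ⟨k, rfl⟩⟩

end STEP

open STEP in
/-- STEP. -/
theorem tSTEP (hOGR : T_OGR.{u}) (hOGA : T_OGA.{u}) (hALLP : T_ALLP.{u}) (hSMITH : T_SMITH.{u})
    (hALT : T_ALT.{u}) (hCONN : T_CONN.{u}) (hBRI : T_BRI.{u}) (hBRN : T_BRN.{u})
    (hODD : T_ODD.{u}) (hTWO : T_TWO.{u}) (hH2N : MSF.T_H2N.{u}) (hN2H : MSF.T_N2H.{u}) :
    T_STEP.{u} := by
  intro V _ G ang hG g hg p hp hgp
  classical
  let _ : Fintype V := Fintype.ofFinite V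
  have : Fact p.Prime := ⟨hp⟩
  let _ : LinearOrder V := LinearOrder.lift' (Fintype.equivFin V) (Fintype.equivFin V).injective
  have : Finite (OV G (orbg g)) := Subtype.finite
  let _ : Fintype (OV G (orbg g)) := Fintype.ofFinite _
  let _ : LinearOrder (OV G (orbg g)) :=
    LinearOrder.lift' (Fintype.equivFin (OV G (orbg g))) (Fintype.equivFin _).injective
  have hr : AutRel G ang (orbg g) := orbg_aut hg hp.one_le hgp
  have hnull := hH2N G hG.sc
  have hS0 : SEx (ZMod p) (Cl G) := hALLP G ang hG p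
  have hS : SEx (ZMod p) (Cl (OG G (orbg g))) := hSMITH G p hS0 g hg.adj hgp
  obtain ⟨hcf, htri⟩ := hOGR G ang hG.cf (orbg g) hr
  have hbr : ∀ s t : OV G (orbg g), (OG G (orbg g)).Adj s t → 4 ≤ s.1.card + t.1.card →
      ¬ ((OG G (orbg g)).deleteEdges {s(s, t)}).Reachable s t := by
    intro s t hst h4
    refine hBRI (OG G (orbg g)) p hS s t hst fun u hsu htu => ?_
    have h5 := (htri s t u hst hsu htu).1
    have h6 : 0 < u.1.card := Finset.card_pos.2 u.2.1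
    omega
  have hZ : ∀ w, CW (ZG G (orbg g)) w → ∃ A, Null (OG G (orbg g)) A w := by
    rcases hp.two_le.eq_or_lt with h2 | h2
    · subst h2
      exact hTWO G ang hG.angled hG.cf hnull g hg hgp hbr
    · exact hODD G ang hG.angled hG.cf hnull g hg p hp h2 hgp
  have hle : ZG G (orbg g) ≤ OG G (orbg g) := fun s t h => h.1
  have hN : ∀ w, CW (OG G (orbg g)) w → ∃ A, Null (OG G (orbg g)) A w := by
    refine hBRN (OG G (orbg g)) (ZG G (orbg g)) hle (fun s t hst hn => hbr s t hst ?_) hZ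
    by_contra hlt
    exact hn ⟨hst, by omega⟩
  exact ⟨hOGA G ang hG.angled hG.cf (orbg g) hr, hcf,
    hN2H (OG G (orbg g)) (hCONN (OG G (orbg g)) p hS) hN, hALT (OG G (orbg g)) p hS⟩

end Pool.Agent.MSS
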