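import Pool.Agent.MSS.Targets
import Pool.Agent.MSO.SUBD

/-!
# SUBDR: barycentric subdivision, the converse
-/

set_option autoImplicit false

namespace Pool.Agent.MSS

open List Pool.Agent.MSF
open Pool.Agent.MSO (SEx Cl Cmp NC MEx)
open Pool.Agent.MSN.Grp (sg eps T_SGN)
open Pool.Agent.MSO.SUBD (mv Ix e1 e2 a1 a2 DD DD_ne DD_sq ext ext_of restr_sq)

universe u

namespace SUBDR

theorem core (h1 : T_SGN.{u}) (h2 : Pool.Agent.MSO.T_FIL.{u}) (h3 : Pool.Agent.MSO.T_TWO.{u})
    (h4 : Pool.Agent.MSO.T_CON.{u})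
    {V W : Type u} [Fintype V] [LinearOrder V] [Fintype W] [LinearOrder W] (F : Type) [Field F]
    (G : SimpleGraph V) (f : W → Finset V) (K : Finset W → Prop)
    (hK : ∀ σ s, K σ → K (σ.erase s)) (hK0 : K ∅)
    (hlow : ∀ σ, K σ → σ.Nonempty → ∃ s0 ∈ σ, ∀ s ∈ σ, f s0 ⊆ f s)
    (hne : ∀ s, (f s).Nonempty ∧ G.IsClique (f s : Set V))
    (hcone : ∀ t : Finset V, t.Nonempty → G.IsClique (t : Set V) → ∃ w0 : W, f w0 = t ∧
      ∀ σ σ', K σ → (∀ s ∈ σ, t ⊆ f s) → (∀ a ∈ σ', a = w0 ∨ a ∈ σ) → K σ')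
    (hKe : SEx F K) : SEx F (Cl G) := by
  classical
  have hfin : Fintype (Ix G f K) := Fintype.ofFinite _
  -- the whole double complex, level: number of vertices of the clique
  have hM : MEx (DD F hK : Matrix (Ix G f K) (Ix G f K) F) := by
    refine h2 F (DD F hK) (fun i => i.1.2.card) (DD_sq hK h1) ?_ ?_
    · intro i j hij
      rcases DD_ne hK hij with ⟨x, -, hx⟩ | ⟨s, hs, hx⟩
      · rw [← hx]
        exact Finset.card_le_card (Finset.erase_subset _ _)
      · rw [← hx]
        exact le_rfl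
    · have hent : ∀ i j : Ix G f K, (Matrix.of fun i j : Ix G f K =>
          if i.1.2.card = j.1.2.card then (DD F hK) i j else (0 : F)) i j = a2 F hK i j := by
        intro i j
        show (if i.1.2.card = j.1.2.card then a1 F i j + a2 F hK i j else (0 : F)) = a2 F hK i j
        split_ifs with hl
        · have : a1 F i j = 0 := by
            refine Finset.sum_eq_zero fun x hx => if_neg fun hh => ?_
            rw [← hh] at hl
            have h5 : i.1.2.card = (i.1.2.erase x).card := hl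
            rw [← Finset.card_erase_add_one hx] at h5
            omega
          rw [this, zero_add]
        · symm
          refine Finset.sum_eq_zero fun s _ => if_neg fun hh => hl ?_
          rw [← hh]
          rfl
      intro c hc
      have hc' : ∀ i : Ix G f K, ∑ s ∈ i.1.1,
          (-1 : F) ^ i.1.2.card * ((sg i.1.1 s : ℤ) : F) * c (e2 hK i s) = 0 := by
        intro i
        have h5 := congrFun hc i
        rw [Matrix.mulVec, dotProduct, Finset.sum_congr rfl fun j _ => by rw [hent i j]] at h5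
        unfold a2 at h5
        rw [mv] at h5
        exact h5
      have hsg : ∀ n : ℕ, (-1 : F) ^ n * (-1 : F) ^ n = 1 := by
        intro n
        rw [← mul_pow, neg_one_mul, neg_neg, one_pow]
      have hte : ∀ t : Finset V, ∃ e : Finset W → F, G.IsClique (t : Set V) →
          ∀ σ : Finset W, (K σ ∧ ∀ s ∈ σ, t ⊆ f s) →
            ext c σ t = ∑ s ∈ σ, ((sg σ s : ℤ) : F) * e (σ.erase s) := by
        intro t
        by_cases ht : G.IsClique (t : Set V)
        · have hse : SEx F (fun σ : Finset W => K σ ∧ ∀ s ∈ σ, t ⊆ f s) := by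
            rcases t.eq_empty_or_nonempty with h0 | hn
            · intro c0 hc0
              obtain ⟨e, he⟩ := hKe c0 (fun σ hσ => hc0 σ ⟨hσ, fun s _ => by
                rw [h0]
                exact Finset.empty_subset _⟩)
              exact ⟨e, fun s hs => he s hs.1⟩
            · obtain ⟨w0, hw0, hins⟩ := hcone t hn ht
              refine h4 F _ w0 ?_
              rintro σ ⟨hσ, hσ'⟩
              refine ⟨hins σ _ hσ hσ' (fun a ha => Finset.mem_insert.1 ha), ?_⟩
              intro s hs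
              rcases Finset.mem_insert.1 hs with rfl | hs
              · exact hw0.ge
              · exact hσ' s hs
          obtain ⟨e, he⟩ := hse (fun σ => ext c σ t) (by
            rintro σ ⟨hσ, hσ'⟩
            have h5 := hc' ⟨(σ, t), hσ, ht, hσ'⟩
            have h6 : (-1 : F) ^ t.card * ∑ s ∈ σ, ((sg σ s : ℤ) : F) * ext c (σ.erase s) t =
                0 := by
              refine Eq.trans ?_ h5
              rw [Finset.mul_sum]
              refine Finset.sum_congr rfl fun s _ => ?_
              rw [ext_of c (e2 hK ⟨(σ, t), hσ, ht, hσ'⟩ s), mul_assoc]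
              rfl
            have h7 := congrArg (fun y => (-1 : F) ^ t.card * y) h6
            simp only [mul_zero] at h7
            rw [← mul_assoc, hsg, one_mul] at h7
            exact h7)
          exact ⟨e, fun _ => he⟩
        · exact ⟨0, fun h => absurd h ht⟩
      choose e he using hte
      refine ⟨fun i => (-1 : F) ^ i.1.2.card * e i.1.2 i.1.1, ?_⟩
      funext i
      rw [Matrix.mulVec, dotProduct, Finset.sum_congr rfl fun j _ => by rw [hent i j]]
      unfold a2
      rw [mv, ext_of c i, he i.1.2 i.2.2.1 i.1.1 ⟨i.2.1, i.2.2.2⟩]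
      refine Finset.sum_congr rfl fun s _ => ?_
      show (-1 : F) ^ i.1.2.card * ((sg i.1.1 s : ℤ) : F) * ((-1 : F) ^ i.1.2.card *
        e i.1.2 (i.1.1.erase s)) = ((sg i.1.1 s : ℤ) : F) * e i.1.2 (i.1.1.erase s)
      calc (-1 : F) ^ i.1.2.card * ((sg i.1.1 s : ℤ) : F) * ((-1 : F) ^ i.1.2.card *
          e i.1.2 (i.1.1.erase s))
          = ((-1 : F) ^ i.1.2.card * (-1 : F) ^ i.1.2.card) *
            (((sg i.1.1 s : ℤ) : F) * e i.1.2 (i.1.1.erase s)) := by ring
        _ = _ := by rw [hsg, one_mul]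
  -- the part with a nonempty chain
  let U : Ix G f K → Prop := fun i => i.1.1.Nonempty
  have hU : ∀ i j : Ix G f K, (DD F hK) i j ≠ 0 → U j → U i := by
    intro i j hij hj
    rcases DD_ne hK hij with ⟨x, -, hx⟩ | ⟨s, hs, hx⟩
    · rw [← hx] at hj
      exact hj
    · rw [← hx] at hj
      exact Finset.Nonempty.mono (Finset.erase_subset _ _) hj
  have hMU : MEx (Matrix.of fun (i j : {i // U i}) => (DD F hK) i.1 j.1) := by
    refine h2 F _ (fun i => i.1.1.1.card) (restr_sq _ U (DD_sq hK h1) hU) ?_ ?_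
    · intro i j hij
      rcases DD_ne hK hij with ⟨x, -, hx⟩ | ⟨s, hs, hx⟩
      · rw [← hx]
        exact le_rfl
      · rw [← hx]
        exact Finset.card_le_card (Finset.erase_subset _ _)
    · let e1' : {i // U i} → V → {i // U i} := fun i x => ⟨e1 i.1 x, i.2⟩
      have hent : ∀ i j : {i // U i}, (Matrix.of fun i j : {i // U i} =>
          if i.1.1.1.card = j.1.1.1.card then
            (Matrix.of fun (i j : {i // U i}) => (DD F hK) i.1 j.1) i j else (0 : F)) i j =
          ∑ x ∈ i.1.1.2, if e1' i x = j then ((sg i.1.1.2 x : ℤ) : F) else 0 := by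
        intro i j
        show (if i.1.1.1.card = j.1.1.1.card then a1 F i.1 j.1 + a2 F hK i.1 j.1 else (0 : F)) = _
        split_ifs with hl
        · have : a2 F hK i.1 j.1 = 0 := by
            refine Finset.sum_eq_zero fun s hs => if_neg fun hh => ?_
            rw [← hh] at hl
            have h5 : i.1.1.1.card = (i.1.1.1.erase s).card := hl
            rw [← Finset.card_erase_add_one hs] at h5
            omega
          rw [this, add_zero]
          refine Finset.sum_congr rfl fun x _ => ?_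
          have h6 : (e1 i.1 x = j.1) ↔ (e1' i x = j) :=
            ⟨fun h => Subtype.ext h, fun h => congrArg Subtype.val h⟩
          by_cases h7 : e1' i x = j
          · rw [if_pos (h6.2 h7), if_pos h7]
          · rw [if_neg (fun h => h7 (h6.1 h)), if_neg h7]
        · symm
          refine Finset.sum_eq_zero fun x _ => if_neg fun hh => hl ?_
          rw [← hh]
          rfl
      intro c hc
      have hc' : ∀ i : {i // U i}, ∑ x ∈ i.1.1.2, ((sg i.1.1.2 x : ℤ) : F) * c (e1' i x) = 0 := by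
        intro i
        have h5 := congrFun hc i
        rw [Matrix.mulVec, dotProduct, Finset.sum_congr rfl fun j _ => by rw [hent i j]] at h5
        rw [mv] at h5
        exact h5
      let c0 : Ix G f K → F := fun i => if h : U i then c ⟨i, h⟩ else 0
      have hc0 : ∀ j : {i // U i}, c j = ext c0 j.1.1.1 j.1.1.2 := by
        intro j
        rw [← ext_of c0 j.1]
        show c j = dite (U j.1) (fun h => c ⟨j.1, h⟩) (fun _ => 0)
        rw [dif_pos j.2]
      have hσe : ∀ σ : Finset W, ∃ e : Finset V → F, σ.Nonempty → K σ →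
          ∀ t : Finset V, (G.IsClique (t : Set V) ∧ ∀ s ∈ σ, t ⊆ f s) →
            ext c0 σ t = ∑ x ∈ t, ((sg t x : ℤ) : F) * e (t.erase x) := by
        intro σ
        by_cases hσ : σ.Nonempty ∧ K σ
        · have hse : SEx F (fun t : Finset V => G.IsClique (t : Set V) ∧ ∀ s ∈ σ, t ⊆ f s) := by
            obtain ⟨s0, hs0, hsub⟩ := hlow σ hσ.2 hσ.1
            obtain ⟨x0, hx0⟩ := (hne s0).1
            refine h4 F _ x0 ?_
            rintro t ⟨ht, ht'⟩
            have h5 : insert x0 t ⊆ f s0 := Finset.insert_subset hx0 (ht' s0 hs0)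
            exact ⟨(hne s0).2.subset (by exact_mod_cast h5), fun s hs => h5.trans (hsub s hs)⟩
          obtain ⟨e, he⟩ := hse (ext c0 σ) (by
            intro t ht
            refine Eq.trans ?_ (hc' ⟨⟨(σ, t), hσ.2, ht.1, ht.2⟩, hσ.1⟩)
            refine Finset.sum_congr rfl fun x _ => ?_
            rw [hc0 (e1' ⟨⟨(σ, t), hσ.2, ht.1, ht.2⟩, hσ.1⟩ x)]
            rfl)
          exact ⟨e, fun _ _ => he⟩
        · exact ⟨0, fun h h' => absurd ⟨h, h'⟩ hσ⟩
      choose e he using hσe
      refine ⟨fun i => e i.1.1.1 i.1.1.2, ?_⟩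
      funext i
      rw [Matrix.mulVec, dotProduct, Finset.sum_congr rfl fun j _ => by rw [hent i j]]
      rw [mv, hc0 i, he i.1.1.1 i.2 i.1.2.1 i.1.1.2 i.1.2.2]
      rfl
  -- the part with the empty chain
  have hN := h3 F (DD F hK) U (DD_sq hK h1) hU hM hMU
  intro c hc
  let e1' : {i // ¬ U i} → V → {i // ¬ U i} := fun i x => ⟨e1 i.1 x, i.2⟩
  have hent : ∀ i j : {i // ¬ U i},
      (Matrix.of fun (i j : {i // ¬ U i}) => (DD F hK) i.1 j.1) i j =
      ∑ x ∈ i.1.1.2, if e1' i x = j then ((sg i.1.1.2 x : ℤ) : F) else 0 := by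
    intro i j
    show a1 F i.1 j.1 + a2 F hK i.1 j.1 = _
    have h5 : i.1.1.1 = ∅ := Finset.not_nonempty_iff_eq_empty.1 i.2
    have h6 : a2 F hK i.1 j.1 = 0 := by
      unfold a2
      rw [h5, Finset.sum_empty]
    rw [h6, add_zero]
    refine Finset.sum_congr rfl fun x _ => ?_
    have h6 : (e1 i.1 x = j.1) ↔ (e1' i x = j) :=
      ⟨fun h => Subtype.ext h, fun h => congrArg Subtype.val h⟩
    by_cases h7 : e1' i x = j
    · rw [if_pos (h6.2 h7), if_pos h7]
    · rw [if_neg (fun h => h7 (h6.1 h)), if_neg h7]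
  obtain ⟨e', he'⟩ := hN (fun j => c j.1.1.2) (by
    funext i
    rw [Matrix.mulVec, dotProduct, Finset.sum_congr rfl fun j _ => by rw [hent i j], mv]
    exact hc i.1.1.2 i.1.2.2.1)
  have hmk : ∀ t : Finset V, Cl G t →
      K ∅ ∧ G.IsClique (t : Set V) ∧ ∀ s ∈ (∅ : Finset W), t ⊆ f s :=
    fun t ht => ⟨hK0, ht, fun s hs => absurd hs (Finset.notMem_empty s)⟩
  refine ⟨fun t => if h : Cl G t then e' ⟨⟨(∅, t), hmk t h⟩, Finset.not_nonempty_empty⟩ else 0, ?_⟩
  intro t ht
  have h5 := congrFun he' ⟨⟨(∅, t), hmk t ht⟩, Finset.not_nonempty_empty⟩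
  rw [Matrix.mulVec, dotProduct, Finset.sum_congr rfl fun j _ => by rw [hent _ j], mv] at h5
  refine h5.symm.trans ?_
  refine Finset.sum_congr rfl fun x _ => ?_
  have ht' : Cl G (t.erase x) := SimpleGraph.IsClique.subset (by simp) ht
  show ((sg t x : ℤ) : F) * e' ⟨⟨(∅, t.erase x), hmk _ ht'⟩, Finset.not_nonempty_empty⟩ =
    ((sg t x : ℤ) : F) * (dite (Cl G (t.erase x))
      (fun h => e' ⟨⟨(∅, t.erase x), hmk _ h⟩, Finset.not_nonempty_empty⟩) (fun _ => 0))
  rw [dif_pos ht']

end SUBDR

open SUBDR in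
/-- SUBDR. -/
theorem tSUBDR (h1 : Pool.Agent.MSN.Grp.T_SGN.{u}) (h2 : Pool.Agent.MSO.T_FIL.{u})
    (h3 : Pool.Agent.MSO.T_TWO.{u}) (h4 : Pool.Agent.MSO.T_CON.{u}) : T_SUBDR.{u} := by
  intro V _ _ F _ G _ hG
  classical
  have hfin : Fintype (NC G) := Fintype.ofFinite _
  refine core h1 h2 h3 h4 F G (fun s : NC G => s.1) (Cl (Cmp G)) ?_ ?_ ?_ ?_ ?_ hG
  · intro σ s hσ
    exact SimpleGraph.IsClique.subset (by simp) hσ
  · show (Cmp G).IsClique ((∅ : Finset (NC G)) : Set (NC G))
    simp
  · intro σ hσ hne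
    obtain ⟨s0, hs0, hmin⟩ := Finset.exists_min_image σ (fun s => s.1.card) hne
    refine ⟨s0, hs0, ?_⟩
    intro s hs
    by_cases hss : s0 = s
    · rw [hss]
    · rcases (hσ hs0 hs hss).2 with h | h
      · exact h
      · exact (Finset.eq_of_subset_of_card_le h (hmin s hs)).ge
  · intro s
    exact s.2
  · intro t ht htc
    refine ⟨⟨t, ht, htc⟩, rfl, ?_⟩
    intro σ σ' hσ hsub hmem a ha b hb hab
    rcases hmem a ha with rfl | ha
    · rcases hmem b hb with rfl | hb
      · exact absurd rfl hab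
      · exact ⟨hab, Or.inl (hsub b hb)⟩
    · rcases hmem b hb with rfl | hb
      · exact ⟨hab, Or.inr (hsub a ha)⟩
      · exact hσ ha hb hab

end Pool.Agent.MSS
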