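import Pool.Agent.MSS.Basic
import Pool.Agent.MSF.Basic

/-!
# MSS, target TWO: involutions, from `V` to the orbit complex
-/

set_option autoImplicit false

namespace Pool.Agent.MSS

open List Pool.Agent.MSF

universe u

namespace TWO

variable {V : Type u} {G : SimpleGraph V} {g : Equiv.Perm V}

theorem inv2 (h2 : g ^ 2 = 1) (v : V) : g (g v) = v := by
  have := congrArg (fun e : Equiv.Perm V => e v) h2
  simpa [sq] using this

theorem orbg_iff (h2 : g ^ 2 = 1) {x y : V} : orbg g x y ↔ (y = x ∨ y = g x) := by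
  constructor
  · rintro ⟨k, hk⟩
    rcases Nat.even_or_odd' k with ⟨m, rfl | rfl⟩
    · left
      rw [pow_mul, h2, one_pow] at hk
      exact hk.symm
    · right
      rw [pow_succ, pow_mul, h2, one_pow, one_mul] at hk
      exact hk.symm
  · rintro (rfl | rfl)
    · exact ⟨0, by simp⟩
    · exact ⟨1, by simp⟩

/-- Short vertices. -/
def Sh (G : SimpleGraph V) (g : Equiv.Perm V) (v : V) : Prop := g v = v ∨ G.Adj v (g v)

open Classical in
/-- The orbit of a short vertex. -/
noncomputable def cls (G : SimpleGraph V) (h2 : g ^ 2 = 1) (v : V) (hv : Sh G g v) :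
    OV G (orbg g) :=
  ⟨{v, g v}, ⟨v, by simp⟩, by
    intro x hx y hy hxy
    simp only [Finset.coe_insert, Finset.coe_singleton, Set.mem_insert_iff,
      Set.mem_singleton_iff] at hx hy
    rcases hx with rfl | rfl <;> rcases hy with rfl | rfl
    · exact absurd rfl hxy
    · rcases hv with h | h
      · exact absurd h.symm hxy
      · exact h
    · rcases hv with h | h
      · exact absurd h hxy
      · exact h.symm
    · exact absurd rfl hxy, by
    intro x hx y
    rw [orbg_iff h2, Finset.mem_insert, Finset.mem_singleton]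
    rw [Finset.mem_insert, Finset.mem_singleton] at hx
    rcases hx with rfl | rfl
    · exact Iff.rfl
    · rw [inv2 h2]
      exact or_comm⟩

theorem mem_cls {h2 : g ^ 2 = 1} {v : V} {hv : Sh G g v} {x : V} :
    x ∈ (cls G h2 v hv).1 ↔ x = v ∨ x = g v := by
  classical
  unfold cls
  simp only [Finset.mem_insert, Finset.mem_singleton]

theorem sh_of_mem (h2 : g ^ 2 = 1) {s : OV G (orbg g)} {x : V} (hx : x ∈ s.1) : Sh G g x := by
  have h3 : g x ∈ s.1 := by
    rw [s.2.2.2 x hx, orbg_iff h2]
    exact Or.inr rfl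
  by_cases h : g x = x
  · exact Or.inl h
  · exact Or.inr (s.2.2.1 hx h3 (Ne.symm h))

theorem cls_eq (h2 : g ^ 2 = 1) {s : OV G (orbg g)} {x : V} (hx : x ∈ s.1) (hv : Sh G g x) :
    cls G h2 x hv = s := by
  apply Subtype.ext
  ext y
  rw [mem_cls, s.2.2.2 x hx y, orbg_iff h2]

theorem card_two {h2 : g ^ 2 = 1} {v : V} {hv : Sh G g v} (h : G.Adj v (g v)) :
    (cls G h2 v hv).1.card = 2 := by
  classical
  have e : (cls G h2 v hv).1 = {v, g v} := by
    ext x
    rw [mem_cls, Finset.mem_insert, Finset.mem_singleton]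
  rw [e, Finset.card_pair h.ne]

theorem card_le {h2 : g ^ 2 = 1} {v : V} {hv : Sh G g v} : (cls G h2 v hv).1.card ≤ 2 := by
  classical
  have e : (cls G h2 v hv).1 = {v, g v} := by
    ext x
    rw [mem_cls, Finset.mem_insert, Finset.mem_singleton]
  rw [e]
  exact Finset.card_le_two

theorem card_one {h2 : g ^ 2 = 1} {v : V} {hv : Sh G g v} (h : g v = v) :
    (cls G h2 v hv).1.card = 1 := by
  have e : (cls G h2 v hv).1 = {v} := by
    ext x
    rw [mem_cls, Finset.mem_singleton, h, or_self]
  rw [e, Finset.card_singleton]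

open Classical in
/-- Short vertices as vertices of the orbit complex. -/
noncomputable def phi (h2 : g ^ 2 = 1) (s : OV G (orbg g)) (v : V) : OV G (orbg g) :=
  if h : Sh G g v then cls G h2 v h else s

theorem phi_of {h2 : g ^ 2 = 1} {s : OV G (orbg g)} {v : V} (h : Sh G g v) :
    phi h2 s v = cls G h2 v h := dif_pos h

theorem phi_mem {h2 : g ^ 2 = 1} {s t : OV G (orbg g)} {x : V} (hx : x ∈ t.1) :
    phi h2 s x = t := by
  rw [phi_of (sh_of_mem h2 hx), cls_eq h2 hx]

theorem phi_adj {ang : V → V → V → ℝ} (hg : IsAut G ang g) {h2 : g ^ 2 = 1}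
    {s : OV G (orbg g)} {u v : V} (h : (SG G g).Adj u v) :
    (OG G (orbg g)).Adj (phi h2 s u) (phi h2 s v) := by
  obtain ⟨hu', hv', h3, h4, h5⟩ := h
  have hu : Sh G g u := hu'
  have hv : Sh G g v := hv'
  rw [phi_of hu, phi_of hv]
  intro x hx y hy
  rw [mem_cls] at hx hy
  rcases hx with rfl | rfl <;> rcases hy with rfl | rfl
  · exact h3
  · exact h4
  · exact h5
  · exact (hg.adj _ _).2 h3

/-- Edges of `Z1` have at most three vertices. -/
theorem z1_card {h2 : g ^ 2 = 1} {s : OV G (orbg g)} {u v : V} (h : (Z1 G g).Adj u v) :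
    (phi h2 s u).1.card + (phi h2 s v).1.card ≤ 3 := by
  obtain ⟨⟨hu', hv', -⟩, h⟩ := h
  have hu : Sh G g u := hu'
  have hv : Sh G g v := hv'
  rw [phi_of hu, phi_of hv]
  rcases h with h3 | h3
  · rw [card_one h3]
    have := card_le (G := G) (h2 := h2) (v := v) (hv := hv)
    omega
  · rw [card_one h3]
    have := card_le (G := G) (h2 := h2) (v := u) (hv := hu)
    omega

/-- Edges of `ZG` come from edges of `Z1`. -/
theorem zg_adj (h2 : g ^ 2 = 1)
    {s t : OV G (orbg g)} (h : (ZG G (orbg g)).Adj s t) {x y : V} (hx : x ∈ s.1)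
    (hy : y ∈ t.1) : (Z1 G g).Adj x y := by
  have hx' : g x ∈ s.1 := by
    rw [s.2.2.2 x hx, orbg_iff h2]
    exact Or.inr rfl
  have hy' : g y ∈ t.1 := by
    rw [t.2.2.2 y hy, orbg_iff h2]
    exact Or.inr rfl
  refine ⟨⟨sh_of_mem h2 hx, sh_of_mem h2 hy, h.1 x hx y hy, h.1 x hx _ hy', h.1 _ hx' y hy⟩, ?_⟩
  by_contra hcon
  push Not at hcon
  have h3 := h.2
  have c1 : s.1.card = 2 := by
    rw [← cls_eq h2 hx (sh_of_mem h2 hx)]
    exact card_two ((sh_of_mem h2 hx).resolve_left hcon.1)
  have c2 : t.1.card = 2 := by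
    rw [← cls_eq h2 hy (sh_of_mem h2 hy)]
    exact card_two ((sh_of_mem h2 hy).resolve_left hcon.2)
  omega

/-- A choice of representatives. -/
theorem exists_rho (h2 : g ^ 2 = 1) :
    ∃ ρ : V → V, (∀ v, ρ v = v ∨ ρ v = g v) ∧ ∀ v, ρ (g v) = ρ v := by
  let S : Setoid V :=
    { r := fun x y => y = x ∨ y = g x
      iseqv :=
        { refl := fun x => Or.inl rfl
          symm := fun {x y} h => by
            rcases h with rfl | rfl
            · exact Or.inl rfl
            · exact Or.inr (inv2 h2 x).symm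
          trans := fun {x y z} h h' => by
            rcases h with rfl | rfl <;> rcases h' with rfl | rfl
            · exact Or.inl rfl
            · exact Or.inr rfl
            · exact Or.inr rfl
            · exact Or.inl (inv2 h2 x) } }
  refine ⟨fun v => (Quotient.mk S v).out, fun v => ?_, fun v => ?_⟩
  · have h : S.r (Quotient.mk S v).out v := Quotient.exact (Quotient.out_eq _)
    rcases h with h | h
    · exact Or.inl h.symm
    · right
      calc (Quotient.mk S v).out = g (g (Quotient.mk S v).out) := (inv2 h2 _).symm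
        _ = g v := congrArg g h.symm
  · have h : Quotient.mk S (g v) = Quotient.mk S v := by
      apply Quotient.sound
      show S.r (g v) v
      exact Or.inr (inv2 h2 v).symm
    show (Quotient.mk S (g v)).out = (Quotient.mk S v).out
    rw [h]

theorem chain_map {W : Type u} {K : SimpleGraph W} {H : SimpleGraph V} (φ : W → V)
    (h : ∀ a b, K.Adj a b → H.Adj (φ a) (φ b)) {w : List W} (hw : CW K w) :
    CW H (w.map φ) := by
  rcases w with _ | ⟨s, _ | ⟨t, l⟩⟩
  · exact hw.elim
  · exact True.intro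
  · have h1 : List.IsChain H.Adj ((s :: t :: (l ++ [s])).map φ) :=
      List.isChain_map_of_isChain _ h hw
    simpa [CW] using h1

end TWO

open TWO in
/-- Target TWO. -/
theorem tTWO (h : T_TWOV.{u}) : T_TWO.{u} := by
  intro V G ang hA h5 hn g hg h2 hbr w hw
  obtain ⟨ρ, hρ, hρg⟩ := exists_rho h2
  have hI : Inv G ang g ρ := by
    refine ⟨hA, h5, hg, inv2 h2, hρ, hρg, ?_⟩
    intro b c hb hc hbc hr
    have sb : Sh G g b := Or.inr hb
    have sc : Sh G g c := Or.inr hc
    set s := cls G h2 b sb with hs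
    set t := cls G h2 c sc with ht
    have e1 : phi h2 s b = s := phi_of sb
    have e2 : phi h2 s c = t := phi_of sc
    have hst : (OG G (orbg g)).Adj s t := by
      have := phi_adj (s := s) (h2 := h2) hg hbc
      rwa [e1, e2] at this
    have c1 : s.1.card = 2 := card_two hb
    have c2 : t.1.card = 2 := card_two hc
    refine hbr s t hst (by omega) ?_
    have key : ∀ a a' : V, (Z1 G g).Walk a a' →
        ((OG G (orbg g)).deleteEdges {s(s, t)}).Reachable (phi h2 s a) (phi h2 s a') := by
      intro a a' p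
      induction p with
      | nil => exact SimpleGraph.Reachable.refl _
      | cons hadj _ ih =>
        refine (SimpleGraph.Adj.reachable ?_).trans ih
        rw [SimpleGraph.deleteEdges_adj]
        refine ⟨phi_adj hg hadj.1, ?_⟩
        intro hmem
        rw [Set.mem_singleton_iff, Sym2.eq_iff] at hmem
        have h3 := z1_card (h2 := h2) (s := s) hadj
        rcases hmem with ⟨k1, k2⟩ | ⟨k1, k2⟩
        · rw [k1, k2] at h3
          omega
        · rw [k1, k2] at h3
          omega
    obtain ⟨p⟩ := hr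
    have := key b c p
    rwa [e1, e2] at this
  have hmemρ : ∀ s : OV G (orbg g), ρ (rep s) ∈ s.1 := by
    intro s
    rcases hρ (rep s) with e | e
    · rw [e]
      exact rep_mem s
    · rw [e, s.2.2.2 (rep s) (rep_mem s), orbg_iff h2]
      exact Or.inr rfl
  have hcw : CW (Z1 G g) (w.map fun s => ρ (rep s)) :=
    chain_map _ (fun s t hst => zg_adj h2 hst (hmemρ s) (hmemρ t)) hw
  obtain ⟨B, hB⟩ := h G ang g ρ hI hn _ hcw
  have hw0 := hw.ne_nil
  obtain ⟨s0, -⟩ := List.exists_mem_of_ne_nil w hw0
  have h6 := hB.map (G' := OG G (orbg g)) (phi h2 s0) (fun a b hab =>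
    phi_adj hg (show (RG G g ρ).Adj a b from hab).1)
  refine ⟨B, ?_⟩
  have e : ((w.map fun s => ρ (rep s)).map ρ).map (phi h2 s0) = w := by
    rw [List.map_map, List.map_map]
    conv_rhs => rw [← List.map_id w]
    refine List.map_congr_left fun s _ => ?_
    simp only [Function.comp, id]
    rw [hI.rr]
    exact phi_mem (hmemρ s)
  rw [e] at h6
  exact h6

end Pool.Agent.MSS
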