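import Pool.Agent.MSS.Basic
import Pool.Agent.MSF.RED

/-!
# TWOV: the main induction for involutions

Strong induction on the area `A`, then on the length `n`, of a lift. If some list with the same image
under `ρ` has smaller area: induction. Length at most two: trivial. Otherwise take labels with the
maximal number of double labels. If the labelled walk is reducible, it splits into two shorter ones;
else there is a good corner (T_CF) and T_BCOR, T_NCOR, T_YCOR apply.
-/

set_option autoImplicit false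

namespace Pool.Agent.MSS

open List Pool.Agent.MSF

universe u

namespace TWOV

variable {V : Type u} {G : SimpleGraph V} {f : Equiv.Perm V} {ang : V → V → V → ℝ}
  {ρ : V → V}

theorem cw_mono {V : Type*} {G G' : SimpleGraph V} (h : ∀ a b, G.Adj a b → G'.Adj a b)
    {w : List V} (hw : CW G w) : CW G' w := by
  match w, hw with
  | [a], _ => trivial
  | (a :: b :: l), hw =>
    simp only [CW] at hw ⊢
    exact hw.imp fun _ _ hab => h _ _ hab

/-- Short walks. -/
theorem short (hI : Inv G ang f ρ) {w : List V} (hw : CW (Z1 G f) w) (hn : w.length ≤ 2) :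
    ∃ B, Null (RG G f ρ) B (w.map ρ) := by
  match w, hw, hn with
  | [a], _, _ => exact ⟨0, by simpa using Null.pt (ρ a)⟩
  | [a, b], hw, _ =>
    simp only [CW, List.nil_append, List.isChain_cons_cons] at hw
    exact ⟨0, by simpa using Null.dig (hI.rg' hw.1)⟩
  | (a :: b :: c :: l), _, hn =>
    simp only [List.length_cons] at hn
    omega

/-- The set of numbers of double labels has a maximal element. -/
theorem exists_max {X : Type*} (P : X → Prop) (g : X → ℕ) (n : ℕ) (hb : ∀ x, P x → g x ≤ n)
    (hne : ∃ x, P x) : ∃ x, P x ∧ ∀ y, P y → g y ≤ g x := by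
  classical
  obtain ⟨x0, hx0⟩ := hne
  let Q : ℕ → Prop := fun m => ∃ x, P x ∧ g x = m
  have hQ : Q (Nat.findGreatest Q n) :=
    Nat.findGreatest_spec (P := Q) (hb x0 hx0) ⟨x0, hx0, rfl⟩
  obtain ⟨x, hx, hgx⟩ := hQ
  refine ⟨x, hx, fun y hy => ?_⟩
  rw [hgx]
  exact Nat.le_findGreatest (hb y hy) ⟨y, hy, rfl⟩

theorem nT_le (w : List (V × Bool)) : nT w ≤ w.length := List.length_filter_le _ _

/-- The reducible case. -/
theorem reducible (hI : Inv G ang f ρ) {A n : ℕ} {w : List (V × Bool)}
    (h : Sit G ang f ρ A n w) (hI2 : ¬ Irr (HG G f (tB w)) A w) : Fin G f ρ w := by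
  obtain ⟨X, c, s, Z, m, k, hw, hs, hZX, hm, hk, hle⟩ := RED.not_irr hI2
  have hrot : w ~r (c :: (s ++ c :: (Z ++ X))) := by
    rw [hw]
    have := List.isRotated_append (l := X) (l' := c :: (s ++ c :: Z))
    simpa using this
  have hcw := h.cw.rotated (hrot.map Prod.fst)
  simp only [List.map_cons, List.map_append] at hcw
  obtain ⟨hc1, hc2⟩ := CW_unsplit (l := s.map Prod.fst) (l' := Z.map Prod.fst ++ X.map Prod.fst)
    (by simpa using hs) (by
      intro h0
      apply hZX
      simpa using h0) hcw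
  have hlen : w.length = n := h.len
  have hl2 : w.length = s.length + (Z.length + X.length) + 2 := by
    rw [hrot.perm.length_eq]
    simp only [List.length_cons, List.length_append]
    omega
  have hs' : 0 < s.length := List.length_pos_iff.2 hs
  have hZX' : 0 < Z.length + X.length := by
    have := List.length_pos_iff.2 hZX
    simpa using this
  obtain ⟨B1, hB1⟩ := h.ih m (c.1 :: s.map Prod.fst) (Or.inr ⟨by omega, by
    simp only [List.length_cons, List.length_map]
    omega⟩) hc1 (by simpa using null_fst hm)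
  obtain ⟨B2, hB2⟩ := h.ih k (c.1 :: (Z.map Prod.fst ++ X.map Prod.fst)) (Or.inr ⟨by omega, by
    simp only [List.length_cons, List.length_map, List.length_append]
    omega⟩) hc2 (by simpa using null_fst hk)
  have h3 : Null (RG G f ρ) (B1 + B2)
      (ρ c.1 :: ((s.map fun x => ρ x.1) ++ ρ c.1 :: ((Z ++ X).map fun x => ρ x.1))) := by
    refine Null.split (by simpa using hs) ?_ ?_ ?_
    · intro h0
      apply hZX
      simpa using h0
    · simpa [List.map_map, Function.comp_def] using hB1
    · simpa [List.map_map, Function.comp_def] using hB2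
  refine ⟨B1 + B2, ?_⟩
  have h4 : Null (RG G f ρ) (B1 + B2) ((c :: (s ++ c :: (Z ++ X))).map fun x => ρ x.1) := by
    simpa using h3
  exact h4.rotated ((hrot.map (fun x => ρ x.1)).symm)

/-- The set of double labels of a rotated walk. -/
theorem tB_rot {w w' : List (V × Bool)} (h : w ~r w') : tB w = tB w' := by
  ext b
  exact h.perm.mem_iff

/-- The irreducible case. -/
theorem irreducible (h1 : T_CF.{u}) (h2 : T_BCOR.{u}) (h3 : T_NCOR.{u}) (h4 : T_YCOR.{u})
    (h5 : T_ROT.{u}) {A n : ℕ} {w : List (V × Bool)}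
    (h : Sit G ang f ρ A n w) (hn : 3 ≤ n) (hI2 : Irr (HG G f (tB w)) A w) :
    Fin G f ρ w := by
  obtain ⟨p, c, q, R, F, hr, hpq, hgp, hci⟩ := h1 G ang f ρ A n w h hn hI2
  obtain ⟨hS, hF⟩ := h5 G ang f ρ A n w (p :: c :: q :: R) h (Or.inl hr)
  apply hF
  rw [tB_rot hr] at hgp
  rcases hci with ⟨hc1, hc2, hc3⟩ | ⟨hc1, hc2⟩ | ⟨hc1, hc2, hc3⟩
  · exact h4 G ang f ρ A n p c q R F hS hpq hc1 hc2 hgp hc3
  · exact h2 G ang f ρ A n p c q R F hS hpq hc1 hgp hc2
  · exact h3 G ang f ρ A n p c q R F hS hpq hc1 hc2 hgp hc3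

/-- The induction step. -/
theorem step (h1 : T_CF.{u}) (h2 : T_BCOR.{u}) (h3 : T_NCOR.{u}) (h4 : T_YCOR.{u})
    (h5 : T_ROT.{u}) (hI : Inv G ang f ρ) {A n : ℕ}
    (ih : ∀ (A' : ℕ) (w' : List V), (A' < A ∨ (A' ≤ A ∧ w'.length < n)) → CW (Z1 G f) w' →
      Null G A' w' → ∃ B, Null (RG G f ρ) B (w'.map ρ)) (w : List V) (hw : CW (Z1 G f) w)
    (hA : Null G A w) (hn : w.length = n) : ∃ B, Null (RG G f ρ) B (w.map ρ) := by
  by_cases hmin : ∃ (k : ℕ) (w' : List V), w'.map ρ = w.map ρ ∧ Null G k w' ∧ k < A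
  · obtain ⟨k, w', hw', hk, hkA⟩ := hmin
    obtain ⟨B, hB⟩ := ih k w' (Or.inl hkA) (hI.cw hw' hw) hk
    exact ⟨B, by rwa [hw'] at hB⟩
  have hmin' : ∀ (k : ℕ) (w' : List V), w'.map ρ = w.map ρ → Null G k w' → A ≤ k := by
    intro k w' h1 h2
    by_contra hc
    exact hmin ⟨k, w', h1, h2, by omega⟩
  by_cases hn2 : w.length ≤ 2
  · exact short hI hw hn2
  obtain ⟨w', ⟨hm1, hm2, hm3⟩, hmax⟩ := exists_max
    (fun w' : List (V × Bool) => w'.map (fun x => ρ x.1) = w.map ρ ∧
      (∀ b, (b, true) ∈ w' → G.Adj b (f b)) ∧ Null (HG G f (tB w')) A w') nT n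
    (by
      intro x hx
      have hl : x.length = w.length := by
        have := congrArg List.length hx.1
        simpa using this
      have := nT_le x
      omega)
    ⟨w.map fun x => (x, false), by simp [Function.comp_def], by
      intro b hb
      simp at hb, null_lift hA⟩
  have hlen : w'.length = w.length := by
    have := congrArg List.length hm1
    simpa using this
  have hS : Sit G ang f ρ A n w' := by
    refine { toInv := hI, ih := ih, len := by omega, cw := ?_, fl := hm2, null := hm3, min := ?_,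
             tmax := ?_ }
    · refine hI.cw (w := w) ?_ hw
      rw [List.map_map, ← hm1]
      rfl
    · intro k w'' h1 h2
      exact hmin' k w'' (by rw [h1, hm1]) h2
    · intro w'' h1 h2 h3
      exact hmax w'' ⟨by rw [h1, hm1], h2, h3⟩
  have hF : Fin G f ρ w' := by
    by_cases hI2 : Irr (HG G f (tB w')) A w'
    · exact irreducible h1 h2 h3 h4 h5 hS (by omega) hI2
    · exact reducible hI hS hI2
  obtain ⟨B, hB⟩ := hF
  exact ⟨B, by rwa [hm1] at hB⟩

end TWOV

theorem tTWOV (h1 : T_CF.{u}) (h2 : T_BCOR.{u}) (h3 : T_NCOR.{u}) (h4 : T_YCOR.{u})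
    (h5 : T_ROT.{u}) : T_TWOV.{u} := by
  intro V G ang f ρ hI hN w hw
  have key : ∀ (A n : ℕ) (w : List V), CW (Z1 G f) w → Null G A w → w.length = n →
      ∃ B, Null (RG G f ρ) B (w.map ρ) := by
    intro A
    induction A using Nat.strong_induction_on with
    | _ A ihA =>
    intro n
    induction n using Nat.strong_induction_on with
    | _ n ihn =>
    intro w hw hA hn
    refine TWOV.step h1 h2 h3 h4 h5 hI ?_ w hw hA hn
    intro A' w' h hc hn
    rcases h with h | ⟨h, h'⟩
    · exact ihA A' h w'.length w' hc hn rfl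
    · exact ihn w'.length h' w' hc (hn.mono h) rfl
  have hle : ∀ a b, (Z1 G f).Adj a b → G.Adj a b := fun a b h => h.1.2.2.1
  obtain ⟨A, hA⟩ := hN w (TWOV.cw_mono hle hw)
  exact key A w.length w hw hA rfl

end Pool.Agent.MSS
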