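import Pool.Agent.MSS.Basic
import Pool.Agent.MSF.T3

/-!
# Y0: a corner with two single neighbours (MP_d6353f_al, MSS)
-/

set_option autoImplicit false

namespace Pool.Agent.MSS

open List Pool.Agent.MSF

universe u

namespace Y0

variable {V : Type u} {G : SimpleGraph V} {f : Equiv.Perm V} {ang : V → V → V → ℝ}
  {ρ : V → V}

/-- The statement in terms of the vertices. -/
theorem main (hC : T_CONE.{u}) (hZ : T_ZIP.{u}) {A n : ℕ} (hI : Inv G ang f ρ)
    (ih : ∀ (A' : ℕ) (w' : List V), (A' < A ∨ (A' ≤ A ∧ w'.length < n)) → CW (Z1 G f) w' →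
      Null G A' w' → ∃ B, Null (RG G f ρ) B (w'.map ρ))
    {x v y : V} {R F : List V} (hxy : x ≠ y) (hfx : f x = x) (hfv : f v = v) (hfy : f y = y)
    (hxv : (Z1 G f).Adj x v) (hvy : (Z1 G f).Adj v y)
    (hyR : List.IsChain (Z1 G f).Adj (y :: (R ++ [x])))
    (hch : List.IsChain G.Adj (x :: (F ++ [y]))) (hlk : ∀ z ∈ x :: (F ++ [y]), G.Adj v z)
    (hlen : plen ang v (x :: (F ++ [y])) < Real.pi)
    (hnull : ∃ k, Null G k (x :: (F ++ y :: R)) ∧ k + F.length + 1 ≤ A) :
    ∃ B, Null (RG G f ρ) B ((x :: v :: y :: R).map ρ) := by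
  obtain ⟨k, hk1, hk2⟩ := hnull
  have hA := hI.angled
  have hgood : T3.Good G ang v x y R A (x :: (F ++ [y])) := by
    refine ⟨by simp, ?_, hch, hlk, hlen, k, by simpa using hk1, ?_⟩
    · have e : x :: (F ++ [y]) = (x :: F) ++ [y] := by simp
      rw [e, List.getLast?_append]
      simp
    · simp only [List.length_cons, List.length_append, List.length_nil]
      omega
  obtain ⟨L, hL, hLmin⟩ : ∃ L, T3.Good G ang v x y R A L ∧
      ∀ L', T3.Good G ang v x y R A L' → L.length ≤ L'.length := by
    classical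
    have hex : ∃ n, ∃ L, T3.Good G ang v x y R A L ∧ L.length = n := ⟨_, _, hgood, rfl⟩
    obtain ⟨L, hL, hLn⟩ := Nat.find_spec hex
    refine ⟨L, hL, fun L' hL' => ?_⟩
    rw [hLn]
    exact Nat.find_min' hex ⟨L', hL', rfl⟩
  have hne := T3.good_noEar hZ hA hL hxy hLmin
  obtain ⟨F', rfl⟩ := T3.good_form hL hxy
  obtain ⟨k', hk'1, hk'2⟩ := hL.null
  simp only [List.length_cons, List.length_append, List.length_nil] at hk'2
  cases F' with
  | nil =>
    have hxy' : G.Adj x y := by
      have := hL.chain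
      simpa using this
    have hxyY : (Z1 G f).Adj x y := Z1.adj_of_fixed_right hI.aut (Or.inl hfx) hfy hxy'
    obtain ⟨B, hB⟩ := ih k' (x :: y :: R) (Or.inl (by simp at hk'2; omega)) (by
      simp only [CW, List.isChain_cons_cons]
      exact ⟨hxyY, hyR⟩) (by simpa using hk'1)
    have h0 : Null (RG G f ρ) B ([] ++ ρ x :: ρ y :: R.map ρ) := by simpa using hB
    exact ⟨B + 1, by simpa using h0.push (hI.rg' hxv) (hI.rg' hvy) (hI.rg' hxyY)⟩
  | cons p F' =>
    have hpL : G.Adj v p := hL.link p (by simp)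
    by_cases hgp : f p = p ∨ G.Adj p (f p)
    · have hxp : G.Adj x p := by
        have := hL.chain
        simp only [List.cons_append, List.isChain_cons_cons] at this
        exact this.1
      have h1 := hC G k' v p y F' (R ++ [x]) (by
        have := hL.chain
        simp only [List.cons_append, List.isChain_cons_cons] at this
        simpa using this.2) (by
        intro z hz
        exact hL.link z (by simp at hz ⊢; tauto)) (by
        have h2 : Null G k' ([x] ++ (p :: (F' ++ y :: R))) := by simpa using hk'1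
        simpa using h2.swap)
      have h2 : Null G (k' + F'.length + 1) ((p :: v :: y :: R) ++ [x]) := by simpa using h1
      have h3 : Null G (k' + F'.length + 1) (x :: p :: v :: y :: R) := by simpa using h2.swap
      have hxpY : (Z1 G f).Adj x p := Z1.adj_of_fixed_left hI.aut hfx hgp hxp
      have hpvY : (Z1 G f).Adj p v := Z1.adj_of_fixed_right hI.aut hgp hfv hpL.symm
      obtain ⟨B, hB⟩ := ih (k' + F'.length + 1) _ (Or.inl (by simp at hk'2; omega)) (by
        simp only [CW, List.cons_append, List.isChain_cons_cons]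
        exact ⟨hxpY, hpvY, hvy, hyR⟩) h3
      have h4 : Null (RG G f ρ) B ([] ++ ρ x :: ρ p :: ρ v :: (ρ y :: R.map ρ)) := by
        simpa using hB
      exact ⟨B + 1, by simpa using h4.triAt (hI.rg' hxv) (hI.rg' hxpY) (hI.rg' hpvY)⟩
    · exfalso
      push Not at hgp
      refine T3.no_move hA hI.aut hfv hfx hfy (p := p) (F := F')
        (by simpa using hL.chain) ?_ (by simpa using hL.len) (by simpa using hne) hgp.1 ?_
      · intro z hz
        exact hL.link z (by simpa using hz)
      · intro h
        exact hgp.2 h.symm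

end Y0

theorem tY0 (hC : Pool.Agent.MSF.T_CONE.{u}) (hZ : Pool.Agent.MSF.T_ZIP.{u}) : T_Y0.{u} := by
  intro V G ang f ρ A n p c q R F hS hpq hc2 hc hp hq hG hY
  have hI : Inv G ang f ρ := hS.toInv
  obtain ⟨h1, h2, h3⟩ := hS.adj3
  have hp2 : p.2 = false := hS.single (by simp) hp
  have hq2 : q.2 = false := hS.single (by simp) hq
  obtain ⟨x, bx⟩ := p
  obtain ⟨v, bv⟩ := c
  obtain ⟨y, bY⟩ := q
  simp only at hp2 hq2 hc2 hc hp hq h1 h2 h3
  subst hp2 hq2 hc2
  have hxy : x ≠ y := fun h => hpq (by rw [h])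
  have e0 : ((x, false) :: ((F.map fun x => (x, false)) ++ [(y, false)]) : List (V × Bool)) =
      (x :: (F ++ [y])).map fun x => (x, false) := by simp
  have hgap : ∀ z : V, f z = z → gap G f ang v (z, false) = 0 := by
    intro z hz
    unfold gap
    rw [if_neg]
    rintro ⟨-, h⟩
    simp only [hz] at h
    exact G.loopless.irrefl _ h
  have hlen : plen ang v (x :: (F ++ [y])) < Real.pi := by
    unfold YIneq at hY
    rw [e0, plen_angH_single, hgap x hp, hgap y hq] at hY
    linarith
  have hch : List.IsChain G.Adj (x :: (F ++ [y])) := by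
    have := hG.chain
    rw [e0, List.isChain_map] at this
    exact this.imp fun a b hab => HG.adj_ff.1 hab
  have hlk : ∀ z ∈ x :: (F ++ [y]), G.Adj v z := by
    intro z hz
    have := hG.link (z, false) (by
      rw [e0]
      exact List.mem_map_of_mem hz)
    exact HG.adj_ff.1 this
  obtain ⟨k, hk1, hk2⟩ := hG.null
  have hk3 := null_fst hk1
  obtain ⟨B, hB⟩ := Y0.main hC hZ hI hS.ih hxy hp hc hq h1 h2 h3 hch hlk hlen
    ⟨k, by simpa [Function.comp_def] using hk3, by simpa using hk2⟩
  exact ⟨B, by simpa [Function.comp_def] using hB⟩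

end Pool.Agent.MSS
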