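import Pool.Agent.MSS.Basic
import Pool.Agent.MSF.T3

/-! Y1: corners at a fixed vertex, next to a flipped vertex. -/

set_option autoImplicit false

namespace Pool.Agent.MSS

open List Pool.Agent.MSF

universe u

namespace Y1

variable {V : Type u} {G : SimpleGraph V} {ang : V → V → V → ℝ} {f : Equiv.Perm V}
  {ρ : V → V}

/-- Angles of triangles are less than `π`. -/
theorem ang_lt (hA : Angled G ang) {y a b : V} (h1 : G.Adj y a) (h2 : G.Adj y b)
    (h3 : G.Adj a b) : ang y a b < Real.pi := by
  have s := hA.sum_le y a b h1 h3 h2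
  have p1 := hA.pos a y b h1.symm h3 h2
  have p2 := hA.pos b y a h2.symm h3.symm h1
  linarith

theorem plen_nonneg (hA : Angled G ang) (y : V) : ∀ L : List V, List.IsChain G.Adj L →
    (∀ x ∈ L, G.Adj y x) → 0 ≤ plen ang y L
  | [], _, _ => le_rfl
  | [_], _, _ => le_rfl
  | (a :: b :: L), hc, hl => by
    rw [List.isChain_cons_cons] at hc
    have h1 := hA.pos y a b (hl a (by simp)) (hl b (by simp)) hc.1
    have h2 := plen_nonneg hA y (b :: L) hc.2 (fun x hx => hl x (List.mem_cons_of_mem _ hx))
    simp only [plen]
    linarith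

/-- Split a list at the first fixed vertex. -/
theorem first_fixed (f : Equiv.Perm V) : ∀ F : List V, (∀ x ∈ F, f x ≠ x) ∨
    ∃ (P : List V) (q : V) (F' : List V), F = P ++ q :: F' ∧ f q = q ∧ ∀ x ∈ P, f x ≠ x
  | [] => Or.inl (by simp)
  | (a :: F) => by
    by_cases ha : f a = a
    · exact Or.inr ⟨[], a, F, rfl, ha, by simp⟩
    · rcases first_fixed f F with h | ⟨P, q, F', rfl, hq, hP⟩
      · left
        intro x hx
        rcases List.mem_cons.1 hx with rfl | hx
        · exact ha
        · exact h x hx
      · right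
        refine ⟨a :: P, q, F', rfl, hq, ?_⟩
        intro x hx
        rcases List.mem_cons.1 hx with rfl | hx
        · exact ha
        · exact hP x hx

/-- Fill the closed walk `b, P, q` in the link of `y`. -/
theorem fillG (hF : MSF.T_FILL.{u}) (hA : Angled G ang) {y b q : V} {P : List V}
    (hch : List.IsChain G.Adj (b :: (P ++ [q]))) (hl : ∀ x ∈ b :: (P ++ [q]), G.Adj y x)
    (hbq : G.Adj b q) (hlt : plen ang y (b :: (P ++ [q])) < Real.pi) :
    Null G P.length (b :: q :: P.reverse) := by
  have e : q :: (P.reverse ++ [b]) = (b :: (P ++ [q])).reverse := by simp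
  have hch' : List.IsChain G.Adj (q :: (P.reverse ++ [b])) := by
    rw [e]; exact T3.chain_reverse _ hch
  have h1 : CW G (b :: q :: P.reverse) := by
    rw [CW_cons (by simp), List.cons_append, List.isChain_cons_cons]
    exact ⟨hbq, hch'⟩
  have h2 : clen ang y (b :: q :: P.reverse) < 2 * Real.pi := by
    have h3 : clen ang y (b :: q :: P.reverse) = ang y b q + plen ang y (b :: (P ++ [q])) := by
      show plen ang y (b :: q :: (P.reverse ++ [b])) = _
      simp only [plen]
      rw [e, T3.plen_reverse hA.symm]
    have h4 := ang_lt hA (hl b (by simp)) (hl q (by simp)) hbq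
    rw [h3]
    linarith
  have h3 := hF G ang hA y (b :: q :: P.reverse) (by simp) h1 (by
    intro x hx
    apply hl
    simp only [List.mem_cons, List.mem_reverse, List.mem_append, List.not_mem_nil,
      or_false] at hx ⊢
    tauto) h2
  simpa using h3

/-- Replace the path `b, P, q` by the edge `b, q`. -/
theorem fillG' (hF : MSF.T_FILL.{u}) (hG : MSF.T_GLUE.{u}) (hA : Angled G ang) {k : ℕ}
    {y b q : V} {P R : List V} (hch : List.IsChain G.Adj (b :: (P ++ [q])))
    (hl : ∀ x ∈ b :: (P ++ [q]), G.Adj y x) (hbq : G.Adj b q)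
    (hlt : plen ang y (b :: (P ++ [q])) < Real.pi) (hn : Null G k (b :: (P ++ q :: R))) :
    Null G (k + P.length) (b :: q :: R) := by
  have := hG G k P.length b q [] P R hn (by simpa using fillG hF hA hch hl hbq hlt)
  simpa using this

/-- The situation, in `V`: the walk `b, y, z, R`, the path `F` from `b` to `z`. -/
structure S (G : SimpleGraph V) (ang : V → V → V → ℝ) (f : Equiv.Perm V) (ρ : V → V)
    (A n k : ℕ) (b y z : V) (F R : List V) : Prop where
  hI : Inv G ang f ρ
  ih : ∀ (A' : ℕ) (w' : List V), (A' < A ∨ (A' ≤ A ∧ w'.length < n)) → CW (Z1 G f) w' →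
    Null G A' w' → ∃ B, Null (RG G f ρ) B (w'.map ρ)
  len : R.length + 3 = n
  fy : f y = y
  cw : List.IsChain (Z1 G f).Adj (b :: y :: z :: (R ++ [b]))
  null : Null G k (b :: (F ++ z :: R))
  le : k + F.length + 1 ≤ A
  chain : List.IsChain G.Adj (b :: (F ++ [z]))
  link : ∀ x ∈ b :: (F ++ [z]), G.Adj y x
  lt : plen ang y (b :: (F ++ [z])) < Real.pi

/-- A fixed vertex `q` of the path which is adjacent to `b` is inserted between `b` and `y`. -/
theorem caseI (hF : MSF.T_FILL.{u}) (hG : MSF.T_GLUE.{u}) (hK : MSF.T_CONE.{u})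
    {A n k : ℕ} {b y z q : V} {P F R : List V}
    (hs : S G ang f ρ A n k b y z (P ++ q :: F) R) (hq : f q = q) (hbq : G.Adj b q) :
    ∃ B, Null (RG G f ρ) B ((b :: y :: z :: R).map ρ) := by
  have hA := hs.hI.angled
  have hf := hs.hI.aut
  have hcw := hs.cw
  rw [List.isChain_cons_cons] at hcw
  obtain ⟨hby, hrest⟩ := hcw
  have hyz : (Z1 G f).Adj y z := (List.isChain_cons_cons.1 hrest).1
  have hch : List.IsChain G.Adj ((b :: P) ++ q :: (F ++ [z])) := by simpa using hs.chain
  rw [List.isChain_split] at hch
  have hyq : G.Adj y q := hs.link q (by simp)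
  have hl1 : ∀ x ∈ b :: (P ++ [q]), G.Adj y x := by
    intro x hx
    apply hs.link
    simp only [List.mem_cons, List.mem_append, List.not_mem_nil, or_false] at hx ⊢
    tauto
  have hl2 : ∀ x ∈ q :: (F ++ [z]), G.Adj y x := by
    intro x hx
    apply hs.link
    simp only [List.mem_cons, List.mem_append, List.not_mem_nil, or_false] at hx ⊢
    tauto
  have hlt : plen ang y (b :: (P ++ [q])) < Real.pi := by
    have h1 := T3.plen_append ang y (b :: P) q (F ++ [z])
    have h2 := plen_nonneg hA y _ hch.2 hl2
    have h3 := hs.lt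
    have e : b :: ((P ++ q :: F) ++ [z]) = (b :: P) ++ q :: (F ++ [z]) := by simp
    rw [e, h1] at h3
    have e2 : (b :: P) ++ [q] = b :: (P ++ [q]) := by simp
    rw [e2] at h3
    linarith
  have hn : Null G k (b :: (P ++ q :: (F ++ z :: R))) := by simpa using hs.null
  have h1 : Null G (k + P.length) (b :: q :: (F ++ z :: R)) :=
    fillG' hF hG hA (by simpa using hch.1) hl1 hbq hlt hn
  have h2 : Null G (k + P.length) (q :: (F ++ z :: (R ++ [b]))) := by simpa using h1.rot
  have h3 := hK G (k + P.length) y q z F (R ++ [b]) hch.2 hl2 h2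
  have hle : k + P.length + F.length + 1 < A := by
    have := hs.le
    simp only [List.length_append, List.length_cons] at this
    omega
  have hb : f b = b ∨ G.Adj b (f b) := hby.1.1
  have hqy : (Z1 G f).Adj q y := Z1.adj_of_fixed_left hf hq (Or.inl hs.fy) hyq.symm
  have hbq' : (Z1 G f).Adj b q := Z1.adj_of_fixed_right hf hb hq hbq
  have h4 : CW (Z1 G f) (q :: y :: z :: (R ++ [b])) := by
    rw [CW_cons (by simp)]
    have e : q :: ((y :: z :: (R ++ [b])) ++ [q]) = (q :: y :: z :: R) ++ b :: [q] := by simp
    rw [e, List.isChain_split]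
    refine ⟨?_, by simp [hbq']⟩
    have e2 : (q :: y :: z :: R) ++ [b] = q :: y :: z :: (R ++ [b]) := by simp
    rw [e2, List.isChain_cons_cons]
    exact ⟨hqy, hrest⟩
  obtain ⟨B, hB⟩ := hs.ih _ _ (Or.inl hle) h4 h3
  have h5 : Null (RG G f ρ) B ((ρ q :: ρ y :: ρ z :: R.map ρ) ++ [ρ b]) := by simpa using hB
  have h6 : Null (RG G f ρ) B (ρ b :: ρ q :: ρ y :: ρ z :: R.map ρ) := by simpa using h5.swap
  refine ⟨B + 1, ?_⟩
  have h7 := Null.tri (hs.hI.rg' hby) (hs.hI.rg' hbq') (hs.hI.rg' hqy) h6
  simpa using h7

/-- The path ends at a fixed vertex `z` adjacent to `b`: cut the corner. -/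
theorem caseA (hF : MSF.T_FILL.{u}) (hG : MSF.T_GLUE.{u})
    {A n k : ℕ} {b y z : V} {F R : List V}
    (hs : S G ang f ρ A n k b y z F R) (hz : f z = z) (hbz : G.Adj b z) :
    ∃ B, Null (RG G f ρ) B ((b :: y :: z :: R).map ρ) := by
  have hA := hs.hI.angled
  have hf := hs.hI.aut
  have hcw := hs.cw
  rw [List.isChain_cons_cons, List.isChain_cons_cons] at hcw
  obtain ⟨hby, hyz, hrest⟩ := hcw
  have hb : f b = b ∨ G.Adj b (f b) := hby.1.1
  have hbz' : (Z1 G f).Adj b z := Z1.adj_of_fixed_right hf hb hz hbz
  have h1 : Null G (k + F.length) (b :: z :: R) :=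
    fillG' hF hG hA hs.chain hs.link hbz hs.lt hs.null
  have hle : k + F.length < A := by
    have := hs.le
    omega
  have h4 : CW (Z1 G f) (b :: z :: R) := by
    rw [CW_cons (by simp), List.cons_append, List.isChain_cons_cons]
    exact ⟨hbz', hrest⟩
  obtain ⟨B, hB⟩ := hs.ih _ _ (Or.inl hle) h4 h1
  refine ⟨B + 1, ?_⟩
  have h5 : Null (RG G f ρ) B ([] ++ ρ b :: ρ z :: R.map ρ) := by simpa using hB
  have h6 := h5.push (hs.hI.rg' hby) (hs.hI.rg' hyz) (hs.hI.rg' hbz')
  simpa using h6

/-- The path ends at `b` or `f b`: the walk has a spur in the orbit complex. -/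
theorem caseB (hF : MSF.T_FILL.{u}) (hG : MSF.T_GLUE.{u}) (hN : MSF.T_GEN.{u})
    {A n k : ℕ} {b y z : V} {F R : List V}
    (hs : S G ang f ρ A n k b y z F R) (hb : G.Adj b (f b)) (hz : z = b ∨ z = f b) :
    ∃ B, Null (RG G f ρ) B ((b :: y :: z :: R).map ρ) := by
  have hI := hs.hI
  have hA := hs.hI.angled
  have hcw := hs.cw
  rw [List.isChain_cons_cons, List.isChain_cons_cons] at hcw
  obtain ⟨hby, hyz, hrest⟩ := hcw
  have hρ : ρ z = ρ b := by
    rcases hz with rfl | rfl
    · rfl
    · exact hI.rhof b
  match R, hs, hrest with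
  | [], hs, hrest =>
    exfalso
    rw [List.nil_append, List.isChain_cons_cons] at hrest
    rcases hz with rfl | rfl
    · exact (Z1 G f).loopless.irrefl _ hrest.1
    · exact G.loopless.irrefl _ hrest.1.1.2.2.2.1
  | (r :: R), hs, hrest =>
    rw [List.cons_append, List.isChain_cons_cons] at hrest
    obtain ⟨hzr, hR⟩ := hrest
    have hbr : (Z1 G f).Adj b r := hI.z1 hzr hρ.symm rfl
    have h4 : CW (Z1 G f) (b :: r :: R) := by
      rw [CW_cons (by simp), List.cons_append, List.isChain_cons_cons]
      exact ⟨hbr, hR⟩
    have key : ∃ m ≤ A, Null G m (b :: r :: R) := by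
      have hle := hs.le
      rcases hz with rfl | hz
      · have hne : F ≠ [] := by
          rintro rfl
          have := hs.chain
          rw [List.nil_append, List.isChain_cons_cons] at this
          exact G.loopless.irrefl _ this.1
        have h1 : CW G (z :: F) := by
          rw [CW_cons hne]
          exact hs.chain
        have hlen : 2 ≤ (z :: F).length := by
          have := List.length_pos_of_ne_nil hne
          rw [List.length_cons]
          omega
        have h2 : clen ang y (z :: F) < 2 * Real.pi := by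
          have := hs.lt
          have hpi := Real.pi_pos
          show plen ang y (z :: (F ++ [z])) < 2 * Real.pi
          linarith
        have h3 := hF G ang hA y (z :: F) hlen h1 (by
          intro x hx
          apply hs.link
          simp only [List.mem_cons, List.mem_append, List.not_mem_nil, or_false] at hx ⊢
          tauto) h2
        have h5 : Null G k ((z :: F) ++ (z :: r :: R)) := by simpa using hs.null
        have h6 : Null G k (z :: ((r :: R) ++ z :: F)) := by simpa using h5.swap
        have h7 := hN G k _ z (r :: R) F (by simp) hne h6 h3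
        refine ⟨_, ?_, h7⟩
        rw [List.length_cons]
        omega
      · have hz' : G.Adj b z := by rw [hz]; exact hb
        have h1 : Null G (k + F.length) (b :: z :: r :: R) :=
          fillG' hF hG hA hs.chain hs.link hz' hs.lt hs.null
        refine ⟨k + F.length + 1, hle, ?_⟩
        exact Null.tri hbr.1.2.2.1 hz' hzr.1.2.2.1 h1
    obtain ⟨m, hm, hnull⟩ := key
    have hlen : (b :: r :: R).length < n := by
      have := hs.len
      simp only [List.length_cons] at this ⊢
      omega
    obtain ⟨B, hB⟩ := hs.ih _ _ (Or.inr ⟨hm, hlen⟩) h4 hnull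
    refine ⟨B, ?_⟩
    have h5 : Null (RG G f ρ) B ([] ++ ρ b :: (ρ r :: R.map ρ)) := by simpa using hB
    have h6 := h5.spur (by simp) (hI.rg' hby)
    have e : (b :: y :: z :: r :: R).map ρ = [] ++ ρ b :: ρ y :: ρ b :: (ρ r :: R.map ρ) := by
      simp [hρ]
    rw [e]
    exact h6

/-- From labels to `V`. -/
theorem mkS {A n : ℕ} {p c q : V × Bool} {R : List (V × Bool)} {F : List V} {B : Set V}
    (hS : Sit G ang f ρ A n (p :: c :: q :: R)) (hfc : f c.1 = c.1) (hc2 : c.2 = false)
    (hGP : GP G f B A p c q R (F.map fun x => (x, false))) (l : V × Bool → V)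
    (hl0 : ∀ x, l (x, false) = x) (hlr : ∀ x, ρ (l x) = ρ x.1)
    (hla : ∀ a b, (HG G f B).Adj a b → G.Adj (l a) (l b))
    (hlt : plen ang c.1 (l p :: (F ++ [l q])) < Real.pi) :
    ∃ k, S G ang f ρ A n k (l p) c.1 (l q) F (R.map l) := by
  have hlc : l c = c.1 := by
    obtain ⟨c1, c2⟩ := c
    simp only at hc2
    subst hc2
    exact hl0 c1
  have hlF : (F.map fun x => (x, false)).map l = F := by
    rw [List.map_map]
    have : (l ∘ fun x => (x, false)) = id := by
      funext x
      exact hl0 x
    rw [this, List.map_id]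
  obtain ⟨k, hk, hk2⟩ := hGP.null
  refine ⟨k, ⟨hS.toInv, hS.ih, ?_, hfc, ?_, ?_, ?_, ?_, ?_, hlt⟩⟩
  · have := hS.len
    simpa using this
  · have h1 := hS.cw
    have h2 : CW (Z1 G f) ((p :: c :: q :: R).map l) := by
      refine hS.toInv.cw ?_ h1
      rw [List.map_map, List.map_map]
      apply List.map_congr_left
      intro x _
      exact hlr x
    simp only [List.map_cons, CW, hlc] at h2
    simpa using h2
  · have := hk.map (G' := G) l hla
    simp only [List.map_cons, List.map_append, hlF] at this
    exact this
  · simpa using hk2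
  · have h1 : List.IsChain G.Adj
        ((p :: ((F.map fun x => (x, false)) ++ [q])).map l) := by
      rw [List.isChain_map]
      exact hGP.chain.imp (fun a b h => hla a b h)
    simp only [List.map_cons, List.map_append, hlF, List.map_nil] at h1
    exact h1
  · intro x hx
    have h2 : x ∈ (p :: ((F.map fun x => (x, false)) ++ [q])).map l := by
      simp only [List.map_cons, List.map_append, hlF, List.map_nil]
      exact hx
    obtain ⟨z, hz, rfl⟩ := List.mem_map.1 h2
    have h3 := hla _ _ (hGP.link z hz)
    rwa [hlc] at h3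

/-- The possible shapes of the path. -/
def D (G : SimpleGraph V) (f : Equiv.Perm V) (b z : V) (F : List V) : Prop :=
  (∃ (P : List V) (q : V) (F' : List V), F = P ++ q :: F' ∧ f q = q ∧ G.Adj b q) ∨
    (f z = z ∧ G.Adj b z) ∨ z = b ∨ z = f b

theorem final (hF : MSF.T_FILL.{u}) (hG : MSF.T_GLUE.{u}) (hK : MSF.T_CONE.{u})
    (hN : MSF.T_GEN.{u}) {A n : ℕ} {p c q : V × Bool} {R : List (V × Bool)} {F : List V}
    {B : Set V}
    (hS : Sit G ang f ρ A n (p :: c :: q :: R)) (hfc : f c.1 = c.1) (hc2 : c.2 = false)
    (hpf : G.Adj p.1 (f p.1))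
    (hGP : GP G f B A p c q R (F.map fun x => (x, false))) (l : V × Bool → V)
    (hl0 : ∀ x, l (x, false) = x) (hl : ∀ x, l x = x.1 ∨ l x = f x.1)
    (hla : ∀ a b, (HG G f B).Adj a b → G.Adj (l a) (l b))
    (hlt : plen ang c.1 (l p :: (F ++ [l q])) < Real.pi) (hD : D G f p.1 q.1 F) :
    Fin G f ρ (p :: c :: q :: R) := by
  have hI := hS.toInv
  have hf := hI.aut
  have ff := hI.inv
  have hlr : ∀ x, ρ (l x) = ρ x.1 := by
    intro x
    rcases hl x with h | h
    · rw [h]
    · rw [h, hI.rhof]
  obtain ⟨k, hs⟩ := mkS hS hfc hc2 hGP l hl0 hlr hla hlt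
  have fx : ∀ x, G.Adj p.1 x → f x = x → G.Adj (l p) x := by
    intro x hx hx2
    rcases hl p with h | h
    · rw [h]; exact hx
    · rw [h]
      have := (hf.adj p.1 x).2 hx
      rwa [hx2] at this
  have hlp : G.Adj (l p) (f (l p)) := by
    rcases hl p with h | h
    · rw [h]; exact hpf
    · rw [h, ff]; exact hpf.symm
  have main : ∃ B, Null (RG G f ρ) B ((l p :: c.1 :: l q :: R.map l).map ρ) := by
    rcases hD with ⟨P, q₁, F', rfl, h1, h2⟩ | ⟨h1, h2⟩ | h
    · exact caseI hF hG hK hs h1 (fx _ h2 h1)
    · have hlq : l q = q.1 := by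
        rcases hl q with h | h
        · exact h
        · rw [h, h1]
      refine caseA hF hG hs ?_ ?_
      · rw [hlq, h1]
      · rw [hlq]
        exact fx _ h2 h1
    · refine caseB hF hG hN hs hlp ?_
      rcases hl p with e | e <;> rcases hl q with e' | e' <;> rcases h with h | h <;>
        rw [e, e', h] <;> simp [ff]
  obtain ⟨m, hm⟩ := main
  refine ⟨m, ?_⟩
  have e : (l p :: c.1 :: l q :: R.map l).map ρ =
      (p :: c :: q :: R).map fun x => ρ x.1 := by
    simp only [List.map_cons, List.map_map, hlr]
    congr 3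
    apply List.map_congr_left
    intro x _
    exact hlr x
  rw [← e]
  exact hm

theorem noEar4 {a b c d : V} (h1 : a ≠ c) (h2 : ¬ G.Adj a c) (h3 : b ≠ d)
    (h4 : ¬ G.Adj b d) : NoEar G [a, b, c, d] := by
  intro X x y z Y h
  match X, h with
  | [], h =>
    simp only [List.nil_append, List.cons.injEq] at h
    obtain ⟨rfl, rfl, rfl, -⟩ := h
    exact ⟨h1, h2⟩
  | [_], h =>
    simp only [List.cons_append, List.nil_append, List.cons.injEq] at h
    obtain ⟨-, rfl, rfl, rfl, -⟩ := h
    exact ⟨h3, h4⟩
  | (_ :: _ :: X), h =>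
    have := congrArg List.length h
    simp only [List.length_cons, List.length_append, List.length_nil] at this
    omega

/-- A square with two gap edges is long. -/
theorem square (hI : Inv G ang f ρ) {y b z : V} (hy : f y = y) (hyb : G.Adj y b)
    (hyz : G.Adj y z) (hb : G.Adj b (f b)) (hz : G.Adj z (f z)) (hbz : G.Adj b z)
    (hne : z ≠ f b) (hna : ¬ G.Adj z (f b)) :
    2 * Real.pi ≤ ang y b z + ang y b z + ang y b (f b) + ang y z (f z) := by
  have hA := hI.angled
  have hf := hI.aut
  have ff := hI.inv
  have yf : ∀ x, G.Adj y x → G.Adj y (f x) := by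
    intro x hx
    have := (hf.adj y x).2 hx
    rwa [hy] at this
  have h1 := hA.large y b z [f z, f b] (by simp) (by
    simp only [CW, List.cons_append, List.nil_append, List.isChain_cons_cons,
      List.isChain_singleton, and_true]
    exact ⟨hbz, hz, ((hf.adj b z).2 hbz).symm, hb.symm⟩) (by
    intro x hx
    simp only [List.mem_cons, List.not_mem_nil, or_false] at hx
    rcases hx with rfl | rfl | rfl | rfl
    · exact hyb
    · exact hyz
    · exact yf _ hyz
    · exact yf _ hyb) (by
    simp only [List.cons_append, List.nil_append]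
    refine noEar4 hne hna ?_ ?_
    · intro e
      apply hne
      rw [← e, ff]
    · intro e
      apply hna
      have := (hf.adj (f z) b).2 e
      rwa [ff] at this)
  have h2 : clen ang y [b, z, f z, f b] =
      ang y b z + (ang y z (f z) + (ang y (f z) (f b) + (ang y (f b) b + 0))) := by
    simp [clen, plen]
  have h3 : ang y (f z) (f b) = ang y z b := by
    have := hf.ang y z b hyz hyb hbz.symm
    rwa [hy] at this
  rw [h2, h3, hA.symm y z b, hA.symm y (f b) b] at h1
  linarith

/-- T_MOD2 with the formula of T_CLC. -/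
theorem claim (hC : T_CLC.{u}) (hM : T_MOD2.{u}) (hI : Inv G ang f ρ) {tp tq : Bool}
    {y b q : V} {P : List V} (h : CT G f tp tq y b q P) (h1 : q ≠ b) (h2 : q ≠ f b)
    (hlt : plen ang y (b :: (P ++ [q])) +
      plen ang y ((if tp then f b else b) :: (P ++ [if tq then f q else q])) +
      (if tp then 0 else ang y b (f b)) + (if tq then 0 else ang y q (f q)) <
        2 * Real.pi) : f q = q ∧ G.Adj b q := by
  have h3 := (hC G ang f ρ hI tp tq y b q P h).2.2
  have h4 := hM G ang f ρ hI tp tq y b q P h h1 h2 (by rw [h3]; exact hlt)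
  exact ⟨h4.1, h4.2.symm⟩

/-- The dichotomy. -/
theorem dich (hC : T_CLC.{u}) (hM : T_MOD2.{u}) (hI : Inv G ang f ρ) {tp tq : Bool}
    {y b z : V} {F : List V} {gz : ℝ} (hy : f y = y) (hb : G.Adj b (f b))
    (hz : f z = z ∨ G.Adj z (f z))
    (hch : List.IsChain G.Adj (b :: (F ++ [z])))
    (hlk : ∀ x ∈ b :: (F ++ [z]), G.Adj y x)
    (hch2 : List.IsChain G.Adj ((if tp then f b else b) :: (F ++ [if tq then f z else z])))
    (hlk2 : ∀ x ∈ (if tp then f b else b) :: (F ++ [if tq then f z else z]), G.Adj y x)
    (hlt : plen ang y (b :: (F ++ [z])) +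
      plen ang y ((if tp then f b else b) :: (F ++ [if tq then f z else z])) +
      (if tp then 0 else ang y b (f b)) + gz < 2 * Real.pi)
    (hgap : 0 ≤ gz) (hgz : tq = false → G.Adj z (f z) → gz = ang y z (f z))
    (hnb : G.Adj z (f z) → G.Adj b z → G.Adj z (f b) → False)
    (hnb2 : F = [] → G.Adj z (f z) → ¬ (tp = true ∨ tq = true)) : D G f b z F := by
  have hA := hI.angled
  have hbb : f b ≠ b := by
    intro e
    rw [e] at hb
    exact G.loopless.irrefl _ hb
  rcases first_fixed f F with hnf | ⟨P, q, F', rfl, hq, hP⟩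
  · by_cases hzb : z = b
    · exact Or.inr (Or.inr (Or.inl hzb))
    by_cases hzb' : z = f b
    · exact Or.inr (Or.inr (Or.inr hzb'))
    right; left
    by_cases hF0 : F = []
    · subst hF0
      have hbz : G.Adj b z := by
        rw [List.nil_append, List.isChain_cons_cons] at hch
        exact hch.1
      rcases hz with hz | hz
      · exact ⟨hz, hbz⟩
      exfalso
      have hnt := hnb2 rfl hz
      have htp : tp = false := by
        cases tp with
        | true => exact absurd (Or.inl rfl) hnt
        | false => rfl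
      have htq : tq = false := by
        cases tq with
        | true => exact absurd (Or.inr rfl) hnt
        | false => rfl
      subst htp htq
      have h1 := square hI hy (hlk b (by simp)) (hlk z (by simp)) hb hz hbz hzb'
        (fun e => hnb hz hbz e)
      rw [hgz rfl hz] at hlt
      simp only [List.nil_append, plen, Bool.false_eq_true, if_false] at hlt
      linarith
    · by_cases hzf : f z = z
      · refine claim (tq := true) (tp := tp) hC hM hI ⟨hy, hb, hF0, hnf, hch, hlk, ?_, ?_, ?_⟩
          hzb hzb' ?_
        · intro e x hx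
          rw [List.isChain_cons, List.head?_append_of_ne_nil _ hF0] at hch2
          have := hch2.1 x hx
          rw [e] at this
          simpa using this.symm
        · intro _
          refine ⟨Or.inl hzf, ?_⟩
          intro x hx
          rw [List.isChain_cons, List.isChain_append] at hch
          rw [hzf]
          exact hch.2.2.2 x hx z (by simp)
        · intro e
          exact absurd e (by simp)
        · have e : (if tq then f z else z) = z := by
            cases tq <;> simp [hzf]
          rw [e] at hlt
          simp only [if_true, hzf]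
          linarith
      · have hz' : G.Adj z (f z) := hz.resolve_left hzf
        refine claim (tq := tq) (tp := tp) hC hM hI ⟨hy, hb, hF0, hnf, hch, hlk, ?_, ?_, ?_⟩
          hzb hzb' ?_
        · intro e x hx
          rw [List.isChain_cons, List.head?_append_of_ne_nil _ hF0] at hch2
          have := hch2.1 x hx
          rw [e] at this
          simpa using this.symm
        · intro e
          refine ⟨Or.inr hz', ?_⟩
          intro x hx
          rw [List.isChain_cons, List.isChain_append] at hch2
          have := hch2.2.2.2 x hx (if tq then f z else z) (by simp)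
          rw [e] at this
          simpa using this
        · intro _
          exact hz'
        · have e : (if tq then 0 else ang y z (f z)) ≤ gz := by
            cases tq with
            | true => simpa using hgap
            | false => simpa using (hgz rfl hz').ge
          linarith
  · left
    refine ⟨P, q, F', rfl, hq, ?_⟩
    have c1 : List.IsChain G.Adj ((b :: P) ++ q :: (F' ++ [z])) := by simpa using hch
    rw [List.isChain_split] at c1
    have c2 : List.IsChain G.Adj (((if tp then f b else b) :: P) ++ q ::
        (F' ++ [if tq then f z else z])) := by simpa using hch2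
    rw [List.isChain_split] at c2
    have c1' : List.IsChain G.Adj (b :: (P ++ [q])) := by simpa using c1.1
    have c2' : List.IsChain G.Adj ((if tp then f b else b) :: (P ++ [q])) := by
      simpa using c2.1
    by_cases hP0 : P = []
    · subst hP0
      rw [List.nil_append, List.isChain_cons_cons] at c1'
      exact c1'.1
    have e1 : q ≠ b := by
      intro e
      rw [e] at hq
      exact hbb hq
    have e2 : q ≠ f b := by
      intro e
      rw [e, hI.inv] at hq
      exact hbb hq.symm
    refine (claim (tq := true) (tp := tp) hC hM hI ⟨hy, hb, hP0, hP, c1', ?_, ?_, ?_, ?_⟩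
      e1 e2 ?_).2
    · intro x hx
      apply hlk
      simp only [List.mem_cons, List.mem_append, List.not_mem_nil, or_false] at hx ⊢
      tauto
    · intro e x hx
      rw [List.isChain_cons, List.head?_append_of_ne_nil _ hP0] at c2'
      have := c2'.1 x hx
      rw [e] at this
      simpa using this.symm
    · intro _
      refine ⟨Or.inl hq, ?_⟩
      intro x hx
      rw [List.isChain_cons, List.isChain_append] at c1'
      rw [hq]
      exact c1'.2.2.2 x hx q (by simp)
    · intro e
      exact absurd e (by simp)
    · have p1 := T3.plen_append ang y (b :: P) q (F' ++ [z])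
      have p2 := T3.plen_append ang y ((if tp then f b else b) :: P) q
        (F' ++ [if tq then f z else z])
      have n1 := plen_nonneg hA y _ c1.2 (fun x hx => hlk x (by
        simp only [List.mem_cons, List.mem_append, List.not_mem_nil, or_false] at hx ⊢
        tauto))
      have n2 := plen_nonneg hA y _ c2.2 (fun x hx => hlk2 x (by
        simp only [List.mem_cons, List.mem_append, List.not_mem_nil, or_false] at hx ⊢
        tauto))
      simp only [List.cons_append, List.append_assoc] at p1 p2 hlt ⊢
      rw [p1, p2] at hlt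
      simp only [if_true, hq]
      linarith

end Y1

open Y1 in
theorem tY1 (hC : T_CLC.{u}) (hM : T_MOD2.{u}) (hF : MSF.T_FILL.{u}) (hG : MSF.T_GLUE.{u})
    (hK : MSF.T_CONE.{u}) (hN : MSF.T_GEN.{u}) : T_Y1.{u} := by
  intro V G ang f ρ A n p c q R F hS hpq hc2 hfc hpf hGP hY
  have hI := hS.toInv
  have hA := hI.angled
  obtain ⟨h3a, h3b, -⟩ := hS.adj3
  have hz : f q.1 = q.1 ∨ G.Adj q.1 (f q.1) := h3b.1.2.1
  -- the two projections
  have hmap : ∀ (l : V × Bool → V), (∀ x, l (x, false) = x) → l c = c.1 →
      (∀ a b, (HG G f (tB (p :: c :: q :: R))).Adj a b → G.Adj (l a) (l b)) →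
      List.IsChain G.Adj (l p :: (F ++ [l q])) ∧
      ∀ x ∈ l p :: (F ++ [l q]), G.Adj c.1 x := by
    intro l hl0 hlc hla
    have hlF : (F.map fun x => (x, false)).map l = F := by
      rw [List.map_map]
      have : (l ∘ fun x => (x, false)) = id := by
        funext x
        exact hl0 x
      rw [this, List.map_id]
    constructor
    · have h1 : List.IsChain G.Adj
          ((p :: ((F.map fun x => (x, false)) ++ [q])).map l) := by
        rw [List.isChain_map]
        exact hGP.chain.imp (fun a b h => hla a b h)
      simp only [List.map_cons, List.map_append, hlF, List.map_nil] at h1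
      exact h1
    · intro x hx
      have h2 : x ∈ (p :: ((F.map fun x => (x, false)) ++ [q])).map l := by
        simp only [List.map_cons, List.map_append, hlF, List.map_nil]
        exact hx
      obtain ⟨z, hz, rfl⟩ := List.mem_map.1 h2
      have h3 := hla _ _ (hGP.link z hz)
      rwa [hlc] at h3
  have hl0 : ∀ x : V, l2 f (x, false) = x := by
    intro x
    simp [l2]
  have hlc : l2 f c = c.1 := by
    simp [l2, hc2]
  obtain ⟨c1, k1⟩ := hmap Prod.fst (fun _ => rfl) rfl (fun _ _ h => HG.adj_fst h)
  obtain ⟨c2, k2⟩ := hmap (l2 f) hl0 hlc (fun _ _ h => HG.adj_l2 h)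
  -- the inequality
  have hineq : plen ang c.1 (p.1 :: (F ++ [q.1])) +
      plen ang c.1 (l2 f p :: (F ++ [l2 f q])) +
      gap G f ang c.1 p + gap G f ang c.1 q < 2 * Real.pi := by
    have h1 := hY
    unfold YIneq at h1
    rw [plen_angH] at h1
    simp only [List.map_cons, List.map_append, List.map_nil, map_single_fst, map_single_l2,
      hlc] at h1
    linarith
  have gp : gap G f ang c.1 p = if p.2 then 0 else ang c.1 p.1 (f p.1) := by
    unfold gap
    cases h : p.2 <;> simp [hpf]
  have g1 : 0 ≤ gap G f ang c.1 p := by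
    rw [gp]
    split_ifs
    · exact le_rfl
    · have h1 : G.Adj c.1 p.1 := k1 _ (by simp)
      have h2 : G.Adj c.1 (f p.1) := by
        have := (hI.aut.adj c.1 p.1).2 h1
        rwa [hfc] at this
      exact (hA.pos _ _ _ h1 h2 hpf).le
  have g2 : 0 ≤ gap G f ang c.1 q := by
    unfold gap
    split_ifs with h
    · have h1 : G.Adj c.1 q.1 := k1 _ (by simp)
      have h2 : G.Adj c.1 (f q.1) := by
        have := (hI.aut.adj c.1 q.1).2 h1
        rwa [hfc] at this
      exact (hA.pos _ _ _ h1 h2 h.2).le
    · exact le_rfl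
  have hD : D G f p.1 q.1 F := by
    refine dich (tp := p.2) (tq := q.2) (gz := gap G f ang c.1 q) hC hM hI hfc hpf hz c1 k1
      c2 k2 ?_ g2 ?_ ?_ ?_
    · rw [gp] at hineq
      exact hineq
    · intro h1 h2
      unfold gap
      rw [if_pos ⟨h1, h2⟩]
    · intro hq hpq' hqp
      exact hS.no_bridge (x := q) (y := p) (by simp) (by simp) hq hpf hpq'.symm hqp
    · intro hF0 hq
      subst hF0
      have h1 := hGP.chain
      simp only [List.map_nil, List.nil_append, List.isChain_cons_cons] at h1
      have h2 := h1.1
      obtain ⟨b, tp⟩ := p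
      obtain ⟨z, tq⟩ := q
      rintro (h | h)
      · simp only at h
        subst h
        cases tq with
        | true => exact HG.not_tt h2
        | false =>
          rw [HG.adj_tf] at h2
          exact hS.no_bridge (x := (z, false)) (y := (b, true)) (by simp) (by simp) hq hpf
            h2.2.1 h2.2.2
      · simp only at h
        subst h
        cases tp with
        | true => exact HG.not_tt h2
        | false =>
          rw [HG.adj_ft] at h2
          exact hS.no_bridge (x := (b, false)) (y := (z, true)) (by simp) (by simp) hpf hq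
            h2.2.1 h2.2.2
  by_cases hlt : plen ang c.1 (p.1 :: (F ++ [q.1])) < Real.pi
  · exact final hF hG hK hN hS hfc hc2 hpf hGP Prod.fst (fun _ => rfl) (fun _ => Or.inl rfl)
      (fun _ _ h => HG.adj_fst h) hlt hD
  · refine final hF hG hK hN hS hfc hc2 hpf hGP (l2 f) hl0 ?_
      (fun _ _ h => HG.adj_l2 h) ?_ hD
    · intro x
      unfold l2
      cases x.2 <;> simp
    · push Not at hlt
      linarith

end Pool.Agent.MSS
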