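import Pool.Agent.MSS.Basic
import Pool.Agent.MSF.T3

/-! YCL: removing the inner double labels of the path at a fixed corner. -/

set_option autoImplicit false

namespace Pool.Agent.MSS

open List Pool.Agent.MSF

universe u

namespace YCL

/-- the position of an element of a list with a marked element -/
theorem split_cases {α : Type*} : ∀ {l₁ l₂ s s' : List α} {a u : α},
    l₁ ++ a :: l₂ = s ++ u :: s' →
    (∃ m, l₁ = s ++ u :: m ∧ s' = m ++ a :: l₂) ∨ (s = l₁ ∧ u = a ∧ s' = l₂) ∨
      (∃ m, s = l₁ ++ a :: m ∧ l₂ = m ++ u :: s')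
  | [], l₂, [], s', a, u, h => by
    simp only [List.nil_append, List.cons.injEq] at h
    exact Or.inr (Or.inl ⟨rfl, h.1.symm, h.2.symm⟩)
  | [], l₂, (b :: s), s', a, u, h => by
    simp only [List.nil_append, List.cons_append, List.cons.injEq] at h
    exact Or.inr (Or.inr ⟨s, by simp [h.1], h.2⟩)
  | (b :: l₁), l₂, [], s', a, u, h => by
    simp only [List.nil_append, List.cons_append, List.cons.injEq] at h
    exact Or.inl ⟨l₁, by simp [h.1], h.2.symm⟩
  | (b :: l₁), l₂, (c :: s), s', a, u, h => by
    simp only [List.cons_append, List.cons.injEq] at h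
    rcases split_cases h.2 with ⟨m, h1, h2⟩ | ⟨h1, h2, h3⟩ | ⟨m, h1, h2⟩
    · exact Or.inl ⟨m, by simp [h.1, h1], h2⟩
    · exact Or.inr (Or.inl ⟨by simp [h.1, h1], h2, h3⟩)
    · exact Or.inr (Or.inr ⟨m, by simp [h.1, h1], h2⟩)

section

variable {V : Type u} {G : SimpleGraph V} {f : Equiv.Perm V} {ang : V → V → V → ℝ}

theorem nT_append (l₁ l₂ : List (V × Bool)) : nT (l₁ ++ l₂) = nT l₁ + nT l₂ := by
  simp [nT, List.filter_append]

theorem nT_true (z : V) (l : List (V × Bool)) : nT ((z, true) :: l) = nT l + 1 := by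
  simp [nT]

theorem nT_false (z : V) (l : List (V × Bool)) : nT ((z, false) :: l) = nT l := by
  simp [nT]

theorem angH_nonneg (hA : Angled G ang) {B : Set V} {c a b : V × Bool}
    (ha : (HG G f B).Adj c a) (hb : (HG G f B).Adj c b) (hab : (HG G f B).Adj a b) :
    0 ≤ angH f ang c a b := by
  have h1 := hA.pos _ _ _ (HG.adj_fst ha) (HG.adj_fst hb) (HG.adj_fst hab)
  have h2 := hA.pos _ _ _ (HG.adj_l2 ha) (HG.adj_l2 hb) (HG.adj_l2 hab)
  simp only [angH, avA]
  linarith

theorem plen_nonneg (hA : Angled G ang) {B : Set V} {c : V × Bool} :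
    ∀ L : List (V × Bool), List.IsChain (HG G f B).Adj L → (∀ x ∈ L, (HG G f B).Adj c x) →
    0 ≤ plen (angH f ang) c L
  | [], _, _ => by simp [plen]
  | [a], _, _ => by simp [plen]
  | (a :: b :: l), hc, hl => by
    rw [List.isChain_cons_cons] at hc
    have ih := plen_nonneg hA (b :: l) hc.2 (fun x hx => hl x (List.mem_cons_of_mem _ hx))
    have h1 := angH_nonneg hA (hl a (by simp)) (hl b (by simp)) hc.1
    simp only [plen]
    linarith

/-- cutting a loop of a path -/
theorem cut (hA : Angled G ang) {B : Set V} {c u : V × Bool} {X M Y : List (V × Bool)}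
    (hc : List.IsChain (HG G f B).Adj (X ++ u :: (M ++ u :: Y)))
    (hl : ∀ x ∈ X ++ u :: (M ++ u :: Y), (HG G f B).Adj c x) :
    List.IsChain (HG G f B).Adj (X ++ u :: Y) ∧ (∀ x ∈ X ++ u :: Y, (HG G f B).Adj c x) ∧
    plen (angH f ang) c (X ++ u :: Y) ≤ plen (angH f ang) c (X ++ u :: (M ++ u :: Y)) := by
  rw [List.isChain_split] at hc
  obtain ⟨h1, h2⟩ := hc
  have h2' : List.IsChain (HG G f B).Adj ((u :: M) ++ u :: Y) := h2
  rw [List.isChain_split] at h2'
  obtain ⟨h3, h4⟩ := h2'
  refine ⟨?_, ?_, ?_⟩
  · rw [List.isChain_split]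
    exact ⟨h1, h4⟩
  · intro x hx
    apply hl x
    simp only [List.mem_append, List.mem_cons] at hx ⊢
    tauto
  · have e1 := T3.plen_append (angH f ang) c X u (M ++ u :: Y)
    have e2 := T3.plen_append (angH f ang) c (u :: M) u Y
    have e3 := T3.plen_append (angH f ang) c X u Y
    simp only [List.cons_append] at e2
    rw [e1, e2, e3]
    have h5 := plen_nonneg hA (c := c) (u :: M ++ [u]) h3 (by
      intro x hx
      apply hl x
      simp only [List.mem_append, List.mem_cons, List.cons_append] at hx ⊢
      tauto)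
    simp only [List.cons_append] at h5
    linarith

/-- the length of a path with a marked inner member -/
theorem plen_mark (ang : V → V → V → ℝ) (y z a d : V) (X Y : List V) :
    plen ang y (X ++ a :: z :: d :: Y) =
      plen ang y (X ++ [a]) + plen ang y (d :: Y) + ang y a z + ang y z d := by
  rw [T3.plen_append ang y X a (z :: d :: Y)]
  simp only [plen]
  ring

end

end YCL

open YCL in
theorem tYCL (hR : T_RELAB.{u}) (hC : T_CONE.{u}) (hZ : T_ZIP.{u}) : T_YCL.{u} := by
  intro V G ang f ρ A n p c q R F hS hpq hc2 hfc hG hY hnT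
  have hA := hS.angled
  set B := tB (p :: c :: q :: R) with hB
  obtain ⟨y, cb⟩ := c
  simp only at hc2 hfc
  subst hc2
  obtain ⟨k, hk, hkA⟩ := hG.null
  -- the double label
  obtain ⟨z, hz⟩ : ∃ z, (z, true) ∈ F := by
    have : 0 < (F.filter fun x => x.2).length := hnT
    obtain ⟨x, hx⟩ := List.exists_mem_of_length_pos this
    rw [List.mem_filter] at hx
    refine ⟨x.1, ?_⟩
    have : x = (x.1, true) := by
      ext
      · rfl
      · exact hx.2
    rw [← this]
    exact hx.1
  obtain ⟨F1, F2, hF⟩ := List.append_of_mem hz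
  subst hF
  set u : V × Bool := (z, true) with hu
  have hcu : (HG G f B).Adj (y, false) u := hG.link u (by simp)
  have hyz := HG.adj_ft.1 hcu
  have hrot : Null (HG G f B) k (u :: (F2 ++ q :: (R ++ p :: F1))) := by
    have : Null (HG G f B) k ((p :: F1) ++ (u :: (F2 ++ q :: R))) := by simpa using hk
    simpa using this.swap
  have hne : F2 ++ q :: (R ++ p :: F1) ≠ [] := by simp
  have hup : (HG G f B).Adj (y, false) p := hG.link p (by simp)
  have hch := hG.chain
  have hlk := hG.link
  -- relabelling
  have hr1 : ∀ x, (HG G f B).Adj u x → (HG G f B).Adj (z, false) x := by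
    intro x hx
    obtain ⟨x1, x2⟩ := x
    have := HG.snd_false hx rfl
    simp only at this
    subst this
    exact HG.adj_ff.2 (HG.adj_tf.1 hx).2.1.symm
  have hr2 : ∀ x, (HG G f B).Adj u x → (HG G f B).Adj (f z, false) x := by
    intro x hx
    obtain ⟨x1, x2⟩ := x
    have := HG.snd_false hx rfl
    simp only at this
    subst this
    exact HG.adj_ff.2 (HG.adj_tf.1 hx).2.2.symm
  -- the case of a split
  have hsplit : (∃ (s s' : List (V × Bool)) (m₁ m₂ : ℕ),
      F2 ++ q :: (R ++ p :: F1) = s ++ u :: s' ∧ s ≠ [] ∧ s' ≠ [] ∧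
      Null (HG G f B) m₁ (u :: s) ∧ Null (HG G f B) m₂ (u :: s') ∧ m₁ + m₂ ≤ k) →
      Fin G f ρ (p :: (y, false) :: q :: R) ∨ ∃ F', GP G f B A p (y, false) q R F' ∧
        YIneq G ang f p (y, false) q F' ∧ nT F' < nT (F1 ++ u :: F2) := by
    rintro ⟨s, s', m₁, m₂, hs, hs0, hs0', hn1, hn2, hm⟩
    rcases split_cases hs with ⟨m, h1, h2⟩ | ⟨h1, h2, h3⟩ | ⟨m, h1, h2⟩
    · -- in `F2`
      right
      subst h1 h2
      have e : p :: ((F1 ++ u :: (s ++ u :: m)) ++ [q]) =
          (p :: F1) ++ u :: (s ++ u :: (m ++ [q])) := by simp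
      rw [e] at hch hlk
      obtain ⟨g1, g2, g3⟩ := cut hA hch hlk
      have e' : (p :: F1) ++ u :: (m ++ [q]) = p :: ((F1 ++ u :: m) ++ [q]) := by simp
      rw [e'] at g1 g2 g3
      refine ⟨F1 ++ u :: m, ⟨g1, g2, m₂, ?_, ?_⟩, ?_, ?_⟩
      · have : Null (HG G f B) m₂ ((u :: (m ++ q :: R)) ++ (p :: F1)) := by simpa using hn2
        simpa using this.swap
      · simp only [List.length_append, List.length_cons] at hkA ⊢
        omega
      · unfold YIneq at hY ⊢
        rw [e] at hY
        linarith
      · simp only [nT_append, hu, nT_true]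
        omega
    · -- `q = u`
      right
      subst h1 h2 h3
      have e : p :: ((F1 ++ u :: s) ++ [u]) = (p :: F1) ++ u :: (s ++ u :: []) := by simp
      rw [e] at hch hlk
      obtain ⟨g1, g2, g3⟩ := cut hA hch hlk
      have e' : (p :: F1) ++ u :: [] = p :: (F1 ++ [u]) := by simp
      rw [e'] at g1 g2 g3
      refine ⟨F1, ⟨g1, g2, m₂, ?_, ?_⟩, ?_, ?_⟩
      · have : Null (HG G f B) m₂ ((u :: R) ++ (p :: F1)) := by simpa using hn2
        simpa using this.swap
      · simp only [List.length_append, List.length_cons] at hkA ⊢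
        omega
      · unfold YIneq at hY ⊢
        rw [e] at hY
        linarith
      · simp only [nT_append, hu, nT_true]
        omega
    · subst h1
      rcases split_cases h2 with ⟨m', h3, h4⟩ | ⟨h3, h4, h5⟩ | ⟨m', h3, h4⟩
      · -- in `R`
        left
        subst h3 h4
        have e : p :: ((F1 ++ u :: F2) ++ [q]) = (p :: F1) ++ u :: (F2 ++ [q]) := by simp
        rw [e] at hch hlk
        rw [List.isChain_split] at hch
        obtain ⟨g1, g2⟩ := hch
        have hn3 := hC (HG G f B) m₁ (y, false) u q F2 m g2 (fun x hx => hlk x (by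
          simp only [List.mem_append, List.mem_cons] at hx ⊢
          tauto)) hn1
        have hn4 := hC (HG G f B) m₂ (y, false) p u F1 m' (by simpa using g1) (fun x hx => hlk x (by
          simp only [List.mem_append, List.mem_cons, List.not_mem_nil, or_false] at hx ⊢
          tauto)) (by
            have : Null (HG G f B) m₂ ((u :: m') ++ (p :: F1)) := by simpa using hn2
            simpa using this.swap)
        obtain ⟨a1, a2, a3⟩ := hS.adj3
        simp only [List.map_append, List.map_cons, List.append_assoc, List.cons_append] at a3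
        have a3' : List.IsChain (Z1 G f).Adj ((q.1 :: m.map Prod.fst) ++ u.1 ::
            (m'.map Prod.fst ++ [p.1])) := by simpa using a3
        rw [List.isChain_split] at a3'
        obtain ⟨a4, a5⟩ := a3'
        have hfz : G.Adj z (f z) := hS.fl z (by simp [hu])
        have hzy : (Z1 G f).Adj z y :=
          Z1.adj_of_fixed_right hS.aut (Or.inr hfz) hfc hyz.2.1.symm
        have hlen := hS.len
        simp only [List.length_append, List.length_cons] at hlen hkA
        obtain ⟨B1, hB1⟩ := hS.ih _ ((u :: (y, false) :: q :: m).map Prod.fst)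
          (Or.inr ⟨by omega, by simp; omega⟩) (by
            simp only [List.map_cons, CW, List.cons_append, List.isChain_cons_cons]
            refine ⟨hzy, a2, ?_⟩
            simpa using a4) (null_fst hn3)
        obtain ⟨B2, hB2⟩ := hS.ih _ ((p :: (y, false) :: u :: m').map Prod.fst)
          (Or.inr ⟨by omega, by simp; omega⟩) (by
            simp only [List.map_cons, CW, List.cons_append, List.isChain_cons_cons]
            refine ⟨a1, hzy.symm, ?_⟩
            simpa using a5) (null_fst hn4)
        have c1 : Null (RG G f ρ) B1 (ρ z :: ρ y :: ρ q.1 :: m.map fun x => ρ x.1) := by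
          simpa [Function.comp_def, hu] using hB1
        have c2 : Null (RG G f ρ) B2 ([ρ p.1, ρ y] ++ (ρ z :: m'.map fun x => ρ x.1)) := by
          simpa [Function.comp_def, hu] using hB2
        have c3 : Null (RG G f ρ) B2 (ρ z :: ((m'.map fun x => ρ x.1) ++ [ρ p.1, ρ y])) := by
          simpa using c2.swap
        have c4 := Null.split (by simp) (by simp) c1 c3
        have c5 : Null (RG G f ρ) (B1 + B2) ([ρ z] ++ (ρ y :: ρ q.1 :: ((m.map fun x => ρ x.1) ++
            ρ z :: ((m'.map fun x => ρ x.1) ++ [ρ p.1, ρ y])))) := by simpa using c4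
        have c6 : Null (RG G f ρ) (B1 + B2) ((ρ q.1 :: ((m.map fun x => ρ x.1) ++
            ρ z :: ((m'.map fun x => ρ x.1) ++ [ρ p.1]))) ++ ρ y :: ρ z :: ρ y :: []) := by
          have : Null (RG G f ρ) (B1 + B2) ([ρ z, ρ y] ++ (ρ q.1 :: ((m.map fun x => ρ x.1) ++
            ρ z :: ((m'.map fun x => ρ x.1) ++ [ρ p.1, ρ y])))) := by simpa using c5
          simpa using this.swap
        have c7 := hZ (RG G f ρ) _ _ _ _ _ (by simp) c6
        refine ⟨B1 + B2, ?_⟩
        have c8 : Null (RG G f ρ) (B1 + B2) ((ρ q.1 :: ((m.map fun x => ρ x.1) ++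
            ρ z :: (m'.map fun x => ρ x.1))) ++ [ρ p.1, ρ y]) := by simpa using c7
        simpa [hu] using c8.swap
      · -- `p = u`
        right
        subst h3 h4 h5
        have e : u :: ((s' ++ u :: F2) ++ [q]) = [] ++ u :: (s' ++ u :: (F2 ++ [q])) := by simp
        rw [e] at hch hlk
        obtain ⟨g1, g2, g3⟩ := cut hA hch hlk
        have e' : [] ++ u :: (F2 ++ [q]) = u :: (F2 ++ [q]) := by simp
        rw [e'] at g1 g2 g3
        refine ⟨F2, ⟨g1, g2, m₁, hn1, ?_⟩, ?_, ?_⟩
        · simp only [List.length_append, List.length_cons] at hkA ⊢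
          omega
        · unfold YIneq at hY ⊢
          rw [e] at hY
          linarith
        · simp only [nT_append, hu, nT_true]
          omega
      · -- in `F1`
        right
        subst h3 h4
        have e : p :: (((m' ++ u :: s') ++ u :: F2) ++ [q]) =
            (p :: m') ++ u :: (s' ++ u :: (F2 ++ [q])) := by simp
        rw [e] at hch hlk
        obtain ⟨g1, g2, g3⟩ := cut hA hch hlk
        have e' : (p :: m') ++ u :: (F2 ++ [q]) = p :: ((m' ++ u :: F2) ++ [q]) := by simp
        rw [e'] at g1 g2 g3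
        refine ⟨m' ++ u :: F2, ⟨g1, g2, m₁, ?_, ?_⟩, ?_, ?_⟩
        · have : Null (HG G f B) m₁ ((u :: (F2 ++ q :: R)) ++ (p :: m')) := by simpa using hn1
          simpa using this.swap
        · simp only [List.length_append, List.length_cons] at hkA ⊢
          omega
        · unfold YIneq at hY ⊢
          rw [e] at hY
          linarith
        · simp only [nT_append, hu, nT_true]
          omega
  rcases hR (HG G f B) k u (z, false) _ hr1 hne hrot with h1 | h1
  swap
  · exact hsplit h1
  rcases hR (HG G f B) k u (f z, false) _ hr2 hne hrot with h2 | h2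
  swap
  · exact hsplit h2
  -- both relabellings are possible
  right
  -- the neighbours of `u` on the path
  obtain ⟨X, a, hXa⟩ : ∃ X a, p :: F1 = X ++ [a] := ⟨_, _, (List.dropLast_append_getLast
    (by simp : p :: F1 ≠ [])).symm⟩
  obtain ⟨d, Y, hdY⟩ : ∃ d Y, F2 ++ [q] = d :: Y := List.exists_cons_of_ne_nil (by simp)
  have eL : ∀ x : V × Bool, p :: ((F1 ++ x :: F2) ++ [q]) = X ++ a :: x :: d :: Y := by
    intro x
    have : p :: ((F1 ++ x :: F2) ++ [q]) = (p :: F1) ++ x :: (F2 ++ [q]) := by simp
    rw [this, hXa, hdY]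
    simp
  have hch' := hch
  rw [eL] at hch'
  rw [List.isChain_append_cons_cons, List.isChain_cons_cons] at hch'
  obtain ⟨k1, k2, k3, k4⟩ := hch'
  have ha2 : a.2 = false := HG.snd_false k2.symm rfl
  have hd2 : d.2 = false := HG.snd_false k3 rfl
  -- the general form of the new path
  have hnew : ∀ z' : V, (∀ x, (HG G f B).Adj u x → (HG G f B).Adj (z', false) x) →
      (HG G f B).Adj (y, false) (z', false) →
      Null (HG G f B) k ((z', false) :: (F2 ++ q :: (R ++ p :: F1))) →
      GP G f B A p (y, false) q R (F1 ++ (z', false) :: F2) := by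
    intro z' g1 g2 g3
    refine ⟨?_, ?_, k, ?_, ?_⟩
    · rw [eL, List.isChain_append_cons_cons, List.isChain_cons_cons]
      exact ⟨k1, (g1 a k2.symm).symm, g1 d k3, k4⟩
    · intro x hx
      simp only [List.cons_append, List.append_assoc, List.mem_cons, List.mem_append] at hx
      rcases hx with hx | hx | hx | hx
      · exact hlk x (by simp [hx])
      · exact hlk x (by simp [hx])
      · rw [hx]; exact g2
      · exact hlk x (by
          simp only [List.cons_append, List.append_assoc, List.mem_cons, List.mem_append]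
          tauto)
    · have : Null (HG G f B) k (((z', false) :: (F2 ++ q :: R)) ++ (p :: F1)) := by
        simpa using g3
      simpa using this.swap
    · simp only [List.length_append, List.length_cons] at hkA ⊢
      exact hkA
  have hG1 := hnew z hr1 (HG.adj_ff.2 hyz.2.1) h1
  have hG2 := hnew (f z) hr2 (HG.adj_ff.2 hyz.2.2) h2
  have hlt : ∀ z' : V, nT (F1 ++ (z', false) :: F2) < nT (F1 ++ u :: F2) := by
    intro z'
    simp only [nT_append, hu, nT_true, nT_false]
    omega
  -- the lengths
  have ela : l2 f a = a.1 := by simp [l2, ha2]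
  have eld : l2 f d = d.1 := by simp [l2, hd2]
  have hlen : ∀ x : V × Bool, 2 * plen (angH f ang) (y, false) (p :: ((F1 ++ x :: F2) ++ [q])) =
      (plen ang y (X.map Prod.fst ++ [a.1]) + plen ang y (d.1 :: Y.map Prod.fst) +
        ang y a.1 x.1 + ang y x.1 d.1) +
      (plen ang y (X.map (l2 f) ++ [a.1]) + plen ang y (d.1 :: Y.map (l2 f)) +
        ang y a.1 (l2 f x) + ang y (l2 f x) d.1) := by
    intro x
    rw [eL, plen_angH]
    simp only [List.map_append, List.map_cons, ela, eld]
    rw [plen_mark, plen_mark]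
    simp [l2]
    ring
  have l0 := hlen u
  have l1 := hlen (z, false)
  have l2' := hlen (f z, false)
  simp only [hu, l2, if_true, Bool.false_eq_true, if_false] at l0 l1 l2'
  unfold YIneq at hY
  simp only [hu] at hY
  by_cases hcase : 2 * plen (angH f ang) (y, false) (p :: ((F1 ++ (z, false) :: F2) ++ [q])) ≤
      2 * plen (angH f ang) (y, false) (p :: ((F1 ++ (z, true) :: F2) ++ [q]))
  · refine ⟨_, hG1, ?_, hlt z⟩
    unfold YIneq
    linarith
  · refine ⟨_, hG2, ?_, hlt (f z)⟩
    unfold YIneq
    push Not at hcase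
    linarith

end Pool.Agent.MSS
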