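import Pool.Agent.MSS.ROT
import Pool.Agent.MSF.T3

/-!
# YCOR: assembly of the case (Y)
-/

set_option autoImplicit false

namespace Pool.Agent.MSS

open List Pool.Agent.MSF

universe u

namespace YCOR

variable {V : Type u} {G : SimpleGraph V} {f : Equiv.Perm V} {ang : V → V → V → ℝ}
  {ρ : V → V}

theorem all_single {F : List (V × Bool)} (h : nT F = 0) :
    F = (F.map Prod.fst).map fun x => (x, false) := by
  have h1 : ∀ x ∈ F, x.2 = false := by
    intro x hx
    by_contra hc
    have hc' : x.2 = true := by simpa using hc
    have : x ∈ F.filter fun x => x.2 := by simp [hx, hc']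
    rw [nT, List.length_eq_zero_iff] at h
    rw [h] at this
    simp at this
  rw [List.map_map]
  conv_lhs => rw [← List.map_id F]
  apply List.map_congr_left
  intro x hx
  have := h1 x hx
  obtain ⟨v, b⟩ := x
  simp only at this
  subst this
  rfl

theorem angH_symm (hA : Angled G ang) (v a b : V × Bool) :
    angH f ang v a b = angH f ang v b a := by
  simp only [angH, avA]
  rw [hA.symm v.1 a.1 b.1, hA.symm (l2 f v) (l2 f a) (l2 f b)]

theorem reverse_rot (p c q : V × Bool) (R : List (V × Bool)) :
    (p :: c :: q :: R).reverse ~r (q :: c :: p :: R.reverse) := by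
  have h := List.isRotated_append (l := R.reverse) (l' := [q, c, p])
  have e : (p :: c :: q :: R).reverse = R.reverse ++ [q, c, p] := by simp
  rw [e]
  simpa using h

theorem gp_reverse {B : Set V} {A : ℕ} {p c q : V × Bool} {R F : List (V × Bool)}
    (h : GP G f B A p c q R F) : GP G f B A q c p R.reverse F.reverse := by
  refine ⟨?_, ?_, ?_⟩
  · have h1 : List.IsChain (HG G f B).Adj (p :: (F ++ [q])).reverse := by
      rw [List.isChain_reverse]
      exact h.chain.imp fun _ _ hab => hab.symm
    simpa using h1
  · intro z hz
    apply h.link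
    simp only [List.mem_cons, List.mem_append, List.mem_reverse, List.not_mem_nil,
      or_false] at hz ⊢
    tauto
  · obtain ⟨k, hk, hk2⟩ := h.null
    refine ⟨k, ?_, by simpa using hk2⟩
    have h1 := hk.reverse
    have e : (p :: (F ++ q :: R)).reverse = R.reverse ++ (q :: (F.reverse ++ [p])) := by simp
    rw [e] at h1
    have h2 := h1.swap
    simpa using h2

theorem yineq_reverse (hA : Angled G ang) {p c q : V × Bool} {F : List (V × Bool)}
    (h : YIneq G ang f p c q F) : YIneq G ang f q c p F.reverse := by
  unfold YIneq at h ⊢
  have h1 := T3.plen_reverse (ang := angH f ang) (angH_symm hA) c (p :: (F ++ [q]))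
  have e : (p :: (F ++ [q])).reverse = q :: (F.reverse ++ [p]) := by simp
  rw [e] at h1
  rw [h1]
  linarith

end YCOR

open YCOR in
theorem tYCOR (h1 : T_YCL.{u}) (h2 : T_Y0.{u}) (h3 : T_Y1.{u}) (h4 : T_ROT.{u}) :
    T_YCOR.{u} := by
  intro V G ang f ρ A n p c q R F hS hpq hc2 hc hG hY
  have key : ∀ (N : ℕ) (F : List (V × Bool)), nT F = N →
      GP G f (tB (p :: c :: q :: R)) A p c q R F → YIneq G ang f p c q F →
      Fin G f ρ (p :: c :: q :: R) := by
    intro N
    induction N using Nat.strong_induction_on with
    | _ N ih =>
      intro F hF hG hY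
      rcases Nat.eq_zero_or_pos N with hN | hN
      · subst hN
        have hF' := all_single hF
        rw [hF'] at hG hY
        have hp : f p.1 = p.1 ∨ G.Adj p.1 (f p.1) := hS.adj3.1.1.1
        have hq : f q.1 = q.1 ∨ G.Adj q.1 (f q.1) := hS.adj3.2.1.1.2.1
        rcases hp with hp | hp
        · rcases hq with hq | hq
          · exact h2 G ang f ρ A n p c q R _ hS hpq hc2 hc hp hq hG hY
          · obtain ⟨hS', hfin⟩ := h4 G ang f ρ A n (p :: c :: q :: R)
              (q :: c :: p :: R.reverse) hS (Or.inr (reverse_rot p c q R))
            apply hfin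
            have hB : tB (q :: c :: p :: R.reverse) = tB (p :: c :: q :: R) := by
              apply ROT.tB_perm
              have h5 := (reverse_rot p c q R).perm
              exact (h5.symm.trans (List.reverse_perm _))
            refine h3 G ang f ρ A n q c p R.reverse (F.map Prod.fst).reverse hS' hpq.symm hc2
              hc hq ?_ ?_
            · rw [hB, List.map_reverse]
              exact gp_reverse hG
            · rw [List.map_reverse]
              exact yineq_reverse hS.angled hY
        · exact h3 G ang f ρ A n p c q R _ hS hpq hc2 hc hp hG hY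
      · rcases h1 G ang f ρ A n p c q R F hS hpq hc2 hc hG hY (by omega) with h5 | h5
        · exact h5
        · obtain ⟨F', h6, h7, h8⟩ := h5
          exact ih (nT F') (by omega) F' rfl h6 h7
  exact key _ F rfl hG hY

end Pool.Agent.MSS
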