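import Pool.Agent.MSO.ASM
import Pool.Agent.MSS.OGR
import Pool.Agent.MSS.OGA
import Pool.Agent.MSS.ITER
import Pool.Agent.MSS.ALLP
import Pool.Agent.MSS.ALT
import Pool.Agent.MSS.CONN
import Pool.Agent.MSS.BRI
import Pool.Agent.MSS.SUBDR
import Pool.Agent.MSS.SMITH
import Pool.Agent.MSS.BRN
import Pool.Agent.MSS.FIX3
import Pool.Agent.MSS.ODD
import Pool.Agent.MSS.RELAB
import Pool.Agent.MSS.FILLR
import Pool.Agent.MSS.PD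
import Pool.Agent.MSS.CLC
import Pool.Agent.MSS.DSH
import Pool.Agent.MSS.SEL
import Pool.Agent.MSS.CF
import Pool.Agent.MSS.Y0
import Pool.Agent.MSS.ROT
import Pool.Agent.MSS.YCOR
import Pool.Agent.MSS.MOD2
import Pool.Agent.MSS.BCOR
import Pool.Agent.MSS.NCOR
import Pool.Agent.MSS.YCL
import Pool.Agent.MSS.TWOV
import Pool.Agent.MSS.TWO
import Pool.Agent.MSS.Y1
import Pool.Agent.MSS.ISOG
import Pool.Agent.MSS.STEP
import Pool.Agent.MSS.SOLN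
import Pool.Agent.MSS.SMAIN

/-!
# Assembly (MP_d6353f_al, MSS)
-/

namespace Pool.Agent.MSS.Asm

open Pool.Agent.MSF Pool.Agent.MSS

universe u

theorem oga : T_OGA.{u} := tOGA tOGR

theorem allp : T_ALLP.{u} :=
  tALLP Pool.Agent.MSO.Asm.uniq Pool.Agent.MSO.tSGR Pool.Agent.MSO.tEXA Pool.Agent.MSO.tEXB
    Pool.Agent.MSO.tEXC Pool.Agent.MSO.tEXD (Pool.Agent.MSO.tEUL Pool.Agent.MSN.Grp.tSGN)

theorem alt : T_ALT.{u} :=
  tALT (Pool.Agent.MSO.tLEF Pool.Agent.MSN.Grp.tSGN Pool.Agent.MSO.tRNK Pool.Agent.MSN.Grp.tTRC)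

theorem con : Pool.Agent.MSO.T_CON.{u} := Pool.Agent.MSO.tCON Pool.Agent.MSN.Grp.tSGN

theorem subdr : T_SUBDR.{u} :=
  tSUBDR Pool.Agent.MSN.Grp.tSGN Pool.Agent.MSO.tFIL Pool.Agent.MSO.tTWO con

theorem subd : Pool.Agent.MSO.T_SUBD.{u} :=
  Pool.Agent.MSO.tSUBD Pool.Agent.MSN.Grp.tSGN Pool.Agent.MSO.tFIL Pool.Agent.MSO.tTWO con

theorem smi : Pool.Agent.MSO.T_SMI.{u} :=
  Pool.Agent.MSO.tSMI Pool.Agent.MSN.Grp.tSGN Pool.Agent.MSO.tFRE Pool.Agent.MSO.tSGR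

theorem smith : T_SMITH.{u} := tSMITH subdr subd smi

theorem cone : Pool.Agent.MSF.T_CONE.{u} := tCONE Pool.Agent.MSN.Asm.zip

theorem fix3 : T_FIX3.{u} := tFIX3 Pool.Agent.MSN.Asm.ds cone Pool.Agent.MSN.Asm.zip

theorem odd : T_ODD.{u} := tODD fix3

theorem dsh : T_DSH.{u} := tDSH tPD (tA3 tPEEL) tRED tFILL Pool.Agent.MSN.Asm.glue

theorem cf : T_CF.{u} := tCF dsh tSEL Pool.Agent.MSN.Asm.zip

theorem y0 : T_Y0.{u} := tY0 cone Pool.Agent.MSN.Asm.zip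

theorem relab : T_RELAB.{u} := tRELAB tPEEL

theorem ycl : T_YCL.{u} := tYCL relab cone Pool.Agent.MSN.Asm.zip

theorem bcor : T_BCOR.{u} := tBCOR cone Pool.Agent.MSN.Asm.zip

theorem ncor : T_NCOR.{u} := tNCOR cone Pool.Agent.MSN.Asm.zip

theorem wpair : Pool.Agent.MSO.T_WPAIR.{u} := by
  have wpeel : Pool.Agent.MSO.T_WPEEL.{u} := Pool.Agent.MSO.tWPEEL Pool.Agent.MSO.tWBAS
  have wzip : Pool.Agent.MSO.T_WZIP.{u} := Pool.Agent.MSO.tWZIP Pool.Agent.MSO.tWBAS wpeel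
  have wglue : Pool.Agent.MSO.T_WGLUE.{u} := Pool.Agent.MSO.tWGLUE Pool.Agent.MSO.tWBAS wzip
  have wgen : Pool.Agent.MSO.T_WGEN.{u} := Pool.Agent.MSO.tWGEN Pool.Agent.MSO.tWBAS wzip
  have wfill : Pool.Agent.MSO.T_WFILL.{u} := Pool.Agent.MSO.tWFILL Pool.Agent.MSO.tWBAS
  have wexp : Pool.Agent.MSO.T_WEXP.{u} := Pool.Agent.MSO.tWEXP Pool.Agent.MSO.tWBAS tDISC1
  have wa3 : Pool.Agent.MSO.T_WA3.{u} := Pool.Agent.MSO.tWA3 Pool.Agent.MSO.tWBAS wpeel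
  have wred : Pool.Agent.MSO.T_WRED.{u} := Pool.Agent.MSO.tWRED Pool.Agent.MSO.tWBAS
  have wangz : Pool.Agent.MSO.T_WANGZ.{u} :=
    Pool.Agent.MSO.tWANGZ Pool.Agent.MSO.tWBAS tDISC1 Pool.Agent.MSO.tWFOR wexp wfill wglue
  have wdex : Pool.Agent.MSO.T_WDEX.{u} :=
    Pool.Agent.MSO.tWDEX Pool.Agent.MSO.tWBAS wa3 wred wangz tDISC1 Pool.Agent.MSO.tWFOR
  have wpd : Pool.Agent.MSO.T_WPD.{u} :=
    Pool.Agent.MSO.tWPD Pool.Agent.MSO.tWBAS wglue wfill wexp Pool.Agent.MSO.tWFOR wdex tDISC1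
      tDISC2
  have h : Pool.Agent.MSO.T_WPAIR.{u} :=
    Pool.Agent.MSO.tWPAIR Pool.Agent.MSO.tWBAS wpeel wgen wpd
  intro V A i
  exact @h V A i

theorem mod2 : T_MOD2.{u} := tMOD2 tCLC tFILLR Pool.Agent.MSO.tWBAS wpair tRES

theorem y1 : T_Y1.{u} :=
  tY1 tCLC mod2 tFILL Pool.Agent.MSN.Asm.glue cone Pool.Agent.MSN.Asm.gen

theorem ycor : T_YCOR.{u} := tYCOR ycl y0 y1 tROT

theorem two : T_TWO.{u} := tTWO (tTWOV cf bcor ncor ycor tROT)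

theorem step : T_STEP.{u} :=
  tSTEP tOGR oga allp smith alt tCONN tBRI tBRN odd two (tH2N Pool.Agent.MSN.Asm.zip) tN2H

theorem soln : T_SOLN.{u} := tSOLN step tOGR oga tITER tISOG

theorem smain : T_SMAIN.{u} :=
  tSMAIN soln alt Pool.Agent.MSO.Asm.keyp Pool.Agent.MSN.Fin.finite_reduction tLARGE tTRIG

end Pool.Agent.MSS.Asm
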