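import Pool.Agent.MSS.Targets

/-!
# Basic facts for the involution part (MSS)
-/

set_option autoImplicit false

namespace Pool.Agent.MSS

open List Pool.Agent.MSF

universe u

section

variable {V : Type u} {G : SimpleGraph V} {f : Equiv.Perm V} {ang : V → V → V → ℝ}
  {ρ : V → V}

theorem HG.adj_fst {B : Set V} {x y : V × Bool} (h : (HG G f B).Adj x y) :
    G.Adj x.1 y.1 := by
  rcases h with h | h | h
  · exact h.2.2
  · exact h.2.2.2.1
  · exact h.2.2.2.1.symm

theorem HG.adj_l2 {B : Set V} {x y : V × Bool} (h : (HG G f B).Adj x y) :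
    G.Adj (l2 f x) (l2 f y) := by
  rcases h with ⟨h1, h2, h3⟩ | ⟨h1, h2, -, h3, h4⟩ | ⟨h1, h2, -, h3, h4⟩
  · simpa [l2, h1, h2] using h3
  · simpa [l2, h1, h2] using h4
  · simpa [l2, h1, h2] using h4.symm

theorem HG.adj_ff {B : Set V} {u v : V} :
    (HG G f B).Adj (u, false) (v, false) ↔ G.Adj u v := by
  simp [HG]

theorem HG.adj_ft {B : Set V} {u v : V} :
    (HG G f B).Adj (u, false) (v, true) ↔ v ∈ B ∧ G.Adj u v ∧ G.Adj u (f v) := by
  simp [HG]

theorem HG.adj_tf {B : Set V} {u v : V} :
    (HG G f B).Adj (u, true) (v, false) ↔ u ∈ B ∧ G.Adj v u ∧ G.Adj v (f u) := by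
  simp [HG]

theorem HG.not_tt {B : Set V} {u v : V} : ¬ (HG G f B).Adj (u, true) (v, true) := by
  simp [HG]

/-- A neighbour of a double label is a single label. -/
theorem HG.snd_false {B : Set V} {x y : V × Bool} (h : (HG G f B).Adj x y) (hx : x.2 = true) :
    y.2 = false := by
  rcases h with h | h | h
  · rw [h.1] at hx; exact absurd hx (by simp)
  · rw [h.1] at hx; exact absurd hx (by simp)
  · exact h.2.1

theorem HG.mono {B B' : Set V} (hB : B ⊆ B') {x y : V × Bool} (h : (HG G f B).Adj x y) :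
    (HG G f B').Adj x y := by
  rcases h with h | h | h
  · exact Or.inl h
  · exact Or.inr (Or.inl ⟨h.1, h.2.1, hB h.2.2.1, h.2.2.2⟩)
  · exact Or.inr (Or.inr ⟨h.1, h.2.1, hB h.2.2.1, h.2.2.2⟩)

theorem null_mono {B B' : Set V} (hB : B ⊆ B') {m : ℕ} {w : List (V × Bool)}
    (h : Null (HG G f B) m w) : Null (HG G f B') m w := by
  have := h.map (G' := HG G f B') id (fun a b hab => HG.mono hB hab)
  simpa using this

theorem null_fst {B : Set V} {m : ℕ} {w : List (V × Bool)} (h : Null (HG G f B) m w) :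
    Null G m (w.map Prod.fst) := h.map _ (fun _ _ hab => HG.adj_fst hab)

theorem null_l2 {B : Set V} {m : ℕ} {w : List (V × Bool)} (h : Null (HG G f B) m w) :
    Null G m (w.map (l2 f)) := h.map _ (fun _ _ hab => HG.adj_l2 hab)

/-- A walk of `V` as a walk of single labels. -/
theorem null_lift {B : Set V} {m : ℕ} {w : List V} (h : Null G m w) :
    Null (HG G f B) m (w.map fun x => (x, false)) :=
  h.map _ (fun _ _ hab => HG.adj_ff.2 hab)

theorem tB_cons_false {x : V} {w : List (V × Bool)} : tB ((x, false) :: w) = tB w := by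
  ext b; simp [tB]

theorem plen_angH (c : V × Bool) : ∀ L : List (V × Bool),
    plen (angH f ang) c L =
      (plen ang c.1 (L.map Prod.fst) + plen ang (l2 f c) (L.map (l2 f))) / 2
  | [] => by simp [plen]
  | [_] => by simp [plen]
  | (a :: b :: L) => by
    have ih := plen_angH c (b :: L)
    simp only [List.map_cons, plen] at ih ⊢
    rw [ih]
    simp only [angH, avA]
    ring

theorem map_single_fst (L : List V) : (L.map fun x => (x, false)).map Prod.fst = L := by
  simp [Function.comp_def]

theorem map_single_l2 (L : List V) : (L.map fun x => (x, false)).map (l2 f) = L := by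
  simp [Function.comp_def, l2]

/-- The averaged length of a path of single labels in the link of a single label. -/
theorem plen_angH_single (y : V) (L : List V) :
    plen (angH f ang) (y, false) (L.map fun x => (x, false)) = plen ang y L := by
  rw [plen_angH, map_single_fst, map_single_l2]
  simp [l2]

theorem SG.adj_of_fixed_right (hf : IsAut G ang f) {u v : V}
    (hu : f u = u ∨ G.Adj u (f u)) (hv : f v = v) (h : G.Adj u v) : (SG G f).Adj u v := by
  refine ⟨hu, Or.inl hv, h, by rw [hv]; exact h, ?_⟩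
  have := (hf.adj u v).2 h
  rwa [hv] at this

theorem SG.adj_of_fixed_left (hf : IsAut G ang f) {u v : V}
    (hu : f u = u) (hv : f v = v ∨ G.Adj v (f v)) (h : G.Adj u v) : (SG G f).Adj u v :=
  (SG.adj_of_fixed_right hf hv hu h.symm).symm

theorem Z1.adj_of_fixed_right (hf : IsAut G ang f) {u v : V}
    (hu : f u = u ∨ G.Adj u (f u)) (hv : f v = v) (h : G.Adj u v) : (Z1 G f).Adj u v :=
  ⟨SG.adj_of_fixed_right hf hu hv h, Or.inr hv⟩

theorem Z1.adj_of_fixed_left (hf : IsAut G ang f) {u v : V}
    (hu : f u = u) (hv : f v = v ∨ G.Adj v (f v)) (h : G.Adj u v) : (Z1 G f).Adj u v :=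
  ⟨SG.adj_of_fixed_left hf hu hv h, Or.inl hu⟩

/-- Adjacency of `SG` does not depend on the elements of the orbits (left). -/
theorem SG.adj_f_left (hf : IsAut G ang f) (hi : ∀ v, f (f v) = v) {u v : V}
    (h : (SG G f).Adj u v) : (SG G f).Adj (f u) v := by
  obtain ⟨h1, h2, h3, h4, h5⟩ := h
  refine ⟨?_, h2, h5, ?_, ?_⟩
  · rw [hi]
    rcases h1 with h1 | h1
    · left; exact h1.symm
    · right; exact h1.symm
  · exact (hf.adj u v).2 h3
  · rw [hi]; exact h3

theorem SG.adj_f_right (hf : IsAut G ang f) (hi : ∀ v, f (f v) = v) {u v : V}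
    (h : (SG G f).Adj u v) : (SG G f).Adj u (f v) :=
  (SG.adj_f_left hf hi h.symm).symm

theorem Inv.rr (hI : Inv G ang f ρ) (v : V) : ρ (ρ v) = ρ v := by
  rcases hI.rho v with h | h
  · rw [h, h]
  · rw [h, hI.rhof, h]

/-- `ρ` maps edges of `SG` to edges of `RG`. -/
theorem Inv.rg (hI : Inv G ang f ρ) {u v : V} (h : (SG G f).Adj u v) :
    (RG G f ρ).Adj (ρ u) (ρ v) := by
  refine ⟨?_, hI.rr u, hI.rr v⟩
  have h1 : (SG G f).Adj (ρ u) v := by
    rcases hI.rho u with e | e
    · rw [e]; exact h
    · rw [e]; exact SG.adj_f_left hI.aut hI.inv h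
  rcases hI.rho v with e | e
  · rw [e]; exact h1
  · rw [e]; exact SG.adj_f_right hI.aut hI.inv h1

theorem Inv.rg' (hI : Inv G ang f ρ) {u v : V} (h : (Z1 G f).Adj u v) :
    (RG G f ρ).Adj (ρ u) (ρ v) := hI.rg h.1

/-- Two elements with the same image under `ρ` are in the same orbit. -/
theorem Inv.same (hI : Inv G ang f ρ) {u v : V} (h : ρ u = ρ v) : u = v ∨ u = f v := by
  rcases hI.rho u with e | e <;> rcases hI.rho v with e' | e' <;> rw [e, e'] at h
  · exact Or.inl h
  · exact Or.inr h
  · right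
    rw [← h, hI.inv]
  · exact Or.inl (f.injective h)

/-- Adjacency of `Z1` only depends on `ρ`. -/
theorem Inv.z1 (hI : Inv G ang f ρ) {u v u' v' : V} (h : (Z1 G f).Adj u v) (hu : ρ u' = ρ u)
    (hv : ρ v' = ρ v) : (Z1 G f).Adj u' v' := by
  have key : ∀ {a b : V}, (Z1 G f).Adj a b → (Z1 G f).Adj (f a) b := by
    intro a b hab
    refine ⟨SG.adj_f_left hI.aut hI.inv hab.1, ?_⟩
    rcases hab.2 with h2 | h2
    · left; rw [h2, h2]
    · exact Or.inr h2
  have h1 : (Z1 G f).Adj u' v := by
    rcases hI.same hu with rfl | rfl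
    · exact h
    · exact key h
  rcases hI.same hv with rfl | rfl
  · exact h1
  · exact (key h1.symm).symm

theorem chain_z1 (hI : Inv G ang f ρ) : ∀ w w' : List V, w'.map ρ = w.map ρ →
    List.IsChain (Z1 G f).Adj w → List.IsChain (Z1 G f).Adj w'
  | [], w', h, _ => by
    have : w' = [] := by simpa using h
    subst this; simp
  | [a], [], h, _ => by simp
  | [a], [a'], h, _ => by simp
  | [a], (a' :: b' :: w'), h, _ => by simp at h
  | (a :: b :: w), [], h, hc => by simp
  | (a :: b :: w), [a'], h, hc => by simp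
  | (a :: b :: w), (a' :: b' :: w'), h, hc => by
    simp only [List.map_cons, List.cons.injEq] at h
    rw [List.isChain_cons_cons] at hc ⊢
    refine ⟨hI.z1 hc.1 h.1 h.2.1, chain_z1 hI (b :: w) (b' :: w') ?_ hc.2⟩
    simp [h.2.1, h.2.2]

/-- A list with the same image under `ρ` as a closed walk of `Z1` is a closed walk of `Z1`. -/
theorem Inv.cw (hI : Inv G ang f ρ) {w w' : List V} (h : w'.map ρ = w.map ρ)
    (hw : CW (Z1 G f) w) : CW (Z1 G f) w' := by
  match w, w', h, hw with
  | [], w', h, hw => exact absurd hw id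
  | [a], [], h, _ => simp at h
  | [a], [a'], _, _ => trivial
  | [a], (a' :: b' :: w'), h, _ => simp at h
  | (a :: b :: w), [], h, _ => simp at h
  | (a :: b :: w), [a'], h, _ => simp at h
  | (a :: b :: w), (a' :: b' :: w'), h, hw =>
    simp only [CW] at hw ⊢
    refine chain_z1 hI _ _ ?_ hw
    simp only [List.map_cons, List.cons.injEq] at h
    simp [h.1, h.2.1, h.2.2]

theorem Sit.toInv' {A n : ℕ} {w : List (V × Bool)} (h : Sit G ang f ρ A n w) :
    Inv G ang f ρ := h.toInv

/-- The first three members of a walk. -/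
theorem Sit.adj3 {A n : ℕ} {p c q : V × Bool} {R : List (V × Bool)}
    (h : Sit G ang f ρ A n (p :: c :: q :: R)) :
    (Z1 G f).Adj p.1 c.1 ∧ (Z1 G f).Adj c.1 q.1 ∧
      List.IsChain (Z1 G f).Adj (q.1 :: (R.map Prod.fst ++ [p.1])) := by
  have := h.cw
  simp only [List.map_cons, CW, List.cons_append, List.isChain_cons_cons] at this
  exact this

/-- Fixed members of a walk have single labels. -/
theorem Sit.single {A n : ℕ} {w : List (V × Bool)} (h : Sit G ang f ρ A n w) {x : V × Bool}
    (hx : x ∈ w) (hf : f x.1 = x.1) : x.2 = false := by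
  obtain ⟨v, b⟩ := x
  cases b with
  | false => rfl
  | true =>
    have := h.fl v hx
    simp only at hf
    rw [hf] at this
    exact absurd this (G.loopless.irrefl _)

/-- The neighbours of a flipped member are fixed and have single labels. -/
theorem Sit.nbrs {A n : ℕ} {p c q : V × Bool} {R : List (V × Bool)}
    (h : Sit G ang f ρ A n (p :: c :: q :: R)) (hc : G.Adj c.1 (f c.1)) :
    f p.1 = p.1 ∧ f q.1 = q.1 ∧ p.2 = false ∧ q.2 = false := by
  obtain ⟨h1, h2, -⟩ := h.adj3
  have hc' : f c.1 ≠ c.1 := fun e => by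
    rw [e] at hc
    exact G.loopless.irrefl _ hc
  have hp : f p.1 = p.1 := by
    rcases h1.2 with h3 | h3
    · exact h3
    · exact absurd h3 hc'
  have hq : f q.1 = q.1 := by
    rcases h2.2 with h3 | h3
    · exact absurd h3 hc'
    · exact h3
  exact ⟨hp, hq, h.single (by simp) hp, h.single (by simp) hq⟩

/-- Members of a walk are joined in `Z1`. -/
theorem Sit.reach {A n : ℕ} {w : List (V × Bool)} (h : Sit G ang f ρ A n w) {x y : V × Bool}
    (hx : x ∈ w) (hy : y ∈ w) : (Z1 G f).Reachable x.1 y.1 := by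
  have key : ∀ (a : V) (l : List V), List.IsChain (Z1 G f).Adj (a :: l) → ∀ z ∈ a :: l,
      (Z1 G f).Reachable a z := by
    intro a l
    induction l generalizing a with
    | nil =>
      intro _ z hz
      simp only [List.mem_cons, List.not_mem_nil, or_false] at hz
      rw [hz]
    | cons b l ih =>
      intro hc z hz
      rw [List.isChain_cons_cons] at hc
      rcases List.mem_cons.1 hz with rfl | hz
      · rfl
      · exact hc.1.reachable.trans (ih b hc.2 z hz)
  have hcw := h.cw
  have hmem : ∀ z ∈ w, z.1 ∈ w.map Prod.fst := fun z hz => List.mem_map_of_mem hz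
  match hw : w.map Prod.fst, hcw with
  | [a], _ =>
    have h1 := hmem x hx
    have h2 := hmem y hy
    rw [hw] at h1 h2
    simp only [List.mem_cons, List.not_mem_nil, or_false] at h1 h2
    rw [h1, h2]
  | (a :: b :: l), hcw =>
    have h1 := hmem x hx
    have h2 := hmem y hy
    rw [hw] at h1 h2
    have hc : List.IsChain (Z1 G f).Adj (a :: b :: l) := by
      simp only [CW] at hcw
      have e : a :: b :: (l ++ [a]) = (a :: b :: l) ++ [a] := by simp
      rw [e, List.isChain_append] at hcw
      exact hcw.1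
    exact (key a (b :: l) hc _ h1).symm.trans (key a (b :: l) hc _ h2)

/-- Two flipped members of a walk are not adjacent in the orbit complex. -/
theorem Sit.no_bridge {A n : ℕ} {w : List (V × Bool)} (h : Sit G ang f ρ A n w)
    {x y : V × Bool} (hx : x ∈ w) (hy : y ∈ w) (hx' : G.Adj x.1 (f x.1))
    (hy' : G.Adj y.1 (f y.1)) (h1 : G.Adj x.1 y.1) (h2 : G.Adj x.1 (f y.1)) : False := by
  refine h.br x.1 y.1 hx' hy' ⟨Or.inr hx', Or.inr hy', h1, h2, ?_⟩ (h.reach hx hy)
  have := (h.aut.adj x.1 (f y.1)).2 h2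
  rwa [h.inv] at this

end

end Pool.Agent.MSS
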