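import Pool.Agent.MSO.Targets

/-!
# Finite solvable groups on metrically systolic complexes of dimension at most three
(MP_d6353f_al, blueprint MSS, rows 5215 and 5216 of the table `ideas`)

Definitions: orbit complexes, weakly angled graphs, double labels.
-/

namespace Pool.Agent.MSS

open List Pool.Agent.MSF
open Pool.Agent.MSO (SEx Cl)
open Pool.Agent.MSN.Alg (nC)

universe u

/-! ### Orbit complexes -/

/-- Vertices of the orbit complex: the `r`-classes which are cliques of `G`. -/
def OV {V : Type u} (G : SimpleGraph V) (r : V → V → Prop) : Type u :=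
  {s : Finset V // s.Nonempty ∧ G.IsClique (s : Set V) ∧ ∀ x ∈ s, ∀ y, y ∈ s ↔ r x y}

/-- The orbit complex: two classes are adjacent if all their elements are adjacent. -/
def OG {V : Type u} (G : SimpleGraph V) (r : V → V → Prop) : SimpleGraph (OV G r) where
  Adj s t := ∀ x ∈ s.1, ∀ y ∈ t.1, G.Adj x y
  symm := ⟨fun _ _ h x hx y hy => (h y hy x hx).symm⟩
  loopless := ⟨fun s h => by
    obtain ⟨x, hx⟩ := s.2.1
    exact G.loopless.irrefl x (h x hx x hx)⟩

/-- A representative. -/
noncomputable def rep {V : Type u} {G : SimpleGraph V} {r : V → V → Prop} (s : OV G r) : V :=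
  s.2.1.choose

theorem rep_mem {V : Type u} {G : SimpleGraph V} {r : V → V → Prop} (s : OV G r) :
    rep s ∈ s.1 := s.2.1.choose_spec

/-- The angles of the orbit complex (angles of representatives). -/
noncomputable def OA {V : Type u} (G : SimpleGraph V) (r : V → V → Prop)
    (ang : V → V → V → ℝ) : OV G r → OV G r → OV G r → ℝ :=
  fun s t u => ang (rep s) (rep t) (rep u)

/-- `r` is the orbit relation of a group of automorphisms. -/
structure AutRel {V : Type u} (G : SimpleGraph V) (ang : V → V → V → ℝ) (r : V → V → Prop) :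
    Prop where
  eqv : Equivalence r
  mov : ∀ x y, r x y → ∃ g : Equiv.Perm V, IsAut G ang g ∧ g x = y ∧ ∀ z, r z (g z)

/-- The orbit relation of a permutation. -/
def orbg {V : Type u} (g : Equiv.Perm V) : V → V → Prop := fun x y => ∃ k : ℕ, (g ^ k) x = y

/-- The orbit relation of a subgroup. -/
def orbS {V : Type u} {H : Type} [Group H] [MulAction H V] (N : Subgroup H) : V → V → Prop :=
  fun x y => ∃ h ∈ N, h • x = y

/-- Good complexes: angled, of dimension at most three, simply connected, of Euler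
characteristic one. -/
structure GoodC {V : Type u} (G : SimpleGraph V) (ang : V → V → V → ℝ) : Prop where
  angled : Angled G ang
  cf : G.CliqueFree 5
  sc : SimplyConn G
  alt : ∀ n : ℕ, Nat.card V < n → ∑ j ∈ Finset.range n, (-1 : ℤ) ^ j * (nC G j : ℤ) = 0

/-- The edges of the orbit complex with at most three vertices of `V`. -/
def ZG {V : Type u} (G : SimpleGraph V) (r : V → V → Prop) : SimpleGraph (OV G r) where
  Adj s t := (OG G r).Adj s t ∧ s.1.card + t.1.card ≤ 3
  symm := ⟨fun _ _ h => ⟨h.1.symm, by have := h.2; omega⟩⟩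
  loopless := ⟨fun s h => (OG G r).loopless.irrefl s h.1⟩

/-! ### Weakly angled graphs -/

/-- The axioms of `Angled` without the link axioms. -/
structure PAng {V : Type u} (G : SimpleGraph V) (ang : V → V → V → ℝ) : Prop where
  symm : ∀ v a b, ang v a b = ang v b a
  pos : ∀ v a b, G.Adj v a → G.Adj v b → G.Adj a b → 0 < ang v a b
  sum_le : ∀ a b c, G.Adj a b → G.Adj b c → G.Adj a c →
    ang a b c + ang b a c + ang c a b ≤ Real.pi

/-- The average of the angles of two images. -/
noncomputable def avA {V W : Type u} (ang : V → V → V → ℝ) (l₁ l₂ : W → V) :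
    W → W → W → ℝ :=
  fun v a b => (ang (l₁ v) (l₁ a) (l₁ b) + ang (l₂ v) (l₂ a) (l₂ b)) / 2

/-! ### Involutions -/

section inv

variable {V : Type u} (G : SimpleGraph V) (f : Equiv.Perm V)

/-- Short vertices (fixed or flipped), adjacent in the orbit complex. -/
def SG : SimpleGraph V where
  Adj u v := (f u = u ∨ G.Adj u (f u)) ∧ (f v = v ∨ G.Adj v (f v)) ∧ G.Adj u v ∧
    G.Adj u (f v) ∧ G.Adj (f u) v
  symm := ⟨fun _ _ h => ⟨h.2.1, h.1, h.2.2.1.symm, h.2.2.2.2.symm, h.2.2.2.1.symm⟩⟩
  loopless := ⟨fun _ h => G.loopless.irrefl _ h.2.2.1⟩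

/-- Edges of `SG` with a fixed end. -/
def Z1 : SimpleGraph V where
  Adj u v := (SG G f).Adj u v ∧ (f u = u ∨ f v = v)
  symm := ⟨fun _ _ h => ⟨h.1.symm, h.2.symm⟩⟩
  loopless := ⟨fun _ h => (SG G f).loopless.irrefl _ h.1⟩

/-- Edges of `SG` between chosen representatives of the orbits (`ρ` picks them). -/
def RG (ρ : V → V) : SimpleGraph V where
  Adj u v := (SG G f).Adj u v ∧ ρ u = u ∧ ρ v = v
  symm := ⟨fun _ _ h => ⟨h.1.symm, h.2.2, h.2.1⟩⟩
  loopless := ⟨fun _ h => (SG G f).loopless.irrefl _ h.1⟩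

/-- Double labels: `(v, false)` is the vertex `v`, `(b, true)` the flipped edge `b, f b` (for `b` in
the set `B`), adjacent to the common neighbours of `b` and `f b`. -/
def HG (B : Set V) : SimpleGraph (V × Bool) where
  Adj x y := (x.2 = false ∧ y.2 = false ∧ G.Adj x.1 y.1) ∨
    (x.2 = false ∧ y.2 = true ∧ y.1 ∈ B ∧ G.Adj x.1 y.1 ∧ G.Adj x.1 (f y.1)) ∨
    (x.2 = true ∧ y.2 = false ∧ x.1 ∈ B ∧ G.Adj y.1 x.1 ∧ G.Adj y.1 (f x.1))
  symm := ⟨fun _ _ h => by
    rcases h with h | h | h
    · exact Or.inl ⟨h.2.1, h.1, h.2.2.symm⟩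
    · exact Or.inr (Or.inr ⟨h.2.1, h.1, h.2.2.1, h.2.2.2.1, h.2.2.2.2⟩)
    · exact Or.inr (Or.inl ⟨h.2.1, h.1, h.2.2.1, h.2.2.2.1, h.2.2.2.2⟩)⟩
  loopless := ⟨fun x h => by
    rcases h with h | h | h
    · exact G.loopless.irrefl _ h.2.2
    · rw [h.1] at h
      exact absurd h.2.1 (by simp)
    · rw [h.1] at h
      exact absurd h.2.1 (by simp)⟩

/-- The second map to `G` (the first one is `Prod.fst`). -/
def l2 (x : V × Bool) : V := if x.2 then f x.1 else x.1

/-- Averaged angles of double labels. -/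
noncomputable def angH (ang : V → V → V → ℝ) : V × Bool → V × Bool → V × Bool → ℝ :=
  avA ang Prod.fst (l2 f)

/-- The set of double labels of a walk. -/
def tB (w : List (V × Bool)) : Set V := {b | (b, true) ∈ w}

/-- Number of double labels. -/
def nT (w : List (V × Bool)) : ℕ := (w.filter fun x => x.2).length

open Classical in
/-- The angle at `y` of the triangle `y, b, f b` if the label `x` is a single flipped vertex
`(b, false)`. -/
noncomputable def gap (ang : V → V → V → ℝ) (y : V) (x : V × Bool) : ℝ :=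
  if x.2 = false ∧ G.Adj x.1 (f x.1) then ang y x.1 (f x.1) else 0

end inv

/-- The assumptions on an involution `f` (`ρ` chooses representatives of its orbits). -/
structure Inv {V : Type u} (G : SimpleGraph V) (ang : V → V → V → ℝ) (f : Equiv.Perm V)
    (ρ : V → V) : Prop where
  angled : Angled G ang
  cf : G.CliqueFree 5
  aut : IsAut G ang f
  inv : ∀ v, f (f v) = v
  rho : ∀ v, ρ v = v ∨ ρ v = f v
  rhof : ∀ v, ρ (f v) = ρ v
  br : ∀ b c, G.Adj b (f b) → G.Adj c (f c) → (SG G f).Adj b c → ¬ (Z1 G f).Reachable b c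

/-- The situation of the main induction: `w` is a walk with (double) labels, of minimal area `A` and
length `n`, with the maximal number of double labels. -/
structure Sit {V : Type u} (G : SimpleGraph V) (ang : V → V → V → ℝ) (f : Equiv.Perm V)
    (ρ : V → V) (A n : ℕ) (w : List (V × Bool)) : Prop extends Inv G ang f ρ where
  ih : ∀ (A' : ℕ) (w' : List V), (A' < A ∨ (A' ≤ A ∧ w'.length < n)) → CW (Z1 G f) w' →
    Null G A' w' → ∃ B, Null (RG G f ρ) B (w'.map ρ)
  len : w.length = n
  cw : CW (Z1 G f) (w.map Prod.fst)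
  fl : ∀ b, (b, true) ∈ w → G.Adj b (f b)
  null : Null (HG G f (tB w)) A w
  min : ∀ (k : ℕ) (w' : List V), w'.map ρ = w.map (fun x => ρ x.1) → Null G k w' → A ≤ k
  tmax : ∀ w' : List (V × Bool), w'.map (fun x => ρ x.1) = w.map (fun x => ρ x.1) →
    (∀ b, (b, true) ∈ w' → G.Adj b (f b)) → Null (HG G f (tB w')) A w' → nT w' ≤ nT w

/-- What has to be proved for the walk `w`. -/
def Fin {V : Type u} (G : SimpleGraph V) (f : Equiv.Perm V) (ρ : V → V)
    (w : List (V × Bool)) : Prop :=
  ∃ B, Null (RG G f ρ) B (w.map fun x => ρ x.1)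

/-- A path `F` (inner vertices) from `p` to `n` in the link of `c`, which can replace the corner `c` of
the walk `p, c, n, R`. -/
structure GP {V : Type u} (G : SimpleGraph V) (f : Equiv.Perm V) (B : Set V) (A : ℕ)
    (p c n : V × Bool) (R F : List (V × Bool)) : Prop where
  chain : List.IsChain (HG G f B).Adj (p :: (F ++ [n]))
  link : ∀ z ∈ p :: (F ++ [n]), (HG G f B).Adj c z
  null : ∃ k, Null (HG G f B) k (p :: (F ++ n :: R)) ∧ k + F.length + 1 ≤ A

end Pool.Agent.MSS
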