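import Pool.Agent.MSS.ASM

/-!
# Fixed vertices of groups moving no vertex to an adjacent vertex; the Euler characteristic (MSS)
-/

set_option autoImplicit false

namespace Pool.Agent.MSS.FXC

open Pool.Agent.MSF Pool.Agent.MSS
open Pool.Agent.MSN.Alg (nC)

universe u

/-- The classes which are cliques are the fixed vertices, if no vertex is moved to an adjacent
one. -/
theorem eq_single {V : Type u} {G : SimpleGraph V} {H : Type} [Group H] [MulAction H V]
    (K : Subgroup H) (hmove : ∀ k ∈ K, ∀ v : V, ¬ G.Adj v (k • v)) (s : OV G (orbS K)) :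
    ∀ x ∈ s.1, s.1 = {x} ∧ ∀ k ∈ K, k • x = x := by
  intro x hx
  have h1 : ∀ y ∈ s.1, y = x := by
    intro y hy
    by_contra hne
    obtain ⟨k, hk, hkx⟩ := (s.2.2.2 x hx y).1 hy
    refine hmove k hk x ?_
    rw [hkx]
    exact s.2.2.1 hx hy (Ne.symm hne)
  refine ⟨?_, ?_⟩
  · ext y
    simp only [Finset.mem_singleton]
    exact ⟨h1 y, fun h => h ▸ hx⟩
  · intro k hk
    exact h1 _ ((s.2.2.2 x hx _).2 ⟨k, hk, rfl⟩)

/-- The orbit complex is the full subcomplex on the fixed vertices. -/
noncomputable def iso {V : Type u} {G : SimpleGraph V} {H : Type} [Group H] [MulAction H V]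
    (K : Subgroup H) (hmove : ∀ k ∈ K, ∀ v : V, ¬ G.Adj v (k • v)) :
    OG G (orbS K) ≃g G.induce {v : V | ∀ k ∈ K, k • v = v} where
  toFun s := ⟨rep s, (eq_single K hmove s _ (rep_mem s)).2⟩
  invFun v := ⟨{v.1}, by simp, by simp, by
    intro x hx y
    rw [Finset.mem_singleton] at hx
    subst hx
    rw [Finset.mem_singleton]
    constructor
    · rintro rfl
      exact ⟨1, K.one_mem, one_smul _ _⟩
    · rintro ⟨k, hk, rfl⟩
      exact v.2 k hk⟩
  left_inv s := by
    apply Subtype.ext
    exact ((eq_single K hmove s _ (rep_mem s)).1).symm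
  right_inv v := by
    apply Subtype.ext
    have h := rep_mem (⟨{v.1}, by simp, by simp, by
      intro x hx y
      rw [Finset.mem_singleton] at hx
      subst hx
      rw [Finset.mem_singleton]
      constructor
      · rintro rfl
        exact ⟨1, K.one_mem, one_smul _ _⟩
      · rintro ⟨k, hk, rfl⟩
        exact v.2 k hk⟩ : OV G (orbS K))
    exact Finset.mem_singleton.1 h
  map_rel_iff' := by
    intro s t
    have hs := (eq_single K hmove s _ (rep_mem s)).1
    have ht := (eq_single K hmove t _ (rep_mem t)).1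
    constructor
    · intro h x hx y hy
      rw [hs, Finset.mem_singleton] at hx
      rw [ht, Finset.mem_singleton] at hy
      rw [hx, hy]
      exact h
    · intro h
      exact h _ (rep_mem s) _ (rep_mem t)

/-- The alternating sum of the numbers of cliques, from the Euler characteristic. -/
theorem alt_of_euler {V : Type u} [Finite V] {G : SimpleGraph V} (h5 : G.CliqueFree 5)
    (h : (nC G 1 : ℤ) - nC G 2 + nC G 3 - nC G 4 = 1) :
    ∀ n : ℕ, Nat.card V < n → ∑ j ∈ Finset.range n, (-1 : ℤ) ^ j * (nC G j : ℤ) = 0 := by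
  intro n hn
  classical
  have := Fintype.ofFinite V
  have h0 : nC G 0 = 1 := by
    unfold nC
    rw [Nat.card_eq_one_iff_unique]
    refine ⟨⟨?_⟩, ⟨⟨∅, by simp⟩⟩⟩
    rintro ⟨s, hs⟩ ⟨t, ht⟩
    have h1 := Finset.card_eq_zero.1 hs.2
    have h2 := Finset.card_eq_zero.1 ht.2
    subst h1
    subst h2
    rfl
  have hbig : ∀ j, 5 ≤ j → nC G j = 0 := by
    intro j hj
    unfold nC
    have : IsEmpty {s : Finset V // G.IsClique (s : Set V) ∧ s.card = j} := by
      constructor
      rintro ⟨s, hs⟩
      exact (h5.mono hj) s ((SimpleGraph.isNClique_iff _).2 hs)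
    exact Nat.card_of_isEmpty
  have hcard : ∀ j, Nat.card V < j → nC G j = 0 := by
    intro j hj
    unfold nC
    have : IsEmpty {s : Finset V // G.IsClique (s : Set V) ∧ s.card = j} := by
      constructor
      rintro ⟨s, hs⟩
      have := Finset.card_le_univ s
      rw [Nat.card_eq_fintype_card] at hj
      omega
    exact Nat.card_of_isEmpty
  have e1 : ∑ j ∈ Finset.range n, (-1 : ℤ) ^ j * (nC G j : ℤ) =
      ∑ j ∈ Finset.range (n + 5), (-1 : ℤ) ^ j * (nC G j : ℤ) := by
    apply Finset.sum_subset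
    · intro x hx
      rw [Finset.mem_range] at hx ⊢
      omega
    · intro x _ hx
      rw [Finset.mem_range] at hx
      rw [hcard x (by omega)]
      simp
  have e2 : ∑ j ∈ Finset.range 5, (-1 : ℤ) ^ j * (nC G j : ℤ) =
      ∑ j ∈ Finset.range (n + 5), (-1 : ℤ) ^ j * (nC G j : ℤ) := by
    apply Finset.sum_subset
    · intro x hx
      rw [Finset.mem_range] at hx ⊢
      omega
    · intro x _ hx
      rw [Finset.mem_range] at hx
      rw [hbig x (by omega)]
      simp
  rw [e1, ← e2]
  simp only [Finset.sum_range_succ, Finset.sum_range_zero, h0]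
  norm_num
  linarith

/-- A finite metrically systolic complex of dimension at most three with Euler characteristic one is
good. -/
theorem good_of_euler {V : Type u} [Finite V] {G : SimpleGraph V} {len : V → V → ℝ}
    (hX : MetricallySystolic G len) (h5 : G.CliqueFree 5)
    (h : (nC G 1 : ℤ) - nC G 2 + nC G 3 - nC G 4 = 1) : GoodC G (angle len) :=
  ⟨angled_of_ms tLARGE tTRIG hX, h5, hX.simplyConn, alt_of_euler h5 h⟩

/-- The angles are invariant. -/
theorem ang_inv {V : Type u} {G : SimpleGraph V} {len : V → V → ℝ} {H : Type} [Group H]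
    [MulAction H V] (hlen : ∀ (h : H) (a b : V), G.Adj a b → len (h • a) (h • b) = len a b) :
    ∀ (h : H) (v a b : V), G.Adj v a → G.Adj v b → G.Adj a b →
      angle len (h • v) (h • a) (h • b) = angle len v a b := by
  intro h v a b ha hb hab
  unfold angle
  simp only [hlen h v a ha, hlen h v b hb, hlen h a b hab]

/-- Invariant cliques for finite complexes of Euler characteristic one. -/
theorem clique {V : Type u} [Finite V] {G : SimpleGraph V} {len : V → V → ℝ}
    (hX : MetricallySystolic G len) (h5 : G.CliqueFree 5)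
    (he : (nC G 1 : ℤ) - nC G 2 + nC G 3 - nC G 4 = 1)
    (H : Type) [Group H] [Finite H] [MulAction H V]
    (hadj : ∀ (h : H) (a b : V), G.Adj (h • a) (h • b) ↔ G.Adj a b)
    (hlen : ∀ (h : H) (a b : V), G.Adj a b → len (h • a) (h • b) = len a b)
    (hsol : Group.IsSolvable H) :
    ∃ s : Finset V, s.Nonempty ∧ G.IsClique s ∧ ∀ (h : H), ∀ x ∈ s, h • x ∈ s := by
  have hsol' : Group.IsSolvable (⊤ : Subgroup H) := inferInstance
  have hO := Asm.soln G _ (good_of_euler hX h5 he) H hadj (ang_inv hlen) ⊤ hsol'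
  obtain ⟨s⟩ := hO.sc.1.nonempty
  refine ⟨s.1, s.2.1, s.2.2.1, ?_⟩
  intro h x hx
  rw [s.2.2.2 x hx]
  exact ⟨h, Subgroup.mem_top h, rfl⟩

/-- The fixed subcomplex for finite complexes of Euler characteristic one. -/
theorem fixed {V : Type u} [Finite V] {G : SimpleGraph V} {len : V → V → ℝ}
    (hX : MetricallySystolic G len) (h5 : G.CliqueFree 5)
    (he : (nC G 1 : ℤ) - nC G 2 + nC G 3 - nC G 4 = 1)
    (H : Type) [Group H] [Finite H] [MulAction H V]
    (hadj : ∀ (h : H) (a b : V), G.Adj (h • a) (h • b) ↔ G.Adj a b)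
    (hlen : ∀ (h : H) (a b : V), G.Adj a b → len (h • a) (h • b) = len a b)
    (K : Subgroup H) (hsol : Group.IsSolvable K) (hmove : ∀ k ∈ K, ∀ v : V, ¬ G.Adj v (k • v)) :
    MetricallySystolic (G.induce {v : V | ∀ k ∈ K, k • v = v}) (fun a b => len a b) := by
  have hO := Asm.soln G _ (good_of_euler hX h5 he) H hadj (ang_inv hlen) K hsol
  have hm := tMCI G len {v : V | ∀ k ∈ K, k • v = v} hX.complex hX.large
  exact ⟨hm.1, hm.2, (tISOG _ _ (iso K hmove)).1 hO.sc⟩

end Pool.Agent.MSS.FXC
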