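import Pool.Agent.MSS.Targets
import Pool.Agent.MSF.DISC3

/-!
# MSS/PD: disc diagrams for weakly angled graphs

The files MSF/DISC1, DISC2, DISC3 for `PAng` (only `symm`, `pos`, `sum_le` are used).
-/

set_option autoImplicit false

namespace Pool.Agent.MSS

open List Pool.Agent.MSF

universe u

namespace PD

variable {V : Type u} {G : SimpleGraph V} {ang : V → V → V → ℝ}

theorem plen_append (v : V) (L : List V) (x y : V) :
    plen ang v (L ++ [x, y]) = plen ang v (L ++ [x]) + ang v x y := by
  induction L with
  | nil => simp [plen]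
  | cons a L ih =>
    cases L with
    | nil => simp [plen]
    | cons b L =>
      simp only [List.cons_append, plen] at ih ⊢
      rw [ih]; ring

theorem plen_glue (v : V) (L : List V) (x : V) (R : List V) :
    plen ang v (L ++ x :: R) = plen ang v (L ++ [x]) + plen ang v (x :: R) := by
  induction L with
  | nil => simp [plen]
  | cons a L ih =>
    cases L with
    | nil => simp [plen]
    | cons b L =>
      simp only [List.cons_append, plen] at ih ⊢
      rw [ih]; ring

theorem chain_rot {R : Corner V → Corner V → Prop} {c : Corner V} {D : List (Corner V)}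
    (h : List.IsChain R (c :: (D ++ [c]))) :
    ∀ d E, D = d :: E → List.IsChain R (d :: ((E ++ [c]) ++ [d])) := by
  rintro d E rfl
  rw [List.cons_append, List.isChain_cons_cons] at h
  have h2 : List.IsChain R ((d :: (E ++ [c])) ++ [d]) := by
    rw [List.isChain_append]
    refine ⟨h.2, by simp, ?_⟩
    intro x hx y hy
    have hx' : x = c := by
      rw [← List.cons_append, List.getLast?_append] at hx
      simp at hx
      exact hx.symm
    have hy' : y = d := by simpa using hy.symm
    rw [hx', hy']
    exact h.1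
  simpa using h2

theorem cyc_rot {c : Corner V} {D : List (Corner V)} (h : CycC (c :: D)) : CycC (D ++ [c]) := by
  cases D with
  | nil => simpa using h
  | cons d E =>
    exact chain_rot h d E rfl

theorem head_change {c c' : Corner V} {L : List (Corner V)}
    (h : List.IsChain Corner.Next (c :: L)) (hn : c.n = c'.n) (hv : c.v = c'.v) :
    List.IsChain Corner.Next (c' :: L) := by
  cases L with
  | nil => simp
  | cons d L =>
    rw [List.isChain_cons_cons] at h ⊢
    refine ⟨?_, h.2⟩
    exact ⟨hn ▸ h.1.1, hv ▸ h.1.2⟩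

theorem last_change {c c' : Corner V} {L : List (Corner V)}
    (h : List.IsChain Corner.Next (L ++ [c])) (hp : c.p = c'.p) (hv : c.v = c'.v) :
    List.IsChain Corner.Next (L ++ [c']) := by
  rw [List.isChain_append] at h ⊢
  refine ⟨h.1, by simp, ?_⟩
  intro x hx y hy
  have hy' : y = c' := by simpa using hy.symm
  have := h.2.2 x hx c (by simp)
  subst hy'
  exact ⟨hv ▸ this.1, hp ▸ this.2⟩

theorem plen_nonneg (hA : PAng G ang) (v : V) : ∀ (L : List V), List.IsChain G.Adj L →
    (∀ x ∈ L, G.Adj v x) → 0 ≤ plen ang v L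
  | [], _, _ => le_refl _
  | [_], _, _ => le_refl _
  | (a :: b :: l), h, hl => by
    rw [List.isChain_cons_cons] at h
    have := plen_nonneg hA v (b :: l) h.2 (fun x hx => hl x (by simp [hx]))
    have h2 := hA.pos v a b (hl a (by simp)) (hl b (by simp)) h.1
    simp only [plen]
    linarith

theorem th_pos (hA : PAng G ang) {c : Corner V} (h : CornerOK G ang c) : 0 < c.th := by
  obtain ⟨h1, h2, h3⟩ := h
  rw [h3]
  cases hF : c.F with
  | nil =>
    rw [hF] at h1 h2
    simp only [List.nil_append, List.isChain_cons_cons] at h1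
    simp only [List.nil_append, plen]
    have := hA.pos c.v c.p c.n (h2 _ (by simp)) (h2 _ (by simp)) h1.1
    linarith
  | cons a l =>
    rw [hF] at h1 h2
    simp only [List.cons_append, List.isChain_cons_cons] at h1
    simp only [List.cons_append, plen]
    have := hA.pos c.v c.p a (h2 _ (by simp)) (h2 _ (by simp)) h1.1
    have h4 := plen_nonneg hA c.v (a :: (l ++ [c.n])) h1.2
      (fun x hx => h2 x (by simp only [List.cons_append]; exact List.mem_cons_of_mem _ hx))
    linarith

theorem ok_snoc {p v n m : V} {F : List V} {t : ℝ} (h : CornerOK G ang ⟨p, v, n, F, t⟩)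
    (hv : G.Adj v m) (hn : G.Adj n m) :
    CornerOK G ang ⟨p, v, m, F ++ [n], t + ang v n m⟩ := by
  obtain ⟨h1, h2, h3⟩ := h
  simp only at h1 h2 h3
  refine ⟨?_, ?_, ?_⟩
  · simp only
    have e : p :: (F ++ [n] ++ [m]) = (p :: F) ++ n :: ([] ++ [m]) := by simp
    rw [e, List.isChain_split]
    exact ⟨by simpa using h1, by simpa using hn⟩
  · simp only
    intro x hx
    simp only [List.mem_cons, List.mem_append, List.not_mem_nil, or_false] at hx h2
    rcases hx with hx | (hx | hx) | hx
    · exact h2 x (by simp [hx])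
    · exact h2 x (by simp [hx])
    · exact h2 x (by simp [hx])
    · rw [hx]; exact hv
  · simp only
    rw [h3]
    have := plen_append (ang := ang) v (p :: F) n m
    simp only [List.cons_append, List.append_assoc, List.nil_append] at this ⊢
    rw [this]

theorem ok_cons {p v n q : V} {F : List V} {t : ℝ} (h : CornerOK G ang ⟨p, v, n, F, t⟩)
    (hv : G.Adj v q) (hn : G.Adj q p) :
    CornerOK G ang ⟨q, v, n, p :: F, t + ang v q p⟩ := by
  obtain ⟨h1, h2, h3⟩ := h
  simp only at h1 h2 h3
  refine ⟨?_, ?_, ?_⟩
  · simp only [List.cons_append, List.isChain_cons_cons]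
    exact ⟨hn, h1⟩
  · simp only [List.cons_append]
    intro x hx
    rw [List.mem_cons] at hx
    rcases hx with hx | hx
    · rw [hx]; exact hv
    · exact h2 x hx
  · simp only [List.cons_append, plen]
    rw [h3]; ring

theorem ok_join {x z b a y : V} {F F' : List V} {t t' : ℝ}
    (h : CornerOK G ang ⟨x, z, b, F, t⟩) (h' : CornerOK G ang ⟨a, z, y, F', t'⟩)
    (hab : G.Adj b a) :
    CornerOK G ang ⟨x, z, y, F ++ b :: a :: F', t + ang z b a + t'⟩ := by
  obtain ⟨h1, h2, h3⟩ := h
  obtain ⟨h1', h2', h3'⟩ := h'
  simp only at h1 h2 h3 h1' h2' h3'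
  refine ⟨?_, ?_, ?_⟩
  · simp only
    have e : x :: (F ++ b :: a :: F' ++ [y]) = (x :: F) ++ b :: (a :: F' ++ [y]) := by simp
    rw [e, List.isChain_split]
    refine ⟨by simpa using h1, ?_⟩
    rw [List.cons_append, List.isChain_cons_cons]
    exact ⟨hab, h1'⟩
  · simp only
    intro w hw
    have : w ∈ x :: (F ++ [b]) ∨ w ∈ a :: (F' ++ [y]) := by
      simp only [List.mem_cons, List.mem_append, List.not_mem_nil, or_false] at hw ⊢
      tauto
    rcases this with hw | hw
    · exact h2 w hw
    · exact h2' w hw
  · simp only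
    rw [h3, h3']
    have e : x :: (F ++ b :: a :: F' ++ [y]) = (x :: F) ++ b :: (a :: F' ++ [y]) := by simp
    rw [e, plen_glue]
    simp only [List.cons_append, plen]
    ring

theorem ok_single {p v n : V} (hp : G.Adj v p) (hn : G.Adj v n) (hpn : G.Adj p n) :
    CornerOK G ang ⟨p, v, n, [], ang v p n⟩ := by
  refine ⟨by simpa using hpn, ?_, by simp [plen]⟩
  simp only [List.nil_append]
  intro x hx
  simp only [List.mem_cons, List.not_mem_nil, or_false] at hx
  rcases hx with rfl | rfl <;> assumption

theorem ang_lt_pi (hA : PAng G ang) {a b c : V} (hab : G.Adj a b) (hbc : G.Adj b c)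
    (hac : G.Adj a c) : ang a b c < Real.pi := by
  have h1 := hA.sum_le a b c hab hbc hac
  have h2 := hA.pos b a c hab.symm hbc hac
  have h3 := hA.pos c a b hac.symm hbc.symm hab
  linarith

/-- The induction. -/
theorem main1 (hA : PAng G ang) (A : ℕ) (D : List (Corner V)) (h : Disc G ang A D) :
    (3 ≤ D.length ∧ CycC D ∧ ∀ c ∈ D, CornerOK G ang c) ∧
      2 * Real.pi ≤ (D.map fun c => Real.pi - c.th).sum := by
  induction h with
  | @base a b z hab haz hzb =>
    refine ⟨⟨by simp, by simp [CycC, Corner.Next], ?_⟩, ?_⟩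
    · intro c hc
      simp only [List.mem_cons, List.not_mem_nil, or_false] at hc
      rcases hc with rfl | rfl | rfl
      · exact ok_single haz hab hzb
      · exact ok_single hab.symm hzb.symm haz
      · exact ok_single hzb haz.symm hab.symm
    · have h1 := hA.sum_le a b z hab hzb.symm haz
      have h2 := hA.symm a b z
      have h3 := hA.symm z a b
      simp only [List.map_cons, List.map_nil, List.sum_cons, List.sum_nil]
      linarith
  | @rot m c D _ ih =>
    obtain ⟨⟨h1, h2, h3⟩, h4⟩ := ih
    refine ⟨⟨by simpa using h1, cyc_rot h2, ?_⟩, ?_⟩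
    · intro d hd
      apply h3
      simp only [List.mem_append, List.mem_cons, List.not_mem_nil, or_false] at hd ⊢
      tauto
    · simp only [List.map_cons, List.sum_cons, List.map_append, List.sum_append, List.map_nil,
        List.sum_nil] at h4 ⊢
      linarith
  | @inner m a b z x y Fa Fz Fb ta tz tb D hab haz hzb _ hz ih =>
    obtain ⟨⟨h1, h2, h3⟩, h4⟩ := ih
    have ha := h3 ⟨x, a, z, Fa, ta⟩ (by simp)
    have hzz := h3 ⟨a, z, b, Fz, tz⟩ (by simp)
    have hb := h3 ⟨z, b, y, Fb, tb⟩ (by simp)
    have pa := th_pos hA ha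
    have pb := th_pos hA hb
    have pz := ang_lt_pi hA hzb hab.symm haz.symm
    have hs := hA.sum_le a b z hab hzb.symm haz
    have hs2 := hA.symm a b z
    have hs3 := hA.symm z a b
    simp only at pa pb
    simp only [List.map_cons, List.sum_cons] at h4
    refine ⟨⟨?_, ?_, ?_⟩, ?_⟩
    · cases D with
      | nil =>
        exfalso
        simp only [List.map_nil, List.sum_nil] at h4
        linarith
      | cons d D => simp
    · simp only [CycC, List.cons_append, List.isChain_cons_cons] at h2 ⊢
      refine ⟨⟨rfl, rfl⟩, ?_⟩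
      have h5 := head_change (c' := ⟨a, b, y, z :: Fb, tb + ang b a z⟩) h2.2.2 rfl rfl
      exact last_change (L := _ :: D) (c' := ⟨x, a, b, Fa ++ [z], ta + ang a z b⟩) h5 rfl rfl
    · intro c hc
      simp only [List.mem_cons] at hc
      rcases hc with rfl | rfl | hc
      · exact ok_snoc ha hab hzb
      · exact ok_cons hb hab.symm haz
      · exact h3 c (by simp [hc])
    · simp only [List.map_cons, List.sum_cons]
      linarith
  | @left n a b z x y Fa Fz ta tz D hab haz hzb _ ih =>
    obtain ⟨⟨h1, h2, h3⟩, h4⟩ := ih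
    have hzz := h3 ⟨a, z, y, Fz, tz⟩ (by simp)
    have ha := h3 ⟨x, a, z, Fa, ta⟩ (by simp)
    have hs := hA.sum_le a b z hab hzb.symm haz
    have hs2 := hA.symm a b z
    have hs3 := hA.symm z a b
    simp only [List.map_cons, List.sum_cons, List.map_append, List.sum_append, List.map_nil,
      List.sum_nil] at h4
    refine ⟨⟨by simp, ?_, ?_⟩, ?_⟩
    · simp only [CycC, List.cons_append, List.isChain_cons_cons] at h2 ⊢
      refine ⟨⟨rfl, rfl⟩, ⟨rfl, rfl⟩, ?_⟩
      have h5 : List.IsChain Corner.Next (⟨a, z, y, Fz, tz⟩ :: (D ++ [⟨x, a, z, Fa, ta⟩])) := by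
        have e : (⟨a, z, y, Fz, tz⟩ : Corner V) :: (D ++ [⟨x, a, z, Fa, ta⟩] ++ [⟨a, z, y, Fz, tz⟩])
          = ((⟨a, z, y, Fz, tz⟩ : Corner V) :: D) ++ ⟨x, a, z, Fa, ta⟩ :: [⟨a, z, y, Fz, tz⟩] := by
          simp
        rw [e, List.isChain_split] at h2
        simpa using h2.1
      have h6 := head_change (c' := ⟨b, z, y, a :: Fz, tz + ang z b a⟩) h5 rfl rfl
      exact last_change (L := _ :: D) (c' := ⟨x, a, b, Fa ++ [z], ta + ang a z b⟩) h6 rfl rfl
    · intro c hc
      simp only [List.mem_cons] at hc
      rcases hc with rfl | rfl | rfl | hc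
      · exact ok_snoc ha hab hzb
      · exact ok_single hab.symm hzb.symm haz
      · exact ok_cons hzz hzb hab.symm
      · exact h3 c (by simp [hc])
    · simp only [List.map_cons, List.sum_cons]
      linarith
  | @right m a b z x y Fz Fb tz tb D hab haz hzb _ ih =>
    obtain ⟨⟨h1, h2, h3⟩, h4⟩ := ih
    have hzz := h3 ⟨x, z, b, Fz, tz⟩ (by simp)
    have hb := h3 ⟨z, b, y, Fb, tb⟩ (by simp)
    have hs := hA.sum_le a b z hab hzb.symm haz
    have hs2 := hA.symm a b z
    have hs3 := hA.symm z a b
    simp only [List.map_cons, List.sum_cons] at h4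
    refine ⟨⟨by simp, ?_, ?_⟩, ?_⟩
    · simp only [CycC, List.cons_append, List.isChain_cons_cons] at h2 ⊢
      refine ⟨⟨rfl, rfl⟩, ?_⟩
      have h5 := head_change (c' := ⟨a, b, y, z :: Fb, tb + ang b a z⟩) h2.2 rfl rfl
      have h6 := last_change (L := _ :: D) (c' := ⟨x, z, a, Fz ++ [b], tz + ang z b a⟩) h5 rfl rfl
      have e : (⟨a, b, y, z :: Fb, tb + ang b a z⟩ : Corner V) ::
          (D ++ [⟨x, z, a, Fz ++ [b], tz + ang z b a⟩] ++ [⟨z, a, b, [], ang a z b⟩])
          = ((⟨a, b, y, z :: Fb, tb + ang b a z⟩ : Corner V) :: D) ++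
            ⟨x, z, a, Fz ++ [b], tz + ang z b a⟩ :: [⟨z, a, b, [], ang a z b⟩] := by
        simp
      rw [e, List.isChain_split]
      refine ⟨by simpa using h6, ?_⟩
      simp [Corner.Next]
    · intro c hc
      simp only [List.mem_cons, List.mem_append, List.not_mem_nil, or_false] at hc
      rcases hc with rfl | rfl | hc | rfl
      · exact ok_single haz hab hzb
      · exact ok_cons hb hab.symm haz
      · exact h3 c (by simp [hc])
      · exact ok_snoc hzz haz.symm hab.symm
    · simp only [List.map_cons, List.sum_cons, List.map_append, List.sum_append, List.map_nil,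
        List.sum_nil]
      linarith
  | @both m n a b z x y x' y' Fa Fz Fb Fz' ta tz tb tz' D D' hab haz hzb _ _ ih ih' =>
    obtain ⟨⟨h1, h2, h3⟩, h4⟩ := ih
    obtain ⟨⟨h1', h2', h3'⟩, h4'⟩ := ih'
    have hzz := h3 ⟨x, z, b, Fz, tz⟩ (by simp)
    have hb := h3 ⟨z, b, y, Fb, tb⟩ (by simp)
    have hzz' := h3' ⟨a, z, y', Fz', tz'⟩ (by simp)
    have ha := h3' ⟨x', a, z, Fa, ta⟩ (by simp)
    have hs := hA.sum_le a b z hab hzb.symm haz
    have hs2 := hA.symm a b z
    have hs3 := hA.symm z a b
    simp only [List.map_cons, List.sum_cons, List.map_append, List.sum_append, List.map_nil,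
      List.sum_nil] at h4 h4'
    refine ⟨⟨by simp; omega, ?_, ?_⟩, ?_⟩
    · simp only [CycC, List.cons_append, List.isChain_cons_cons] at h2 h2' ⊢
      refine ⟨⟨rfl, rfl⟩, ?_⟩
      have h5 := head_change (c' := ⟨a, b, y, z :: Fb, tb + ang b a z⟩) h2.2 rfl rfl
      have h6 := last_change (L := _ :: D)
        (c' := ⟨x, z, y', Fz ++ b :: a :: Fz', tz + ang z b a + tz'⟩) h5 rfl rfl
      have h7 : List.IsChain Corner.Next
          (⟨a, z, y', Fz', tz'⟩ :: (D' ++ [⟨x', a, z, Fa, ta⟩])) := by
        have e : (⟨a, z, y', Fz', tz'⟩ : Corner V) ::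
            (D' ++ [⟨x', a, z, Fa, ta⟩] ++ [⟨a, z, y', Fz', tz'⟩])
          = ((⟨a, z, y', Fz', tz'⟩ : Corner V) :: D') ++
            ⟨x', a, z, Fa, ta⟩ :: [⟨a, z, y', Fz', tz'⟩] := by
          simp
        rw [e, List.isChain_split] at h2'
        simpa using h2'.1
      have h8 := head_change (c' := ⟨x, z, y', Fz ++ b :: a :: Fz', tz + ang z b a + tz'⟩)
        h7 rfl rfl
      have h9 := last_change (L := _ :: D') (c' := ⟨x', a, b, Fa ++ [z], ta + ang a z b⟩)
        h8 rfl rfl
      have e : (⟨a, b, y, z :: Fb, tb + ang b a z⟩ : Corner V) ::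
          (D ++ ⟨x, z, y', Fz ++ b :: a :: Fz', tz + ang z b a + tz'⟩ :: D' ++
            [⟨x', a, b, Fa ++ [z], ta + ang a z b⟩])
          = ((⟨a, b, y, z :: Fb, tb + ang b a z⟩ : Corner V) :: D) ++
            ⟨x, z, y', Fz ++ b :: a :: Fz', tz + ang z b a + tz'⟩ ::
              (D' ++ [⟨x', a, b, Fa ++ [z], ta + ang a z b⟩]) := by
        simp
      rw [e, List.isChain_split]
      exact ⟨by simpa using h6, by simpa using h9⟩
    · intro c hc
      simp only [List.mem_cons, List.mem_append] at hc
      rcases hc with rfl | rfl | hc | rfl | hc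
      · exact ok_snoc ha hab hzb
      · exact ok_cons hb hab.symm haz
      · exact h3 c (by simp [hc])
      · exact ok_join hzz hzz' hab.symm
      · exact h3' c (by simp [hc])
    · simp only [List.map_cons, List.sum_cons, List.map_append, List.sum_append]
      linarith


open Pool.Agent.MSF.DISC3 in
/-- Expansion of marked corners. -/
theorem main3 (hA : PAng G ang) (A : ℕ) (D : List (Corner V)) (hD : Disc G ang A D) :
    ∀ M : List (Corner V × Bool), M.map Prod.fst = D → MarksOK G M →
      ∃ k, Null G k (expand M) ∧ k + cost M ≤ A := by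
  induction hD with
  | @base a b z hab haz hzb =>
    intro M hM hOK
    rw [List.map_eq_cons_iff] at hM
    obtain ⟨⟨_, ma⟩, M1, rfl, rfl, hM⟩ := hM
    rw [List.map_eq_cons_iff] at hM
    obtain ⟨⟨_, mb⟩, M2, rfl, rfl, hM⟩ := hM
    rw [List.map_eq_cons_iff] at hM
    obtain ⟨⟨_, mz⟩, M3, rfl, rfl, hM⟩ := hM
    rw [List.map_eq_nil_iff] at hM
    subst hM
    rw [marksOK_iff] at hOK
    simp only [List.pairwise_cons, List.mem_cons, List.not_mem_nil, or_false, forall_eq_or_imp,
      forall_eq, Rm] at hOK
    cases ma <;> cases mb <;> cases mz <;> simp [hab, haz, hzb.symm] at hOK <;>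
      simp only [expand, cost]
    · exact ⟨1, Null.triangle hab hzb.symm haz, by simp⟩
    · exact ⟨0, Null.dig hab, by simp⟩
    · exact ⟨0, Null.dig haz, by simp⟩
    · exact ⟨0, Null.dig hzb.symm, by simp⟩
  | @rot m c D h ih =>
    intro M hM hOK
    rw [List.map_eq_append_iff] at hM
    obtain ⟨M1, M2, rfl, rfl, hM⟩ := hM
    rw [List.map_eq_cons_iff] at hM
    obtain ⟨mc, M3, rfl, rfl, hM⟩ := hM
    rw [List.map_eq_nil_iff] at hM
    subst hM
    rw [marksOK_iff, List.pairwise_append] at hOK
    have hOK' : MarksOK G (mc :: M1) := by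
      rw [marksOK_iff, List.pairwise_cons]
      exact ⟨fun m hm => rm_symm (hOK.2.2 m hm mc (by simp)), hOK.1⟩
    obtain ⟨k, hk, hc⟩ := ih (mc :: M1) (by simp) hOK'
    refine ⟨k, ?_, ?_⟩
    · rw [expand_append]
      have h2 : expand (mc :: M1) = expand [mc] ++ expand M1 := by
        rw [← expand_append]; rfl
      rw [h2] at hk
      exact hk.swap
    · rw [cost_append]
      have h2 : cost (mc :: M1) = cost [mc] + cost M1 := by
        rw [← cost_append]; rfl
      omega
  | @inner m a b z x y Fa Fz Fb ta tz tb D hab haz hzb h hz ih =>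
    intro M hM hOK
    rw [List.map_eq_cons_iff] at hM
    obtain ⟨⟨_, ma⟩, M1, rfl, rfl, hM⟩ := hM
    rw [List.map_eq_cons_iff] at hM
    obtain ⟨⟨_, mb⟩, M0, rfl, rfl, rfl⟩ := hM
    rw [marksOK_iff] at hOK
    simp only [List.pairwise_cons, List.mem_cons, forall_eq_or_imp] at hOK
    obtain ⟨⟨hab', ha0⟩, hb0, h0⟩ := hOK
    have hOK' : MarksOK G ((⟨x, a, z, Fa, ta⟩, ma) :: (⟨a, z, b, Fz, tz⟩, false) ::
        (⟨z, b, y, Fb, tb⟩, mb) :: M0) := by
      rw [marksOK_iff]
      simp only [List.pairwise_cons, List.mem_cons, forall_eq_or_imp]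
      refine ⟨⟨rm_symm (rm_false rfl), hab', ?_⟩, ⟨rm_false rfl, ?_⟩, ?_, h0⟩
      · intro d hd
        exact rm_congr (ha0 d hd) rfl (fun h => h)
      · intro d hd
        exact rm_false rfl
      · intro d hd
        exact rm_congr (hb0 d hd) rfl (fun h => h)
    obtain ⟨k, hk, hc⟩ := ih _ (by simp) hOK'
    cases ma <;> cases mb
    · simp only [expand, cost] at hk hc ⊢
      simp only [Bool.false_eq_true, if_false, List.cons_append, List.nil_append] at hk hc ⊢
      exact ⟨k + 1, Null.tri hab haz hzb hk, by omega⟩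
    · simp only [expand, cost] at hk hc ⊢
      simp only [Bool.false_eq_true, if_false, if_true, List.cons_append, List.nil_append,
        List.length_cons] at hk hc ⊢
      exact ⟨k, hk, by omega⟩
    · simp only [expand, cost] at hk hc ⊢
      simp only [Bool.false_eq_true, if_false, if_true, List.cons_append, List.nil_append,
        List.length_append, List.length_cons, List.length_nil, List.append_assoc] at hk hc ⊢
      exact ⟨k, hk, by omega⟩
    · exact absurd hab (hab' rfl rfl)
  | @left n a b z x y Fa Fz ta tz D hab haz hzb h ih =>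
    have hd := (main1 hA _ _ h).1
    have hch := cyc_adj hd.2.1 hd.2.2
    have hDne : D ≠ [] := by
      rintro rfl
      have := hd.1
      simp at this
    intro M hM hOK
    rw [List.map_eq_cons_iff] at hM
    obtain ⟨⟨_, ma⟩, M1, rfl, rfl, hM⟩ := hM
    rw [List.map_eq_cons_iff] at hM
    obtain ⟨⟨_, mb⟩, M2, rfl, rfl, hM⟩ := hM
    rw [List.map_eq_cons_iff] at hM
    obtain ⟨⟨_, mz⟩, M0, rfl, rfl, hM⟩ := hM
    rw [marksOK_iff] at hOK
    simp only [List.pairwise_cons, List.mem_cons, forall_eq_or_imp] at hOK
    obtain ⟨⟨hab', haz', ha0⟩, ⟨hbz', hb0⟩, hz0, h0⟩ := hOK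
    have hOK' : MarksOK G ((⟨a, z, y, Fz, tz⟩, mz) :: (M0 ++ [(⟨x, a, z, Fa, ta⟩, ma)])) := by
      rw [marksOK_iff]
      simp only [List.pairwise_cons, List.pairwise_append, List.mem_append, List.mem_cons,
        List.not_mem_nil, or_false, forall_eq, IsEmpty.forall_iff, implies_true,
        List.Pairwise.nil, and_true, true_and]
      refine ⟨?_, h0, ?_⟩
      · intro d hd
        rcases hd with hd | rfl
        · exact rm_congr (hz0 d hd) rfl (fun h => h)
        · exact rm_symm (rm_congr haz' rfl (fun h => h))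
      · intro d hd
        exact rm_symm (rm_congr (ha0 d hd) rfl (fun h => h))
    obtain ⟨k, hk, hc⟩ := ih _ (by simp [hM]) hOK'
    cases ma <;> cases mb <;> cases mz
    · -- none
      simp only [expand, cost, expand_append, cost_append] at hk hc ⊢
      simp only [Bool.false_eq_true, if_false, List.cons_append, List.nil_append,
        List.append_nil] at hk hc ⊢
      have h2 : Null G k ([] ++ a :: z :: expand M0) := by
        have h3 : Null G k ((z :: expand M0) ++ [a]) := by simpa using hk
        simpa using h3.swap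
      exact ⟨k + 1, by simpa using h2.push hab hzb.symm haz, by omega⟩
    · -- z marked
      have hne : expand M0 ≠ [] := by
        apply ne_first (G := G) hM hDne (c := ⟨a, z, y, Fz, tz⟩) (d := ⟨a, z, y, Fz, tz⟩)
          (E := [⟨x, a, z, Fa, ta⟩, ⟨a, z, y, Fz, tz⟩]) (by simpa using hch) rfl
        exact fun m hm h3 => hz0 m hm rfl h3
      simp only [expand, cost, expand_append, cost_append] at hk hc ⊢
      simp only [Bool.false_eq_true, if_false, if_true, List.cons_append, List.nil_append,
        List.append_nil, List.length_cons] at hk hc ⊢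
      have h2 : Null G k ([] ++ a :: (Fz ++ expand M0)) := by
        have h3 : Null G k ((Fz ++ expand M0) ++ [a]) := by simpa using hk
        simpa using h3.swap
      exact ⟨k, by simpa using h2.spur (by simp [hne]) hab, by omega⟩
    · -- b marked
      simp only [expand, cost, expand_append, cost_append] at hk hc ⊢
      simp only [Bool.false_eq_true, if_false, if_true, List.cons_append, List.nil_append,
        List.append_nil, List.length_nil] at hk hc ⊢
      have h2 : Null G k ([] ++ a :: z :: expand M0) := by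
        have h3 : Null G k ((z :: expand M0) ++ [a]) := by simpa using hk
        simpa using h3.swap
      exact ⟨k, by simpa using h2, by omega⟩
    · exact absurd hzb.symm (hbz' rfl rfl)
    · -- a marked
      have hne : expand M0 ≠ [] := by
        apply ne_last (G := G) hM hDne (c := ⟨x, a, z, Fa, ta⟩) (d := ⟨x, a, z, Fa, ta⟩)
          (E := [⟨a, z, y, Fz, tz⟩]) (F := [⟨a, z, y, Fz, tz⟩]) (by simpa using hch) rfl
        exact fun m hm h3 => ha0 m hm rfl h3
      simp only [expand, cost, expand_append, cost_append] at hk hc ⊢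
      simp only [Bool.false_eq_true, if_false, if_true, List.cons_append, List.nil_append,
        List.append_nil, List.length_append, List.length_cons, List.length_nil,
        List.append_assoc] at hk hc ⊢
      have h2 : Null G k (Fa ++ z :: expand M0) := by
        have h3 : Null G k ((z :: expand M0) ++ Fa) := by simpa using hk
        simpa using h3.swap
      exact ⟨k, by simpa using h2.spur (by simp [hne]) hzb, by omega⟩
    · exact absurd haz (haz' rfl rfl)
    · exact absurd hab (hab' rfl rfl)
    · exact absurd hab (hab' rfl rfl)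
  | @right m a b z x y Fz Fb tz tb D hab haz hzb h ih =>
    have hd := (main1 hA _ _ h).1
    have hch := cyc_adj hd.2.1 hd.2.2
    have hDne : D ≠ [] := by
      rintro rfl
      have := hd.1
      simp at this
    intro M hM hOK
    rw [List.map_eq_cons_iff] at hM
    obtain ⟨⟨_, ma⟩, M1, rfl, rfl, hM⟩ := hM
    rw [List.map_eq_cons_iff] at hM
    obtain ⟨⟨_, mb⟩, M2, rfl, rfl, hM⟩ := hM
    rw [List.map_eq_append_iff] at hM
    obtain ⟨M0, M3, rfl, hM, hM3⟩ := hM
    rw [List.map_eq_cons_iff] at hM3
    obtain ⟨⟨_, mz⟩, M4, rfl, rfl, hM4⟩ := hM3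
    rw [List.map_eq_nil_iff] at hM4
    subst hM4
    rw [marksOK_iff] at hOK
    simp only [List.pairwise_cons, List.pairwise_append, List.mem_append, List.mem_cons,
      List.not_mem_nil, or_false, forall_eq_or_imp, forall_eq, IsEmpty.forall_iff, implies_true,
      List.Pairwise.nil, and_true, true_and] at hOK
    obtain ⟨⟨hab', ha0'⟩, hb0', h0, h0z⟩ := hOK
    have haz' := ha0' _ (Or.inr rfl)
    have hbz' := hb0' _ (Or.inr rfl)
    have hOK' : MarksOK G ((⟨x, z, b, Fz, tz⟩, mz) :: (⟨z, b, y, Fb, tb⟩, mb) :: M0) := by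
      rw [marksOK_iff]
      simp only [List.pairwise_cons, List.mem_cons, forall_eq_or_imp]
      refine ⟨⟨rm_symm (rm_congr hbz' rfl (fun h => h)), ?_⟩, ?_, h0⟩
      · intro d hd
        exact rm_symm (h0z d hd)
      · intro d hd
        exact rm_congr (hb0' d (Or.inl hd)) rfl (fun h => h)
    obtain ⟨k, hk, hc⟩ := ih _ (by simp [hM]) hOK'
    cases ma <;> cases mb <;> cases mz
    · -- none
      simp only [expand, cost, expand_append, cost_append] at hk hc ⊢
      simp only [Bool.false_eq_true, if_false, List.cons_append, List.nil_append,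
        List.append_nil] at hk hc ⊢
      have h2 : Null G (k + 1) ([z] ++ (a :: b :: expand M0)) := by
        have h3 : Null G k ([] ++ z :: b :: expand M0) := by simpa using hk
        simpa using h3.push haz.symm hab hzb
      exact ⟨k + 1, by simpa using h2.swap, by omega⟩
    · -- z marked
      have hne : expand M0 ≠ [] := by
        apply ne_last (G := G) hM hDne (c := ⟨x, z, b, Fz, tz⟩) (d := ⟨x, z, b, Fz, tz⟩)
          (E := [⟨x, z, b, Fz, tz⟩, ⟨z, b, y, Fb, tb⟩]) (F := []) (by simpa using hch) rfl
        exact fun m hm h3 => (rm_symm (h0z m hm)) rfl h3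
      simp only [expand, cost, expand_append, cost_append] at hk hc ⊢
      simp only [Bool.false_eq_true, if_false, if_true, List.cons_append, List.nil_append,
        List.append_nil, List.length_append, List.length_cons, List.length_nil] at hk hc ⊢
      have h2 : Null G k ((Fz ++ [b]) ++ (a :: b :: expand M0)) := by
        have h3 : Null G k (Fz ++ b :: expand M0) := by simpa using hk
        simpa using h3.spur (by simp [hne]) hab.symm
      exact ⟨k, by simpa using h2.swap, by omega⟩
    · -- b marked
      have hne : expand M0 ≠ [] := by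
        have hch' : List.IsChain (AdjC G) ((⟨z, b, y, Fb, tb⟩ : Corner V) ::
            (D ++ [⟨x, z, b, Fz, tz⟩])) := by
          simp only [List.cons_append, List.isChain_cons_cons] at hch
          exact hch.2
        apply ne_first (G := G) hM hDne (c := ⟨z, b, y, Fb, tb⟩) (d := ⟨z, b, y, Fb, tb⟩)
          (E := [⟨x, z, b, Fz, tz⟩]) hch' rfl
        exact fun m hm h3 => hb0' m (Or.inl hm) rfl h3
      simp only [expand, cost, expand_append, cost_append] at hk hc ⊢
      simp only [Bool.false_eq_true, if_false, if_true, List.cons_append, List.nil_append,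
        List.append_nil, List.length_cons] at hk hc ⊢
      have h2 : Null G k ([z] ++ (a :: z :: (Fb ++ expand M0))) := by
        have h3 : Null G k ([] ++ z :: (Fb ++ expand M0)) := by simpa using hk
        simpa using h3.spur (by simp [hne]) haz.symm
      exact ⟨k, by simpa using h2.swap, by omega⟩
    · exact absurd hzb.symm (hbz' rfl rfl)
    · -- a marked
      simp only [expand, cost, expand_append, cost_append] at hk hc ⊢
      simp only [Bool.false_eq_true, if_false, if_true, List.cons_append, List.nil_append,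
        List.append_nil, List.length_nil] at hk hc ⊢
      have h2 : Null G k ([z] ++ (b :: expand M0)) := by simpa using hk
      exact ⟨k, by simpa using h2.swap, by omega⟩
    · exact absurd haz (haz' rfl rfl)
    · exact absurd hab (hab' rfl rfl)
    · exact absurd hab (hab' rfl rfl)
  | @both m n a b z x y x' y' Fa Fz Fb Fz' ta tz tb tz' D D' hab haz hzb h h' ih ih' =>
    have hd := (main1 hA _ _ h).1
    have hch := cyc_adj hd.2.1 hd.2.2
    have hDne : D ≠ [] := by
      rintro rfl
      have := hd.1
      simp at this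
    have hd' := (main1 hA _ _ h').1
    have hch' := cyc_adj hd'.2.1 hd'.2.2
    have hDne' : D' ≠ [] := by
      rintro rfl
      have := hd'.1
      simp at this
    intro M hM hOK
    rw [List.map_eq_cons_iff] at hM
    obtain ⟨⟨_, ma⟩, M1, rfl, rfl, hM⟩ := hM
    rw [List.map_eq_cons_iff] at hM
    obtain ⟨⟨_, mb⟩, M2, rfl, rfl, hM⟩ := hM
    rw [List.map_eq_append_iff] at hM
    obtain ⟨N1, M3, rfl, hN1, hM3⟩ := hM
    rw [List.map_eq_cons_iff] at hM3
    obtain ⟨⟨_, mz⟩, N2, rfl, rfl, hN2⟩ := hM3
    rw [marksOK_iff] at hOK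
    simp only [List.pairwise_cons, List.pairwise_append, List.mem_append, List.mem_cons,
      forall_eq_or_imp] at hOK
    obtain ⟨⟨hab', ha0'⟩, hb0', h01, ⟨hz2, h02⟩, h0z⟩ := hOK
    have haz' := ha0' _ (Or.inr (Or.inl rfl))
    have hbz' := hb0' _ (Or.inr (Or.inl rfl))
    have hOK1 : MarksOK G ((⟨x, z, b, Fz, tz⟩, mz) :: (⟨z, b, y, Fb, tb⟩, mb) :: N1) := by
      rw [marksOK_iff]
      simp only [List.pairwise_cons, List.mem_cons, forall_eq_or_imp]
      refine ⟨⟨rm_symm (rm_congr hbz' rfl (fun h => h)), ?_⟩, ?_, h01⟩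
      · intro d hd
        exact rm_symm ((h0z d hd).1)
      · intro d hd
        exact rm_congr (hb0' d (Or.inl hd)) rfl (fun h => h)
    have hOK2 : MarksOK G ((⟨a, z, y', Fz', tz'⟩, mz) :: (N2 ++ [(⟨x', a, z, Fa, ta⟩, ma)])) := by
      rw [marksOK_iff]
      simp only [List.pairwise_cons, List.pairwise_append, List.mem_append, List.mem_cons,
        List.not_mem_nil, or_false, forall_eq, IsEmpty.forall_iff, implies_true,
        List.Pairwise.nil, and_true, true_and]
      refine ⟨?_, h02, ?_⟩
      · intro d hd
        rcases hd with hd | rfl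
        · exact rm_congr (hz2 d hd) rfl (fun h => h)
        · exact rm_symm (rm_congr haz' rfl (fun h => h))
      · intro d hd
        exact rm_symm (rm_congr (ha0' d (Or.inr (Or.inr hd))) rfl (fun h => h))
    obtain ⟨k, hk, hc⟩ := ih _ (by simp [hN1]) hOK1
    obtain ⟨k', hk', hc'⟩ := ih' _ (by simp [hN2]) hOK2
    cases ma <;> cases mb <;> cases mz
    · -- none
      simp only [expand, cost, expand_append, cost_append] at hk hc hk' hc' ⊢
      simp only [Bool.false_eq_true, if_false, List.cons_append, List.nil_append,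
        List.append_nil] at hk hc hk' hc' ⊢
      have h2 : Null G (k + k') (z :: ((b :: expand N1) ++ z :: (expand N2 ++ [a]))) :=
        Null.split (by simp) (by simp) hk hk'
      have h3 : Null G (k + k') ((z :: b :: (expand N1 ++ z :: expand N2)) ++ [a]) := by
        simpa using h2
      have h4 : Null G (k + k') (a :: z :: b :: (expand N1 ++ z :: expand N2)) := by
        simpa using h3.swap
      exact ⟨k + k' + 1, Null.tri hab haz hzb h4, by omega⟩
    · -- z marked
      have hne1 : expand N1 ≠ [] := by
        apply ne_last (G := G) hN1 hDne (c := ⟨x, z, b, Fz, tz⟩) (d := ⟨x, z, b, Fz, tz⟩)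
          (E := [⟨x, z, b, Fz, tz⟩, ⟨z, b, y, Fb, tb⟩]) (F := []) (by simpa using hch) rfl
        exact fun m hm h3 => (rm_symm ((h0z m hm).1)) rfl h3
      have hne2 : expand N2 ≠ [] := by
        apply ne_first (G := G) hN2 hDne' (c := ⟨a, z, y', Fz', tz'⟩)
          (d := ⟨a, z, y', Fz', tz'⟩)
          (E := [⟨x', a, z, Fa, ta⟩, ⟨a, z, y', Fz', tz'⟩]) (by simpa using hch') rfl
        exact fun m hm h3 => hz2 m hm rfl h3
      simp only [expand, cost, expand_append, cost_append] at hk hc hk' hc' ⊢
      simp only [Bool.false_eq_true, if_false, if_true, List.cons_append, List.nil_append,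
        List.append_nil, List.length_append, List.length_cons, List.length_nil] at hk hc hk' hc' ⊢
      have h2 : Null G k' ([] ++ a :: (Fz' ++ expand N2)) := by
        have h3 : Null G k' ((Fz' ++ expand N2) ++ [a]) := by simpa using hk'
        simpa using h3.swap
      have h3 : Null G k' ([a] ++ b :: (a :: (Fz' ++ expand N2))) := by
        simpa using h2.spur (by simp [hne2]) hab
      have h4 : Null G k (b :: (expand N1 ++ Fz)) := by
        have h5 : Null G k (Fz ++ b :: expand N1) := by simpa using hk
        simpa using h5.swap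
      have h5 := h3.loop h4 (by simp) (by simp [hne1])
      refine ⟨k' + k, by simpa using h5, by omega⟩
    · -- b marked
      have hne1 : expand N1 ≠ [] := by
        have hch2 : List.IsChain (AdjC G) ((⟨z, b, y, Fb, tb⟩ : Corner V) ::
            (D ++ [⟨x, z, b, Fz, tz⟩])) := by
          simp only [List.cons_append, List.isChain_cons_cons] at hch
          exact hch.2
        apply ne_first (G := G) hN1 hDne (c := ⟨z, b, y, Fb, tb⟩) (d := ⟨z, b, y, Fb, tb⟩)
          (E := [⟨x, z, b, Fz, tz⟩]) hch2 rfl
        exact fun m hm h3 => hb0' m (Or.inl hm) rfl h3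
      simp only [expand, cost, expand_append, cost_append] at hk hc hk' hc' ⊢
      simp only [Bool.false_eq_true, if_false, if_true, List.cons_append, List.nil_append,
        List.append_nil, List.length_cons] at hk hc hk' hc' ⊢
      have h2 : Null G (k + k') (z :: ((Fb ++ expand N1) ++ z :: (expand N2 ++ [a]))) :=
        Null.split (by simp [hne1]) (by simp) hk hk'
      have h3 : Null G (k + k') ((z :: (Fb ++ (expand N1 ++ z :: expand N2))) ++ [a]) := by
        simpa using h2
      exact ⟨k + k', by simpa using h3.swap, by omega⟩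
    · exact absurd hzb.symm (hbz' rfl rfl)
    · -- a marked
      have hne2 : expand N2 ≠ [] := by
        apply ne_last (G := G) hN2 hDne' (c := ⟨x', a, z, Fa, ta⟩) (d := ⟨x', a, z, Fa, ta⟩)
          (E := [⟨a, z, y', Fz', tz'⟩]) (F := [⟨a, z, y', Fz', tz'⟩]) (by simpa using hch') rfl
        exact fun m hm h3 => ha0' m (Or.inr (Or.inr hm)) rfl h3
      simp only [expand, cost, expand_append, cost_append] at hk hc hk' hc' ⊢
      simp only [Bool.false_eq_true, if_false, if_true, List.cons_append, List.nil_append,
        List.append_nil, List.length_append, List.length_cons, List.length_nil,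
        List.append_assoc] at hk hc hk' hc' ⊢
      have h2 : Null G (k + k') (z :: ((b :: expand N1) ++ z :: (expand N2 ++ Fa))) :=
        Null.split (by simp) (by simp [hne2]) hk hk'
      have h3 : Null G (k + k') ((z :: b :: (expand N1 ++ z :: expand N2)) ++ Fa) := by
        simpa using h2
      exact ⟨k + k', by simpa using h3.swap, by omega⟩
    · exact absurd haz (haz' rfl rfl)
    · exact absurd hab (hab' rfl rfl)
    · exact absurd hab (hab' rfl rfl)


end PD

/-- PD. -/
theorem tPD : T_PD.{u} := by
  intro V G ang hA A D h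
  exact ⟨(PD.main1 hA A D h).1, (PD.main1 hA A D h).2, PD.main3 hA A D h⟩

end Pool.Agent.MSS
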