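import Pool.Agent.MSS.Targets

/-!
# SOLN: iteration along a subnormal series (MP_d6353f_al, MSS)
-/

set_option autoImplicit false

namespace Pool.Agent.MSS

open List Pool.Agent.MSF
open Pool.Agent.MSN.Alg (nC)

universe u

namespace SOLN

/-! ### Group theory -/

/-- A finite nontrivial solvable group: normal subgroup, generator of the quotient, prime. -/
theorem exists_prime_normal (K : Type*) [Group K] [Finite K] [Nontrivial K]
    (hs : Group.IsSolvable K) :
    ∃ (M : Subgroup K) (a : K) (p : ℕ), M.Normal ∧ M ≠ ⊤ ∧ p.Prime ∧ a ^ p ∈ M ∧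
      ∀ h : K, ∃ k : ℕ, ∃ m ∈ M, h = a ^ k * m := by
  have h1 : commutator K < ⊤ := Group.IsSolvable.commutator_lt_top_of_nontrivial K
  obtain h2 | ⟨M, hM, hle⟩ := IsCoatomic.eq_top_or_exists_le_coatom (commutator K)
  · exact absurd h2 h1.ne
  · have hn : M.Normal := by
      refine ⟨fun n hn g => ?_⟩
      have h3 : g * n * g⁻¹ * n⁻¹ ∈ commutator K :=
        Subgroup.commutator_mem_commutator (Subgroup.mem_top g) (Subgroup.mem_top n)
      have h4 := M.mul_mem (hle h3) hn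
      simpa using h4
    have h5 : ∃ c : K, c ∉ M := by
      by_contra h
      push Not at h
      exact hM.1 (eq_top_iff.2 fun x _ => h x)
    obtain ⟨c, hc⟩ := h5
    have hc1 : (c : K ⧸ M) ≠ 1 := fun h => hc ((QuotientGroup.eq_one_iff c).1 h)
    have hq : orderOf (c : K ⧸ M) ≠ 1 := fun h => hc1 (orderOf_eq_one_iff.1 h)
    have hq0 : 0 < orderOf (c : K ⧸ M) := orderOf_pos _
    obtain ⟨r, hr⟩ := Nat.minFac_dvd (orderOf (c : K ⧸ M))
    have hp := Nat.minFac_prime hq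
    set p := (orderOf (c : K ⧸ M)).minFac with hpd
    have hr0 : 0 < r := by
      rcases Nat.eq_zero_or_pos r with h | h
      · rw [h] at hr; omega
      · exact h
    have hrlt : r < orderOf (c : K ⧸ M) := by
      rw [hr]
      have := hp.two_le
      nlinarith
    have hb1 : c ^ r ∉ M := by
      intro h
      have h6 : ((c : K ⧸ M)) ^ r = 1 := by
        rw [← QuotientGroup.mk_pow]
        exact (QuotientGroup.eq_one_iff _).2 h
      exact pow_ne_one_of_lt_orderOf hr0.ne' hrlt h6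
    have hb2 : (c ^ r) ^ p ∈ M := by
      rw [← QuotientGroup.eq_one_iff, QuotientGroup.mk_pow, QuotientGroup.mk_pow, ← pow_mul,
        mul_comm r p, ← hr, pow_orderOf_eq_one]
    refine ⟨M, c ^ r, p, hn, hM.1, hp, hb2, fun h => ?_⟩
    have hsup : Subgroup.zpowers (c ^ r) ⊔ M = ⊤ := by
      apply hM.2
      refine lt_of_le_of_ne le_sup_right fun h => hb1 ?_
      have : c ^ r ∈ Subgroup.zpowers (c ^ r) ⊔ M :=
        Subgroup.mem_sup_left (Subgroup.mem_zpowers _)
      rwa [← h] at this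
    have h7 : h ∈ Subgroup.zpowers (c ^ r) ⊔ M := by rw [hsup]; exact Subgroup.mem_top h
    rw [Subgroup.mem_sup_of_normal_right] at h7
    obtain ⟨y, hy, z, hz, hyz⟩ := h7
    rw [← mem_powers_iff_mem_zpowers] at hy
    obtain ⟨k, hk⟩ := hy
    exact ⟨k, z, hz, by rw [← hyz, ← hk]⟩

theorem sub_prime {H : Type} [Group H] [Finite H] (N : Subgroup H) (hs : Group.IsSolvable N)
    (hN : N ≠ ⊥) : ∃ (M : Subgroup H) (a : H) (p : ℕ), p.Prime ∧ M ≤ N ∧
      Nat.card M < Nat.card N ∧ Group.IsSolvable M ∧ a ∈ N ∧ a ^ p ∈ M ∧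
      (∀ h ∈ N, ∀ n ∈ M, h * n * h⁻¹ ∈ M) ∧ ∀ h ∈ N, ∃ k : ℕ, ∃ m ∈ M, h = a ^ k * m := by
  have hnt : Nontrivial N := (Subgroup.nontrivial_iff_ne_bot N).2 hN
  obtain ⟨M, a, p, hn, hMt, hp, hap, hgen⟩ := exists_prime_normal N hs
  have hle : M.map N.subtype ≤ N := by
    rintro x ⟨y, _, rfl⟩
    exact y.2
  refine ⟨M.map N.subtype, a, p, hp, hle, ?_, ?_, a.2, ?_, ?_, ?_⟩
  · have h1 : Nat.card (M.map N.subtype) = Nat.card M :=
      Nat.card_congr (M.equivMapOfInjective N.subtype N.subtype_injective).symm.toEquiv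
    rw [h1]
    refine lt_of_le_of_ne (Nat.card_le_card_of_injective _ M.subtype_injective) fun h => hMt ?_
    exact Subgroup.eq_top_of_card_eq M h
  · have := hs
    exact Group.isSolvable_of_isSolvable_injective (f := Subgroup.inclusion hle)
      (Subgroup.inclusion_injective hle)
  · exact ⟨a ^ p, hap, rfl⟩
  · rintro h hh n ⟨m, hm, rfl⟩
    exact ⟨⟨h, hh⟩ * m * ⟨h, hh⟩⁻¹, hn.conj_mem m hm ⟨h, hh⟩, rfl⟩
  · intro h hh
    obtain ⟨k, m, hm, he⟩ := hgen ⟨h, hh⟩
    exact ⟨k, m, ⟨m, hm, rfl⟩, by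
      have := congrArg Subtype.val he
      simpa using this⟩

/-! ### Orbits of subgroups -/

section

variable {V : Type u} {H : Type} [Group H] [MulAction H V]

theorem eqv (N : Subgroup H) : Equivalence (orbS (V := V) N) where
  refl x := ⟨1, N.one_mem, one_smul _ x⟩
  symm := by
    rintro x y ⟨h, hh, rfl⟩
    exact ⟨h⁻¹, N.inv_mem hh, inv_smul_smul h x⟩
  trans := by
    rintro x y z ⟨h, hh, rfl⟩ ⟨k, hk, rfl⟩
    exact ⟨k * h, N.mul_mem hk hh, mul_smul k h x⟩

theorem autRel {G : SimpleGraph V} {ang : V → V → V → ℝ}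
    (hadj : ∀ (h : H) (a b : V), G.Adj (h • a) (h • b) ↔ G.Adj a b)
    (hang : ∀ (h : H) (v a b : V), G.Adj v a → G.Adj v b → G.Adj a b →
      ang (h • v) (h • a) (h • b) = ang v a b) (N : Subgroup H) :
    AutRel G ang (orbS (V := V) N) where
  eqv := eqv N
  mov := by
    rintro x y ⟨h, hh, rfl⟩
    exact ⟨MulAction.toPerm h, ⟨fun a b => hadj h a b, fun v a b => hang h v a b⟩, rfl,
      fun z => ⟨h, hh, rfl⟩⟩

open Classical in
/-- Image of an orbit under an element normalising the subgroup. -/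
noncomputable def act {G : SimpleGraph V}
    (hadj : ∀ (h : H) (a b : V), G.Adj (h • a) (h • b) ↔ G.Adj a b) (M : Subgroup H) (h : H)
    (hn : ∀ n, h * n * h⁻¹ ∈ M ↔ n ∈ M) (s : OV G (orbS M)) : OV G (orbS M) :=
  ⟨s.1.image (h • ·), s.2.1.image _, by
    intro x hx y hy hxy
    simp only [Finset.coe_image, Set.mem_image, Finset.mem_coe] at hx hy
    obtain ⟨x', hx', rfl⟩ := hx
    obtain ⟨y', hy', rfl⟩ := hy
    exact (hadj h x' y').2 (s.2.2.1 hx' hy' fun h' => hxy (by rw [h'])), by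
    intro x hx y
    obtain ⟨x', hx', rfl⟩ := Finset.mem_image.1 hx
    constructor
    · intro hy
      obtain ⟨y', hy', rfl⟩ := Finset.mem_image.1 hy
      obtain ⟨n, hnM, hn'⟩ := (s.2.2.2 x' hx' y').1 hy'
      refine ⟨h * n * h⁻¹, (hn n).2 hnM, ?_⟩
      rw [← hn', smul_smul, smul_smul]
      congr 1
      group
    · rintro ⟨m, hm, rfl⟩
      refine Finset.mem_image.2 ⟨(h⁻¹ * m * h) • x', ?_, ?_⟩
      · refine (s.2.2.2 x' hx' _).2 ⟨h⁻¹ * m * h, ?_, rfl⟩
        rw [← hn]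
        have : h * (h⁻¹ * m * h) * h⁻¹ = m := by group
        rw [this]
        exact hm
      · rw [smul_smul, smul_smul]
        congr 1
        group⟩

theorem mem_act {G : SimpleGraph V}
    (hadj : ∀ (h : H) (a b : V), G.Adj (h • a) (h • b) ↔ G.Adj a b) (M : Subgroup H) (h : H)
    (hn : ∀ n, h * n * h⁻¹ ∈ M ↔ n ∈ M) (s : OV G (orbS M)) (y : V) :
    y ∈ (act hadj M h hn s).1 ↔ ∃ x ∈ s.1, h • x = y := by
  classical
  simp [act]

/-- Two orbits with a common element are equal. -/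
theorem ov_ext {G : SimpleGraph V} {r : V → V → Prop} (s t : OV G r) {x : V} (hs : x ∈ s.1)
    (ht : x ∈ t.1) : s = t := by
  apply Subtype.ext
  ext y
  rw [s.2.2.2 x hs, t.2.2.2 x ht]

end

/-! ### The trivial group -/

section

variable {V : Type u} {H : Type} [Group H] [MulAction H V]

theorem bot_iso (G : SimpleGraph V) : Nonempty (G ≃g OG G (orbS (V := V) (⊥ : Subgroup H))) := by
  have hr : ∀ x y : V, orbS (⊥ : Subgroup H) x y ↔ y = x := by
    intro x y
    constructor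
    · rintro ⟨h, hh, rfl⟩
      rw [Subgroup.mem_bot.1 hh, one_smul]
    · rintro rfl
      exact ⟨1, Subgroup.one_mem _, one_smul _ y⟩
  have hs : ∀ x : V, (({x} : Finset V)).Nonempty ∧ G.IsClique ((({x} : Finset V)) : Set V) ∧
      ∀ y ∈ ({x} : Finset V), ∀ z, z ∈ ({x} : Finset V) ↔ orbS (⊥ : Subgroup H) y z := by
    intro x
    refine ⟨Finset.singleton_nonempty x, ?_, ?_⟩
    · simp
    · intro y hy z
      rw [Finset.mem_singleton] at hy
      rw [hr, hy, Finset.mem_singleton]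
  let F : V → OV G (orbS (V := V) (⊥ : Subgroup H)) := fun x => ⟨{x}, hs x⟩
  have hF : Function.Bijective F := by
    constructor
    · intro x y h
      have := congrArg Subtype.val h
      exact Finset.singleton_injective this
    · intro s
      obtain ⟨x, hx⟩ := s.2.1
      exact ⟨x, ov_ext (F x) s (Finset.mem_singleton_self x) hx⟩
  refine ⟨⟨Equiv.ofBijective F hF, ?_⟩⟩
  intro a b
  constructor
  · intro h
    exact h a (Finset.mem_singleton_self a) b (Finset.mem_singleton_self b)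
  · intro h x hx y hy
    rw [Finset.mem_singleton.1 hx, Finset.mem_singleton.1 hy]
    exact h

end

/-- Transport of the last two properties. -/
theorem transport (hISO : T_ISOG.{u}) {V W : Type u} (G : SimpleGraph V) (K : SimpleGraph W)
    (e : G ≃g K) (hsc : SimplyConn G)
    (halt : ∀ n : ℕ, Nat.card V < n → ∑ j ∈ Finset.range n, (-1 : ℤ) ^ j * (nC G j : ℤ) = 0) :
    SimplyConn K ∧
    ∀ n : ℕ, Nat.card W < n → ∑ j ∈ Finset.range n, (-1 : ℤ) ^ j * (nC K j : ℤ) = 0 := by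
  obtain ⟨h1, h2⟩ := hISO G K e
  refine ⟨h1 hsc, fun n hn => ?_⟩
  rw [← Nat.card_congr e.toEquiv] at hn
  rw [← halt n hn]
  refine Finset.sum_congr rfl fun j _ => ?_
  rw [h2 j]

theorem step (hSTEP : T_STEP.{u}) (hOGR : T_OGR.{u}) (hOGA : T_OGA.{u}) (hITER : T_ITER.{u})
    (hISO : T_ISOG.{u}) {V : Type u} [Finite V] (G : SimpleGraph V) (ang : V → V → V → ℝ)
    (hG : GoodC G ang) {H : Type} [Group H] [Finite H] [MulAction H V]
    (hadj : ∀ (h : H) (a b : V), G.Adj (h • a) (h • b) ↔ G.Adj a b)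
    (hang : ∀ (h : H) (v a b : V), G.Adj v a → G.Adj v b → G.Adj a b →
      ang (h • v) (h • a) (h • b) = ang v a b)
    (N M : Subgroup H) (a : H) (p : ℕ) (hp : p.Prime) (hle : M ≤ N) (haN : a ∈ N)
    (hap : a ^ p ∈ M) (hnorm : ∀ h ∈ N, ∀ n ∈ M, h * n * h⁻¹ ∈ M)
    (hgen : ∀ h ∈ N, ∃ k : ℕ, ∃ m ∈ M, h = a ^ k * m)
    (ih : GoodC (OG G (orbS M)) (OA G (orbS M) ang)) :
    GoodC (OG G (orbS N)) (OA G (orbS N) ang) := by
  have hn : ∀ h ∈ N, ∀ n, h * n * h⁻¹ ∈ M ↔ n ∈ M := by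
    intro h hh n
    constructor
    · intro h1
      have h2 := hnorm h⁻¹ (N.inv_mem hh) _ h1
      have h3 : h⁻¹ * (h * n * h⁻¹) * h⁻¹⁻¹ = n := by group
      rwa [h3] at h2
    · exact fun h1 => hnorm h hh n h1
  have hai : a⁻¹ ∈ N := N.inv_mem haN
  set A := act hadj M a (hn a haN) with hA
  set B := act hadj M a⁻¹ (hn _ hai) with hB
  have hAB : ∀ s, A (B s) = s := by
    intro s
    obtain ⟨x, hx⟩ := s.2.1
    refine ov_ext _ s (x := x) ?_ hx
    rw [hA, mem_act]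
    refine ⟨a⁻¹ • x, ?_, smul_inv_smul a x⟩
    rw [hB, mem_act]
    exact ⟨x, hx, rfl⟩
  have hBA : ∀ s, B (A s) = s := by
    intro s
    obtain ⟨x, hx⟩ := s.2.1
    refine ov_ext _ s (x := x) ?_ hx
    rw [hB, mem_act]
    refine ⟨a • x, ?_, inv_smul_smul a x⟩
    rw [hA, mem_act]
    exact ⟨x, hx, rfl⟩
  let g : Equiv.Perm (OV G (orbS M)) := ⟨A, B, hBA, hAB⟩
  have hgA : ∀ s, g s = A s := fun s => rfl
  have hgk : ∀ (k : ℕ) (s : OV G (orbS M)) (x : V), x ∈ s.1 → (a ^ k) • x ∈ ((g ^ k) s).1 := by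
    intro k
    induction k with
    | zero => intro s x hx; simpa using hx
    | succ k ihk =>
      intro s x hx
      have h1 := ihk s x hx
      rw [pow_succ', pow_succ', Equiv.Perm.mul_apply, hgA, hA, mem_act]
      exact ⟨_, h1, by rw [smul_smul]⟩
  have hgp : g ^ p = 1 := by
    ext1 s
    obtain ⟨x, hx⟩ := s.2.1
    have h1 := hgk p s x hx
    refine ov_ext _ _ h1 ?_
    rw [Equiv.Perm.one_apply]
    exact (s.2.2.2 x hx _).2 ⟨a ^ p, hap, rfl⟩
  have hRM := autRel hadj hang M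
  have hRN := autRel hadj hang N
  have hOM := hOGR G ang hG.cf _ hRM
  have haut : IsAut (OG G (orbS M)) (OA G (orbS M) ang) g := by
    have h1 : ∀ s t, (OG G (orbS M)).Adj (g s) (g t) ↔ (OG G (orbS M)).Adj s t := by
      intro s t
      constructor
      · intro h x hx y hy
        rw [← hadj a]
        refine h _ ?_ _ ?_
        · rw [hgA, hA, mem_act]
          exact ⟨x, hx, rfl⟩
        · rw [hgA, hA, mem_act]
          exact ⟨y, hy, rfl⟩
      · intro h x hx y hy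
        rw [hgA, hA, mem_act] at hx hy
        obtain ⟨x', hx', rfl⟩ := hx
        obtain ⟨y', hy', rfl⟩ := hy
        exact (hadj a x' y').2 (h x' hx' y' hy')
    refine ⟨h1, ?_⟩
    intro s t w hst hsw htw
    have h2 := (hOM.2 (g s) (g t) (g w) ((h1 s t).2 hst) ((h1 s w).2 hsw)
      ((h1 t w).2 htw)).2 (a • rep s) ?_ (a • rep t) ?_ (a • rep w) ?_
    · rw [h2]
      exact hang a _ _ _ (hst _ (rep_mem s) _ (rep_mem t)) (hsw _ (rep_mem s) _ (rep_mem w))
        (htw _ (rep_mem t) _ (rep_mem w))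
    · rw [hgA, hA, mem_act]
      exact ⟨_, rep_mem s, rfl⟩
    · rw [hgA, hA, mem_act]
      exact ⟨_, rep_mem t, rfl⟩
    · rw [hgA, hA, mem_act]
      exact ⟨_, rep_mem w, rfl⟩
  have : Finite (OV G (orbS M)) := by
    unfold OV
    infer_instance
  have hst := hSTEP (OG G (orbS M)) (OA G (orbS M) ang) ih g haut p hp hgp
  have hrel : (fun s t : OV G (orbS M) => ∃ x ∈ s.1, ∃ y ∈ t.1, orbS N x y) = orbg g := by
    funext s t
    apply propext
    constructor
    · rintro ⟨x, hx, y, hy, h, hh, rfl⟩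
      obtain ⟨k, m, hm, rfl⟩ := hgen h hh
      refine ⟨k, ?_⟩
      have h1 : m • x ∈ s.1 := (s.2.2.2 x hx _).2 ⟨m, hm, rfl⟩
      have h2 := hgk k s _ h1
      rw [smul_smul] at h2
      exact ov_ext _ _ h2 hy
    · rintro ⟨k, rfl⟩
      obtain ⟨x, hx⟩ := s.2.1
      exact ⟨x, hx, _, hgk k s x hx, a ^ k, N.pow_mem haN k, rfl⟩
  obtain ⟨e⟩ := hITER G (orbS M) (orbS N) (eqv M) (eqv N)
    (fun x y => by
      rintro ⟨h, hh, rfl⟩
      exact ⟨h, hle hh, rfl⟩)
    (fun s x hx y => by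
      rintro ⟨h, hh, rfl⟩
      exact ⟨act hadj M h (hn h hh) s, (mem_act hadj M h (hn h hh) s _).2 ⟨x, hx, rfl⟩⟩)
  rw [hrel] at e
  obtain ⟨h5, h6⟩ := transport hISO _ _ e hst.sc hst.alt
  exact ⟨hOGA G ang hG.angled hG.cf _ hRN, (hOGR G ang hG.cf _ hRN).1, h5, h6⟩

end SOLN

theorem tSOLN (hSTEP : T_STEP.{u}) (hOGR : T_OGR.{u}) (hOGA : T_OGA.{u}) (hITER : T_ITER.{u})
    (hISO : T_ISOG.{u}) : T_SOLN.{u} := by
  intro V _ G ang hG H _ _ _ hadj hang N hs
  induction hc : Nat.card N using Nat.strong_induction_on generalizing N with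
  | _ c ih =>
  by_cases hN : N = ⊥
  · subst hN
    obtain ⟨e⟩ := SOLN.bot_iso (H := H) G
    obtain ⟨h5, h6⟩ := SOLN.transport hISO _ _ e hG.sc hG.alt
    have hR := SOLN.autRel hadj hang (⊥ : Subgroup H)
    exact ⟨hOGA G ang hG.angled hG.cf _ hR, (hOGR G ang hG.cf _ hR).1, h5, h6⟩
  · obtain ⟨M, a, p, hp, hle, hcard, hsM, haN, hap, hnorm, hgen⟩ := SOLN.sub_prime N hs hN
    exact SOLN.step hSTEP hOGR hOGA hITER hISO G ang hG hadj hang N M a p hp hle haN hap hnorm
      hgen (ih (Nat.card M) (by rw [← hc]; exact hcard) M hsM rfl)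

end Pool.Agent.MSS
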