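import Pool.Agent.MSS.Defs

/-!
# Targets: finite solvable groups on metrically systolic complexes (MP_d6353f_al, MSS)

Every `T_X` is one job: prove `theorem tX …` in `Pool/Agent/MSS/X.lean`, namespace `Pool.Agent.MSS`.
Proofs: rows 5215 and 5216 of the table `ideas` (numbers (1), (2), (3a) … refer to them) and the
comments below. Hypotheses `T_Y` may be used in the form `theorem tX (h : T_Y.{u}) : T_X.{u}`.
-/

namespace Pool.Agent.MSS

open List Pool.Agent.MSF
open Pool.Agent.MSO (SEx SExj Cl Cmp NC MEx)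
open Pool.Agent.MSN (NonObtuse)
open Pool.Agent.MSN.Alg (nC)

universe u

/-! ### A. Orbit complexes -/

/-- OGR. In a triangle of the orbit complex at most four vertices of `V` occur (the union is a clique,
and different orbits are disjoint), so at least two of the three orbits have one element; angles do
not depend on the representatives (`AutRel.mov` moves one element of the only big orbit to any
other one and fixes the elements of the single orbits). A clique with five elements of the orbit
complex gives one of `G`. -/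
def T_OGR : Prop := ∀ {V : Type u} (G : SimpleGraph V) (ang : V → V → V → ℝ), G.CliqueFree 5 →
  ∀ r : V → V → Prop, AutRel G ang r →
  (OG G r).CliqueFree 5 ∧
  (∀ s t u : OV G r, (OG G r).Adj s t → (OG G r).Adj s u → (OG G r).Adj t u →
    s.1.card + t.1.card + u.1.card ≤ 4 ∧
    ∀ x ∈ s.1, ∀ y ∈ t.1, ∀ z ∈ u.1, OA G r ang s t u = ang x y z)

/-- OGA (uses T_OGR). `symm`, `pos`, `sum_le`, `link` from representatives (`link`: in a 4-clique of the
orbit complex all orbits have one element). `large`, see (1): for the closed walk `a, b, l` in the link of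
`s`: if `s` has more than one element, all members of the walk have one element (T_OGR), apply
`Angled.large` to the elements. If `s = {y}`, of two consecutive members at most one is big. Lift the
path `b, l, a` (induction along the list): a lift `x` of one member and a lift of the member before being
chosen, choose the lift `z` of the next member not adjacent (and not equal) to the member two steps
before: if the orbits `t, u` two steps apart are different and not adjacent, there are `x₀ ∈ t`,
`z₀ ∈ u` not adjacent, and for every `x ∈ t` an automorphism `g` of `mov` with `g x₀ = x`, so `x` is not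
adjacent to `g z₀ ∈ u`. The lifted closed walk has the same length (T_OGR), no ear in `l`. -/
def T_OGA : Prop := ∀ {V : Type u} (G : SimpleGraph V) (ang : V → V → V → ℝ), Angled G ang →
  G.CliqueFree 5 → ∀ r : V → V → Prop, AutRel G ang r → Angled (OG G r) (OA G r ang)

/-- ITER. Orbits of orbits: `T ↦` the union of the members of `T`; inverse
`s ↦ {t | t.1 ⊆ s.1}`. The class of `x ∈ s` for `r'` is contained in `s`, so it is a clique. -/
def T_ITER : Prop := ∀ {V : Type u} (G : SimpleGraph V) (r' r : V → V → Prop), Equivalence r' →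
  Equivalence r → (∀ x y, r' x y → r x y) →
  (∀ s : OV G r', ∀ x ∈ s.1, ∀ y, r x y → ∃ t : OV G r', y ∈ t.1) →
  Nonempty (OG (OG G r') (fun s t => ∃ x ∈ s.1, ∃ y ∈ t.1, r x y) ≃g OG G r)

/-- ISOG. Transport along an isomorphism (`Elem`, chains, lists: `List.map`). -/
def T_ISOG : Prop := ∀ {V W : Type u} (G : SimpleGraph V) (K : SimpleGraph W), (G ≃g K) →
  (SimplyConn G → SimplyConn K) ∧ ∀ j, nC G j = nC K j

/-! ### B. Exactness -/

/-- ALLP. Proof of MSO/KEYP with `GoodC` instead of `MetricallySystolic` and `NonObtuse`. -/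
def T_ALLP : Prop := ∀ {V : Type u} [Fintype V] [LinearOrder V] (G : SimpleGraph V)
  (ang : V → V → V → ℝ), GoodC G ang → ∀ (p : ℕ) [Fact p.Prime], SEx (ZMod p) (Cl G)

/-- ALT (uses MSO.T_LEF). `T_LEF` for `g = 1`: `∑ (-1)^card * eps 1 s = 0` over all cliques `s`,
`eps 1 s = 1`; sort by the number of elements. -/
def T_ALT : Prop := ∀ {V : Type u} [Fintype V] [LinearOrder V] (G : SimpleGraph V) (p : ℕ)
  [Fact p.Prime], SEx (ZMod p) (Cl G) →
  ∀ n : ℕ, Nat.card V < n → ∑ j ∈ Finset.range n, (-1 : ℤ) ^ j * (nC G j : ℤ) = 0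

/-- CONN. Nonempty: otherwise `c ∅ = 1` is closed and not a coboundary. Connected: for a vertex `o` let
`c s = 1` if `s = {v}` with `v` reachable from `o`, else `0`; closed; `c {v} = e ∅` for all `v` (up to the
sign `sg {v} v`, which is the same for all `v`). -/
def T_CONN : Prop := ∀ {V : Type u} [LinearOrder V] (G : SimpleGraph V) (p : ℕ)
  [Fact p.Prime], SEx (ZMod p) (Cl G) → G.Connected

/-- BRI, see (3a). `c {s, t} = 1`, `c = 0` else: closed since no clique with three elements contains
`s, t`. So `c {u, v} = ± (e {u} - e {v})` for edges; along a path which does not use the edge `s t` the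
function `e` is constant, so `e {s} = e {t}` and `c {s, t} = 0`, contradiction. -/
def T_BRI : Prop := ∀ {V : Type u} [LinearOrder V] (G : SimpleGraph V) (p : ℕ)
  [Fact p.Prime], SEx (ZMod p) (Cl G) → ∀ s t : V, G.Adj s t →
  (∀ u, G.Adj s u → ¬ G.Adj t u) → ¬ (G.deleteEdges {s(s, t)}).Reachable s t

/-- SUBDR: the converse of MSO.T_SUBD, same double complex (MSO/SUBD), see (2): `MEx` on `U = {t ≠ ∅}`
((ii) there), `MEx` on `{t = ∅}` (hypothesis), so `MEx D` (T_FIL with level `0` or `1`); `MEx` on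
`U' = {σ ≠ ∅}` ((i) there); TWO: `MEx` on `{σ = ∅}`, which is the claim. -/
def T_SUBDR : Prop := ∀ {V : Type u} [Fintype V] [LinearOrder V] (F : Type) [Field F]
  (G : SimpleGraph V) [LinearOrder (NC G)], SEx F (Cl (Cmp G)) → SEx F (Cl G)

/-- SMITH (uses T_SUBDR, MSO.T_SUBD, MSO.T_SMP or MSO.T_SMI), see (2) and MSO/OLF. Chains of
`g`-invariant nonempty cliques are exact. The map `NC (OG G (orbg g)) → NC G`, `T ↦` union of its
members, is injective with image the `g`-invariant nonempty cliques and preserves and reflects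
inclusion; use it to define the linear order on `NC (OG ..)` from the one on `NC G`; `T_SUBDR`. -/
def T_SMITH : Prop := ∀ {V : Type u} [Fintype V] [LinearOrder V] (G : SimpleGraph V) (p : ℕ)
  [Fact p.Prime], SEx (ZMod p) (Cl G) → ∀ g : Equiv.Perm V,
  (∀ a b, G.Adj (g a) (g b) ↔ G.Adj a b) → g ^ p = 1 →
  ∀ [LinearOrder (OV G (orbg g))], SEx (ZMod p) (Cl (OG G (orbg g)))

/-! ### C. Bridges, odd primes -/

/-- BRN, see (3a). Strong induction on the length of the closed walk `w` of `G`. If all edges of `w` are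
edges of `G₁`: hypothesis. Otherwise rotate: `w = s :: t :: l` with `s t` a bridge (not in `G₁`). The path
`t, l, s` must use the edge `s t` again (otherwise `s` and `t` are joined in `G.deleteEdges`), and the
first time it does so it goes from `t` to `s` (a part from `t` to `s` not using the edge is
impossible): `w = s :: (t :: l₁) ++ (t :: s :: l₂)` or so, with closed walks `t :: l₁` and
`s :: l₂`, both shorter, null by induction; `w` is null (`Null.split`, `Null.spur`/`Null.dig`). -/
def T_BRN : Prop := ∀ {V : Type u} (G G₁ : SimpleGraph V), G₁ ≤ G →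
  (∀ s t, G.Adj s t → ¬ G₁.Adj s t → ¬ (G.deleteEdges {s(s, t)}).Reachable s t) →
  (∀ w, CW G₁ w → ∃ A, Null G A w) → ∀ w, CW G w → ∃ A, Null G A w

/-- FIX3 (uses MSF.T_DS, MSF.T_CONE, MSF.T_ZIP), see (3b): MSF/T3 with `S = univ`; the only change is
the last step. If the first inner vertex `u` is not fixed, `no_move` for the automorphisms `g ^ j`,
`0 < j < p` (which do not fix `u` as `p` is prime), gives `(g ^ j) u ~ u` for all `j`; so
`x, v, u, g u, …, g^(p-1) u` is a clique with `p + 2 ≥ 5` elements. -/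
def T_FIX3 : Prop := ∀ {V : Type u} (G : SimpleGraph V) (ang : V → V → V → ℝ), Angled G ang →
  G.CliqueFree 5 → (∀ w, CW G w → ∃ A, Null G A w) → ∀ g : Equiv.Perm V, IsAut G ang g →
  ∀ p : ℕ, p.Prime → 3 ≤ p → g ^ p = 1 →
  ∀ w, CW (resG G {v | g v = v}) w → ∃ A, Null (resG G {v | g v = v}) A w

/-- ODD (uses T_FIX3). An orbit has `1` or `p ≥ 3` elements, so the members of a closed walk of `ZG` with
at least two members have one element (`[s]` is `Null.pt`). Map the filling of the elements back. -/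
def T_ODD : Prop := ∀ {V : Type u} (G : SimpleGraph V) (ang : V → V → V → ℝ), Angled G ang →
  G.CliqueFree 5 → (∀ w, CW G w → ∃ A, Null G A w) → ∀ g : Equiv.Perm V, IsAut G ang g →
  ∀ p : ℕ, p.Prime → 3 ≤ p → g ^ p = 1 →
  ∀ w, CW (ZG G (orbg g)) w → ∃ A, Null (OG G (orbg g)) A w

/-! ### D. Involutions -/

/-- RELAB. Relabel one vertex of a null closed walk. Induction on `m` with MSF.T_PEEL for the edge
`u → b`, where `t = b :: t'` (so `q = b`, `p = u`, the list is `b :: (t' ++ [u])`). First alternative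
`u, z, b, t'` with area `m' < m`: induction; if it splits, `z :: b :: t' = s ++ u :: s'`, `s = z :: b :: s₂`
(as `z, b ≠ u`), and `u :: b :: s₂` is null with one more triangle. Second alternative
`b :: (t' ++ [u]) = P ++ Q`: if `Q = [u]`, the walk is `u, b` or `u, b, l', b` with `b :: l'` null: put `u'`
(a spur at `b`). If `Q = u :: (l ++ [u])`: `t = P ++ u :: l` splits. -/
def T_RELAB : Prop := ∀ {V : Type u} (G : SimpleGraph V) (m : ℕ) (u u' : V) (t : List V),
  (∀ x, G.Adj u x → G.Adj u' x) → t ≠ [] → Null G m (u :: t) →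
  Null G m (u' :: t) ∨ ∃ (s s' : List V) (m₁ m₂ : ℕ), t = s ++ u :: s' ∧ s ≠ [] ∧ s' ≠ [] ∧
    Null G m₁ (u :: s) ∧ Null G m₂ (u :: s') ∧ m₁ + m₂ ≤ m

/-- FILLR: MSF/FILL, the filling uses only vertices of `c`. (Same induction; statement for
`resG G S` with `S` containing the elements of `c`.) -/
def T_FILLR : Prop := ∀ {V : Type u} (G : SimpleGraph V) (ang : V → V → V → ℝ), Angled G ang →
  ∀ (v : V) (c : List V), 2 ≤ c.length → CW G c → (∀ x ∈ c, G.Adj v x) →
  clen ang v c < 2 * Real.pi → Null (resG G {x | x ∈ c}) (c.length - 2) c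

/-- PD: MSF/DISC1, DISC2, DISC3 (only `symm`, `pos`, `sum_le` of `Angled` are used there). -/
def T_PD : Prop := ∀ {V : Type u} (G : SimpleGraph V) (ang : V → V → V → ℝ), PAng G ang →
  ∀ (A : ℕ) (D : List (Corner V)), Disc G ang A D →
    (3 ≤ D.length ∧ CycC D ∧ ∀ c ∈ D, CornerOK G ang c) ∧
    2 * Real.pi ≤ (D.map fun c => Real.pi - c.th).sum ∧
    ∀ M : List (Corner V × Bool), M.map Prod.fst = D → MarksOK G M →
      ∃ k, Null G k (expand M) ∧ k + cost M ≤ A

/-- DSH (uses T_PD, MSF.T_A3, MSF.T_RED, MSF.T_FILL, MSF.T_GLUE): disc diagrams for minimal walks with two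
labellings. `avA ang l₁ l₂` is `PAng` for `K`. MSF/DEX for `K` with this angle function: `MinA K` follows
from the minimality of `w.map l₁`; carry along that the images of all intermediate walks under `l₁` and
`l₂` have minimal area in `G` (first triangle: `Null.tri` / `triAt`; RED: the pieces have areas `m + n = k`,
a piece of smaller area would give a smaller area of the whole). The new interior vertex (MSF/ANGZ):
if `tz + avA .. z b a < 2π`, then for `i = 1` or `2` the image under `l_i` of the closed walk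
`a :: (Fz ++ [b])` in the link of `l_i z` is shorter than `2π`, T_FILL in `G`, T_GLUE as in ANGZ:
contradiction to the minimality of the image under `l_i`. -/
def T_DSH : Prop := ∀ {V W : Type u} (G : SimpleGraph V) (K : SimpleGraph W)
  (ang : V → V → V → ℝ) (l₁ l₂ : W → V), Angled G ang →
  (∀ a b, K.Adj a b → G.Adj (l₁ a) (l₁ b)) → (∀ a b, K.Adj a b → G.Adj (l₂ a) (l₂ b)) →
  ∀ (A : ℕ) (w : List W), 3 ≤ w.length → Null K A w →
  (∀ k, Null G k (w.map l₁) → A ≤ k) → (∀ k, Null G k (w.map l₂) → A ≤ k) → Irr K A w →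
  ∃ D : List (Corner W), D.map Corner.v = w ∧ CycC D ∧
    (∀ c ∈ D, CornerOK K (avA ang l₁ l₂) c) ∧
    2 * Real.pi ≤ (D.map fun c => Real.pi - c.th).sum ∧
    ∀ M : List (Corner W × Bool), M.map Prod.fst = D → MarksOK K M →
      ∃ k, Null K k (expand M) ∧ k + cost M ≤ A

/-- The inequality of a corner `c` with neighbours `p`, `q` and fan `F`, in the cases (Y), (B), (N) of
(3c). -/
def CIneq {V : Type u} (G : SimpleGraph V) (ang : V → V → V → ℝ) (f : Equiv.Perm V)
    (p c q : V × Bool) (F : List (V × Bool)) : Prop :=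
  (c.2 = false ∧ f c.1 = c.1 ∧
    2 * plen (angH f ang) c (p :: (F ++ [q])) + gap G f ang c.1 p + gap G f ang c.1 q <
      2 * Real.pi) ∨
  (c.2 = true ∧ plen (angH f ang) c (p :: (F ++ [q])) < Real.pi) ∨
  (c.2 = false ∧ G.Adj c.1 (f c.1) ∧ plen (angH f ang) c (p :: (F ++ [q])) +
    ang c.1 p.1 (f c.1) + ang c.1 q.1 (f c.1) < 2 * Real.pi)

/-- SEL, see SELECTION in (3c). Suppose all corners are bad. For a label `v` and a neighbour `x` put
`h v x = gap v x / 2` if `v` is single, `0` if `v.2 = true`, `ang v.1 x.1 (f v.1) - π / 2` else. Then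
`π - th ≤ h c.v c.p + h c.v c.n` for every corner, and `h v x + h x v ≤ 0` for consecutive `v, x` (angle
sum of the triangle `y, b, f b`, and `ang (f b) y b = ang b y (f b)` as `f y = y`). The cyclic sum
of `h c.v c.p + h c.v c.n` is the sum of `h c.v c.n + h c.n c.v` (`CycC`), so it is `≤ 0 < 2π`. -/
def T_SEL : Prop := ∀ {V : Type u} (G : SimpleGraph V) (ang : V → V → V → ℝ)
  (f : Equiv.Perm V) (ρ : V → V) (B : Set V), Inv G ang f ρ →
  ∀ D : List (Corner (V × Bool)), CycC D →
  (∀ c ∈ D, CornerOK (HG G f B) (angH f ang) c) →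
  2 * Real.pi ≤ (D.map fun c => Real.pi - c.th).sum →
  (∀ c ∈ D, (c.v.2 = false ∧ f c.v.1 = c.v.1) ∨ (G.Adj c.v.1 (f c.v.1) ∧
    c.p.2 = false ∧ f c.p.1 = c.p.1 ∧ c.n.2 = false ∧ f c.n.1 = c.n.1)) →
  ∃ c ∈ D, CIneq G ang f c.p c.v c.n c.F

/-- CF (uses T_DSH, T_SEL, MSF.T_ZIP): the good corner, as a rotation of the walk (see
`T3.corner_form` in MSF/T3, with one marked corner, and `hxy` there for `p ≠ q`). Minimality of
`w.map Prod.fst` and `w.map (l2 f)`: `Sit.min` (`ρ (f b) = ρ b`). The types of consecutive labels come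
from `Sit.cw` and `Sit.fl`. -/
def T_CF : Prop := ∀ {V : Type u} (G : SimpleGraph V) (ang : V → V → V → ℝ)
  (f : Equiv.Perm V) (ρ : V → V) (A n : ℕ) (w : List (V × Bool)), Sit G ang f ρ A n w →
  3 ≤ n → Irr (HG G f (tB w)) A w →
  ∃ (p c q : V × Bool) (R F : List (V × Bool)), w ~r (p :: c :: q :: R) ∧ p ≠ q ∧
    GP G f (tB w) A p c q R F ∧ CIneq G ang f p c q F

/-- ROT: rotation and reversal. -/
def T_ROT : Prop := ∀ {V : Type u} (G : SimpleGraph V) (ang : V → V → V → ℝ)
  (f : Equiv.Perm V) (ρ : V → V) (A n : ℕ) (w w' : List (V × Bool)), Sit G ang f ρ A n w →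
  (w ~r w' ∨ w.reverse ~r w') → Sit G ang f ρ A n w' ∧ (Fin G f ρ w' → Fin G f ρ w)

/-- BCOR, see (B) (uses MSF.T_CONE, MSF.T_ZIP). Compare MSF/T3: `Good` paths and `good_noEar`. The inner
vertices of paths in the link of `(b, true)` are single labels `(u, false)`, `u ~ b`, `u ~ f b`. -/
def T_BCOR : Prop := ∀ {V : Type u} (G : SimpleGraph V) (ang : V → V → V → ℝ)
  (f : Equiv.Perm V) (ρ : V → V) (A n : ℕ) (p c q : V × Bool) (R F : List (V × Bool)),
  Sit G ang f ρ A n (p :: c :: q :: R) → p ≠ q → c.2 = true →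
  GP G f (tB (p :: c :: q :: R)) A p c q R F →
  plen (angH f ang) c (p :: (F ++ [q])) < Real.pi → Fin G f ρ (p :: c :: q :: R)

/-- NCOR, see (N) (uses MSF.T_CONE, MSF.T_ZIP). -/
def T_NCOR : Prop := ∀ {V : Type u} (G : SimpleGraph V) (ang : V → V → V → ℝ)
  (f : Equiv.Perm V) (ρ : V → V) (A n : ℕ) (p c q : V × Bool) (R F : List (V × Bool)),
  Sit G ang f ρ A n (p :: c :: q :: R) → p ≠ q → c.2 = false → G.Adj c.1 (f c.1) →
  GP G f (tB (p :: c :: q :: R)) A p c q R F →
  plen (angH f ang) c (p :: (F ++ [q])) + ang c.1 p.1 (f c.1) + ang c.1 q.1 (f c.1) <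
    2 * Real.pi → Fin G f ρ (p :: c :: q :: R)

/-- The inequality of the case (Y). -/
def YIneq {V : Type u} (G : SimpleGraph V) (ang : V → V → V → ℝ) (f : Equiv.Perm V)
    (p c q : V × Bool) (F : List (V × Bool)) : Prop :=
  2 * plen (angH f ang) c (p :: (F ++ [q])) + gap G f ang c.1 p + gap G f ang c.1 q <
    2 * Real.pi

/-- YCL, see CLEANING (uses T_RELAB, MSF.T_CONE). -/
def T_YCL : Prop := ∀ {V : Type u} (G : SimpleGraph V) (ang : V → V → V → ℝ)
  (f : Equiv.Perm V) (ρ : V → V) (A n : ℕ) (p c q : V × Bool) (R F : List (V × Bool)),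
  Sit G ang f ρ A n (p :: c :: q :: R) → p ≠ q → c.2 = false → f c.1 = c.1 →
  GP G f (tB (p :: c :: q :: R)) A p c q R F → YIneq G ang f p c q F → 0 < nT F →
  Fin G f ρ (p :: c :: q :: R) ∨ ∃ F', GP G f (tB (p :: c :: q :: R)) A p c q R F' ∧
    YIneq G ang f p c q F' ∧ nT F' < nT F

/-- Y0, see (Y0) (uses MSF.T_CONE, MSF.T_ZIP): MSF/T3 with `no_move`; an inserted first vertex may be
flipped. -/
def T_Y0 : Prop := ∀ {V : Type u} (G : SimpleGraph V) (ang : V → V → V → ℝ)
  (f : Equiv.Perm V) (ρ : V → V) (A n : ℕ) (p c q : V × Bool) (R : List (V × Bool))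
  (F : List V), Sit G ang f ρ A n (p :: c :: q :: R) → p ≠ q → c.2 = false → f c.1 = c.1 →
  f p.1 = p.1 → f q.1 = q.1 →
  GP G f (tB (p :: c :: q :: R)) A p c q R (F.map fun x => (x, false)) →
  YIneq G ang f p c q (F.map fun x => (x, false)) → Fin G f ρ (p :: c :: q :: R)

/-- The closed walk `b, P, q, [f q], (f P)⁻¹, [f b]` (`[f b]` only if `tp = false`, `[f q]` only if
`tq = false`). -/
def cC {V : Type u} (f : Equiv.Perm V) (tp tq : Bool) (b q : V) (P : List V) : List V :=
  b :: (P ++ q :: ((if tq then [] else [f q]) ++ ((P.map f).reverse ++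
    (if tp then [] else [f b]))))

/-- The conditions on the closed walk `cC`; `q` may be fixed, then `tq = true`. -/
structure CT {V : Type u} (G : SimpleGraph V) (f : Equiv.Perm V) (tp tq : Bool) (y b q : V)
    (P : List V) : Prop where
  fy : f y = y
  fb : G.Adj b (f b)
  ne : P ≠ []
  nf : ∀ x ∈ P, f x ≠ x
  chain : List.IsChain G.Adj (b :: (P ++ [q]))
  link : ∀ x ∈ b :: (P ++ [q]), G.Adj y x
  hp : tp = true → ∀ x ∈ P.head?, G.Adj x (f b)
  hq : tq = true → (f q = q ∨ G.Adj q (f q)) ∧ ∀ x ∈ P.getLast?, G.Adj x (f q)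
  hq' : tq = false → G.Adj q (f q)

/-- CLC. The second half of the walk is the image under `f` of the reversed path from `b` (`f b` if
`tp`) to `q` (`f q` if `tq`). -/
def T_CLC : Prop := ∀ {V : Type u} (G : SimpleGraph V) (ang : V → V → V → ℝ)
  (f : Equiv.Perm V) (ρ : V → V), Inv G ang f ρ → ∀ (tp tq : Bool) (y b q : V) (P : List V),
  CT G f tp tq y b q P →
  CW G (cC f tp tq b q P) ∧ (∀ x ∈ cC f tp tq b q P, G.Adj y x) ∧
  clen ang y (cC f tp tq b q P) = plen ang y (b :: (P ++ [q])) +
    plen ang y ((if tp then f b else b) :: (P ++ [if tq then f q else q])) +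
    (if tp then 0 else ang y b (f b)) + (if tq then 0 else ang y q (f q))

/-- MOD2, see MOD2 in row 5216 (uses T_CLC, T_FILLR, MSO.T_WBAS, MSO.T_WPAIR, MSF.T_RES). Values in
`ZMod 2`; work in `K = resG G {x | G.Adj y x ∧ (x ∈ C ∨ f x ∈ C)}`, which has no 4-cliques. Useful small
lemmas on `NullW` (induction): map by an automorphism; map of the values by a homomorphism (use
`ω = (ω₊, ω₋)` with values in `ZMod 2 × ZMod 2` and the sum); value of a coboundary `δ χ` is the cyclic
sum of `χ`. To choose `S₊`: a linear order on `V` (`w < f w`). -/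
def T_MOD2 : Prop := ∀ {V : Type u} (G : SimpleGraph V) (ang : V → V → V → ℝ)
  (f : Equiv.Perm V) (ρ : V → V), Inv G ang f ρ → ∀ (tp tq : Bool) (y b q : V) (P : List V),
  CT G f tp tq y b q P → q ≠ b → q ≠ f b →
  clen ang y (cC f tp tq b q P) < 2 * Real.pi → f q = q ∧ G.Adj q b

/-- Y1, see (Y1) (uses T_CLC, T_MOD2, MSF.T_FILL, MSF.T_GLUE, MSF.T_CONE, MSF.T_GEN). -/
def T_Y1 : Prop := ∀ {V : Type u} (G : SimpleGraph V) (ang : V → V → V → ℝ)
  (f : Equiv.Perm V) (ρ : V → V) (A n : ℕ) (p c q : V × Bool) (R : List (V × Bool))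
  (F : List V), Sit G ang f ρ A n (p :: c :: q :: R) → p ≠ q → c.2 = false → f c.1 = c.1 →
  G.Adj p.1 (f p.1) →
  GP G f (tB (p :: c :: q :: R)) A p c q R (F.map fun x => (x, false)) →
  YIneq G ang f p c q (F.map fun x => (x, false)) → Fin G f ρ (p :: c :: q :: R)

/-- YCOR (uses T_YCL, T_Y0, T_Y1, T_ROT): induction on `nT F` with T_YCL; for `nT F = 0` the path `F` is
`F₀.map (·, false)`; T_Y0, T_Y1, or T_Y1 for the reversed walk `q, c, p, R⁻¹`. -/
def T_YCOR : Prop := ∀ {V : Type u} (G : SimpleGraph V) (ang : V → V → V → ℝ)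
  (f : Equiv.Perm V) (ρ : V → V) (A n : ℕ) (p c q : V × Bool) (R F : List (V × Bool)),
  Sit G ang f ρ A n (p :: c :: q :: R) → p ≠ q → c.2 = false → f c.1 = c.1 →
  GP G f (tB (p :: c :: q :: R)) A p c q R F → YIneq G ang f p c q F →
  Fin G f ρ (p :: c :: q :: R)

/-- TWOV (uses T_CF, T_BCOR, T_NCOR, T_YCOR, T_ROT), see (3c): strong induction on the area `A`, then on
the length `n`, of a lift (statement for all `w` with `CW (Z1 G f) w`, `Null G A w`, `w.length = n`). If
some `w'` with `w'.map ρ = w.map ρ` has area `< A`: induction (`w'` is again a walk of `Z1`, as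
`w' i ∈ {w i, f (w i)}`). `n ≤ 2`: trivial. Otherwise take a list of labels `w'` with
`w'.map (ρ ·.1) = w.map ρ`, flipped double labels and `Null (HG G f (tB w')) A w'` with `nT w'` maximal
(`w.map (·, false)` is one, `nT ≤ n`); this is `Sit`. If it is not irreducible: it splits into two
walks, project with `Prod.fst`, both are shorter: induction, `Null.split`. Else T_CF and the three
corner statements. -/
def T_TWOV : Prop := ∀ {V : Type u} (G : SimpleGraph V) (ang : V → V → V → ℝ)
  (f : Equiv.Perm V) (ρ : V → V), Inv G ang f ρ → (∀ w, CW G w → ∃ A, Null G A w) →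
  ∀ w, CW (Z1 G f) w → ∃ B, Null (RG G f ρ) B (w.map ρ)

/-- TWO (uses T_TWOV): from `V` to the orbit complex. `ρ` chooses an element of `{v, g v}`. A walk of
`ZG` is lifted to a walk of `Z1` by representatives with `ρ v = v`; the filling in `RG` is mapped to the orbit
complex by `v ↦` orbit of `v` (defined for short `v`). `Inv.br` from `hbr`: an edge `b c` of `SG` with
both ends flipped is an edge of the orbit complex with `2 + 2 = 4` vertices, not used by the image of
a path of `Z1`. -/
def T_TWO : Prop := ∀ {V : Type u} (G : SimpleGraph V) (ang : V → V → V → ℝ), Angled G ang →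
  G.CliqueFree 5 → (∀ w, CW G w → ∃ A, Null G A w) → ∀ g : Equiv.Perm V, IsAut G ang g →
  g ^ 2 = 1 →
  (∀ s t : OV G (orbg g), (OG G (orbg g)).Adj s t → 4 ≤ s.1.card + t.1.card →
    ¬ ((OG G (orbg g)).deleteEdges {s(s, t)}).Reachable s t) →
  ∀ w, CW (ZG G (orbg g)) w → ∃ A, Null (OG G (orbg g)) A w

/-! ### E. Assembly -/

/-- STEP (uses T_OGR, T_OGA, T_ALLP, T_SMITH, T_ALT, T_CONN, T_BRI, T_BRN, T_ODD, T_TWO, MSF.T_H2N,
MSF.T_N2H). `orbg g` is an `AutRel`. T_ALLP, T_SMITH: exactness for the orbit complex, so it is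
connected, has alternating sum `0`, and edges with at least `4` vertices (no common neighbour, T_OGR)
are bridges (T_BRI). T_ODD or T_TWO, then T_BRN with `G₁ = ZG`: closed walks are null. -/
def T_STEP : Prop := ∀ {V : Type u} [Finite V] (G : SimpleGraph V) (ang : V → V → V → ℝ),
  GoodC G ang → ∀ g : Equiv.Perm V, IsAut G ang g → ∀ p : ℕ, p.Prime → g ^ p = 1 →
  GoodC (OG G (orbg g)) (OA G (orbg g) ang)

/-- SOLN (uses T_STEP, T_OGR, T_OGA, T_ITER, T_ISOG), see (4): induction on the order of `N`. `N` trivial: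
the orbit complex is isomorphic to `G`. Otherwise `N` has a normal subgroup `N'` of prime index `p`
(solvable), `a ∈ N`, `a ∉ N'`; `a` acts on `OV G (orbS N')` by images (`N'` is normalised by `a`), as an
automorphism for `OA` (T_OGR), and `a ^ p` acts trivially. T_STEP; T_ITER with `r' = orbS N'`,
`r = orbS N` (the relation of T_ITER is `orbg` of this automorphism); T_ISOG. `Angled` and
`CliqueFree 5` directly from T_OGA, T_OGR. -/
def T_SOLN : Prop := ∀ {V : Type u} [Finite V] (G : SimpleGraph V) (ang : V → V → V → ℝ),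
  GoodC G ang → ∀ (H : Type) [Group H] [Finite H] [MulAction H V],
  (∀ (h : H) (a b : V), G.Adj (h • a) (h • b) ↔ G.Adj a b) →
  (∀ (h : H) (v a b : V), G.Adj v a → G.Adj v b → G.Adj a b →
    ang (h • v) (h • a) (h • b) = ang v a b) →
  ∀ N : Subgroup H, Group.IsSolvable N → GoodC (OG G (orbS N)) (OA G (orbS N) ang)

/-- SMAIN (uses T_SOLN, T_ALT, MSO.T_KEYP, MSN.Fin.T_FIN, MSF.T_LARGE, MSF.T_TRIG): compare MSO/OLA. The
finite complex of T_FIN is good; T_SOLN for `N = ⊤`: the orbit complex is connected, so it has a vertex,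
an invariant clique; push it to `V` (`Fin.push`). -/
def T_SMAIN : Prop := ∀ {V : Type u} (G : SimpleGraph V) (len : V → V → ℝ),
  MetricallySystolic G len → NonObtuse G len → G.CliqueFree 5 →
  ∀ (H : Type) [Group H] [Finite H] [MulAction H V],
  (∀ (h : H) (a b : V), G.Adj (h • a) (h • b) ↔ G.Adj a b) →
  (∀ (h : H) (a b : V), G.Adj a b → len (h • a) (h • b) = len a b) → Group.IsSolvable H →
  ∃ s : Finset V, s.Nonempty ∧ G.IsClique s ∧ ∀ (h : H), ∀ x ∈ s, h • x ∈ s

end Pool.Agent.MSS
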